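import Pool.Agent.W_7d29a1_SP.DefsSP
import Pool.Agent.W_7d29a1_ehr.Ehrhard

/-!
Theorem NR: the nonrandom fluctuations are at most the random ones, up to `n ^ o(1)`.
Definitions and frozen statements of the leaves (helper11).
-/

namespace Pool.Agent.W_7d29a1_NR

open MeasureTheory ProbabilityTheory Filter Topology Pool.Agent.W_MP_7d29a1_pr
  Pool.Agent.W_7d29a1_h46 Pool.Agent.W_7d29a1_h46u Pool.Agent.W_7d29a1_D2.B35
  Pool.Agent.W_7d29a1_Q29 Pool.Agent.W_7d29a1_R34 Pool.Agent.W_7d29a1_SP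

/-- HALV (abstract): the halving lemma for convex functions of a Gaussian vector. -/
def HalvP : Prop := ∀ (ι Y : Type) [Fintype ι] (S : Finset Y) (w : Y → ℝ)
  (V : Y → (ι → ℝ) → ℝ) (J : ℕ) (c a T u₀ : ℝ), S.Nonempty → S.card ≤ 2 ^ J →
  (∀ y ∈ S, 0 < w y ∧ w y ≤ 1) → (∀ y ∈ S, ConvexOn ℝ Set.univ (V y)) →
  (∀ y ∈ S, Continuous (V y)) → 0 < c → c ≤ 1 → 0 ≤ a →
  (∀ y ∈ S, ∀ u : ℝ, u₀ < u → (Ehr.gpi ι).real {x | u ≤ V y x} < 1 / 2) →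
  1 / 2 ≤ (Ehr.gpi ι).real {x | T ≤ Real.log (∑ y ∈ S, w y * Real.exp (V y x))} →
  (Ehr.gpi ι).real {x | T + a < Real.log (∑ y ∈ S, w y * Real.exp (V y x))} <
    Ehr.Phi (-(2 + 2 / c)) →
  T ≤ u₀ + (a + 3) * (1 + c) ^ J / c

section Leaves

variable (d : ℕ) (ρ : Measure ℝ) (β : ℝ)

/-- the value of the future, seen from a law `w` of the starting point -/
noncomputable def gain (h : Vec d) (m : ℕ) (S : Finset (Site d)) (w : Site d → ℝ)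
    (η : Env d) : ℝ :=
  Real.log (∑ y ∈ S, w y * Real.exp (X β h (sh 0 y η) m - A ρ β h m))

/-- TRA: the halving lemma for the polymer, with a fixed law `w` of the starting point. -/
def TraP : Prop := ∀ (h : Vec d) (m : ℕ) (S : Finset (Site d)) (w : Site d → ℝ) (J : ℕ)
  (c a T u₀ : ℝ), S.Nonempty → S.card ≤ 2 ^ J → (∀ y ∈ S, 0 < w y ∧ w y ≤ 1) →
  0 < c → c ≤ 1 → 0 ≤ a →
  (∀ u : ℝ, u₀ < u → (law d ρ).real {η | A ρ β h m + u ≤ X β h η m} < 1 / 2) →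
  1 / 2 ≤ (law d ρ).real {η | T ≤ gain d ρ β h m S w η} →
  (law d ρ).real {η | T + a < gain d ρ β h m S w η} < Ehr.Phi (-(4 + 4 / c)) →
  T ≤ u₀ + (a + 3) * (1 + c) ^ J / c

/-- SPL: a past for which the gain is concentrated: `w` is the quenched law of `S_k`. -/
def SplP : Prop := ∀ (h : Vec d) (k m : ℕ), ∃ w : Site d → ℝ,
  (∀ y, 0 ≤ w y) ∧ (∀ y, w y ≤ 1) ∧ ∑ y ∈ boxF d k, w y = 1 ∧
  Integrable (gain d ρ β h m (boxF d k) w) (law d ρ) ∧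
  ∫ η, |gain d ρ β h m (boxF d k) w η - (A ρ β h (k + m) - A ρ β h k - A ρ β h m)| ∂(law d ρ) ≤
    Fn ρ β h (k + m) + Fn ρ β h k

/-- DEL: the gain of a concatenation is at most the random fluctuations, up to a subpolynomial
factor. -/
def DelP : Prop := ∃ C : ℝ, 1 ≤ C ∧ ∀ (h : Vec d) (k m : ℕ),
  A ρ β h (k + m) - A ρ β h k - A ρ β h m ≤
    C * (Fn ρ β h (k + m) + Fn ρ β h k + Fn ρ β h m + 1) *
      Real.exp (C * Real.log (k + 2) ^ (2 / 3 : ℝ))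

/-- LOCN: the nonrandom fluctuation at `k` against the random ones up to `k ^ 3`. -/
def LocN : Prop := ∀ h : Vec d, ∃ C : ℝ, 1 ≤ C ∧ ∀ (k : ℕ) (Φ : ℝ),
  (∀ n : ℕ, n ≤ k ^ 3 → Fn ρ β h n ≤ Φ) →
    En ρ β h k ≤ C * (Φ + 1) * Real.exp (C * Real.log (k + 2) ^ (2 / 3 : ℝ))

/-- EXPN: the exponents. -/
def ExpN : Prop := ∀ (h : Vec d) (x ε : ℝ), 0 ≤ x → 0 < ε →
  (∀ᶠ n : ℕ in atTop, Fn ρ β h n ≤ (n : ℝ) ^ x) →
    ∀ᶠ n : ℕ in atTop, En ρ β h n ≤ (n : ℝ) ^ (x + ε)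

/-- POLN: if random and nonrandom fluctuations together are polynomial, so are the random ones. -/
def PolN : Prop := ∀ (h : Vec d) (ε : ℝ), 0 < ε →
  (∀ᶠ n : ℕ in atTop, ∃ m : ℕ, m ≤ n ∧ (n : ℝ) ^ ε ≤ max (En ρ β h m) (Fn ρ β h m)) →
    ∃ θ : ℝ, 0 < θ ∧ ∀ᶠ n : ℕ in atTop, ∃ m : ℕ, m ≤ n ∧ (n : ℝ) ^ θ ≤ Fn ρ β h m

end Leaves

end Pool.Agent.W_7d29a1_NR
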