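import Pool.Agent.W_7d29a1_NR.TrU41
import Pool.Agent.W_7d29a1_NR.DefsR11

/-!
Theorem NR for every law: the amplification of the partial mixtures, from the amplification in
the class without moments (helper41).
-/

set_option autoImplicit false

namespace Pool.Agent.W_7d29a1_NR.HaN41

open MeasureTheory ProbabilityTheory Filter Topology Set Pool.Agent.W_MP_7d29a1_pr
  Pool.Agent.W_7d29a1_h46 Pool.Agent.W_7d29a1_h46u Pool.Agent.W_7d29a1_SP
  Pool.Agent.W_7d29a1_AM Pool.Agent.W_7d29a1_NR.L84 Pool.Agent.W_7d29a1_NR.TrU41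

/-- The amplification in the class, without moments, at one `D`, with its constant. -/
def AmpDN (ρ : Measure ℝ) (β D C : ℝ) : Prop := ∀ (N : ℕ) (V : (Fin N → ℝ) → ℝ)
  (p : Fin N → (Fin N → ℝ) → ℝ), Cls β V p → ∀ q s : ℝ, 0 < q → q ≤ 1 / 2 →
    C * (1 + Real.log (1 / q)) ≤ s → q ≤ (PN ρ N).real {y | V y ≤ Real.log 2} →
    q ≤ (PN ρ N).real {y | s ≤ V y} → q ^ C ≤ (PN ρ N).real {y | D * s ≤ V y}

/-- **The amplification for `LS`, without moments.** -/
theorem ampLSN41 {d m : ℕ} {S : Type*} [Fintype S] [Nonempty S] {ρ : Measure ℝ}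
    [IsProbabilityMeasure ρ] {β D C : ℝ}
    (hβ : 0 ≤ β) (hA : AmpDN ρ β D C) (c : S → ℝ) {q : S → Fin m → ℕ × Site d}
    (hq : ∀ s, Function.Injective (q s)) {r M b : ℝ} (hr : 0 < r) (hr2 : r ≤ 1 / 2)
    (hb : C * (1 + Real.log (1 / r)) ≤ b)
    (h0 : r ≤ (law d ρ).real {η | LS β c q η ≤ M})
    (h1 : r ≤ (law d ρ).real {η | M + b ≤ LS β c q η}) :
    r ^ C ≤ (law d ρ).real {η | D * b ≤ Real.log (1 + Real.exp (LS β c q η - M))} := by
  have hc : ∀ s, 0 ≤ (fun s => Real.exp (c s)) s := fun s => (Real.exp_pos _).le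
  have mV := (cls5 hβ hc (Aq q) M).meas
  have hV := V_prq (β := β) hq (c := c) (M := M)
  have hlaw : ∀ T : Set ℝ, MeasurableSet T → (PN ρ (Nq q)).real
      {y | C5.V β (fun s => Real.exp (c s)) (Aq q) M y ∈ T} =
      (law d ρ).real {η | Real.log (1 + Real.exp (LS β c q η - M)) ∈ T} := fun T hT => by
    have mS : MeasurableSet {y | C5.V β (fun s => Real.exp (c s)) (Aq q) M y ∈ T} := mV hT
    rw [← law_prq, map_measureReal_apply (meas_prq q) mS]
    congr 1
    ext η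
    show C5.V β (fun s => Real.exp (c s)) (Aq q) M (prq q η) ∈ T ↔
      Real.log (1 + Real.exp (LS β c q η - M)) ∈ T
    rw [hV]
  have e0 := hlaw (Iic (Real.log 2)) measurableSet_Iic
  have e1 := hlaw (Ici b) measurableSet_Ici
  have e2 := hlaw (Ici (D * b)) measurableSet_Ici
  simp only [mem_Iic, mem_Ici] at e0 e1 e2
  have key := hA (Nq q) (C5.V β (fun s => Real.exp (c s)) (Aq q) M)
    (C5.P β (fun s => Real.exp (c s)) (Aq q) M) (cls5 hβ hc (Aq q) M) r b hr hr2 hb ?_ ?_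
  · rwa [e2] at key
  · rw [e0]
    refine h0.trans (measureReal_mono fun η (hη : LS β c q η ≤ M) => ?_)
    show Real.log (1 + Real.exp (LS β c q η - M)) ≤ Real.log 2
    apply Real.log_le_log (by positivity)
    have : Real.exp (LS β c q η - M) ≤ 1 := Real.exp_le_one_iff.2 (by linarith)
    linarith
  · rw [e1]
    refine h1.trans (measureReal_mono fun η (hη : M + b ≤ LS β c q η) => ?_)
    show b ≤ Real.log (1 + Real.exp (LS β c q η - M))
    rw [Real.le_log_iff_exp_le (by positivity)]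
    have : Real.exp b ≤ Real.exp (LS β c q η - M) := Real.exp_le_exp.2 (by linarith)
    linarith

lemma log_le41 (x : ℝ) : Real.log (1 + Real.exp x) ≤ Real.log 2 + max x 0 := by
  have h1 : (1 : ℝ) + Real.exp x ≤ 2 * Real.exp (max x 0) := by
    have h2 : (1 : ℝ) ≤ Real.exp (max x 0) := Real.one_le_exp (le_max_right _ _)
    have h3 : Real.exp x ≤ Real.exp (max x 0) := Real.exp_le_exp.2 (le_max_left _ _)
    linarith
  have h4 := Real.log_le_log (by positivity) h1
  rwa [Real.log_mul (by norm_num) (Real.exp_pos _).ne', Real.log_exp] at h4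

lemma gain_WD {d : ℕ} (ρ : Measure ℝ) (β : ℝ) (h : Vec d) (m : ℕ)
    {D : Finset (Site d)} (hD : D.Nonempty) {μ : Site d → ℝ} (hμ : ∀ y ∈ D, 0 < μ y) (η : Env d) :
    gain d ρ β h m D μ η = WD β h 0 m D μ η - A ρ β h m := by
  unfold gain WD
  have h1 : ∑ y ∈ D, μ y * Real.exp (X β h (sh 0 y η) m - A ρ β h m) =
      Real.exp (-(A ρ β h m)) * ∑ y ∈ D, μ y * Real.exp (X β h (sh 0 y η) m) := by
    rw [Finset.mul_sum]
    refine Finset.sum_congr rfl fun y _ => ?_
    rw [sub_eq_add_neg, Real.exp_add]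
    ring
  have h2 : 0 < ∑ y ∈ D, μ y * Real.exp (X β h (sh 0 y η) m) :=
    Finset.sum_pos (fun y hy => mul_pos (hμ y hy) (Real.exp_pos _)) hD
  rw [h1, Real.log_mul (Real.exp_pos _).ne' h2.ne', Real.log_exp]
  ring

/-- **The amplification of the partial mixtures**, every law, no moment. -/
theorem ampG41 {d : ℕ} (hd : 0 < d) {ρ : Measure ℝ} [IsProbabilityMeasure ρ] {β : ℝ}
    (hβ : 0 ≤ β) {D₁ C c : ℝ} (hC : 1 ≤ C) (hA : AmpDN ρ β D₁ C) (hD₁ : D₁ = 2 + 1 / c)
    (hc : 0 < c) (h : Vec d) (m : ℕ) {D : Finset (Site d)} (hD : D.Nonempty)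
    {μ : Site d → ℝ} (hμ : ∀ y ∈ D, 0 < μ y) {r L M b : ℝ} (hr : 0 < r) (hr2 : r ≤ 1 / 2)
    (hb : C * (1 + Real.log (1 / r)) ≤ b) (hL : c * (L - (M + b)) ≤ b)
    (h0 : r ≤ (law d ρ).real {η | gain d ρ β h m D μ η ≤ M})
    (h1 : r ≤ (law d ρ).real {η | M + b ≤ gain d ρ β h m D μ η}) :
    r ^ C ≤ (law d ρ).real {η | L ≤ gain d ρ β h m D μ η} := by
  have : Nonempty (Fin m → Step d) := ⟨fun _ => (⟨⟨0, hd⟩, true⟩ : Step d)⟩
  have : Nonempty {y // y ∈ D} := hD.to_subtype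
  have hg : ∀ η, gain d ρ β h m D μ η = LS β (cW h m D μ) (qW 0 m D) η - A ρ β h m := fun η => by
    rw [gain_WD ρ β h m hD hμ, wd84 hd β h 0 m D μ hμ]
  have hlr : 0 ≤ Real.log (1 / r) := Real.log_nonneg (by rw [le_div_iff₀ hr]; linarith)
  have hb1 : 1 ≤ b := by nlinarith
  have key := ampLSN41 (d := d) (m := m) hβ hA (cW h m D μ) (q := qW 0 m D) (qW_inj 0 m D)
    (r := r) (M := M + A ρ β h m) (b := b) hr hr2 hb ?_ ?_
  · refine key.trans (measureReal_mono fun η hη => ?_)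
    have hη' : D₁ * b ≤ Real.log (1 + Real.exp
      (LS β (cW h m D μ) (qW 0 m D) η - (M + A ρ β h m))) := hη
    show L ≤ gain d ρ β h m D μ η
    rw [hg]
    have k1 := log_le41 (LS β (cW h m D μ) (qW 0 m D) η - (M + A ρ β h m))
    have k2 : Real.log 2 < 1 := by
      have := Real.log_two_lt_d9
      linarith
    have k3 : D₁ * b = 2 * b + b / c := by rw [hD₁]; ring
    have k4 : L - (M + b) ≤ b / c := by
      rw [le_div_iff₀ hc]
      linarith
    have k5 : 0 ≤ b / c := by positivity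
    rw [k3] at hη'
    rcases le_total (LS β (cW h m D μ) (qW 0 m D) η - (M + A ρ β h m)) 0 with k6 | k6
    · rw [max_eq_right k6] at k1
      linarith
    · rw [max_eq_left k6] at k1
      linarith
  · refine h0.trans (measureReal_mono fun η hη => ?_)
    have hη' : gain d ρ β h m D μ η ≤ M := hη
    rw [hg] at hη'
    show LS β (cW h m D μ) (qW 0 m D) η ≤ M + A ρ β h m
    linarith
  · refine h1.trans (measureReal_mono fun η hη => ?_)
    have hη' : M + b ≤ gain d ρ β h m D μ η := hη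
    rw [hg] at hη'
    show M + A ρ β h m + b ≤ LS β (cW h m D μ) (qW 0 m D) η
    linarith

end Pool.Agent.W_7d29a1_NR.HaN41
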