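import Mathlib

/-!
Theorem NR, the halving lemma, abstract form: a mixture of many variables with nearly the same law
is not larger than each of them, if it is concentrated and the partial mixtures are amplified.
-/

namespace Pool.Agent.W_7d29a1_NR

open MeasureTheory ProbabilityTheory Filter Topology Set

variable {Ω : Type*} [MeasurableSpace Ω]

/-- A median. -/
lemma median45 (P : Measure Ω) [IsProbabilityMeasure P] {Y : Ω → ℝ} (hY : Measurable Y) :
    ∃ M : ℝ, 1 / 2 ≤ P.real {ω | Y ω ≤ M} ∧ 1 / 2 ≤ P.real {ω | M ≤ Y ω} := by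
  have hP : IsProbabilityMeasure (P.map Y) := Measure.isProbabilityMeasure_map hY.aemeasurable
  have hF : ∀ s, cdf (P.map Y) s = P.real {ω | Y ω ≤ s} := by
    intro s
    rw [cdf_eq_real, map_measureReal_apply hY measurableSet_Iic]
    rfl
  have hmono : Monotone (cdf (P.map Y)) := monotone_cdf _
  obtain ⟨S, hS⟩ : ∃ S : Set ℝ, S = {s | 1 / 2 ≤ cdf (P.map Y) s} := ⟨_, rfl⟩
  have hne : S.Nonempty := by
    obtain ⟨s, hs⟩ := ((tendsto_cdf_atTop (P.map Y)).eventually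
      (lt_mem_nhds (show (1 / 2 : ℝ) < 1 by norm_num))).exists
    exact ⟨s, by rw [hS]; exact hs.le⟩
  obtain ⟨s₀, h0⟩ := ((tendsto_cdf_atBot (P.map Y)).eventually
      (gt_mem_nhds (show (0 : ℝ) < 1 / 2 by norm_num))).exists
  have hbd : ∀ s ∈ S, s₀ ≤ s := by
    intro s hs
    rw [hS] at hs
    by_contra hcon
    push Not at hcon
    have h1 := hmono hcon.le
    have h2 : (1 / 2 : ℝ) ≤ cdf (P.map Y) s := hs
    linarith
  have hbdd : BddBelow S := ⟨s₀, hbd⟩
  have hM : 1 / 2 ≤ cdf (P.map Y) (sInf S) := by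
    have h1 : Tendsto (cdf (P.map Y)) (𝓝[>] (sInf S)) (𝓝 (cdf (P.map Y) (sInf S))) :=
      ((cdf (P.map Y)).right_continuous (sInf S)).mono Ioi_subset_Ici_self
    refine ge_of_tendsto h1 ?_
    filter_upwards [self_mem_nhdsWithin] with s hs
    obtain ⟨s', hs', hlt⟩ := (csInf_lt_iff hbdd hne).1 hs
    rw [hS] at hs'
    have h2 : (1 / 2 : ℝ) ≤ cdf (P.map Y) s' := hs'
    exact h2.trans (hmono hlt.le)
  refine ⟨sInf S, by rw [← hF]; exact hM, ?_⟩
  have h3 : ∀ s, s < sInf S → P.real {ω | Y ω ≤ s} < 1 / 2 := by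
    intro s hs
    by_contra hcon
    push Not at hcon
    have : s ∈ S := by
      rw [hS]
      show 1 / 2 ≤ cdf (P.map Y) s
      rw [hF]
      exact hcon
    exact absurd (csInf_le hbdd this) (not_le.2 hs)
  have h4 : P {ω | Y ω < sInf S} ≤ ENNReal.ofReal (1 / 2) := by
    have h5 : {ω | Y ω < sInf S} = ⋃ n : ℕ, {ω | Y ω ≤ sInf S - 1 / ((n : ℝ) + 1)} := by
      ext ω
      simp only [mem_setOf_eq, mem_iUnion]
      constructor
      · intro h
        obtain ⟨n, hn⟩ := exists_nat_one_div_lt (sub_pos.2 h)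
        exact ⟨n, by linarith⟩
      · rintro ⟨n, hn⟩
        have : 0 < 1 / ((n : ℝ) + 1) := by positivity
        linarith
    have h6 : Monotone fun n : ℕ => {ω | Y ω ≤ sInf S - 1 / ((n : ℝ) + 1)} := by
      intro a b hab ω hω
      have h7 : 1 / ((b : ℝ) + 1) ≤ 1 / ((a : ℝ) + 1) := by
        have : (a : ℝ) ≤ b := by exact_mod_cast hab
        exact one_div_le_one_div_of_le (by positivity) (by linarith)
      show Y ω ≤ _
      have h8 : Y ω ≤ sInf S - 1 / ((a : ℝ) + 1) := hω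
      linarith
    rw [h5, h6.measure_iUnion]
    refine iSup_le fun n => ?_
    rw [← ofReal_measureReal (measure_ne_top _ _)]
    refine ENNReal.ofReal_le_ofReal (h3 _ ?_).le
    have : 0 < 1 / ((n : ℝ) + 1) := by positivity
    linarith
  have h9 : P.real {ω | Y ω < sInf S} ≤ 1 / 2 := by
    have := ENNReal.toReal_mono ENNReal.ofReal_ne_top h4
    rwa [ENNReal.toReal_ofReal (by norm_num)] at this
  have h10 : P.real {ω | sInf S ≤ Y ω} = 1 - P.real {ω | Y ω < sInf S} := by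
    rw [← probReal_compl_eq_one_sub (measurableSet_lt hY measurable_const)]
    congr 1
    ext ω
    simp
  rw [h10]
  linarith

section Halv

variable {ι : Type*} [DecidableEq ι]

/-- The logarithm of the partial mixture. -/
noncomputable def WD45 (μ : ι → ℝ) (V : ι → Ω → ℝ) (D : Finset ι) (ω : Ω) : ℝ :=
  Real.log (∑ y ∈ D, μ y * Real.exp (V y ω))

omit [DecidableEq ι] in
lemma wd_meas45 {μ : ι → ℝ} {V : ι → Ω → ℝ} {D : Finset ι} (hV : ∀ y ∈ D, Measurable (V y)) :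
    Measurable (WD45 μ V D) :=
  Real.measurable_log.comp (Finset.measurable_sum _ fun y hy =>
    measurable_const.mul (Real.measurable_exp.comp (hV y hy)))

omit [DecidableEq ι] in
lemma wd_pos45 {μ : ι → ℝ} {V : ι → Ω → ℝ} {D : Finset ι} (hμ : ∀ y ∈ D, 0 < μ y)
    (hD : D.Nonempty) (ω : Ω) : 0 < ∑ y ∈ D, μ y * Real.exp (V y ω) :=
  Finset.sum_pos (fun y hy => mul_pos (hμ y hy) (Real.exp_pos _)) hD

omit [DecidableEq ι] in
lemma wd_mono45 {μ : ι → ℝ} {V : ι → Ω → ℝ} {D D' : Finset ι} (hμ : ∀ y ∈ D', 0 < μ y)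
    (hD : D.Nonempty) (hs : D ⊆ D') (ω : Ω) : WD45 μ V D ω ≤ WD45 μ V D' ω :=
  Real.log_le_log (wd_pos45 (fun y hy => hμ y (hs hy)) hD ω)
    (Finset.sum_le_sum_of_subset_of_nonneg hs fun y hy _ =>
      (mul_pos (hμ y hy) (Real.exp_pos _)).le)

/-- One of the halves is almost as large. -/
lemma wd_split45 {μ : ι → ℝ} {V : ι → Ω → ℝ} {D₁ D₂ : Finset ι} (hμ : ∀ y ∈ D₁ ∪ D₂, 0 < μ y)
    (h1 : D₁.Nonempty) (h2 : D₂.Nonempty) (hd : Disjoint D₁ D₂) (ω : Ω) :
    WD45 μ V (D₁ ∪ D₂) ω - 1 ≤ max (WD45 μ V D₁ ω) (WD45 μ V D₂ ω) := by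
  have p1 := wd_pos45 (V := V) (fun y hy => hμ y (Finset.mem_union_left _ hy)) h1 ω
  have p2 := wd_pos45 (V := V) (fun y hy => hμ y (Finset.mem_union_right _ hy)) h2 ω
  unfold WD45
  rw [Finset.sum_union hd]
  set a := ∑ y ∈ D₁, μ y * Real.exp (V y ω)
  set b := ∑ y ∈ D₂, μ y * Real.exp (V y ω)
  have hl2 : Real.log 2 ≤ 1 := by
    have := Real.log_two_lt_d9
    linarith
  rcases le_total a b with h | h
  · have h3 : Real.log (a + b) ≤ Real.log (2 * b) := Real.log_le_log (by linarith) (by linarith)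
    rw [Real.log_mul (by norm_num) p2.ne'] at h3
    exact le_max_of_le_right (by linarith)
  · have h3 : Real.log (a + b) ≤ Real.log (2 * a) := Real.log_le_log (by linarith) (by linarith)
    rw [Real.log_mul (by norm_num) p1.ne'] at h3
    exact le_max_of_le_left (by linarith)

/-- **The halving lemma.** -/
theorem halvA45 (P : Measure Ω) [IsProbabilityMeasure P] {μ : ι → ℝ} {V : ι → Ω → ℝ}
    {S : Finset ι} (hμ : ∀ y ∈ S, 0 < μ y) (hμ1 : ∀ y ∈ S, μ y ≤ 1)
    (hV : ∀ y ∈ S, Measurable (V y)) {T a c κ b₀ u₀ : ℝ} (hc : 0 < c) (hc1 : c ≤ 1) (ha : 0 ≤ a)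
    (hb₀ : 0 ≤ b₀) (hu : ∀ y ∈ S, ∀ u : ℝ, u₀ < u → P.real {ω | u ≤ V y ω} < 1 / 2)
    (hA : ∀ D ⊆ S, D.Nonempty → ∀ M b : ℝ, 0 < b → b₀ ≤ b → c * (T + a - (M + b)) ≤ b →
      M + b ≤ T → 1 / 2 ≤ P.real {ω | WD45 μ V D ω ≤ M} →
      1 / 2 ≤ P.real {ω | M ≤ WD45 μ V D ω} → 1 / 4 ≤ P.real {ω | M + b ≤ WD45 μ V D ω} →
      κ ≤ P.real {ω | T + a ≤ WD45 μ V D ω})
    (hG : P.real {ω | T + a ≤ WD45 μ V S ω} < κ) :
    ∀ (J : ℕ) (D : Finset ι), D ⊆ S → D.Nonempty → D.card ≤ 2 ^ J → ∀ t : ℝ, t ≤ T →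
      1 / 2 ≤ P.real {ω | t ≤ WD45 μ V D ω} →
      T - u₀ ≤ (T - t + (a + b₀ + 2) / c) * (1 + c) ^ J - (a + b₀ + 2) / c := by
  have hr : 0 < (a + b₀ + 2) / c := by positivity
  have hpow : ∀ J : ℕ, (1 : ℝ) ≤ (1 + c) ^ J := fun J => one_le_pow₀ (by linarith)
  intro J
  induction J with
  | zero =>
    intro D hDS hD hcard t ht hP
    rw [pow_zero] at hcard
    obtain ⟨y, rfl⟩ := Finset.card_eq_one.1 (le_antisymm hcard hD.card_pos)
    have hy : y ∈ S := hDS (Finset.mem_singleton_self y)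
    have h1 : t ≤ u₀ := by
      by_contra hcon
      push Not at hcon
      have h2 := hu y hy t hcon
      have h3 : P.real {ω | t ≤ WD45 μ V {y} ω} ≤ P.real {ω | t ≤ V y ω} := by
        refine measureReal_mono fun ω hω => ?_
        have h4 : t ≤ WD45 μ V {y} ω := hω
        unfold WD45 at h4
        rw [Finset.sum_singleton, Real.log_mul (hμ y hy).ne' (Real.exp_pos _).ne',
          Real.log_exp] at h4
        have h5 := Real.log_nonpos (hμ y hy).le (hμ1 y hy)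
        show t ≤ V y ω
        linarith
      linarith
    rw [pow_zero, mul_one]
    linarith
  | succ J ih =>
    intro D hDS hD hcard t ht hP
    by_cases hsmall : D.card ≤ 2 ^ J
    · refine (ih D hDS hD hsmall t ht hP).trans ?_
      have h1 : (1 + c) ^ J ≤ (1 + c) ^ (J + 1) := pow_le_pow_right₀ (by linarith) (Nat.le_succ J)
      have h2 : 0 ≤ T - t + (a + b₀ + 2) / c := by linarith
      have := mul_le_mul_of_nonneg_left h1 h2
      linarith
    push Not at hsmall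
    obtain ⟨D₁, hD1, hc1'⟩ := Finset.exists_subset_card_eq hsmall.le
    have hne1 : D₁.Nonempty := by
      rw [← Finset.card_pos, hc1']
      positivity
    have hc2' : (D \ D₁).card ≤ 2 ^ J := by
      rw [Finset.card_sdiff_of_subset hD1, hc1']
      rw [pow_succ] at hcard
      omega
    have hne2 : (D \ D₁).Nonempty := by
      rw [← Finset.card_pos, Finset.card_sdiff_of_subset hD1, hc1']
      omega
    have hun : D₁ ∪ D \ D₁ = D := Finset.union_sdiff_of_subset hD1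
    have hspl : ∀ ω, WD45 μ V D ω - 1 ≤ max (WD45 μ V D₁ ω) (WD45 μ V (D \ D₁) ω) := by
      intro ω
      have h1 := wd_split45 (μ := μ) (V := V) (D₁ := D₁) (D₂ := D \ D₁)
        (fun y hy => hμ y (hDS (by rw [hun] at hy; exact hy))) hne1 hne2
        Finset.disjoint_sdiff ω
      rwa [hun] at h1
    -- one half
    have hhalf : ∃ D' : Finset ι, D' ⊆ S ∧ D'.Nonempty ∧ D'.card ≤ 2 ^ J ∧
        1 / 4 ≤ P.real {ω | t - 1 ≤ WD45 μ V D' ω} := by
      have h1 : P.real {ω | t ≤ WD45 μ V D ω} ≤ P.real {ω | t - 1 ≤ WD45 μ V D₁ ω} +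
          P.real {ω | t - 1 ≤ WD45 μ V (D \ D₁) ω} := by
        refine (measureReal_mono ?_).trans (measureReal_union_le _ _)
        intro ω hω
        have h2 : t ≤ WD45 μ V D ω := hω
        have h3 := hspl ω
        rcases le_total (WD45 μ V D₁ ω) (WD45 μ V (D \ D₁) ω) with h | h
        · rw [max_eq_right h] at h3
          exact Or.inr (show t - 1 ≤ _ by linarith)
        · rw [max_eq_left h] at h3
          exact Or.inl (show t - 1 ≤ _ by linarith)
      by_cases h4 : 1 / 4 ≤ P.real {ω | t - 1 ≤ WD45 μ V D₁ ω}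
      · exact ⟨D₁, hD1.trans hDS, hne1, hc1'.le, h4⟩
      · push Not at h4
        exact ⟨D \ D₁, Finset.sdiff_subset.trans hDS, hne2, hc2', by linarith⟩
    obtain ⟨D', hD'S, hD'n, hD'c, hD'q⟩ := hhalf
    obtain ⟨M, hM1, hM2⟩ := median45 P (wd_meas45 (μ := μ) (V := V) (D := D')
      fun y hy => hV y (hD'S hy))
    have hnext : ∃ t' : ℝ, t' ≤ T ∧ 1 / 2 ≤ P.real {ω | t' ≤ WD45 μ V D' ω} ∧
        T - t' ≤ (1 + c) * (T - t) + (a + b₀ + 2) := by
      rcases le_or_gt (t - 1) M with h1 | h1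
      · refine ⟨t - 1, by linarith, hM2.trans (measureReal_mono fun ω hω => h1.trans hω), ?_⟩
        have : 0 ≤ c * (T - t) := mul_nonneg hc.le (by linarith)
        linarith
      · refine ⟨M, by linarith, hM2, ?_⟩
        obtain ⟨b, hb⟩ : ∃ b : ℝ, b = t - 1 - M := ⟨_, rfl⟩
        have hbp : 0 < b := by rw [hb]; linarith
        have hMb : M + b = t - 1 := by rw [hb]; ring
        have hc3 : c * (T + a - (t - 1)) ≤ c * (T - t) + a + 1 := by
          have : c * (a + 1) ≤ 1 * (a + 1) := mul_le_mul_of_nonneg_right hc1 (by linarith)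
          nlinarith
        by_cases h2 : b₀ ≤ b ∧ c * (T + a - (M + b)) ≤ b
        · exfalso
          have h3 := hA D' hD'S hD'n M b hbp h2.1 h2.2 (by rw [hMb]; linarith) hM1 hM2
            (by rw [hMb]; exact hD'q)
          have h4 : P.real {ω | T + a ≤ WD45 μ V D' ω} ≤ P.real {ω | T + a ≤ WD45 μ V S ω} :=
            measureReal_mono fun ω hω =>
              le_trans (show T + a ≤ WD45 μ V D' ω from hω) (wd_mono45 hμ hD'n hD'S ω)
          linarith
        · have h5 : b < b₀ ∨ b < c * (T + a - (M + b)) := by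
            by_contra hcon
            push Not at hcon
            exact h2 hcon
          have h6 : 0 ≤ c * (T - t) := mul_nonneg hc.le (by linarith)
          rcases h5 with h5 | h5
          · linarith
          · rw [hMb] at h5
            linarith
    obtain ⟨t', ht'T, ht'P, ht's⟩ := hnext
    refine (ih D' hD'S hD'n hD'c t' ht'T ht'P).trans ?_
    have h7 : T - t' + (a + b₀ + 2) / c ≤ (T - t + (a + b₀ + 2) / c) * (1 + c) := by
      have h8 : (a + b₀ + 2) / c * c = a + b₀ + 2 := by field_simp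
      nlinarith
    have h9 := mul_le_mul_of_nonneg_right h7 (by positivity : (0 : ℝ) ≤ (1 + c) ^ J)
    have h10 : (T - t + (a + b₀ + 2) / c) * (1 + c) * (1 + c) ^ J =
        (T - t + (a + b₀ + 2) / c) * (1 + c) ^ (J + 1) := by
      rw [pow_succ]
      ring
    linarith

/-- **The halving lemma**, for the whole set. -/
theorem halvB45 (P : Measure Ω) [IsProbabilityMeasure P] {μ : ι → ℝ} {V : ι → Ω → ℝ}
    {S : Finset ι} (hS : S.Nonempty) (hμ : ∀ y ∈ S, 0 < μ y) (hμ1 : ∀ y ∈ S, μ y ≤ 1)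
    (hV : ∀ y ∈ S, Measurable (V y)) {T a c κ b₀ u₀ : ℝ} (hc : 0 < c) (hc1 : c ≤ 1) (ha : 0 ≤ a)
    (hb₀ : 0 ≤ b₀) (hu : ∀ y ∈ S, ∀ u : ℝ, u₀ < u → P.real {ω | u ≤ V y ω} < 1 / 2)
    (hA : ∀ D ⊆ S, D.Nonempty → ∀ M b : ℝ, 0 < b → b₀ ≤ b → c * (T + a - (M + b)) ≤ b →
      M + b ≤ T → 1 / 2 ≤ P.real {ω | WD45 μ V D ω ≤ M} →
      1 / 2 ≤ P.real {ω | M ≤ WD45 μ V D ω} → 1 / 4 ≤ P.real {ω | M + b ≤ WD45 μ V D ω} →
      κ ≤ P.real {ω | T + a ≤ WD45 μ V D ω})
    (hG : P.real {ω | T + a ≤ WD45 μ V S ω} < κ) (hT : 1 / 2 ≤ P.real {ω | T ≤ WD45 μ V S ω})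
    {J : ℕ} (hJ : S.card ≤ 2 ^ J) : T ≤ u₀ + (a + b₀ + 2) / c * (1 + c) ^ J := by
  have h1 := halvA45 P hμ hμ1 hV hc hc1 ha hb₀ hu hA hG J S (Finset.Subset.refl S) hS hJ T le_rfl hT
  have hr : 0 < (a + b₀ + 2) / c := by positivity
  rw [sub_self, zero_add] at h1
  linarith

end Halv

end Pool.Agent.W_7d29a1_NR
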