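import Pool.Agent.W_7d29a1_NR.DefsR11

/-!
Theorem NR for every law with exponential moments: the literals.
-/

namespace Pool.Agent.W_7d29a1_NR

open MeasureTheory ProbabilityTheory Filter Topology Pool.Agent.W_MP_7d29a1_pr
  Pool.Agent.W_7d29a1_h46 Pool.Agent.W_7d29a1_h46u Pool.Agent.W_7d29a1_D2.B35
  Pool.Agent.W_7d29a1_Q29 Pool.Agent.W_7d29a1_R34 Pool.Agent.W_7d29a1_SP

/-- The standard deviation of the free energy. -/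
noncomputable def Sg {d : ℕ} (ρ : Measure ℝ) (β : ℝ) (h : Vec d) (n : ℕ) : ℝ :=
  Real.sqrt (Va ρ β h n)

section Leaves

variable (d : ℕ) (ρ : Measure ℝ) (β : ℝ)

/-- AMPW: the amplification of the partial mixtures. -/
def AmpW : Prop := ∃ C p : ℝ, 1 ≤ C ∧ 0 < p ∧ ∀ (h : Vec d) (m : ℕ) (S : Finset (Site d))
  (μ : Site d → ℝ), S.Nonempty → (∀ y ∈ S, 0 < μ y) → (∀ y ∈ S, μ y ≤ 1) →
  ∀ δ B c T a M b : ℝ, 1 ≤ B → 0 < c → c ≤ 1 → 0 ≤ a →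
  Integrable (fun ξ => (gain d ρ β h m S μ ξ - δ) ^ 2) (law d ρ) →
  ∫ ξ, (gain d ρ β h m S μ ξ - δ) ^ 2 ∂(law d ρ) ≤ B ^ 2 → δ ≤ T + 2 * B → δ + B ≤ T + a →
  ∀ D ⊆ S, D.Nonempty → 0 < b → C * c ^ (-p) ≤ b → c * (T + a - (M + b)) ≤ b → M + b ≤ T →
    1 / 2 ≤ (law d ρ).real {ξ | gain d ρ β h m D μ ξ ≤ M} →
    1 / 2 ≤ (law d ρ).real {ξ | M ≤ gain d ρ β h m D μ ξ} →
    1 / 4 ≤ (law d ρ).real {ξ | M + b ≤ gain d ρ β h m D μ ξ} →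
    Real.exp (-(C * c ^ (-p))) ≤ (law d ρ).real {ξ | T + a ≤ gain d ρ β h m D μ ξ}

/-- The gain of a concatenation is at most the standard deviations, up to a subpolynomial factor. -/
def NrS : Prop := ∃ C θ : ℝ, 1 ≤ C ∧ 0 < θ ∧ θ < 1 ∧ ∀ (h : Vec d) (k m : ℕ),
  A ρ β h (k + m) - A ρ β h k - A ρ β h m ≤
    C * Real.exp (C * Real.log (k + 2) ^ θ) * (Sg ρ β h (k + m) + Sg ρ β h k + Sg ρ β h m + 1)

end Leaves

end Pool.Agent.W_7d29a1_NR
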