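import Pool.Agent.W_7d29a1_NR.AmpW86
import Pool.Agent.W_7d29a1_NR.DefsU45
import Pool.Agent.W_7d29a1_AM.AmpNU5

/-!
Theorem NR for every law: the leaf AMPW (amplification of the partial mixtures), from the
amplification in the class without a moment.
-/

set_option autoImplicit false

namespace Pool.Agent.W_7d29a1_NR

open MeasureTheory ProbabilityTheory Filter Topology Set Pool.Agent.W_MP_7d29a1_pr
  Pool.Agent.W_7d29a1_h46 Pool.Agent.W_7d29a1_h46u

namespace L86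

/-- The amplification in the class at one factor, without a moment. -/
def AmpD86 (ρ : Measure ℝ) (β C D : ℝ) : Prop := ∀ (N : ℕ) (V : (Fin N → ℝ) → ℝ)
  (p : Fin N → (Fin N → ℝ) → ℝ), W_7d29a1_AM.Cls β V p → ∀ q s : ℝ, 0 < q →
    q ≤ 1 / 2 → C * (1 + Real.log (1 / q)) ≤ s →
    q ≤ (W_7d29a1_AM.PN ρ N).real {y | V y ≤ Real.log 2} →
    q ≤ (W_7d29a1_AM.PN ρ N).real {y | s ≤ V y} →
    q ^ C ≤ (W_7d29a1_AM.PN ρ N).real {y | D * s ≤ V y}

/-- The iterated amplification in the class. -/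
lemma iterN86 {ρ : Measure ℝ} [IsProbabilityMeasure ρ] {β C D : ℝ} (hC1 : 1 ≤ C) (hD : 1 ≤ D)
    (hC : AmpD86 ρ β C D)
    {N : ℕ} {V : (Fin N → ℝ) → ℝ} {p : Fin N → (Fin N → ℝ) → ℝ} (hV : W_7d29a1_AM.Cls β V p)
    {q s : ℝ} (hq : 0 < q) (hq2 : q ≤ 1 / 2)
    (h0 : 1 / 2 ≤ (W_7d29a1_AM.PN ρ N).real {y | V y ≤ Real.log 2})
    (h1 : q ≤ (W_7d29a1_AM.PN ρ N).real {y | s ≤ V y}) (i : ℕ)
    (hs : C * (1 + C ^ i * Real.log (1 / q)) ≤ s) :
    q ^ (C ^ i : ℝ) ≤ (W_7d29a1_AM.PN ρ N).real {y | D ^ i * s ≤ V y} := by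
  have hlq : 0 ≤ Real.log (1 / q) := Real.log_nonneg (by rw [le_div_iff₀ hq]; linarith)
  have hC0 : 0 < C := by linarith
  induction i with
  | zero => simpa using h1
  | succ i ih =>
    have hCi : C ^ i ≤ C ^ (i + 1) := pow_le_pow_right₀ hC1 (Nat.le_succ i)
    have hCi1 : 1 ≤ C ^ i := one_le_pow₀ hC1
    have hs1 : C * (1 + C ^ i * Real.log (1 / q)) ≤ s := by
      refine le_trans (mul_le_mul_of_nonneg_left ?_ hC0.le) hs
      have := mul_le_mul_of_nonneg_right hCi hlq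
      linarith
    have hs0 : 0 < s := by
      refine lt_of_lt_of_le ?_ hs1
      have := mul_nonneg (pow_pos hC0 i).le hlq
      positivity
    have h2 := ih hs1
    set q' : ℝ := q ^ (C ^ i : ℝ) with hq'
    have hq'0 : 0 < q' := Real.rpow_pos_of_pos hq _
    have hq'1 : q' ≤ q := by
      calc q' ≤ q ^ (1 : ℝ) := Real.rpow_le_rpow_of_exponent_ge hq (by linarith) hCi1
        _ = q := Real.rpow_one q
    have hDi : 1 ≤ D ^ i := one_le_pow₀ hD
    have hsD : s ≤ D ^ i * s := le_mul_of_one_le_left hs0.le hDi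
    have hlog : Real.log (1 / q') = C ^ i * Real.log (1 / q) := by
      rw [hq', one_div, one_div, Real.log_inv, Real.log_inv, Real.log_rpow hq]
      ring
    have h3 := hC N V p hV q' (D ^ i * s) hq'0 (by linarith)
      (by rw [hlog]; exact hs1.trans hsD) (by linarith) h2
    have e1 : q ^ (C ^ (i + 1) : ℝ) = q' ^ C := by
      rw [hq', ← Real.rpow_mul hq.le, pow_succ]
    have e2 : D ^ (i + 1) * s = D * (D ^ i * s) := by ring
    rw [e1, e2]
    exact h3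

variable {d : ℕ}

/-- **Amplification for the logarithm of a finite weighted sum**, every law, no moment. -/
theorem ampZN86 {ρ : Measure ℝ} [IsProbabilityMeasure ρ] {β : ℝ} (hβ : 0 ≤ β) {C D : ℝ}
    (hC1 : 1 ≤ C) (hD : 1 ≤ D) (hC : AmpD86 ρ β C D)
    {κ : Type*} [Fintype κ] {c : κ → ℝ} (hc : ∀ k, 0 ≤ c k)
    (B : κ → Finset (ℕ × Pool.Agent.W_MP_7d29a1_pr.Site d)) {W : Env d → ℝ}
    (hW : ∀ η, Real.exp (W η) = ZS β c B η) {M b L q : ℝ} {i : ℕ} (hq : 0 < q) (hq2 : q ≤ 1 / 4)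
    (hb : C * (1 + C ^ i * Real.log (1 / q)) ≤ b) (hL : L - M + 1 ≤ D ^ i * b)
    (h0 : 1 / 2 ≤ (law d ρ).real {η | W η ≤ M})
    (h1 : 1 / 4 ≤ (law d ρ).real {η | M + b ≤ W η}) :
    q ^ (C ^ i : ℝ) ≤ (law d ρ).real {η | L ≤ W η} := by
  classical
  set I : Finset (ℕ × Pool.Agent.W_MP_7d29a1_pr.Site d) := Finset.univ.biUnion B with hI
  have hBI : ∀ k, B k ⊆ I := fun k => Finset.subset_biUnion_of_mem B (Finset.mem_univ k)
  set V := W_7d29a1_AM.C5.V β c (fun k => AtI I (B k)) M with hVd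
  have hV : ∀ η : Env d, V (prI I η) = Real.log (1 + Real.exp (W η - M)) := by
    intro η
    rw [hVd]
    unfold W_7d29a1_AM.C5.V W_7d29a1_AM.C5.Dn
    rw [Z_prI β c B hBI, ← hW, sub_eq_add_neg, Real.exp_add]
  have hcls := W_7d29a1_AM.cls5 hβ hc (fun k => AtI I (B k)) M
  have mV : Measurable V := hcls.meas
  have hlaw : ∀ T : Set ℝ, MeasurableSet T →
      (W_7d29a1_AM.PN ρ (Fintype.card I)).real {y | V y ∈ T} =
      (law d ρ).real {η | Real.log (1 + Real.exp (W η - M)) ∈ T} := fun T hT => by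
    have mS : MeasurableSet {y | V y ∈ T} := mV hT
    rw [← law_prI, map_measureReal_apply (meas_prI I) mS]
    congr 1
    ext η
    show V (prI I η) ∈ T ↔ Real.log (1 + Real.exp (W η - M)) ∈ T
    rw [hV]
  have hlq : 0 ≤ Real.log (1 / q) := Real.log_nonneg (by rw [le_div_iff₀ hq]; linarith)
  have hb1 : 1 ≤ b := by
    refine le_trans ?_ hb
    have h2 : 0 ≤ C ^ i * Real.log (1 / q) := mul_nonneg (pow_nonneg (by linarith) i) hlq
    nlinarith
  have hDi : 1 ≤ D ^ i := one_le_pow₀ hD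
  have e0 := hlaw (Iic (Real.log 2)) measurableSet_Iic
  have e1 := hlaw (Ici b) measurableSet_Ici
  have e2 := hlaw (Ici (D ^ i * b)) measurableSet_Ici
  simp only [mem_Iic, mem_Ici] at e0 e1 e2
  have key := iterN86 hC1 hD hC hcls (q := q) (s := b) hq (by linarith) ?_ ?_ i hb
  · refine key.trans ?_
    show (W_7d29a1_AM.PN ρ (Fintype.card I)).real {y | D ^ i * b ≤ V y} ≤ _
    rw [e2]
    refine measureReal_mono fun η (hη : D ^ i * b ≤ Real.log (1 + Real.exp (W η - M))) => ?_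
    show L ≤ W η
    have h3 := W_7d29a1_AM.U5.log_le (W η - M)
    have h4 := Real.log_two_lt_d9
    have h5 : b ≤ D ^ i * b := le_mul_of_one_le_left (by linarith) hDi
    rcases le_total (W η - M) 0 with h6 | h6
    · rw [max_eq_right h6] at h3
      linarith
    · rw [max_eq_left h6] at h3
      linarith
  · show 1 / 2 ≤ (W_7d29a1_AM.PN ρ (Fintype.card I)).real {y | V y ≤ Real.log 2}
    rw [e0]
    refine h0.trans ?_
    refine measureReal_mono fun η (hη : W η ≤ M) => ?_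
    show Real.log (1 + Real.exp (W η - M)) ≤ Real.log 2
    apply Real.log_le_log (by positivity)
    have : Real.exp (W η - M) ≤ 1 := Real.exp_le_one_iff.2 (by linarith)
    linarith
  · show q ≤ (W_7d29a1_AM.PN ρ (Fintype.card I)).real {y | b ≤ V y}
    rw [e1]
    refine (hq2.trans h1).trans ?_
    refine measureReal_mono fun η (hη : M + b ≤ W η) => ?_
    show b ≤ Real.log (1 + Real.exp (W η - M))
    rw [Real.le_log_iff_exp_le (by positivity)]
    have : Real.exp b ≤ Real.exp (W η - M) := Real.exp_le_exp.2 (by linarith)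
    linarith

/-- The number of doublings. -/
lemma pick86 {c : ℝ} (hc : 0 < c) (hc1 : c ≤ 1) :
    ∃ i : ℕ, 3 / c ≤ (4 : ℝ) ^ i ∧ (4 : ℝ) ^ i ≤ 12 / c := by
  have h1 : (1 : ℝ) ≤ 3 / c := by
    rw [le_div_iff₀ hc]
    linarith
  obtain ⟨n, hn1, hn2⟩ := exists_nat_pow_near h1 (by norm_num : (1 : ℝ) < 4)
  refine ⟨n + 1, hn2.le, ?_⟩
  rw [pow_succ]
  have h2 : 12 / c = 3 / c * 4 := by ring
  rw [h2]
  exact mul_le_mul_of_nonneg_right hn1 (by norm_num)

/-- The power of the constant. -/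
lemma pow86 {C c : ℝ} {i : ℕ} (hC1 : 1 ≤ C) (hc : 0 < c) (hi : (4 : ℝ) ^ i ≤ 12 / c) :
    C ^ i ≤ (12 : ℝ) ^ (Real.logb 4 C) * c ^ (-Real.logb 4 C) := by
  have hp : 0 ≤ Real.logb 4 C := Real.logb_nonneg (by norm_num) hC1
  have hC0 : 0 < C := by linarith
  have h1 : C ^ i = ((4 : ℝ) ^ i) ^ (Real.logb 4 C) := by
    rw [← Real.rpow_natCast, ← Real.rpow_natCast, ← Real.rpow_mul (by norm_num), mul_comm,
      Real.rpow_mul (by norm_num), Real.rpow_logb (by norm_num) (by norm_num) hC0]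
  rw [h1]
  refine (Real.rpow_le_rpow (by positivity) hi hp).trans (le_of_eq ?_)
  rw [Real.div_rpow (by norm_num) hc.le, Real.rpow_neg hc.le, div_eq_mul_inv]

/-- Amplification for the gain, every law, with explicit constants. -/
theorem ampG86 (hd : 0 < d) {ρ : Measure ℝ} [IsProbabilityMeasure ρ] {β : ℝ} (hβ : 0 ≤ β) {C : ℝ}
    (hC1 : 1 ≤ C) (hC : AmpD86 ρ β C 4) (h : Vec d) (m : ℕ)
    {μ : Pool.Agent.W_MP_7d29a1_pr.Site d → ℝ}
    {D : Finset (Pool.Agent.W_MP_7d29a1_pr.Site d)} (hD : D.Nonempty) (hμ : ∀ y ∈ D, 0 < μ y)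
    {M b L : ℝ} {i : ℕ} (hb : C * (1 + C ^ i * Real.log 4) ≤ b) (hL : L - M + 1 ≤ 4 ^ i * b)
    (h0 : 1 / 2 ≤ (law d ρ).real {η | gain d ρ β h m D μ η ≤ M})
    (h1 : 1 / 4 ≤ (law d ρ).real {η | M + b ≤ gain d ρ β h m D μ η}) :
    Real.exp (-(C ^ i * Real.log 4)) ≤ (law d ρ).real {η | L ≤ gain d ρ β h m D μ η} := by
  have hcw : ∀ k, 0 ≤ cW ρ β h m μ D k := fun k =>
    mul_nonneg (hμ _ k.1.2).le (mul_pos (Real.exp_pos _) (Real.exp_pos _)).le
  have hWexp := exp_gain86 hd ρ β h m hD hμ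
  have e0 : (1 : ℝ) / (1 / 4) = 4 := by norm_num
  have key := @ampZN86 d ρ _ β hβ C 4 hC1 (by norm_num) hC _ _ (cW ρ β h m μ D) hcw (BW m D)
    (WD45 μ (V86 ρ β h m) D) hWexp M b L (1 / 4) i (by norm_num) le_rfl (by rw [e0]; exact hb)
    hL h0 h1
  have e1 : Real.exp (-(C ^ i * Real.log 4)) = (1 / 4 : ℝ) ^ (C ^ i : ℝ) := by
    rw [Real.rpow_def_of_pos (by norm_num), one_div, Real.log_inv]
    congr 1
    ring
  rw [e1]
  exact key

end L86

open L86 in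
/-- **The leaf AMPW.** -/
theorem ampW86 {d : ℕ} (hd : 0 < d) {ρ : Measure ℝ} [IsProbabilityMeasure ρ] {β : ℝ}
    (hβ : 0 ≤ β) (hA : W_7d29a1_AM.AmpCN ρ β) : AmpW d ρ β := by
  obtain ⟨C, hC1, hC⟩ := hA 4 (by norm_num)
  have hp0 : 0 ≤ Real.logb 4 C := Real.logb_nonneg (by norm_num) hC1
  have h12 : 1 ≤ (12 : ℝ) ^ (Real.logb 4 C) := Real.one_le_rpow (by norm_num) hp0
  refine ⟨3 * C * (12 : ℝ) ^ (Real.logb 4 C), Real.logb 4 C + 1, by nlinarith, by linarith, ?_⟩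
  intro h m S μ _ hμ _ δ B c T a M b _ hc hc1 ha _ _ _ _ D hDS hD hb hbC hcb hMT m1 _ m3
  obtain ⟨i, hi1, hi2⟩ := pick86 hc hc1
  have hCi := pow86 hC1 hc hi2
  set P : ℝ := (12 : ℝ) ^ (Real.logb 4 C) with hP
  have hcp1 : 1 ≤ c ^ (-Real.logb 4 C) := by
    rw [Real.rpow_neg hc.le]
    exact (one_le_inv₀ (Real.rpow_pos_of_pos hc _)).2 (Real.rpow_le_one hc.le hc1 hp0)
  have hcp : c ^ (-Real.logb 4 C) ≤ c ^ (-(Real.logb 4 C + 1)) :=
    Real.rpow_le_rpow_of_exponent_ge hc hc1 (by linarith)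
  have hlog4 : Real.log 4 ≤ 2 := by
    have h2 := Real.log_two_lt_d9
    have h3 : Real.log 4 = 2 * Real.log 2 := by
      rw [show (4 : ℝ) = 2 ^ 2 by norm_num, Real.log_pow]
      norm_num
    linarith
  have hlog40 : 0 ≤ Real.log 4 := Real.log_nonneg (by norm_num)
  have hCi0 : 0 ≤ C ^ i := pow_nonneg (by linarith) i
  have hCil : C ^ i * Real.log 4 ≤ 2 * (P * c ^ (-Real.logb 4 C)) := by
    calc C ^ i * Real.log 4 ≤ C ^ i * 2 := mul_le_mul_of_nonneg_left hlog4 hCi0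
      _ ≤ P * c ^ (-Real.logb 4 C) * 2 := mul_le_mul_of_nonneg_right hCi (by norm_num)
      _ = _ := by ring
  have hPc : 1 ≤ P * c ^ (-Real.logb 4 C) := one_le_mul_of_one_le_of_one_le h12 hcp1
  have hb0 : C * (1 + C ^ i * Real.log 4) ≤ b := by
    refine le_trans ?_ hbC
    calc C * (1 + C ^ i * Real.log 4) ≤ C * (3 * (P * c ^ (-Real.logb 4 C))) :=
          mul_le_mul_of_nonneg_left (by linarith) (by linarith)
      _ ≤ C * (3 * (P * c ^ (-(Real.logb 4 C + 1)))) := by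
          refine mul_le_mul_of_nonneg_left ?_ (by linarith)
          have := mul_le_mul_of_nonneg_left hcp (show (0 : ℝ) ≤ P by linarith)
          linarith
      _ = _ := by ring
  have hbb : 1 ≤ b := by
    refine le_trans ?_ hb0
    have : 0 ≤ C ^ i * Real.log 4 := mul_nonneg hCi0 hlog40
    nlinarith
  have hbc : b ≤ b / c := by
    rw [le_div_iff₀ hc]
    nlinarith
  have hL : T + a - M + 1 ≤ 4 ^ i * b := by
    have h1 : T + a - (M + b) ≤ b / c := by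
      rw [le_div_iff₀ hc]
      linarith
    have h2 : 3 / c * b ≤ (4 : ℝ) ^ i * b := mul_le_mul_of_nonneg_right hi1 hb.le
    have h3 : 3 / c * b = 3 * (b / c) := by ring
    have h4 : 1 ≤ b / c := hbb.trans hbc
    linarith
  refine le_trans ?_ (ampG86 hd hβ hC1 hC h m hD (fun y hy => hμ y (hDS hy)) hb0 hL m1 m3)
  refine Real.exp_le_exp.2 (neg_le_neg (hCil.trans ?_))
  have h5 : P * c ^ (-Real.logb 4 C) ≤ P * c ^ (-(Real.logb 4 C + 1)) :=
    mul_le_mul_of_nonneg_left hcp (by linarith)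
  have h6 : 0 ≤ P * c ^ (-(Real.logb 4 C + 1)) := by linarith
  calc 2 * (P * c ^ (-Real.logb 4 C)) ≤ 3 * (P * c ^ (-(Real.logb 4 C + 1))) := by linarith
    _ ≤ C * (3 * (P * c ^ (-(Real.logb 4 C + 1)))) := le_mul_of_one_le_left (by linarith) hC1
    _ = _ := by ring

/-- The leaf AMPW for every law with exponential moments. -/
theorem ampWAll86 {d : ℕ} (hd : 0 < d) {ρ : Measure ℝ} [IsProbabilityMeasure ρ] (hρ : EM ρ)
    (hnc : ∀ c : ℝ, ρ {c} ≠ 1) {β : ℝ} (hβ : 0 < β) : AmpW d ρ β :=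
  ampW86 hd hβ.le (W_7d29a1_AM.ampCNAll5 hρ hnc hβ)

end Pool.Agent.W_7d29a1_NR
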