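import Pool.Agent.W_7d29a1_SP.Amp84

/-!
Law transfer (helper84): Ehrhard's inequality for logarithms of positive sums of exponentials of the environment, for
the laws of convex functions of a Gaussian variable.
-/

namespace Pool.Agent.W_7d29a1_NR.L84

open MeasureTheory ProbabilityTheory Filter Topology Set Pool.Agent.W_MP_7d29a1_pr
  Pool.Agent.W_7d29a1_h46 Pool.Agent.W_7d29a1_h46u Pool.Agent.W_7d29a1_SP Pool.Agent.W_7d29a1_SP.A84

variable {d : ℕ} {S : Type*} [Fintype S] {m : ℕ}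

/-- the logarithm of a sum of exponentials of sums of sites -/
noncomputable def LS (β : ℝ) (c : S → ℝ) (q : S → Fin m → ℕ × Site d) (η : Env d) : ℝ :=
  Real.log (∑ s, Real.exp (c s + β * ∑ i, η (q s i)))

open Classical in
/-- the sites which are used -/
noncomputable def Iq (q : S → Fin m → ℕ × Site d) : Finset (ℕ × Site d) :=
  Finset.univ.image fun z : S × Fin m => q z.1 z.2

lemma mem_Iq (q : S → Fin m → ℕ × Site d) (s : S) (i : Fin m) : q s i ∈ Iq q := by
  classical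
  unfold Iq
  exact Finset.mem_image.2 ⟨(s, i), Finset.mem_univ _, rfl⟩

lemma LS_ex (β : ℝ) (c : S → ℝ) (q : S → Fin m → ℕ × Site d) (η : Env d) :
    LS β c q (ex (Iq q) ((Iq q).restrict η)) = LS β c q η := by
  unfold LS
  have : ∀ (s : S) (i : Fin m), ex (Iq q) ((Iq q).restrict η) (q s i) = η (q s i) := fun s i => by
    unfold ex
    rw [dif_pos (mem_Iq q s i)]
    rfl
  simp only [this]

lemma LS_cont [Nonempty S] (β : ℝ) (c : S → ℝ) (q : S → Fin m → ℕ × Site d) (I : Finset (ℕ × Site d)) :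
    Continuous fun y : I → ℝ => LS β c q (ex I y) := by
  unfold LS
  refine Continuous.log ?_ fun y => (Finset.sum_pos (fun s _ => Real.exp_pos _) Finset.univ_nonempty).ne'
  exact continuous_finsetSum _ fun s _ =>
    Real.continuous_exp.comp (continuous_const.add (continuous_const.mul (continuous_finsetSum _ fun i _ => ex_cont I _)))

lemma LS_conv [Nonempty S] {φ : ℝ → ℝ} (hφ : ConvexOn ℝ univ φ) {β : ℝ} (hβ : 0 ≤ β) (c : S → ℝ)
    (q : S → Fin m → ℕ × Site d) (I : Finset (ℕ × Site d)) :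
    ConvexOn ℝ univ fun x : I → ℝ => LS β c q (ex I fun i => φ (x i)) := by
  unfold LS
  refine lse fun s => ?_
  refine (convexOn_const _ convex_univ).add (ConvexOn.smul hβ ?_)
  refine ⟨convex_univ, fun x _ y _ l k hl hk hlk => ?_⟩
  simp only [smul_eq_mul]
  rw [Finset.mul_sum, Finset.mul_sum, ← Finset.sum_add_distrib]
  refine Finset.sum_le_sum fun i _ => ?_
  exact (ex_conv hφ I _).2 (mem_univ x) (mem_univ y) hl hk hlk

lemma measurable_LS (β : ℝ) (c : S → ℝ) (q : S → Fin m → ℕ × Site d) : Measurable (LS β c q) := by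
  unfold LS
  refine Real.measurable_log.comp ?_
  refine Finset.measurable_fun_sum _ fun s _ => Real.measurable_exp.comp ?_
  refine measurable_const.add (measurable_const.mul ?_)
  exact Finset.measurable_fun_sum _ fun i _ => measurable_pi_apply _

lemma LS_law [Nonempty S] {ρ : Measure ℝ} [IsProbabilityMeasure ρ] {φ : ℝ → ℝ} (hφ : Continuous φ)
    (hρ : ρ = (gaussianReal 0 1).map φ) (β : ℝ) (c : S → ℝ) (q : S → Fin m → ℕ × Site d)
    {T : Set ℝ} (hT : MeasurableSet T) : (law d ρ).real {η | LS β c q η ∈ T} =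
      (Ehr.gpi (Iq q)).real {x | LS β c q (ex (Iq q) fun i => φ (x i)) ∈ T} := by
  have h1 : (law d ρ).map (Iq q).restrict = Measure.pi fun _ : Iq q => ρ :=
    Measure.infinitePi_map_restrict _
  have h2 : (Ehr.gpi (Iq q)).map (fun x i => φ (x i)) = Measure.pi fun _ : Iq q => ρ := by
    have := Measure.pi_map_pi (μ := fun _ : Iq q => Ehr.ga) (f := fun _ => φ)
      (fun _ => hφ.measurable.aemeasurable)
    rw [hρ]
    exact this
  have mY : MeasurableSet {y : Iq q → ℝ | LS β c q (ex (Iq q) y) ∈ T} := (LS_cont β c q (Iq q)).measurable hT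
  have h3 : (law d ρ).real {η | LS β c q η ∈ T} =
      (Measure.pi fun _ : Iq q => ρ).real {y | LS β c q (ex (Iq q) y) ∈ T} := by
    rw [← h1, map_measureReal_apply (Finset.measurable_restrict _) mY]
    congr 1
    ext η
    show LS β c q η ∈ T ↔ LS β c q _ ∈ T
    rw [LS_ex]
  rw [h3, ← h2, map_measureReal_apply (by fun_prop) mY]
  rfl

/-- Ehrhard for `LS`: the upper tail. -/
theorem luckS84 [Nonempty S] {ρ : Measure ℝ} [IsProbabilityMeasure ρ] (hG : GC ρ) {β : ℝ} (hβ : 0 ≤ β)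
    (c : S → ℝ) (q : S → Fin m → ℕ × Site d) {a b s0 s1 t : ℝ} (ht : 0 ≤ t)
    (h0 : Ehr.Phi a ≤ (law d ρ).real {η | LS β c q η ≤ s0})
    (h1 : (law d ρ).real {η | LS β c q η ≤ s1} ≤ Ehr.Phi b) :
    (law d ρ).real {η | LS β c q η ≤ s1 + t * (s1 - s0)} ≤ Ehr.Phi (b + t * (b - a)) := by
  obtain ⟨φ, hφ, hρ⟩ := hG
  have hc : Continuous φ := by
    rw [← continuousOn_univ]
    exact hφ.continuousOn isOpen_univ
  have e0 := LS_law hc hρ β c q (T := Iic s0) measurableSet_Iic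
  have e1 := LS_law hc hρ β c q (T := Iic s1) measurableSet_Iic
  have e2 := LS_law hc hρ β c q (T := Iic (s1 + t * (s1 - s0))) measurableSet_Iic
  simp only [mem_Iic] at e0 e1 e2
  rw [e2]
  exact Ehr.luck (LS_conv hφ hβ c q (Iq q)) ((LS_cont β c q (Iq q)).comp (by fun_prop)) ht (by rw [← e0]; exact h0)
    (by rw [← e1]; exact h1)

/-- Ehrhard for `LS`: the lower tail. -/
theorem unluckS84 [Nonempty S] {ρ : Measure ℝ} [IsProbabilityMeasure ρ] (hG : GC ρ) {β : ℝ} (hβ : 0 ≤ β)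
    (c : S → ℝ) (q : S → Fin m → ℕ × Site d) {a b s0 s1 t : ℝ} (ht : 0 ≤ t)
    (h0 : (law d ρ).real {η | LS β c q η ≤ s0} ≤ Ehr.Phi a)
    (h1 : Ehr.Phi b ≤ (law d ρ).real {η | LS β c q η ≤ s1}) :
    (law d ρ).real {η | LS β c q η ≤ s0 - t * (s1 - s0)} ≤ Ehr.Phi (a - t * (b - a)) := by
  have := luckS84 hG hβ c q (a := b) (b := a) (s0 := s1) (s1 := s0) ht h1 h0
  have e1 : s0 + t * (s0 - s1) = s0 - t * (s1 - s0) := by ring
  have e2 : a + t * (a - b) = a - t * (b - a) := by ring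
  rwa [e1, e2] at this

/-! ### The sum over end points -/

lemma Z_eq (β : ℝ) (h : Vec d) (η : Env d) (m : ℕ) : Z β h η m =
    ∑ s : Fin m → Step d, Real.exp (inner ℝ h (emb (pos s m)) + β * energy η s) := by
  unfold Z ZT wgt
  simp

/-- the shifted free energies of the sites of `D` with weights `w` -/
noncomputable def WD (β : ℝ) (h : Vec d) (k m : ℕ) (D : Finset (Site d)) (w : Site d → ℝ) (η : Env d) : ℝ :=
  Real.log (∑ y ∈ D, w y * Real.exp (X β h (sh k y η) m))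

/-- the weights of `WD` -/
noncomputable def cW (h : Vec d) (m : ℕ) (D : Finset (Site d)) (w : Site d → ℝ) :
    {y // y ∈ D} × (Fin m → Step d) → ℝ := fun z => Real.log (w z.1.1) + inner ℝ h (emb (pos z.2 m))

/-- the sites of `WD` -/
def qW (k m : ℕ) (D : Finset (Site d)) : {y // y ∈ D} × (Fin m → Step d) → Fin m → ℕ × Site d :=
  fun z i => ((i : ℕ) + 1 + k, pos z.2 ((i : ℕ) + 1) + z.1.1)

theorem wd84 (hd : 0 < d) (β : ℝ) (h : Vec d) (k m : ℕ) (D : Finset (Site d)) (w : Site d → ℝ)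
    (hw : ∀ y ∈ D, 0 < w y) : WD β h k m D w = LS β (cW h m D w) (qW k m D) := by
  have : Nonempty (Fin m → Step d) := ⟨fun _ => (⟨⟨0, hd⟩, true⟩ : Step d)⟩
  funext η
  unfold WD LS
  congr 1
  rw [Fintype.sum_prod_type, ← Finset.sum_coe_sort D]
  refine Finset.sum_congr rfl fun y _ => ?_
  have hZ : 0 < Z β h (sh k (y : Site d) η) m := by
    rw [Z_eq]
    exact Finset.sum_pos (fun s _ => Real.exp_pos _) Finset.univ_nonempty
  unfold X
  rw [Real.exp_log hZ, Z_eq, Finset.mul_sum]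
  refine Finset.sum_congr rfl fun s _ => ?_
  show w y * Real.exp (inner ℝ h (emb (pos s m)) + β * energy (sh k (y : Site d) η) s) =
    Real.exp (Real.log (w y) + inner ℝ h (emb (pos s m)) + β * energy (sh k (y : Site d) η) s)
  rw [add_assoc, Real.exp_add (Real.log (w y)), Real.exp_log (hw _ y.2)]

theorem measurable_WD (hd : 0 < d) (β : ℝ) (h : Vec d) (k m : ℕ) (D : Finset (Site d)) (w : Site d → ℝ)
    (hw : ∀ y ∈ D, 0 < w y) : Measurable (WD β h k m D w) := by
  rw [wd84 hd β h k m D w hw]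
  exact measurable_LS _ _ _

/-- Ehrhard for the sum over end points: the upper tail. -/
theorem luckW84 (hd : 0 < d) {ρ : Measure ℝ} [IsProbabilityMeasure ρ] (hG : GC ρ) {β : ℝ} (hβ : 0 ≤ β)
    (h : Vec d) (k m : ℕ) {D : Finset (Site d)} (hD : D.Nonempty) {w : Site d → ℝ} (hw : ∀ y ∈ D, 0 < w y)
    {a b s0 s1 t : ℝ} (ht : 0 ≤ t) (h0 : Ehr.Phi a ≤ (law d ρ).real {η | WD β h k m D w η ≤ s0})
    (h1 : (law d ρ).real {η | WD β h k m D w η ≤ s1} ≤ Ehr.Phi b) :
    (law d ρ).real {η | WD β h k m D w η ≤ s1 + t * (s1 - s0)} ≤ Ehr.Phi (b + t * (b - a)) := by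
  have : Nonempty (Fin m → Step d) := ⟨fun _ => (⟨⟨0, hd⟩, true⟩ : Step d)⟩
  have : Nonempty {y // y ∈ D} := hD.to_subtype
  rw [wd84 hd β h k m D w hw] at h0 h1 ⊢
  exact luckS84 hG hβ (cW h m D w) (qW k m D) ht h0 h1

/-- Ehrhard for the sum over end points: the lower tail. -/
theorem unluckW84 (hd : 0 < d) {ρ : Measure ℝ} [IsProbabilityMeasure ρ] (hG : GC ρ) {β : ℝ} (hβ : 0 ≤ β)
    (h : Vec d) (k m : ℕ) {D : Finset (Site d)} (hD : D.Nonempty) {w : Site d → ℝ} (hw : ∀ y ∈ D, 0 < w y)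
    {a b s0 s1 t : ℝ} (ht : 0 ≤ t) (h0 : (law d ρ).real {η | WD β h k m D w η ≤ s0} ≤ Ehr.Phi a)
    (h1 : Ehr.Phi b ≤ (law d ρ).real {η | WD β h k m D w η ≤ s1}) :
    (law d ρ).real {η | WD β h k m D w η ≤ s0 - t * (s1 - s0)} ≤ Ehr.Phi (a - t * (b - a)) := by
  have : Nonempty (Fin m → Step d) := ⟨fun _ => (⟨⟨0, hd⟩, true⟩ : Step d)⟩
  have : Nonempty {y // y ∈ D} := hD.to_subtype
  rw [wd84 hd β h k m D w hw] at h0 h1 ⊢
  exact unluckS84 hG hβ (cW h m D w) (qW k m D) ht h0 h1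

end Pool.Agent.W_7d29a1_NR.L84
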