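import Pool.Agent.W_7d29a1_NR.DefsR11
import Pool.Agent.W_7d29a1_NR.HalvA45
import Pool.Agent.W_7d29a1_NR.Law84

/-!
TRA (helper11): the halving lemma for the polymer, from the abstract halving lemma and the Ehrhard
inequality for sums over end points.
-/

namespace Pool.Agent.W_7d29a1_NR

open MeasureTheory ProbabilityTheory Filter Topology Pool.Agent.W_MP_7d29a1_pr
  Pool.Agent.W_7d29a1_h46 Pool.Agent.W_7d29a1_h46u Pool.Agent.W_7d29a1_D2.B35
  Pool.Agent.W_7d29a1_Q29 Pool.Agent.W_7d29a1_R34 Pool.Agent.W_7d29a1_SP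

lemma Phi_two11 : (3 / 4 : ℝ) ≤ Ehr.Phi 2 := by
  have h1 := A84.Phi_add 2
  have h2 := A84.Phi_upper (b := 2) (by norm_num)
  have h3 : Real.exp (-(2 : ℝ) ^ 2 / 2) ≤ 1 / 4 := by
    have h4 : (4 : ℝ) ≤ Real.exp 2 := by
      have h5 := Real.add_one_le_exp (1 : ℝ)
      have h6 : Real.exp 2 = Real.exp 1 * Real.exp 1 := by rw [← Real.exp_add]; norm_num
      rw [h6]
      nlinarith
    rw [show (-(2 : ℝ) ^ 2 / 2) = -2 by norm_num, Real.exp_neg, inv_eq_one_div]
    exact one_div_le_one_div_of_le (by norm_num) h4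
  linarith

lemma Phi_zero11 : Ehr.Phi 0 = 1 / 2 := by
  have := A84.Phi_add 0
  rw [neg_zero] at this
  linarith

/-- **TRA.** -/
theorem tra11 {d : ℕ} (hd : 0 < d) {ρ : Measure ℝ} [IsProbabilityMeasure ρ] (hG : GC ρ) {β : ℝ}
    (hβ : 0 ≤ β) : TraP d ρ β := by
  classical
  intro h m S w J c a T u₀ hS hcard hw hc0 hc1 ha hu hT1 hT2
  obtain ⟨V, hV⟩ : ∃ V : Site d → Env d → ℝ, V = fun y η => X β h (sh 0 y η) m - A ρ β h m :=
    ⟨_, rfl⟩
  have mX := measurable_X (d := d) β h m
  have msh : ∀ y : Site d, Measurable (sh 0 y : Env d → Env d) := fun y =>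
    measurable_pi_lambda _ fun p => measurable_pi_apply _
  have mV : ∀ y ∈ S, Measurable (V y) := fun y _ => by
    rw [hV]
    exact (mX.comp (msh y)).sub_const _
  have hg : ∀ D, WD45 w V D = gain d ρ β h m D w := fun D => by rw [hV]; rfl
  obtain ⟨w', hw'⟩ : ∃ w' : Site d → ℝ, w' = fun y => w y * Real.exp (-A ρ β h m) := ⟨_, rfl⟩
  have hWD : ∀ D, gain d ρ β h m D w = L84.WD β h 0 m D w' := fun D => by
    funext η
    unfold gain L84.WD
    congr 1
    refine Finset.sum_congr rfl fun y _ => ?_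
    rw [hw', sub_eq_add_neg, Real.exp_add]
    ring
  have hw'0 : ∀ y ∈ S, 0 < w' y := fun y hy => by
    rw [hw']
    exact mul_pos (hw y hy).1 (Real.exp_pos _)
  have mW : ∀ D ⊆ S, Measurable (gain d ρ β h m D w) := fun D hD => by
    rw [← hg]
    exact wd_meas45 fun y hy => mV y (hD hy)
  by_contra hcon
  push Not at hcon
  -- a little room, to pass from `T + a <` to `T + a' ≤`
  obtain ⟨a', ha'⟩ : ∃ a' : ℝ, a' = a + 1 := ⟨_, rfl⟩
  have hT3 : (law d ρ).real {η | T + a' ≤ WD45 w V S η} < Ehr.Phi (-(4 + 4 / c)) := by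
    refine lt_of_le_of_lt (measureReal_mono fun η hη => ?_) hT2
    have hη' : T + a' ≤ WD45 w V S η := hη
    rw [hg] at hη'
    show T + a < gain d ρ β h m S w η
    linarith
  have hT4 : 1 / 2 ≤ (law d ρ).real {η | T ≤ WD45 w V S η} := by
    rw [hg]
    exact hT1
  have key := halvB45 (law d ρ) (μ := w) (V := V) (S := S) hS (fun y hy => (hw y hy).1)
    (fun y hy => (hw y hy).2) mV (T := T) (a := a') (c := c) (κ := Ehr.Phi (-(4 + 4 / c)))
    (b₀ := 0) (u₀ := u₀) hc0 hc1 (by linarith) le_rfl ?_ ?_ hT3 hT4 hcard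
  · have e : u₀ + (a' + 0 + 2) / c * (1 + c) ^ J = u₀ + (a + 3) * (1 + c) ^ J / c := by
      rw [ha']
      ring
    linarith
  · intro y _ u hu0
    have h1 := hu u hu0
    have hmp : MeasurePreserving (sh 0 y) (law d ρ) (law d ρ) := mp_sh 0 y
    have h2 : (law d ρ).real {η | u ≤ V y η} =
        (law d ρ).real {η | A ρ β h m + u ≤ X β h η m} := by
      have h3 : {η : Env d | u ≤ V y η} = sh 0 y ⁻¹' {η | A ρ β h m + u ≤ X β h η m} := by
        ext η
        rw [hV]
        show u ≤ X β h (sh 0 y η) m - A ρ β h m ↔ A ρ β h m + u ≤ X β h (sh 0 y η) m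
        constructor <;> intro h4 <;> linarith
      rw [h3, measureReal_def, measureReal_def,
        hmp.measure_preimage (measurableSet_le measurable_const mX).nullMeasurableSet]
    rw [h2]
    exact h1
  · intro D hDS hD M b hb0 _ hcb hMb h0 _ h2
    rw [hg] at h0 h2 ⊢
    have mD := mW D hDS
    rw [hWD D] at h0 h2 mD ⊢
    have h5 : (law d ρ).real {η | L84.WD β h 0 m D w' η ≤ M + b / 2} ≤ Ehr.Phi 2 := by
      have h6 : (law d ρ).real {η | M + b ≤ L84.WD β h 0 m D w' η}ᶜ =
          1 - (law d ρ).real {η | M + b ≤ L84.WD β h 0 m D w' η} :=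
        probReal_compl_eq_one_sub (measurableSet_le measurable_const mD)
      have h7 : (law d ρ).real {η | L84.WD β h 0 m D w' η ≤ M + b / 2} ≤
          (law d ρ).real {η | M + b ≤ L84.WD β h 0 m D w' η}ᶜ := by
        refine measureReal_mono fun η hη => ?_
        have hη' : L84.WD β h 0 m D w' η ≤ M + b / 2 := hη
        show ¬ (M + b ≤ L84.WD β h 0 m D w' η)
        push Not
        linarith
      linarith [Phi_two11]
    obtain ⟨t, ht⟩ : ∃ t : ℝ, t = 1 + 2 / c := ⟨_, rfl⟩
    have ht0 : 0 ≤ t := by rw [ht]; positivity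
    have h8 := L84.luckW84 hd hG hβ h 0 m hD (fun y hy => hw'0 y (hDS hy)) (a := 0) (b := 2)
      (s0 := M) (s1 := M + b / 2) (t := t) ht0 (by rw [Phi_zero11]; exact h0) h5
    have h9 : T + a' ≤ M + b / 2 + t * (M + b / 2 - M) := by
      have h10 : T + a' - (M + b) ≤ b / c := by
        rw [le_div_iff₀ hc0]
        linarith
      have h11 : t * (M + b / 2 - M) = b / 2 + b / c := by
        rw [ht]
        ring
      linarith
    have h12 : (law d ρ).real
        {η | L84.WD β h 0 m D w' η ≤ M + b / 2 + t * (M + b / 2 - M)}ᶜ =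
        1 - (law d ρ).real {η | L84.WD β h 0 m D w' η ≤ M + b / 2 + t * (M + b / 2 - M)} :=
      probReal_compl_eq_one_sub (measurableSet_le mD measurable_const)
    have h13 : (law d ρ).real
        {η | L84.WD β h 0 m D w' η ≤ M + b / 2 + t * (M + b / 2 - M)}ᶜ ≤
        (law d ρ).real {η | T + a' ≤ L84.WD β h 0 m D w' η} := by
      refine measureReal_mono fun η hη => ?_
      have hη' : ¬ (L84.WD β h 0 m D w' η ≤ M + b / 2 + t * (M + b / 2 - M)) := hη
      push Not at hη'
      show T + a' ≤ L84.WD β h 0 m D w' η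
      linarith
    have h14 := A84.Phi_add (2 + t * (2 - 0))
    have e1 : 2 + t * (2 - 0) = 4 + 4 / c := by
      rw [ht]
      ring
    rw [e1] at h8 h14
    calc Ehr.Phi (-(4 + 4 / c)) = 1 - Ehr.Phi (4 + 4 / c) := by linarith
      _ ≤ 1 - (law d ρ).real
          {η | L84.WD β h 0 m D w' η ≤ M + b / 2 + t * (M + b / 2 - M)} :=
        sub_le_sub_left h8 1
      _ = (law d ρ).real
          {η | L84.WD β h 0 m D w' η ≤ M + b / 2 + t * (M + b / 2 - M)}ᶜ := h12.symm
      _ ≤ _ := h13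

end Pool.Agent.W_7d29a1_NR
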