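import Pool.Agent.W_7d29a1_NR.Mon43
import Pool.Agent.W_7d29a1_NR.Tra11

/-!
Theorem MON (helper43): the final forms.
-/

namespace Pool.Agent.W_7d29a1_NR

open MeasureTheory ProbabilityTheory Filter Topology Pool.Agent.W_MP_7d29a1_pr
  Pool.Agent.W_7d29a1_h46 Pool.Agent.W_7d29a1_h46u Pool.Agent.W_7d29a1_D2.B35
  Pool.Agent.W_7d29a1_Q29 Pool.Agent.W_7d29a1_R34 Pool.Agent.W_7d29a1_SP
open Pool.Agent.W_7d29a1_UC (DeepP ampU43 deep43)
open Pool.Agent.W_7d29a1_AM (AmpU)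

/-- The variance is monotone up to a subpolynomial factor with the exponent `t < 1`. -/
def MonP (d : ℕ) (ρ : Measure ℝ) (β t : ℝ) : Prop := ∃ C : ℝ, 1 ≤ C ∧ ∀ (h : Vec d) (k n : ℕ),
  k ≤ n → Va ρ β h k ≤ C * Real.exp (C * Real.log (n + 2) ^ t) * (Va ρ β h n + 1)

variable {d : ℕ} {ρ : Measure ℝ} [IsProbabilityMeasure ρ] {β C₀ : ℝ} {W : ℕ → ℝ}

lemma pow_exp43 {t : ℝ} (ht : 0 < t) : ∃ C : ℝ, 1 ≤ C ∧ ∀ x : ℝ, 0 ≤ x →
    x ^ 2 ≤ C * Real.exp (x ^ t) := by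
  obtain ⟨N, hN⟩ := exists_nat_gt (2 / t)
  refine ⟨max 1 (N.factorial : ℝ), le_max_left _ _, fun x hx => ?_⟩
  have hf : (1 : ℝ) ≤ N.factorial := by exact_mod_cast Nat.one_le_iff_ne_zero.2 N.factorial_ne_zero
  have hC : (N.factorial : ℝ) ≤ max 1 (N.factorial : ℝ) := le_max_right _ _
  rcases le_total x 1 with h1 | h1
  · have h2 : 1 ≤ Real.exp (x ^ t) := Real.one_le_exp (Real.rpow_nonneg hx t)
    have h3 : x ^ 2 ≤ 1 := by nlinarith
    have h4 : (1 : ℝ) ≤ max 1 (N.factorial : ℝ) := le_max_left _ _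
    nlinarith
  · have h2 := Real.pow_div_factorial_le_exp (x ^ t) (Real.rpow_nonneg hx t) N
    have h3 : x ^ 2 ≤ (x ^ t) ^ N := by
      rw [← Real.rpow_natCast (x ^ t) N, ← Real.rpow_mul hx, ← Real.rpow_natCast x 2]
      refine Real.rpow_le_rpow_of_exponent_le h1 ?_
      have := mul_lt_mul_of_pos_left hN ht
      rw [mul_div_cancel₀ _ ht.ne'] at this
      push_cast
      linarith
    rw [div_le_iff₀ (by linarith)] at h2
    calc x ^ 2 ≤ Real.exp (x ^ t) * N.factorial := h3.trans h2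
      _ = N.factorial * Real.exp (x ^ t) := mul_comm _ _
      _ ≤ _ := mul_le_mul_of_nonneg_right hC (Real.exp_pos _).le

/-- From the interface to the final form. -/
theorem monP43 (hd : 0 < d) (hρ : EM ρ) (h2 : AmpU ρ β d) (h3 : DeepP d ρ β) {t C₁ : ℝ}
    (ht : 0 < t) (hC₀ : 0 ≤ C₀) (hC₁ : 1 ≤ C₁)
    (hC : CoreW d ρ β C₀ fun k => C₁ * Real.exp (C₁ * Real.log (k + 2) ^ t)) :
    MonP d ρ β t := by
  obtain ⟨C, hC1, hmon⟩ := mon43 hd hρ h2 h3 hC₀ (fun k => by positivity) hC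
  obtain ⟨D, hD1, hpe⟩ := pow_exp43 ht
  refine ⟨C * (C₁ ^ 2 + D) + 2 * C₁, by nlinarith, fun h k n hkn => ?_⟩
  obtain ⟨m, rfl⟩ := Nat.exists_eq_add_of_le hkn
  have hk0 : (0 : ℝ) ≤ k := Nat.cast_nonneg k
  have hm0 : (0 : ℝ) ≤ m := Nat.cast_nonneg m
  obtain ⟨L, hL⟩ : ∃ L : ℝ, L = Real.log (((k + m : ℕ) : ℝ) + 2) := ⟨_, rfl⟩
  have hlk0 : 0 ≤ Real.log ((k : ℝ) + 2) := Real.log_nonneg (by linarith)
  have hlm0 : 0 ≤ Real.log ((m : ℝ) + 2) := Real.log_nonneg (by linarith)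
  have hlk : Real.log ((k : ℝ) + 2) ≤ L := by
    rw [hL]; push_cast
    exact Real.log_le_log (by linarith) (by linarith)
  have hlm : Real.log ((m : ℝ) + 2) ≤ L := by
    rw [hL]; push_cast
    exact Real.log_le_log (by linarith) (by linarith)
  have hL0 : 0 ≤ L := hlk0.trans hlk
  have hx0 : 0 ≤ L ^ t := Real.rpow_nonneg hL0 t
  have e1 : (C₁ * Real.exp (C₁ * Real.log ((m : ℝ) + 2) ^ t)) ^ 2 ≤
      C₁ ^ 2 * Real.exp (2 * C₁ * L ^ t) := by
    have h5 : Real.log ((m : ℝ) + 2) ^ t ≤ L ^ t := Real.rpow_le_rpow hlm0 hlm ht.le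
    have h6 : Real.exp (C₁ * Real.log ((m : ℝ) + 2) ^ t) ≤ Real.exp (C₁ * L ^ t) :=
      Real.exp_le_exp.2 (mul_le_mul_of_nonneg_left h5 (by linarith))
    have h7 : Real.exp (2 * C₁ * L ^ t) = Real.exp (C₁ * L ^ t) ^ 2 := by
      rw [← Real.exp_nat_mul]; congr 1; push_cast; ring
    rw [mul_pow, h7]
    exact mul_le_mul_of_nonneg_left (pow_le_pow_left₀ (Real.exp_pos _).le h6 2) (by positivity)
  have e2 : Real.log ((k : ℝ) + 2) ^ 2 ≤ D * Real.exp (2 * C₁ * L ^ t) := by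
    refine (pow_le_pow_left₀ hlk0 hlk 2).trans ((hpe L hL0).trans ?_)
    refine mul_le_mul_of_nonneg_left (Real.exp_le_exp.2 ?_) (by linarith)
    nlinarith
  have hV : 0 ≤ Va ρ β h (k + m) := integral_nonneg fun η => sq_nonneg _
  refine (hmon h k m).trans (mul_le_mul_of_nonneg_right ?_ (by linarith))
  have hE : Real.exp (2 * C₁ * L ^ t) ≤ Real.exp ((C * (C₁ ^ 2 + D) + 2 * C₁) * L ^ t) := by
    refine Real.exp_le_exp.2 (mul_le_mul_of_nonneg_right ?_ hx0)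
    have : 0 ≤ C * (C₁ ^ 2 + D) := by positivity
    linarith
  rw [← hL]
  calc C * ((C₁ * Real.exp (C₁ * Real.log ((m : ℝ) + 2) ^ t)) ^ 2 + Real.log ((k : ℝ) + 2) ^ 2)
      ≤ C * (C₁ ^ 2 * Real.exp (2 * C₁ * L ^ t) + D * Real.exp (2 * C₁ * L ^ t)) :=
        mul_le_mul_of_nonneg_left (add_le_add e1 e2) (by linarith)
    _ = (C * (C₁ ^ 2 + D)) * Real.exp (2 * C₁ * L ^ t) := by ring
    _ ≤ (C * (C₁ ^ 2 + D) + 2 * C₁) * Real.exp ((C * (C₁ ^ 2 + D) + 2 * C₁) * L ^ t) :=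
        mul_le_mul (by linarith) hE (Real.exp_pos _).le (by positivity)

/-- **THEOREM MON** for the laws of the convex functions of a Gaussian variable. -/
theorem monG43 (hd : 0 < d) (hρ : EM ρ) (hG : GC ρ) (hβ : 0 ≤ β) : MonP d ρ β (2 / 3) := by
  obtain ⟨C, hC1, hC⟩ := coreG43 (ρ := ρ) (β := β) hd hρ (tra11 hd hG hβ)
  exact monP43 hd hρ (ampU43 (amp84 hd hG hβ)) (deep43 hd hρ hG hβ) (by norm_num) (by norm_num)
    hC1 hC

/-- If the maximal variance grows like a power, then the variance does, at all large times. -/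
theorem monAll43 {t : ℝ} (ht0 : 0 < t) (ht : t < 1) (hM : MonP d ρ β t) (h : Vec d) {c c' : ℝ}
    (hc' : 0 < c') (hcc : c' < c)
    (hmax : ∀ᶠ n : ℕ in atTop, ∃ m : ℕ, m ≤ n ∧ (n : ℝ) ^ c ≤ Va ρ β h m) :
    ∀ᶠ n : ℕ in atTop, (n : ℝ) ^ c' ≤ Va ρ β h n := by
  obtain ⟨C, hC1, hmon⟩ := hM
  -- `2 C exp (C log (n + 2) ^ t) n ^ c' ≤ n ^ c` for large `n`
  obtain ⟨e, he⟩ : ∃ e : ℝ, e = (c - c') / 2 := ⟨_, rfl⟩
  have he0 : 0 < e := by rw [he]; linarith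
  have hlog : Tendsto (fun n : ℕ => Real.log ((n : ℝ) + 2)) atTop atTop :=
    Real.tendsto_log_atTop.comp (tendsto_atTop_add_const_right _ _ tendsto_natCast_atTop_atTop)
  have h1 : ∀ᶠ x : ℝ in atTop, C * x ^ t ≤ e / 2 * x := by
    have h2 : Tendsto (fun x : ℝ => x ^ (1 - t)) atTop atTop := tendsto_rpow_atTop (by linarith)
    filter_upwards [h2.eventually_ge_atTop (2 * C / e), eventually_gt_atTop 0] with x hx hx0
    rw [div_le_iff₀ he0] at hx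
    have h3 : x ^ (1 - t) * x ^ t = x := by
      rw [← Real.rpow_add hx0]; simp
    have h4 : 0 < x ^ t := Real.rpow_pos_of_pos hx0 t
    have h5 := mul_le_mul_of_nonneg_right hx h4.le
    have h6 : x ^ (1 - t) * e * x ^ t = e * x := by
      rw [mul_comm (x ^ (1 - t)) e, mul_assoc, h3]
    rw [h6] at h5
    linarith
  have h7 := hlog.eventually h1
  have h8 : Tendsto (fun n : ℕ => (n : ℝ) ^ e) atTop atTop :=
    (tendsto_rpow_atTop he0).comp tendsto_natCast_atTop_atTop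
  filter_upwards [hmax, h7, h8.eventually_ge_atTop (4 * C), eventually_ge_atTop 2]
    with n hn h9 h10 hn2
  obtain ⟨m, hm, hV⟩ := hn
  have hn2' : (2 : ℝ) ≤ n := by exact_mod_cast hn2
  have hn0 : (0 : ℝ) < n := by linarith
  have h11 := hV.trans (hmon h m n hm)
  -- the weight is at most `n ^ e`
  have h12 : Real.exp (C * Real.log ((n : ℝ) + 2) ^ t) ≤ (n : ℝ) ^ e := by
    refine (Real.exp_le_exp.2 h9).trans ?_
    rw [Real.rpow_def_of_pos hn0]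
    refine Real.exp_le_exp.2 ?_
    have h13 : Real.log ((n : ℝ) + 2) ≤ 2 * Real.log n := by
      have h14 : Real.log ((n : ℝ) ^ 2) = 2 * Real.log n := by rw [Real.log_pow]; norm_num
      rw [← h14]
      exact Real.log_le_log (by linarith) (by nlinarith)
    nlinarith
  have hVn : 0 ≤ Va ρ β h n := integral_nonneg fun η => sq_nonneg _
  have h13 : (n : ℝ) ^ c = (n : ℝ) ^ c' * ((n : ℝ) ^ e * (n : ℝ) ^ e) := by
    rw [← Real.rpow_add hn0, ← Real.rpow_add hn0]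
    congr 1
    rw [he]
    ring
  rw [h13] at h11
  have hne : 0 < (n : ℝ) ^ e := Real.rpow_pos_of_pos hn0 e
  have h14 : C * Real.exp (C * Real.log ((n : ℝ) + 2) ^ t) * (Va ρ β h n + 1) ≤
      C * (n : ℝ) ^ e * (Va ρ β h n + 1) :=
    mul_le_mul_of_nonneg_right (mul_le_mul_of_nonneg_left h12 (by linarith)) (by linarith)
  have h15 : (n : ℝ) ^ e * ((n : ℝ) ^ c' * (n : ℝ) ^ e) ≤
      (n : ℝ) ^ e * (C * (Va ρ β h n + 1)) := by
    calc _ = (n : ℝ) ^ c' * ((n : ℝ) ^ e * (n : ℝ) ^ e) := by ring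
      _ ≤ _ := h11.trans h14
      _ = _ := by ring
  have h16 := le_of_mul_le_mul_left h15 hne
  have hnc : 1 ≤ (n : ℝ) ^ c' := Real.one_le_rpow (by linarith) hc'.le
  have h17 : (n : ℝ) ^ c' * (4 * C) ≤ C * (Va ρ β h n + 1) :=
    (mul_le_mul_of_nonneg_left h10 (by linarith)).trans h16
  have h18 : C * (4 * (n : ℝ) ^ c') ≤ C * (Va ρ β h n + 1) := by linarith
  have h19 := le_of_mul_le_mul_left h18 (by linarith)
  linarith

end Pool.Agent.W_7d29a1_NR
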