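import Pool.Agent.W_7d29a1_NR.CoreU44
import Pool.Agent.W_7d29a1_NR.MonG43
import Pool.Agent.W_7d29a1_NR.AmpWN86
import Pool.Agent.W_7d29a1_UC.FinAll43

/-!
Theorem MON for every law with exponential moments (helper44): the variance of the free energy is
monotone up to a subpolynomial factor, every dimension, every tilt.
-/

set_option autoImplicit false

namespace Pool.Agent.W_7d29a1_NR

open MeasureTheory ProbabilityTheory Filter Topology Pool.Agent.W_MP_7d29a1_pr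
  Pool.Agent.W_7d29a1_h46 Pool.Agent.W_7d29a1_h46u Pool.Agent.W_7d29a1_D2.B35
  Pool.Agent.W_7d29a1_Q29 Pool.Agent.W_7d29a1_R34 Pool.Agent.W_7d29a1_SP
  Pool.Agent.W_7d29a1_UC

variable {d : ℕ} {ρ : Measure ℝ} [IsProbabilityMeasure ρ] {β : ℝ}

/-- MON from the amplification of the partial mixtures, AMP and DEEP. -/
theorem monW44 (hd : 0 < d) (hρ : EM ρ) (h2 : Pool.Agent.W_7d29a1_AM.AmpU ρ β d)
    (h3 : DeepP d ρ β) (hW : AmpW d ρ β) : ∃ t : ℝ, 0 < t ∧ t < 1 ∧ MonP d ρ β t := by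
  obtain ⟨C, θ, hC, hθ0, hθ1, hCore⟩ := coreU44 hd hρ hW
  exact ⟨θ, hθ0, hθ1, monP43 hd hρ h2 h3 hθ0 (by norm_num) hC hCore⟩

/-- **THEOREM MON, every law.** -/
theorem monU44 (hd : 0 < d) (hρ : EM ρ) (hnc : ∀ c : ℝ, ρ {c} ≠ 1) (hβ : 0 < β) :
    ∃ t : ℝ, 0 < t ∧ t < 1 ∧ MonP d ρ β t :=
  monW44 hd hρ (ampA43 hd hρ hnc hβ) (deepA43 hd hρ hnc hβ) (ampWAll86 hd hρ hnc hβ)

/-- If the maximal variance grows like a power, then the variance does, at all large times: every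
law. -/
theorem monAllU44 (hd : 0 < d) (hρ : EM ρ) (hnc : ∀ c : ℝ, ρ {c} ≠ 1) (hβ : 0 < β) (h : Vec d)
    {c c' : ℝ} (hc' : 0 < c') (hcc : c' < c)
    (hmax : ∀ᶠ n : ℕ in atTop, ∃ m : ℕ, m ≤ n ∧ (n : ℝ) ^ c ≤ Va ρ β h m) :
    ∀ᶠ n : ℕ in atTop, (n : ℝ) ^ c' ≤ Va ρ β h n := by
  obtain ⟨t, ht0, ht1, hM⟩ := monU44 (d := d) hd hρ hnc hβ
  exact monAll43 ht0 ht1 hM h hc' hcc hmax

end Pool.Agent.W_7d29a1_NR
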