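import Mathlib

/-!
Theorem NR: the numbers. From the gap bound (D) to the local bound (L), the comparison of the
exponents (X) and the polynomial alternative (P). Pure statements on sequences.
-/

set_option autoImplicit false

namespace Pool.Agent.W_7d29a1_NR.Num41

open Filter Topology

variable {A F w : ℕ → ℝ} {lam : ℝ}

/-- The averaging over `J` blocks. -/
lemma base41 (hE0 : ∀ n : ℕ, 0 ≤ n * lam - A n) (hw0 : ∀ k, 0 ≤ w k)
    (hD : ∀ k m : ℕ, 1 ≤ k → A (k + m) - A k - A m ≤ w k * (F (k + m) + F k + F m + 1))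
    {k J : ℕ} (hk : 1 ≤ k) (hJ : 1 ≤ J) {M : ℝ} (hM : ∀ n : ℕ, n ≤ J * k → F n ≤ M) :
    k * lam - A k ≤ w k * (3 * M + 1) + ((J * k : ℕ) * lam - A (J * k)) / J := by
  have hJ0 : (0 : ℝ) < J := by exact_mod_cast hJ
  have h1 : ∀ j : ℕ, j < J → k * lam - A k ≤ w k * (3 * M + 1) +
      ((((j + 1) * k : ℕ) * lam - A ((j + 1) * k)) - ((j * k : ℕ) * lam - A (j * k))) := by
    intro j hj
    have h2 := hD k (j * k) hk
    have e1 : k + j * k = (j + 1) * k := by ring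
    rw [e1] at h2
    have h3 : F ((j + 1) * k) ≤ M := hM _ (Nat.mul_le_mul_right k hj)
    have h4 : F k ≤ M := hM _ (by nlinarith)
    have h5 : F (j * k) ≤ M := hM _ (Nat.mul_le_mul_right k hj.le)
    have h6 : w k * (F ((j + 1) * k) + F k + F (j * k) + 1) ≤ w k * (3 * M + 1) :=
      mul_le_mul_of_nonneg_left (by linarith) (hw0 k)
    have e2 : (((j + 1) * k : ℕ) : ℝ) = (j * k : ℕ) + k := by push_cast; ring
    rw [e2, add_mul]
    linarith
  have h7 := Finset.sum_le_sum fun j (hj : j ∈ Finset.range J) => h1 j (Finset.mem_range.1 hj)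
  rw [Finset.sum_const, Finset.card_range, Finset.sum_add_distrib, Finset.sum_const,
    Finset.card_range, nsmul_eq_mul, nsmul_eq_mul,
    Finset.sum_range_sub (fun j : ℕ => ((j * k : ℕ) : ℝ) * lam - A (j * k))] at h7
  have h8 := hE0 (0 * k)
  have h9 : (J : ℝ) * (k * lam - A k) ≤ J * (w k * (3 * M + 1)) +
      ((J * k : ℕ) * lam - A (J * k)) := by linarith
  have h10 : k * lam - A k ≤ (J * (w k * (3 * M + 1)) + ((J * k : ℕ) * lam - A (J * k))) / J := by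
    rw [le_div_iff₀ hJ0]
    linarith
  rw [add_div, mul_div_assoc, mul_div_assoc] at h10
  have h11 : (J : ℝ) * (w k * ((3 * M + 1) / J)) = w k * (3 * M + 1) := by
    field_simp
  linarith

/-- (L): the local bound, from the a priori bound `C₀ n ^ (2 / 3)`. -/
theorem numL41 (hE0 : ∀ n : ℕ, 0 ≤ n * lam - A n) (hF0 : ∀ n, 0 ≤ F n) (hw1 : ∀ k, 1 ≤ w k)
    (hD : ∀ k m : ℕ, 1 ≤ k → A (k + m) - A k - A m ≤ w k * (F (k + m) + F k + F m + 1))
    {C₀ : ℝ} (hap : ∀ n : ℕ, 1 ≤ n → n * lam - A n ≤ C₀ * (n : ℝ) ^ (2 / 3 : ℝ)) :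
    ∀ (k : ℕ) (M : ℝ), 1 ≤ k → (∀ n : ℕ, n ≤ k ^ 3 → F n ≤ M) →
      k * lam - A k ≤ (3 + |C₀|) * (1 + M) * w k := by
  intro k M hk hM
  have hk0 : (0 : ℝ) < k := by exact_mod_cast hk
  have h1 := base41 (w := w) hE0 (fun k => zero_le_one.trans (hw1 k)) hD (J := k ^ 2) hk
    (Nat.one_le_pow _ _ hk) (M := M) (fun n hn => hM n (by rw [pow_succ]; exact hn))
  have h2 := hap (k ^ 2 * k) (Nat.mul_pos (pow_pos hk 2) hk)
  have h3 : ((k ^ 2 * k : ℕ) : ℝ) ^ (2 / 3 : ℝ) = (k : ℝ) ^ 2 := by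
    push_cast
    rw [← pow_succ, ← Real.rpow_natCast, ← Real.rpow_mul hk0.le, ← Real.rpow_natCast]
    norm_num
  rw [h3] at h2
  have h4 : ((k ^ 2 * k : ℕ) * lam - A (k ^ 2 * k)) / ((k ^ 2 : ℕ) : ℝ) ≤ |C₀| := by
    push_cast at h2 ⊢
    rw [div_le_iff₀ (by positivity)]
    nlinarith [le_abs_self C₀, sq_nonneg (k : ℝ), pow_pos hk0 2]
  have hM0 : 0 ≤ M := (hF0 0).trans (hM 0 (Nat.zero_le _))
  have hw := hw1 k
  have h5 : |C₀| ≤ |C₀| * ((1 + M) * w k) :=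
    le_mul_of_one_le_right (abs_nonneg _) (by nlinarith)
  have h6 : w k * (3 * M + 1) ≤ 3 * ((1 + M) * w k) := by nlinarith
  nlinarith

/-- Powers beat `exp (C (log n) ^ (2 / 3))`. -/
lemma sub41 (C : ℝ) {ε : ℝ} (hε : 0 < ε) : ∀ᶠ n : ℕ in atTop,
    Real.exp (C * Real.log (n + 2) ^ (2 / 3 : ℝ)) ≤ (n : ℝ) ^ ε := by
  have ht : Tendsto (fun n : ℕ => Real.log ((n : ℝ) + 2)) atTop atTop :=
    Real.tendsto_log_atTop.comp (tendsto_atTop_add_const_right _ _ tendsto_natCast_atTop_atTop)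
  filter_upwards [ht.eventually_ge_atTop ((2 * |C| / ε) ^ 3), ht.eventually_ge_atTop 1,
    eventually_ge_atTop 2] with n h1 h2 hn
  have hn2 : (2 : ℝ) ≤ n := by exact_mod_cast hn
  have hn0 : (0 : ℝ) < n := by linarith
  set t := Real.log ((n : ℝ) + 2) with ht'
  have ht0 : 0 < t := by linarith
  have h3 : t ≤ 2 * Real.log n := by
    rw [ht', ← Real.log_rpow hn0]
    refine Real.log_le_log (by linarith) ?_
    rw [show (2 : ℝ) = ((2 : ℕ) : ℝ) by norm_num, Real.rpow_natCast]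
    push_cast
    nlinarith
  have h4 : 2 * |C| / ε ≤ t ^ (1 / 3 : ℝ) := by
    have h5 : ((2 * |C| / ε) ^ 3) ^ (1 / 3 : ℝ) = 2 * |C| / ε := by
      rw [← Real.rpow_natCast, ← Real.rpow_mul (by positivity)]
      norm_num
    rw [← h5]
    exact Real.rpow_le_rpow (by positivity) h1 (by norm_num)
  have h6 : t ^ (2 / 3 : ℝ) * t ^ (1 / 3 : ℝ) = t := by
    rw [← Real.rpow_add ht0]
    norm_num
  have h7 : 0 ≤ t ^ (2 / 3 : ℝ) := Real.rpow_nonneg ht0.le _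
  have h8 : C * t ^ (2 / 3 : ℝ) ≤ ε * Real.log n := by
    have h9 : 2 * |C| ≤ ε * t ^ (1 / 3 : ℝ) := by
      rw [div_le_iff₀ hε] at h4
      linarith
    have h10 := mul_le_mul_of_nonneg_left h9 h7
    have h11 : t ^ (2 / 3 : ℝ) * (ε * t ^ (1 / 3 : ℝ)) = ε * t := by
      rw [mul_left_comm, h6]
    have h12 : C * t ^ (2 / 3 : ℝ) ≤ |C| * t ^ (2 / 3 : ℝ) :=
      mul_le_mul_of_nonneg_right (le_abs_self C) h7
    nlinarith
  rw [Real.rpow_def_of_pos hn0]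
  exact Real.exp_le_exp.2 (by linarith)

/-- The weight of (D). -/
noncomputable def wC (C : ℝ) (k : ℕ) : ℝ := C * Real.exp (C * Real.log (k + 2) ^ (2 / 3 : ℝ))

lemma wC_one {C : ℝ} (hC : 1 ≤ C) (k : ℕ) : 1 ≤ wC C k := by
  unfold wC
  have hl : 0 ≤ Real.log ((k : ℝ) + 2) :=
    Real.log_nonneg (by have : (0 : ℝ) ≤ k := Nat.cast_nonneg k; linarith)
  have h1 : 1 ≤ Real.exp (C * Real.log (k + 2) ^ (2 / 3 : ℝ)) :=
    Real.one_le_exp (mul_nonneg (by linarith) (Real.rpow_nonneg hl _))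
  nlinarith

lemma wC_mono {C : ℝ} (hC : 1 ≤ C) : Monotone (wC C) := by
  intro k l hkl
  unfold wC
  have hk : (0 : ℝ) ≤ k := Nat.cast_nonneg k
  have hkl' : (k : ℝ) ≤ l := by exact_mod_cast hkl
  have hl : 0 ≤ Real.log ((k : ℝ) + 2) := Real.log_nonneg (by linarith)
  refine mul_le_mul_of_nonneg_left (Real.exp_le_exp.2 ?_) (by linarith)
  refine mul_le_mul_of_nonneg_left (Real.rpow_le_rpow hl ?_ (by norm_num)) (by linarith)
  exact Real.log_le_log (by linarith) (by linarith)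

lemma wC_sub (C : ℝ) (ε : ℝ) (hε : 0 < ε) :
    ∀ᶠ n : ℕ in atTop, wC C n ≤ (n : ℝ) ^ ε := by
  have t1 : Tendsto (fun k : ℕ => (k : ℝ) ^ (ε / 2)) atTop atTop :=
    (tendsto_rpow_atTop (by positivity)).comp tendsto_natCast_atTop_atTop
  filter_upwards [sub41 C (half_pos hε), t1.eventually_ge_atTop C, eventually_ge_atTop 1]
    with n h1 h2 h3
  have hn : (0 : ℝ) < n := by exact_mod_cast h3
  have e1 : (n : ℝ) ^ ε = (n : ℝ) ^ (ε / 2) * (n : ℝ) ^ (ε / 2) := by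
    rw [← Real.rpow_add hn]
    congr 1
    ring
  unfold wC
  rw [e1]
  exact mul_le_mul h2 h1 (Real.exp_pos _).le (by positivity)

/-- (P): if the larger of the two is polynomial, the random fluctuations are polynomial. -/
theorem numP41 (hE0 : ∀ n : ℕ, 0 ≤ n * lam - A n) (hF0 : ∀ n, 0 ≤ F n) (hw1 : ∀ k, 1 ≤ w k)
    (hwm : Monotone w) (hws : ∀ ε : ℝ, 0 < ε → ∀ᶠ n : ℕ in atTop, w n ≤ (n : ℝ) ^ ε)
    (hD : ∀ k m : ℕ, 1 ≤ k → A (k + m) - A k - A m ≤ w k * (F (k + m) + F k + F m + 1))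
    {C₀ : ℝ} (hap : ∀ n : ℕ, 1 ≤ n → n * lam - A n ≤ C₀ * (n : ℝ) ^ (2 / 3 : ℝ))
    {e : ℝ} (he : 0 < e)
    (hP : ∀ᶠ n : ℕ in atTop, ∃ m ≤ n, (n : ℝ) ^ e ≤ (m * lam - A m) + F m) :
    ∃ θ : ℝ, 0 < θ ∧ ∀ᶠ n : ℕ in atTop, ∃ m ≤ n, (n : ℝ) ^ θ ≤ F m := by
  have hL := numL41 hE0 hF0 hw1 hD hap
  refine ⟨e / 12, by positivity, ?_⟩
  set K : ℝ := 3 + |C₀| + |A 0| with hK
  have hK3 : 3 ≤ K := by
    have := abs_nonneg C₀
    have := abs_nonneg (A 0)
    linarith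
  -- the cube root
  have hroot : Tendsto (fun N : ℕ => ⌊(N : ℝ) ^ (1 / 3 : ℝ)⌋₊) atTop atTop :=
    tendsto_nat_floor_atTop.comp
      ((tendsto_rpow_atTop (by norm_num : (0 : ℝ) < 1 / 3)).comp tendsto_natCast_atTop_atTop)
  have hbig : Tendsto (fun N : ℕ => (N : ℝ) ^ (e / 6)) atTop atTop :=
    (tendsto_rpow_atTop (by positivity)).comp tendsto_natCast_atTop_atTop
  filter_upwards [hroot.eventually hP, hroot.eventually_ge_atTop 1, eventually_ge_atTop 1,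
    hws (e / 12) (by positivity), hbig.eventually_gt_atTop ((2 : ℝ) ^ e * (2 * (K + 1)))]
    with N h1 h2 hN hwN hgt
  by_contra hcon
  push Not at hcon
  obtain ⟨m, hm, hme⟩ := h1
  set n := ⌊(N : ℝ) ^ (1 / 3 : ℝ)⌋₊ with hn
  have hN0 : (0 : ℝ) < N := by exact_mod_cast hN
  have hN1 : (1 : ℝ) ≤ N := by exact_mod_cast hN
  have hn0 : (0 : ℝ) < n := by exact_mod_cast h2
  have h3 : (n : ℝ) ≤ (N : ℝ) ^ (1 / 3 : ℝ) := Nat.floor_le (by positivity)
  have h4 : (N : ℝ) ^ (1 / 3 : ℝ) < n + 1 := Nat.lt_floor_add_one _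
  have h5 : n ^ 3 ≤ N := by
    have h6 : (n : ℝ) ^ 3 ≤ ((N : ℝ) ^ (1 / 3 : ℝ)) ^ 3 := pow_le_pow_left₀ hn0.le h3 3
    have h7 : ((N : ℝ) ^ (1 / 3 : ℝ)) ^ 3 = N := by
      rw [← Real.rpow_natCast, ← Real.rpow_mul hN0.le]
      norm_num
    rw [h7] at h6
    exact_mod_cast h6
  have hnN : n ≤ N := (Nat.le_self_pow (by norm_num) n).trans h5
  set q : ℝ := (N : ℝ) ^ (e / 12) with hq
  have hq1 : 1 ≤ q := Real.one_le_rpow hN1 (by positivity)
  -- the bound of the nonrandom part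
  have h8 : m * lam - A m ≤ K * (1 + q) * w N := by
    have hwN1 := hw1 N
    rcases Nat.eq_zero_or_pos m with h0 | h0
    · rw [h0, Nat.cast_zero, zero_mul, zero_sub]
      have h9 : |A 0| ≤ K := by
        have := abs_nonneg C₀
        linarith
      have h10 : K * 1 ≤ K * ((1 + q) * w N) :=
        mul_le_mul_of_nonneg_left (by nlinarith) (by linarith)
      have := neg_le_abs (A 0)
      linarith
    · have h9 := hL m q h0 (fun j hj => (hcon j ?_).le)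
      · have h10 : w m ≤ w N := hwm (hm.trans hnN)
        have h11 : (3 + |C₀|) * (1 + q) * w m ≤ K * (1 + q) * w N := by
          have := abs_nonneg C₀
          have := abs_nonneg (A 0)
          have h12 : 0 ≤ w m := zero_le_one.trans (hw1 m)
          refine mul_le_mul (mul_le_mul_of_nonneg_right (by linarith) (by linarith)) h10 h12 ?_
          nlinarith
        exact h9.trans h11
      · exact hj.trans ((Nat.pow_le_pow_left hm 3).trans h5)
  have h13 := hcon m (hm.trans hnN)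
  have h14 : (n : ℝ) ^ e ≤ 2 * (K + 1) * (q * q) := by
    have h15 : K * (1 + q) * w N ≤ K * (1 + q) * q :=
      mul_le_mul_of_nonneg_left hwN (by nlinarith)
    have hqq : q ≤ q * q := by nlinarith
    have hKq : K * (1 + q) * q ≤ 2 * K * (q * q) := by
      have := mul_le_mul_of_nonneg_left hqq (show (0 : ℝ) ≤ K by linarith)
      nlinarith
    nlinarith
  have h16 : q * q = (N : ℝ) ^ (e / 6) := by
    rw [hq, ← Real.rpow_add hN0]
    congr 1
    ring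
  have h17 : (N : ℝ) ^ (e / 3) ≤ (2 : ℝ) ^ e * (n : ℝ) ^ e := by
    rw [← Real.mul_rpow (by norm_num) hn0.le]
    have h18 : (N : ℝ) ^ (e / 3) = ((N : ℝ) ^ (1 / 3 : ℝ)) ^ e := by
      rw [← Real.rpow_mul hN0.le]
      congr 1
      ring
    rw [h18]
    refine Real.rpow_le_rpow (by positivity) ?_ he.le
    have h19 : (1 : ℝ) ≤ n := by exact_mod_cast h2
    linarith
  have h20 : (N : ℝ) ^ (e / 3) = (N : ℝ) ^ (e / 6) * (N : ℝ) ^ (e / 6) := by
    rw [← Real.rpow_add hN0]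
    congr 1
    ring
  rw [h16] at h14
  have h21 : 0 < (N : ℝ) ^ (e / 6) := Real.rpow_pos_of_pos hN0 _
  have h22 : (2 : ℝ) ^ e * (n : ℝ) ^ e ≤ (2 : ℝ) ^ e * (2 * (K + 1) * (N : ℝ) ^ (e / 6)) :=
    mul_le_mul_of_nonneg_left h14 (by positivity)
  rw [h20] at h17
  have h23 : (N : ℝ) ^ (e / 6) * (N : ℝ) ^ (e / 6) ≤
      ((2 : ℝ) ^ e * (2 * (K + 1))) * (N : ℝ) ^ (e / 6) := by linarith
  exact absurd (le_of_mul_le_mul_right h23 h21) (not_le.2 hgt)

/-- A uniform form of the hypothesis on the random fluctuations. -/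
lemma unif41 {x : ℝ} (hx : 0 ≤ x) (hF : ∀ᶠ n : ℕ in atTop, F n ≤ (n : ℝ) ^ x) :
    ∃ K : ℝ, 1 ≤ K ∧ ∀ n : ℕ, F n ≤ K * ((n : ℝ) + 1) ^ x := by
  obtain ⟨n₀, hn₀⟩ := eventually_atTop.1 hF
  refine ⟨1 + ∑ i ∈ Finset.range n₀, |F i|, ?_, fun n => ?_⟩
  · have : 0 ≤ ∑ i ∈ Finset.range n₀, |F i| := Finset.sum_nonneg fun _ _ => abs_nonneg _
    linarith
  · have h0 : 0 ≤ ∑ i ∈ Finset.range n₀, |F i| := Finset.sum_nonneg fun _ _ => abs_nonneg _
    have hn : (0 : ℝ) ≤ n := Nat.cast_nonneg n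
    have h1 : (1 : ℝ) ≤ ((n : ℝ) + 1) ^ x := Real.one_le_rpow (by linarith) hx
    rcases le_or_gt n₀ n with h | h
    · have h2 : F n ≤ (n : ℝ) ^ x := hn₀ n h
      have h3 : (n : ℝ) ^ x ≤ ((n : ℝ) + 1) ^ x := Real.rpow_le_rpow hn (by linarith) hx
      nlinarith
    · have h2 : |F n| ≤ ∑ i ∈ Finset.range n₀, |F i| :=
        Finset.single_le_sum (f := fun i => |F i|) (fun _ _ => abs_nonneg _)
          (Finset.mem_range.2 h)
      have h3 := le_abs_self (F n)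
      nlinarith

/-- (X), one step: an a priori exponent `y` is improved. -/
lemma stepX41 (hE0 : ∀ n : ℕ, 0 ≤ n * lam - A n) (hw1 : ∀ k, 1 ≤ w k)
    (hws : ∀ ε : ℝ, 0 < ε → ∀ᶠ n : ℕ in atTop, w n ≤ (n : ℝ) ^ ε)
    (hD : ∀ k m : ℕ, 1 ≤ k → A (k + m) - A k - A m ≤ w k * (F (k + m) + F k + F m + 1))
    {x e a y η : ℝ} (hx : 0 ≤ x) (he : 0 < e) (ha : 0 < a) (hax : a * x ≤ e / 4)
    (hη : 0 < η) (hy : y < 1) (hy2 : 2 * η ≤ a * (1 - y))
    (hF : ∀ᶠ n : ℕ in atTop, F n ≤ (n : ℝ) ^ x)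
    (hE : ∀ᶠ n : ℕ in atTop, n * lam - A n ≤ (n : ℝ) ^ y) :
    ∀ᶠ n : ℕ in atTop, n * lam - A n ≤ (n : ℝ) ^ max (x + e) (y - η) := by
  obtain ⟨K, hK1, hK⟩ := unif41 hx hF
  obtain ⟨n₀, hn₀⟩ := eventually_atTop.1 hE
  have t1 : Tendsto (fun k : ℕ => (k : ℝ) ^ (5 * e / 8)) atTop atTop :=
    (tendsto_rpow_atTop (by positivity)).comp tendsto_natCast_atTop_atTop
  have t2 : Tendsto (fun k : ℕ => (k : ℝ) ^ η) atTop atTop :=
    (tendsto_rpow_atTop hη).comp tendsto_natCast_atTop_atTop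
  filter_upwards [hws (e / 8) (by positivity), t1.eventually_ge_atTop (8 * (K * 3 ^ x)),
    t2.eventually_ge_atTop 2, eventually_ge_atTop (max n₀ 1)] with k hwk hk1 hk2 hkn
  have hkpos : 1 ≤ k := (le_max_right _ _).trans hkn
  have hk0 : (0 : ℝ) < k := by exact_mod_cast hkpos
  have hk1' : (1 : ℝ) ≤ k := by exact_mod_cast hkpos
  set J : ℕ := ⌈(k : ℝ) ^ a⌉₊ with hJ
  have hka : 1 ≤ (k : ℝ) ^ a := Real.one_le_rpow hk1' ha.le
  have hJ1 : (k : ℝ) ^ a ≤ J := Nat.le_ceil _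
  have hJ2 : (J : ℝ) ≤ 2 * (k : ℝ) ^ a := by
    have := Nat.ceil_lt_add_one (show (0 : ℝ) ≤ (k : ℝ) ^ a by positivity)
    linarith
  have hJR : (1 : ℝ) ≤ J := hka.trans hJ1
  have hJN : 1 ≤ J := by exact_mod_cast hJR
  have hJ0 : (0 : ℝ) < J := by linarith
  set M : ℝ := K * 3 ^ x * (k : ℝ) ^ (x + a * x) with hM
  have hpow : (k : ℝ) ^ (x + a * x) = (k * (k : ℝ) ^ a) ^ x := by
    rw [Real.mul_rpow hk0.le (by positivity), ← Real.rpow_mul hk0.le, ← Real.rpow_add hk0]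
  have hMn : ∀ n : ℕ, n ≤ J * k → F n ≤ M := by
    intro n hn
    refine (hK n).trans ?_
    rw [hM, mul_assoc, hpow, ← Real.mul_rpow (by norm_num) (by positivity)]
    refine mul_le_mul_of_nonneg_left (Real.rpow_le_rpow (by positivity) ?_ hx) (by linarith)
    have h1 : (n : ℝ) ≤ J * k := by exact_mod_cast hn
    have h2 : (J : ℝ) * k ≤ 2 * (k : ℝ) ^ a * k := mul_le_mul_of_nonneg_right hJ2 hk0.le
    have h3 : 1 ≤ k * (k : ℝ) ^ a := by nlinarith
    nlinarith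
  have hb := base41 (w := w) hE0 (fun k => zero_le_one.trans (hw1 k)) hD hkpos hJN hMn
  -- the second term
  have hJk : n₀ ≤ J * k := by
    have h1 : k ≤ J * k := Nat.le_mul_of_pos_left k hJN
    exact ((le_max_left _ _).trans hkn).trans h1
  have h2 := hn₀ (J * k) hJk
  have h3 : ((J * k : ℕ) : ℝ) ^ y / J ≤ (k : ℝ) ^ (y - 2 * η) := by
    push_cast
    rw [Real.mul_rpow hJ0.le hk0.le, mul_comm, mul_div_assoc]
    have h4 : (J : ℝ) ^ y / J = (J : ℝ) ^ (y - 1) := by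
      rw [Real.rpow_sub_one hJ0.ne']
    rw [h4]
    have h5 : (J : ℝ) ^ (y - 1) ≤ ((k : ℝ) ^ a) ^ (y - 1) :=
      Real.rpow_le_rpow_of_nonpos (by positivity) hJ1 (by linarith)
    rw [← Real.rpow_mul hk0.le] at h5
    calc (k : ℝ) ^ y * (J : ℝ) ^ (y - 1) ≤ (k : ℝ) ^ y * (k : ℝ) ^ (a * (y - 1)) :=
          mul_le_mul_of_nonneg_left h5 (by positivity)
      _ = (k : ℝ) ^ (y + a * (y - 1)) := (Real.rpow_add hk0 _ _).symm
      _ ≤ (k : ℝ) ^ (y - 2 * η) := Real.rpow_le_rpow_of_exponent_le hk1' (by linarith)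
  have h6 : (k : ℝ) ^ (y - 2 * η) ≤ 1 / 2 * (k : ℝ) ^ (y - η) := by
    have h7 : (k : ℝ) ^ (y - η) = (k : ℝ) ^ (y - 2 * η) * (k : ℝ) ^ η := by
      rw [← Real.rpow_add hk0]
      congr 1
      ring
    rw [h7]
    have h8 : 0 ≤ (k : ℝ) ^ (y - 2 * η) := by positivity
    nlinarith
  have h9 : ((J * k : ℕ) * lam - A (J * k)) / J ≤ 1 / 2 * (k : ℝ) ^ (y - η) :=
    ((div_le_div_of_nonneg_right h2 hJ0.le).trans h3).trans h6
  -- the first term
  have h3x : (1 : ℝ) ≤ 3 ^ x := Real.one_le_rpow (by norm_num) hx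
  have hkx : 1 ≤ (k : ℝ) ^ (x + a * x) := Real.one_le_rpow hk1' (by positivity)
  have hKx : 1 ≤ K * 3 ^ x := by nlinarith
  have hM1 : 1 ≤ M := by rw [hM]; nlinarith
  have h10 : w k * (3 * M + 1) ≤ (k : ℝ) ^ (e / 8) * (4 * M) :=
    mul_le_mul hwk (by linarith) (by linarith) (by positivity)
  have h11 : (k : ℝ) ^ (e / 8) * (4 * M) ≤ 1 / 2 * (k : ℝ) ^ (x + e) := by
    have h12 : (k : ℝ) ^ (e / 8) * (k : ℝ) ^ (x + a * x) ≤ (k : ℝ) ^ (x + 3 * e / 8) := by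
      rw [← Real.rpow_add hk0]
      exact Real.rpow_le_rpow_of_exponent_le hk1' (by linarith)
    have h13 : (k : ℝ) ^ (x + e) = (k : ℝ) ^ (x + 3 * e / 8) * (k : ℝ) ^ (5 * e / 8) := by
      rw [← Real.rpow_add hk0]
      congr 1
      ring
    rw [h13, hM]
    have h14 : 0 ≤ (k : ℝ) ^ (x + 3 * e / 8) := by positivity
    have h15 := mul_le_mul_of_nonneg_left hk1 h14
    have h16 := mul_le_mul_of_nonneg_left h12 (show 0 ≤ 4 * (K * 3 ^ x) by positivity)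
    nlinarith
  have h17 : (k : ℝ) ^ (x + e) ≤ (k : ℝ) ^ max (x + e) (y - η) :=
    Real.rpow_le_rpow_of_exponent_le hk1' (le_max_left _ _)
  have h18 : (k : ℝ) ^ (y - η) ≤ (k : ℝ) ^ max (x + e) (y - η) :=
    Real.rpow_le_rpow_of_exponent_le hk1' (le_max_right _ _)
  linarith

/-- (X): the exponent of the nonrandom fluctuations is at most that of the random ones. -/
theorem numX41 (hE0 : ∀ n : ℕ, 0 ≤ n * lam - A n) (hw1 : ∀ k, 1 ≤ w k)
    (hws : ∀ ε : ℝ, 0 < ε → ∀ᶠ n : ℕ in atTop, w n ≤ (n : ℝ) ^ ε)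
    (hD : ∀ k m : ℕ, 1 ≤ k → A (k + m) - A k - A m ≤ w k * (F (k + m) + F k + F m + 1))
    {C₀ y₀ : ℝ} (hy₀ : y₀ < 1) (hap : ∀ n : ℕ, 1 ≤ n → n * lam - A n ≤ C₀ * (n : ℝ) ^ y₀)
    {x : ℝ} (hx : 0 ≤ x) (hF : ∀ᶠ n : ℕ in atTop, F n ≤ (n : ℝ) ^ x) {e : ℝ} (he : 0 < e) :
    ∀ᶠ n : ℕ in atTop, n * lam - A n ≤ (n : ℝ) ^ (x + e) := by
  set y₁ : ℝ := (y₀ + 1) / 2 with hy₁
  have hy1 : y₁ < 1 := by linarith
  have hy01 : 0 < y₁ - y₀ := by linarith
  set a : ℝ := e / (4 * (x + 1)) with ha'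
  have ha : 0 < a := by positivity
  have hax : a * x ≤ e / 4 := by
    rw [ha', div_mul_eq_mul_div, div_le_div_iff₀ (by positivity) (by norm_num)]
    nlinarith
  set η : ℝ := a * (1 - y₁) / 2 with hη'
  have hη : 0 < η := by
    have : 0 < 1 - y₁ := by linarith
    positivity
  have h0 : ∀ᶠ n : ℕ in atTop, n * lam - A n ≤ (n : ℝ) ^ y₁ := by
    have t2 : Tendsto (fun k : ℕ => (k : ℝ) ^ (y₁ - y₀)) atTop atTop :=
      (tendsto_rpow_atTop hy01).comp tendsto_natCast_atTop_atTop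
    filter_upwards [t2.eventually_ge_atTop C₀, eventually_ge_atTop 1] with n h1 h2
    have hn0 : (0 : ℝ) < n := by exact_mod_cast h2
    refine (hap n h2).trans ?_
    have h3 : (n : ℝ) ^ y₁ = (n : ℝ) ^ (y₁ - y₀) * (n : ℝ) ^ y₀ := by
      rw [← Real.rpow_add hn0]
      congr 1
      ring
    rw [h3]
    exact mul_le_mul_of_nonneg_right h1 (by positivity)
  have hind : ∀ i : ℕ, ∀ᶠ n : ℕ in atTop,
      n * lam - A n ≤ (n : ℝ) ^ max (x + e) (y₁ - i * η) := by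
    intro i
    induction i with
    | zero =>
      filter_upwards [h0, eventually_ge_atTop 1] with n h1 h2
      refine h1.trans (Real.rpow_le_rpow_of_exponent_le (by exact_mod_cast h2) ?_)
      rw [Nat.cast_zero, zero_mul, sub_zero]
      exact le_max_right _ _
    | succ i ih =>
      rcases le_or_gt (y₁ - i * η) (x + e) with h1 | h1
      · filter_upwards [ih, eventually_ge_atTop 1] with n h2 h3
        rw [max_eq_left h1] at h2
        exact h2.trans (Real.rpow_le_rpow_of_exponent_le (by exact_mod_cast h3)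
          (le_max_left _ _))
      · rw [max_eq_right h1.le] at ih
        have hi0 : 0 ≤ (i : ℝ) * η := by positivity
        have h2 := stepX41 (w := w) (F := F) (y := y₁ - i * η) hE0 hw1 hws hD hx he ha hax hη
          (by linarith) (by
            have h3 : 2 * η = a * (1 - y₁) := by rw [hη']; ring
            rw [h3]
            exact mul_le_mul_of_nonneg_left (by linarith) ha.le) hF ih
        have e1 : y₁ - i * η - η = y₁ - ((i + 1 : ℕ) : ℝ) * η := by push_cast; ring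
        rwa [e1] at h2
  obtain ⟨i, hi⟩ := exists_nat_gt ((y₁ - (x + e)) / η)
  rw [div_lt_iff₀ hη] at hi
  filter_upwards [hind i] with n h1
  rwa [max_eq_left (by linarith)] at h1

end Pool.Agent.W_7d29a1_NR.Num41
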