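import Mathlib

/-!
Theorem NR: the weight `C * exp (C * log (k + 2) ^ t)` for an exponent `t < 1`.
-/

set_option autoImplicit false

namespace Pool.Agent.W_7d29a1_NR.WT41

open Filter Topology

/-- Powers beat `exp (C (log n) ^ t)`, `t < 1`. -/
lemma subT41 {t : ℝ} (ht1 : t < 1) (C : ℝ) {ε : ℝ} (hε : 0 < ε) : ∀ᶠ n : ℕ in atTop,
    Real.exp (C * Real.log (n + 2) ^ t) ≤ (n : ℝ) ^ ε := by
  have hlt : Tendsto (fun n : ℕ => Real.log ((n : ℝ) + 2)) atTop atTop :=
    Real.tendsto_log_atTop.comp (tendsto_atTop_add_const_right _ _ tendsto_natCast_atTop_atTop)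
  have hpw : Tendsto (fun n : ℕ => Real.log ((n : ℝ) + 2) ^ (1 - t)) atTop atTop :=
    (tendsto_rpow_atTop (by linarith)).comp hlt
  filter_upwards [hpw.eventually_ge_atTop (2 * |C| / ε), hlt.eventually_ge_atTop 1,
    eventually_ge_atTop 2] with n h4 h2 hn
  have hn2 : (2 : ℝ) ≤ n := by exact_mod_cast hn
  have hn0 : (0 : ℝ) < n := by linarith
  set s := Real.log ((n : ℝ) + 2) with hs'
  have hs0 : 0 < s := by linarith
  have h3 : s ≤ 2 * Real.log n := by
    rw [hs', ← Real.log_rpow hn0]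
    refine Real.log_le_log (by linarith) ?_
    rw [show (2 : ℝ) = ((2 : ℕ) : ℝ) by norm_num, Real.rpow_natCast]
    push_cast
    nlinarith
  have h6 : s ^ t * s ^ (1 - t) = s := by
    rw [← Real.rpow_add hs0]
    simp
  have h7 : 0 ≤ s ^ t := Real.rpow_nonneg hs0.le _
  have h8 : C * s ^ t ≤ ε * Real.log n := by
    have h9 : 2 * |C| ≤ ε * s ^ (1 - t) := by
      rw [div_le_iff₀ hε] at h4
      linarith
    have h10 := mul_le_mul_of_nonneg_left h9 h7
    have h11 : s ^ t * (ε * s ^ (1 - t)) = ε * s := by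
      rw [mul_left_comm, h6]
    have h12 : C * s ^ t ≤ |C| * s ^ t := mul_le_mul_of_nonneg_right (le_abs_self C) h7
    nlinarith
  rw [Real.rpow_def_of_pos hn0]
  exact Real.exp_le_exp.2 (by linarith)

/-- The weight of (D), exponent `t`. -/
noncomputable def wT (t C : ℝ) (k : ℕ) : ℝ := C * Real.exp (C * Real.log (k + 2) ^ t)

lemma wT_one {t C : ℝ} (hC : 1 ≤ C) (k : ℕ) : 1 ≤ wT t C k := by
  unfold wT
  have hl : 0 ≤ Real.log ((k : ℝ) + 2) :=
    Real.log_nonneg (by have : (0 : ℝ) ≤ k := Nat.cast_nonneg k; linarith)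
  have h1 : 1 ≤ Real.exp (C * Real.log (k + 2) ^ t) :=
    Real.one_le_exp (mul_nonneg (by linarith) (Real.rpow_nonneg hl _))
  nlinarith

lemma wT_mono {t C : ℝ} (ht : 0 ≤ t) (hC : 1 ≤ C) : Monotone (wT t C) := by
  intro k l hkl
  unfold wT
  have hk : (0 : ℝ) ≤ k := Nat.cast_nonneg k
  have hkl' : (k : ℝ) ≤ l := by exact_mod_cast hkl
  have hl : 0 ≤ Real.log ((k : ℝ) + 2) := Real.log_nonneg (by linarith)
  refine mul_le_mul_of_nonneg_left (Real.exp_le_exp.2 ?_) (by linarith)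
  refine mul_le_mul_of_nonneg_left (Real.rpow_le_rpow hl ?_ ht) (by linarith)
  exact Real.log_le_log (by linarith) (by linarith)

lemma wT_sub {t : ℝ} (ht1 : t < 1) (C : ℝ) (ε : ℝ) (hε : 0 < ε) :
    ∀ᶠ n : ℕ in atTop, wT t C n ≤ (n : ℝ) ^ ε := by
  have t1 : Tendsto (fun k : ℕ => (k : ℝ) ^ (ε / 2)) atTop atTop :=
    (tendsto_rpow_atTop (by positivity)).comp tendsto_natCast_atTop_atTop
  filter_upwards [subT41 ht1 C (half_pos hε), t1.eventually_ge_atTop C, eventually_ge_atTop 1]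
    with n h1 h2 h3
  have hn : (0 : ℝ) < n := by exact_mod_cast h3
  have e1 : (n : ℝ) ^ ε = (n : ℝ) ^ (ε / 2) * (n : ℝ) ^ (ε / 2) := by
    rw [← Real.rpow_add hn]
    congr 1
    ring
  unfold wT
  rw [e1]
  exact mul_le_mul h2 h1 (Real.exp_pos _).le (by positivity)

end Pool.Agent.W_7d29a1_NR.WT41
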