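import Pool.Agent.W_7d29a1_NR.DefsU45
import Pool.Agent.W_7d29a1_NR.Num41
import Pool.Agent.W_7d29a1_NR.WT41
import Pool.Agent.W_7d29a1_h46u.RateU

/-!
Theorem NR (helper11): the consequences of the gap bound: the local bound, the exponents, the
polynomial alternative.
-/

namespace Pool.Agent.W_7d29a1_NR

open MeasureTheory ProbabilityTheory Filter Topology Pool.Agent.W_MP_7d29a1_pr
  Pool.Agent.W_7d29a1_h46 Pool.Agent.W_7d29a1_h46u Pool.Agent.W_7d29a1_D2.B35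
  Pool.Agent.W_7d29a1_Q29 Pool.Agent.W_7d29a1_R34 Pool.Agent.W_7d29a1_SP

variable {d : ℕ} {ρ : Measure ℝ} [IsProbabilityMeasure ρ] {β : ℝ}

omit [IsProbabilityMeasure ρ] in
lemma Va_nonneg11 (h : Vec d) (n : ℕ) : 0 ≤ Va ρ β h n := integral_nonneg fun _ => sq_nonneg _

omit [IsProbabilityMeasure ρ] in
lemma Sg_sq11 (h : Vec d) (n : ℕ) : Sg ρ β h n ^ 2 = Va ρ β h n :=
  Real.sq_sqrt (Va_nonneg11 h n)

/-- The a priori bound, every tilt. -/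
lemma apr11 (hd : 0 < d) (hρ : EM ρ) (β : ℝ) (h : Vec d) : ∃ C₀ : ℝ, ∀ n : ℕ, 1 ≤ n →
    n * lam ρ β h - A ρ β h n ≤ C₀ * (n : ℝ) ^ (2 / 3 : ℝ) := by
  obtain ⟨δ, hδ, C, _, H⟩ := rateU (β := β) (h := h) hd hρ (by norm_num : (0 : ℝ) ≤ 1 / 2)
    (Fl_half hd hρ β h) (ε := 1 / 6) (by norm_num) (by norm_num)
  refine ⟨C, fun n hn => ?_⟩
  have h1 := H h (by rw [sub_self, norm_zero]; exact hδ) n hn
  have e : (1 / 2 + 1 / 6 : ℝ) = 2 / 3 := by norm_num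
  rwa [e] at h1

/-- (L). -/
theorem corL11 (hd : 0 < d) (hρ : EM ρ) (hN : NrS d ρ β) : ∃ θ : ℝ, θ < 1 ∧ ∀ h : Vec d,
    ∃ C : ℝ, ∀ (k : ℕ) (M : ℝ), 1 ≤ k → (∀ n : ℕ, n ≤ k ^ 3 → Va ρ β h n ≤ M ^ 2) → 0 ≤ M →
      En ρ β h k ≤ (1 + M) * Real.exp (C * (1 + Real.log (k + 2) ^ θ)) := by
  obtain ⟨C, θ, hC, hθ0, hθ1, hD⟩ := hN
  refine ⟨θ, hθ1, fun h => ?_⟩
  obtain ⟨C₀, hap⟩ := apr11 hd hρ β h
  have hE0 : ∀ n : ℕ, 0 ≤ n * lam ρ β h - A ρ β h n := fun n => by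
    have := A_le_lam hd hρ β h n
    linarith
  have hL := Num41.numL41 (A := A ρ β h) (F := Sg ρ β h) (w := WT41.wT θ C) hE0
    (fun n => Real.sqrt_nonneg _) (WT41.wT_one hC) (fun k m _ => hD h k m) hap
  refine ⟨C + (3 + |C₀|) * C, fun k M hk hM hM0 => ?_⟩
  have h1 := hL k M hk fun n hn => Real.sqrt_le_iff.2 ⟨hM0, hM n hn⟩
  refine h1.trans ?_
  have hC0 := abs_nonneg C₀
  have hk0 : (0 : ℝ) ≤ k := Nat.cast_nonneg k
  have hl : 0 ≤ Real.log ((k : ℝ) + 2) ^ θ :=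
    Real.rpow_nonneg (Real.log_nonneg (by linarith)) _
  have h2 : (3 + |C₀|) * C ≤ Real.exp ((3 + |C₀|) * C) := by
    have := Real.add_one_le_exp ((3 + |C₀|) * C)
    linarith
  have e : (3 + |C₀|) * (1 + M) * WT41.wT θ C k =
      (1 + M) * ((3 + |C₀|) * C * Real.exp (C * Real.log (k + 2) ^ θ)) := by
    unfold WT41.wT
    ring
  rw [e]
  refine mul_le_mul_of_nonneg_left ?_ (by linarith)
  calc (3 + |C₀|) * C * Real.exp (C * Real.log (k + 2) ^ θ)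
      ≤ Real.exp ((3 + |C₀|) * C) * Real.exp (C * Real.log (k + 2) ^ θ) :=
        mul_le_mul_of_nonneg_right h2 (Real.exp_pos _).le
    _ = Real.exp ((3 + |C₀|) * C + C * Real.log (k + 2) ^ θ) := by rw [← Real.exp_add]
    _ ≤ _ := by
        refine Real.exp_le_exp.2 ?_
        have : 0 ≤ (3 + |C₀|) * C * Real.log ((k : ℝ) + 2) ^ θ := by positivity
        nlinarith

/-- (X). -/
theorem corX11 (hd : 0 < d) (hρ : EM ρ) (hN : NrS d ρ β) (h : Vec d) {x ε : ℝ} (hx : 0 ≤ x)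
    (hε : 0 < ε) (hV : ∀ᶠ n : ℕ in atTop, Va ρ β h n ≤ (n : ℝ) ^ x) :
    ∀ᶠ n : ℕ in atTop, Va ρ β h n + En ρ β h n ^ 2 ≤ (n : ℝ) ^ (x + ε) := by
  obtain ⟨C, θ, hC, hθ0, hθ1, hD⟩ := hN
  obtain ⟨C₀, hap⟩ := apr11 hd hρ β h
  have hE0 : ∀ n : ℕ, 0 ≤ n * lam ρ β h - A ρ β h n := fun n => by
    have := A_le_lam hd hρ β h n
    linarith
  have hF : ∀ᶠ n : ℕ in atTop, Sg ρ β h n ≤ (n : ℝ) ^ (x / 2) := by
    filter_upwards [hV] with n hn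
    refine Real.sqrt_le_iff.2 ⟨Real.rpow_nonneg (Nat.cast_nonneg n) _, ?_⟩
    rw [← Real.rpow_natCast, ← Real.rpow_mul (Nat.cast_nonneg n)]
    have : x / 2 * ((2 : ℕ) : ℝ) = x := by push_cast; ring
    rwa [this]
  have hX := Num41.numX41 (A := A ρ β h) (F := Sg ρ β h) (w := WT41.wT θ C) hE0
    (WT41.wT_one hC) (WT41.wT_sub hθ1 C) (fun k m _ => hD h k m)
    (by norm_num : (2 / 3 : ℝ) < 1) hap (x := x / 2) (by linarith) hF (e := ε / 4) (by linarith)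
  have hb : Tendsto (fun n : ℕ => (n : ℝ) ^ (ε / 2)) atTop atTop :=
    (tendsto_rpow_atTop (by positivity)).comp tendsto_natCast_atTop_atTop
  filter_upwards [hV, hX, hb.eventually_ge_atTop 2, eventually_ge_atTop 1] with n h1 h2 h3 h4
  have hn1 : (1 : ℝ) ≤ n := by exact_mod_cast h4
  have hn0 : (0 : ℝ) < n := by linarith
  have h5 : En ρ β h n ^ 2 ≤ (n : ℝ) ^ (x + ε / 2) := by
    have h6 : En ρ β h n ^ 2 ≤ ((n : ℝ) ^ (x / 2 + ε / 4)) ^ 2 :=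
      pow_le_pow_left₀ (hE0 n) h2 2
    have h7 : ((n : ℝ) ^ (x / 2 + ε / 4)) ^ 2 = (n : ℝ) ^ (x + ε / 2) := by
      rw [← Real.rpow_natCast, ← Real.rpow_mul hn0.le]
      congr 1
      push_cast
      ring
    rwa [h7] at h6
  have h7 : (n : ℝ) ^ x ≤ (n : ℝ) ^ (x + ε / 2) :=
    Real.rpow_le_rpow_of_exponent_le hn1 (by linarith)
  have h8 : (n : ℝ) ^ (x + ε) = (n : ℝ) ^ (x + ε / 2) * (n : ℝ) ^ (ε / 2) := by
    rw [← Real.rpow_add hn0]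
    congr 1
    ring
  have h9 : 0 < (n : ℝ) ^ (x + ε / 2) := Real.rpow_pos_of_pos hn0 _
  rw [h8]
  nlinarith

/-- (P). -/
theorem corP11 (hd : 0 < d) (hρ : EM ρ) (hN : NrS d ρ β) (h : Vec d) {e : ℝ} (he : 0 < e)
    (hP : ∀ᶠ n : ℕ in atTop, ∃ m : ℕ, m ≤ n ∧ (n : ℝ) ^ e ≤ Va ρ β h m + En ρ β h m ^ 2) :
    ∃ θ : ℝ, 0 < θ ∧ ∀ᶠ n : ℕ in atTop, ∃ m : ℕ, m ≤ n ∧ (n : ℝ) ^ θ ≤ Va ρ β h m := by
  obtain ⟨C, θ, hC, hθ0, hθ1, hD⟩ := hN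
  obtain ⟨C₀, hap⟩ := apr11 hd hρ β h
  have hE0 : ∀ n : ℕ, 0 ≤ n * lam ρ β h - A ρ β h n := fun n => by
    have := A_le_lam hd hρ β h n
    linarith
  have hF0 : ∀ n, 0 ≤ Sg ρ β h n := fun n => Real.sqrt_nonneg _
  have hP' : ∀ᶠ n : ℕ in atTop, ∃ m ≤ n, (n : ℝ) ^ (e / 2) ≤
      (m * lam ρ β h - A ρ β h m) + Sg ρ β h m := by
    filter_upwards [hP] with n hn
    obtain ⟨m, hm, h1⟩ := hn
    refine ⟨m, hm, ?_⟩
    have h2 : ((n : ℝ) ^ (e / 2)) ^ 2 = (n : ℝ) ^ e := by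
      rw [← Real.rpow_natCast, ← Real.rpow_mul (Nat.cast_nonneg n)]
      congr 1
      push_cast
      ring
    have h3 : ((n : ℝ) ^ (e / 2)) ^ 2 ≤ ((m * lam ρ β h - A ρ β h m) + Sg ρ β h m) ^ 2 := by
      rw [h2]
      refine h1.trans ?_
      have h4 : En ρ β h m = m * lam ρ β h - A ρ β h m := rfl
      rw [h4, ← Sg_sq11]
      have := mul_nonneg (hE0 m) (hF0 m)
      nlinarith
    exact (pow_le_pow_iff_left₀ (Real.rpow_nonneg (Nat.cast_nonneg n) _)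
      (add_nonneg (hE0 m) (hF0 m)) two_ne_zero).1 h3
  obtain ⟨θ', hθ', h1⟩ := Num41.numP41 (A := A ρ β h) (F := Sg ρ β h) (w := WT41.wT θ C) hE0
    hF0 (WT41.wT_one hC) (WT41.wT_mono hθ0.le hC) (WT41.wT_sub hθ1 C)
    (fun k m _ => hD h k m) hap (e := e / 2) (by linarith) hP'
  refine ⟨θ' * 2, by linarith, ?_⟩
  filter_upwards [h1] with n hn
  obtain ⟨m, hm, h2⟩ := hn
  refine ⟨m, hm, ?_⟩
  rw [Real.rpow_mul (Nat.cast_nonneg n), ← Sg_sq11]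
  have h3 := pow_le_pow_left₀ (Real.rpow_nonneg (Nat.cast_nonneg n) _) h2 2
  rw [← Real.rpow_natCast ((n : ℝ) ^ θ')] at h3
  exact_mod_cast h3

end Pool.Agent.W_7d29a1_NR
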