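import Pool.Agent.W_7d29a1_NR.DefsR11
import Pool.Agent.W_7d29a1_SP.Amp84

/-!
DEL (helper11): the numbers of theorem NR, from the transferred halving lemma and the split.
-/

namespace Pool.Agent.W_7d29a1_NR

namespace Del11

open MeasureTheory ProbabilityTheory Filter Topology Pool.Agent.W_MP_7d29a1_pr
  Pool.Agent.W_7d29a1_h46 Pool.Agent.W_7d29a1_h46u Pool.Agent.W_7d29a1_D2.B35
  Pool.Agent.W_7d29a1_Q29 Pool.Agent.W_7d29a1_R34 Pool.Agent.W_7d29a1_SP

lemma markov {Ω : Type*} [MeasurableSpace Ω] {P : Measure Ω} [IsProbabilityMeasure P] {f : Ω → ℝ}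
    (hf : Integrable f P) {B t : ℝ} (hB : ∫ ω, |f ω| ∂P ≤ B) (ht : 0 < t) :
    P.real {ω | t ≤ |f ω|} ≤ B / t := by
  have h := mul_meas_ge_le_integral_of_nonneg (μ := P) (f := fun ω => |f ω|)
    (Eventually.of_forall fun ω => abs_nonneg _) hf.abs t
  rw [le_div_iff₀ ht, mul_comm]
  exact h.trans hB

/-- the number of halvings -/
def JJ (d k : ℕ) : ℕ := d * Nat.clog 2 (2 * k + 1) + 1

lemma JJ_card (d k : ℕ) : (boxF d k).card ≤ 2 ^ JJ d k := by
  rw [card_boxF]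
  calc (2 * k + 1) ^ d ≤ (2 ^ Nat.clog 2 (2 * k + 1)) ^ d :=
        Nat.pow_le_pow_left (Nat.le_pow_clog (by norm_num) _) d
    _ = 2 ^ (d * Nat.clog 2 (2 * k + 1)) := by rw [← pow_mul, mul_comm]
    _ ≤ 2 ^ JJ d k := Nat.pow_le_pow_right (by norm_num) (Nat.le_succ _)

lemma JJ_le (d k : ℕ) : (JJ d k : ℝ) ≤ (3 * d + 1) / Real.log 2 * Real.log (k + 2) := by
  have l2 : 0 < Real.log 2 := Real.log_pos (by norm_num)
  have hk : (0 : ℝ) ≤ k := Nat.cast_nonneg k
  have hL : Real.log 2 ≤ Real.log (k + 2) := Real.log_le_log (by norm_num) (by linarith)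
  have hL1 : 1 ≤ Real.log (k + 2) / Real.log 2 := by rwa [le_div_iff₀ l2, one_mul]
  have h1 : (Nat.clog 2 (2 * k + 1) : ℝ) ≤ 3 * (Real.log (k + 2) / Real.log 2) := by
    rcases Nat.eq_zero_or_pos k with h0 | hk0
    · subst h0
      have : Nat.clog 2 (2 * 0 + 1) = 0 := by simp
      rw [this]
      push_cast
      linarith
    · have h2 := Nat.pow_pred_clog_lt_self (b := 2) (by norm_num) (x := 2 * k + 1) (by omega)
      have h3 : ((2 : ℝ)) ^ (Nat.clog 2 (2 * k + 1)).pred ≤ ((k : ℝ) + 2) ^ 2 := by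
        have h4 : ((2 ^ (Nat.clog 2 (2 * k + 1)).pred : ℕ) : ℝ) < ((2 * k + 1 : ℕ) : ℝ) := by
          exact_mod_cast h2
        push_cast at h4
        nlinarith
      have h5 := Real.log_le_log (by positivity) h3
      rw [Real.log_pow, Real.log_pow] at h5
      have h6 : (Nat.clog 2 (2 * k + 1) : ℝ) ≤ ((Nat.clog 2 (2 * k + 1)).pred : ℝ) + 1 := by
        have : Nat.clog 2 (2 * k + 1) ≤ (Nat.clog 2 (2 * k + 1)).pred + 1 :=
          Nat.le_succ_of_pred_le le_rfl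
        exact_mod_cast this
      have h7 : ((Nat.clog 2 (2 * k + 1)).pred : ℝ) ≤ 2 * (Real.log (k + 2) / Real.log 2) := by
        rw [← mul_div_assoc, le_div_iff₀ l2]
        push_cast at h5
        exact h5
      linarith
  unfold JJ
  push_cast
  have hd : (0 : ℝ) ≤ d := Nat.cast_nonneg d
  have h8 : (d : ℝ) * (Nat.clog 2 (2 * k + 1) : ℝ) ≤ d * (3 * (Real.log (k + 2) / Real.log 2)) :=
    mul_le_mul_of_nonneg_left h1 hd
  calc (d : ℝ) * (Nat.clog 2 (2 * k + 1) : ℝ) + 1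
      ≤ d * (3 * (Real.log (k + 2) / Real.log 2)) + Real.log (k + 2) / Real.log 2 := by linarith
    _ = (3 * d + 1) / Real.log 2 * Real.log (k + 2) := by ring

/-- the numbers -/
lemma nums {J : ℕ} (hJ : 1 ≤ J) {c κ G B F : ℝ} (hc : c = (J : ℝ) ^ (-(1 / 3 : ℝ)))
    (hκ0 : 0 < κ) (hκ : A84.cA * Real.exp (-(4 + 4 / c) ^ 2) ≤ κ) (hG : 1 ≤ G) (hB : B ≤ G)
    (hB0 : 0 ≤ B) (hF : F ≤ G) :
    2 * B + 2 * F + (2 * B + B / κ + 3) * (1 + c) ^ J / c ≤
      (9 + 1 / A84.cA) * G * Real.exp (66 * (J : ℝ) ^ (2 / 3 : ℝ)) := by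
  have hJ1 : (1 : ℝ) ≤ J := by exact_mod_cast hJ
  have hJ0 : (0 : ℝ) < J := by linarith
  have hA := A84.cA_pos
  obtain ⟨x, hx⟩ : ∃ x : ℝ, x = (J : ℝ) ^ (2 / 3 : ℝ) := ⟨_, rfl⟩
  obtain ⟨y, hy⟩ : ∃ y : ℝ, y = (J : ℝ) ^ (1 / 3 : ℝ) := ⟨_, rfl⟩
  have hy1 : 1 ≤ y := by rw [hy]; exact Real.one_le_rpow hJ1 (by norm_num)
  have hyx : y ^ 2 = x := by
    rw [hy, hx, ← Real.rpow_natCast, ← Real.rpow_mul hJ0.le]
    norm_num
  have hx1 : 1 ≤ x := by nlinarith
  have hyle : y ≤ x := by nlinarith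
  have hcy : c = 1 / y := by
    rw [hc, hy, Real.rpow_neg hJ0.le]
    exact (one_div _).symm
  have hc0 : 0 < c := by rw [hcy]; positivity
  have hcinv : 1 / c = y := by rw [hcy]; field_simp
  have hcJ : c * J = x := by
    rw [hc, hx]
    nth_rewrite 2 [← Real.rpow_one (J : ℝ)]
    rw [← Real.rpow_add hJ0]
    norm_num
  have e1 : (1 + c) ^ J ≤ Real.exp x := by
    calc (1 + c) ^ J ≤ (Real.exp c) ^ J := by
          refine pow_le_pow_left₀ (by linarith) ?_ J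
          have := Real.add_one_le_exp c
          linarith
      _ = Real.exp x := by rw [← Real.exp_nat_mul, mul_comm, hcJ]
  have e2 : 1 / c ≤ Real.exp x := by
    rw [hcinv]
    have := Real.add_one_le_exp x
    linarith
  have e3 : 1 / κ ≤ 1 / A84.cA * Real.exp (64 * x) := by
    have h1 : A84.cA * Real.exp (-(64 * x)) ≤ κ := by
      refine le_trans (mul_le_mul_of_nonneg_left (Real.exp_le_exp.2 ?_) hA.le) hκ
      have h2 : 4 / c = 4 * y := by rw [← hcinv]; ring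
      rw [h2]
      nlinarith
    calc 1 / κ ≤ 1 / (A84.cA * Real.exp (-(64 * x))) := one_div_le_one_div_of_le (by positivity) h1
      _ = 1 / A84.cA * Real.exp (64 * x) := by
          rw [Real.exp_neg]
          field_simp
  have p64 : 1 ≤ Real.exp (64 * x) := Real.one_le_exp (by linarith)
  have e4 : 2 * B + B / κ + 3 ≤ (5 + 1 / A84.cA) * G * Real.exp (64 * x) := by
    have h1 : B / κ ≤ G * (1 / A84.cA * Real.exp (64 * x)) := by
      calc B / κ = B * (1 / κ) := by ring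
        _ ≤ G * (1 / A84.cA * Real.exp (64 * x)) := by
            refine mul_le_mul hB e3 (by positivity) (by linarith)
    have h2 : 2 * B + 3 ≤ 5 * G * Real.exp (64 * x) := by
      have : 5 * G * 1 ≤ 5 * G * Real.exp (64 * x) :=
        mul_le_mul_of_nonneg_left p64 (by linarith)
      linarith
    calc 2 * B + B / κ + 3 ≤ 5 * G * Real.exp (64 * x) + G * (1 / A84.cA * Real.exp (64 * x)) := by
          linarith
      _ = _ := by ring
  have e5 : (2 * B + B / κ + 3) * (1 + c) ^ J / c ≤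
      (5 + 1 / A84.cA) * G * Real.exp (66 * x) := by
    calc (2 * B + B / κ + 3) * (1 + c) ^ J / c = (2 * B + B / κ + 3) * ((1 + c) ^ J * (1 / c)) := by
          ring
      _ ≤ ((5 + 1 / A84.cA) * G * Real.exp (64 * x)) * (Real.exp x * Real.exp x) := by
          refine mul_le_mul e4 (mul_le_mul e1 e2 (by positivity) (Real.exp_pos _).le)
            (by positivity) (by positivity)
      _ = (5 + 1 / A84.cA) * G * Real.exp (66 * x) := by
          rw [← Real.exp_add, mul_assoc, ← Real.exp_add]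
          congr 2
          ring
  have p66 : 1 ≤ Real.exp (66 * x) := Real.one_le_exp (by linarith)
  have e6 : 2 * B + 2 * F ≤ 4 * G * Real.exp (66 * x) := by
    have : 4 * G * 1 ≤ 4 * G * Real.exp (66 * x) := mul_le_mul_of_nonneg_left p66 (by linarith)
    linarith
  rw [← hx]
  calc 2 * B + 2 * F + (2 * B + B / κ + 3) * (1 + c) ^ J / c
      ≤ 4 * G * Real.exp (66 * x) + (5 + 1 / A84.cA) * G * Real.exp (66 * x) := by linarith
    _ = _ := by ring

variable {d : ℕ} {ρ : Measure ℝ} {β : ℝ}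

lemma Fn_nonneg (h : Vec d) (n : ℕ) : 0 ≤ Fn ρ β h n := integral_nonneg fun _ => abs_nonneg _

end Del11

open MeasureTheory ProbabilityTheory Filter Topology Pool.Agent.W_MP_7d29a1_pr
  Pool.Agent.W_7d29a1_h46 Pool.Agent.W_7d29a1_h46u Pool.Agent.W_7d29a1_D2.B35
  Pool.Agent.W_7d29a1_Q29 Pool.Agent.W_7d29a1_R34 Pool.Agent.W_7d29a1_SP

open Del11 in
/-- **DEL**, from TRA and SPL. -/
theorem del11 {d : ℕ} {ρ : Measure ℝ} [IsProbabilityMeasure ρ] {β : ℝ}
    (hX : ∀ (h : Vec d) (n : ℕ), Integrable (fun η => X β h η n) (law d ρ))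
    (hT : TraP d ρ β) (hS : SplP d ρ β) : DelP d ρ β := by
  classical
  have hA := A84.cA_pos
  have l2 : 0 < Real.log 2 := Real.log_pos (by norm_num)
  refine ⟨(9 + 1 / A84.cA) + 66 * ((3 * d + 1) / Real.log 2) ^ (2 / 3 : ℝ), ?_, ?_⟩
  · have h1 : 0 ≤ 1 / A84.cA := by positivity
    have h2 : 0 ≤ 66 * (((3 * d + 1) / Real.log 2) ^ (2 / 3 : ℝ) : ℝ) := by positivity
    linarith
  intro h k m
  obtain ⟨w, hw0, hw1, hsum, hint, hbd⟩ := hS h k m
  obtain ⟨δ, hδ⟩ : ∃ δ : ℝ, δ = A ρ β h (k + m) - A ρ β h k - A ρ β h m := ⟨_, rfl⟩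
  rw [← hδ] at hbd ⊢
  obtain ⟨S, hSd⟩ : ∃ S : Finset (Site d), S = (boxF d k).filter fun y => w y ≠ 0 := ⟨_, rfl⟩
  have hSsub : S ⊆ boxF d k := by rw [hSd]; exact Finset.filter_subset _ _
  have hg : ∀ η, gain d ρ β h m S w η = gain d ρ β h m (boxF d k) w η := by
    intro η
    unfold gain
    congr 1
    refine Finset.sum_subset hSsub fun y hy hyS => ?_
    have : w y = 0 := by
      by_contra hne
      exact hyS (by rw [hSd]; exact Finset.mem_filter.2 ⟨hy, hne⟩)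
    rw [this, zero_mul]
  have hSne : S.Nonempty := by
    rw [Finset.nonempty_iff_ne_empty]
    intro h0
    have h1 : ∑ y ∈ boxF d k, w y = ∑ y ∈ S, w y := by
      refine (Finset.sum_subset hSsub fun y hy hyS => ?_).symm
      by_contra hne
      exact hyS (by rw [hSd]; exact Finset.mem_filter.2 ⟨hy, hne⟩)
    rw [h0, Finset.sum_empty, hsum] at h1
    exact one_ne_zero h1
  have hcard : S.card ≤ 2 ^ JJ d k := (Finset.card_le_card hSsub).trans (JJ_card d k)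
  have hwS : ∀ y ∈ S, 0 < w y ∧ w y ≤ 1 := fun y hy => by
    rw [hSd, Finset.mem_filter] at hy
    exact ⟨lt_of_le_of_ne (hw0 y) (Ne.symm hy.2), hw1 y⟩
  obtain ⟨J, hJ⟩ : ∃ J : ℕ, J = JJ d k := ⟨_, rfl⟩
  have hJ1 : 1 ≤ J := by rw [hJ]; exact Nat.le_add_left 1 _
  have hJr : (1 : ℝ) ≤ J := by exact_mod_cast hJ1
  obtain ⟨c, hc⟩ : ∃ c : ℝ, c = (J : ℝ) ^ (-(1 / 3 : ℝ)) := ⟨_, rfl⟩
  have hc0 : 0 < c := by rw [hc]; exact Real.rpow_pos_of_pos (by linarith) _
  have hc1 : c ≤ 1 := by rw [hc]; exact Real.rpow_le_one_of_one_le_of_nonpos hJr (by norm_num)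
  obtain ⟨κ, hκ⟩ : ∃ κ : ℝ, κ = Ehr.Phi (-(4 + 4 / c)) := ⟨_, rfl⟩
  have hκ0 : 0 < κ := by rw [hκ]; exact Ehr.Phi_pos _
  have hκ1 : A84.cA * Real.exp (-(4 + 4 / c) ^ 2) ≤ κ := by
    rw [hκ]
    exact A84.Phi_lower (by positivity)
  have f1 := Fn_nonneg (ρ := ρ) (β := β) h (k + m)
  have f2 := Fn_nonneg (ρ := ρ) (β := β) h k
  have f3 := Fn_nonneg (ρ := ρ) (β := β) h m
  obtain ⟨B, hB⟩ : ∃ B : ℝ, B = Fn ρ β h (k + m) + Fn ρ β h k + 1 := ⟨_, rfl⟩
  have hB0 : 0 < B := by rw [hB]; linarith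
  obtain ⟨a, ha⟩ : ∃ a : ℝ, a = 2 * B + B / κ := ⟨_, rfl⟩
  have ha0 : 0 ≤ a := by rw [ha]; positivity
  have hgi : Integrable (fun η => gain d ρ β h m (boxF d k) w η - δ) (law d ρ) :=
    hint.sub (integrable_const _)
  have main := hT h m S w J c a (δ - 2 * B) (2 * Fn ρ β h m) hSne (hJ ▸ hcard) hwS hc0 hc1 ha0
    ?_ ?_ ?_
  · have hn := nums (J := J) hJ1 (G := Fn ρ β h (k + m) + Fn ρ β h k + Fn ρ β h m + 1) (B := B)
      (F := Fn ρ β h m) hc hκ0 hκ1 (by linarith) (by rw [hB]; linarith) hB0.le (by linarith)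
    rw [← ha] at hn
    obtain ⟨G, hG⟩ : ∃ G : ℝ, G = Fn ρ β h (k + m) + Fn ρ β h k + Fn ρ β h m + 1 := ⟨_, rfl⟩
    rw [← hG] at hn ⊢
    have hG1 : 1 ≤ G := by rw [hG]; linarith
    have h1 : δ ≤ (9 + 1 / A84.cA) * G * Real.exp (66 * (J : ℝ) ^ (2 / 3 : ℝ)) := by linarith
    obtain ⟨C₁, hC₁⟩ : ∃ C₁ : ℝ, C₁ = (3 * d + 1) / Real.log 2 := ⟨_, rfl⟩
    have hC₁0 : 0 ≤ C₁ := by rw [hC₁]; positivity
    rw [← hC₁]
    have hL0 : 0 ≤ Real.log ((k : ℝ) + 2) := Real.log_nonneg (by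
      have : (0 : ℝ) ≤ k := Nat.cast_nonneg k
      linarith)
    have h2 : (J : ℝ) ^ (2 / 3 : ℝ) ≤ C₁ ^ (2 / 3 : ℝ) * Real.log (k + 2) ^ (2 / 3 : ℝ) := by
      rw [← Real.mul_rpow hC₁0 hL0]
      refine Real.rpow_le_rpow (by positivity) ?_ (by norm_num)
      rw [hJ, hC₁]
      exact JJ_le d k
    have hC2 : 0 ≤ C₁ ^ (2 / 3 : ℝ) := Real.rpow_nonneg hC₁0 _
    have hL2 : 0 ≤ Real.log ((k : ℝ) + 2) ^ (2 / 3 : ℝ) := Real.rpow_nonneg hL0 _
    have hA1 : 0 ≤ 1 / A84.cA := by positivity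
    have h3 : Real.exp (66 * (J : ℝ) ^ (2 / 3 : ℝ)) ≤
        Real.exp ((9 + 1 / A84.cA + 66 * C₁ ^ (2 / 3 : ℝ)) * Real.log (k + 2) ^ (2 / 3 : ℝ)) := by
      refine Real.exp_le_exp.2 ?_
      have h4 : 0 ≤ (9 + 1 / A84.cA) * Real.log ((k : ℝ) + 2) ^ (2 / 3 : ℝ) := by positivity
      nlinarith
    calc δ ≤ (9 + 1 / A84.cA) * G * Real.exp (66 * (J : ℝ) ^ (2 / 3 : ℝ)) := h1
      _ ≤ (9 + 1 / A84.cA + 66 * C₁ ^ (2 / 3 : ℝ)) * G *
          Real.exp ((9 + 1 / A84.cA + 66 * C₁ ^ (2 / 3 : ℝ)) * Real.log (k + 2) ^ (2 / 3 : ℝ)) := by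
        refine mul_le_mul ?_ h3 (Real.exp_pos _).le (by positivity)
        refine mul_le_mul_of_nonneg_right ?_ (by linarith)
        linarith
  · intro u hu
    have hu0 : 0 < u := by linarith
    have h1 := markov (P := law d ρ) (f := fun η => X β h η m - A ρ β h m)
      ((hX h m).sub (integrable_const _)) (B := Fn ρ β h m) le_rfl hu0
    have h2 : (law d ρ).real {η | A ρ β h m + u ≤ X β h η m} ≤
        (law d ρ).real {η | u ≤ |X β h η m - A ρ β h m|} := by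
      refine measureReal_mono fun η hη => ?_
      have hη' : A ρ β h m + u ≤ X β h η m := hη
      show u ≤ |X β h η m - A ρ β h m|
      exact le_trans (by linarith) (le_abs_self _)
    have h3 : Fn ρ β h m / u < 1 / 2 := by
      rw [div_lt_iff₀ hu0]
      linarith
    linarith
  · have h1 := markov (P := law d ρ) hgi (B := Fn ρ β h (k + m) + Fn ρ β h k) hbd
      (t := 2 * B) (by linarith)
    have h2 : (Fn ρ β h (k + m) + Fn ρ β h k) / (2 * B) ≤ 1 / 2 := by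
      rw [div_le_iff₀ (by linarith)]
      linarith
    have hmeas : NullMeasurableSet {η | 2 * B ≤ |gain d ρ β h m (boxF d k) w η - δ|} (law d ρ) :=
      nullMeasurableSet_le aemeasurable_const hgi.abs.aestronglyMeasurable.aemeasurable
    have h3 : (law d ρ).real {η | 2 * B ≤ |gain d ρ β h m (boxF d k) w η - δ|}ᶜ =
        1 - (law d ρ).real {η | 2 * B ≤ |gain d ρ β h m (boxF d k) w η - δ|} :=
      probReal_compl_eq_one_sub₀ hmeas
    have h4 : (law d ρ).real {η | 2 * B ≤ |gain d ρ β h m (boxF d k) w η - δ|}ᶜ ≤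
        (law d ρ).real {η | δ - 2 * B ≤ gain d ρ β h m S w η} := by
      refine measureReal_mono fun η hη => ?_
      have hη' : ¬ (2 * B ≤ |gain d ρ β h m (boxF d k) w η - δ|) := hη
      push Not at hη'
      show δ - 2 * B ≤ gain d ρ β h m S w η
      rw [hg]
      have := (abs_lt.1 hη').1
      linarith
    linarith
  · have hpos : 0 < B / κ := by positivity
    have h1 := markov (P := law d ρ) hgi (B := Fn ρ β h (k + m) + Fn ρ β h k) hbd
      (t := B / κ) hpos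
    have h2 : (Fn ρ β h (k + m) + Fn ρ β h k) / (B / κ) < κ := by
      rw [div_lt_iff₀ hpos]
      have : κ * (B / κ) = B := by field_simp
      rw [this]
      linarith
    have h4 : (law d ρ).real {η | δ - 2 * B + a < gain d ρ β h m S w η} ≤
        (law d ρ).real {η | B / κ ≤ |gain d ρ β h m (boxF d k) w η - δ|} := by
      refine measureReal_mono fun η hη => ?_
      have hη' : δ - 2 * B + a < gain d ρ β h m S w η := hη
      rw [hg, ha] at hη'
      show B / κ ≤ |gain d ρ β h m (boxF d k) w η - δ|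
      exact le_trans (by linarith) (le_abs_self _)
    rw [← hκ]
    linarith

end Pool.Agent.W_7d29a1_NR
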