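import Pool.Agent.W_7d29a1_NR.Spl45
import Pool.Agent.W_7d29a1_Q29.Npb39

/-!
Theorem NR, the split at the time `k`, with the second moment.
-/

namespace Pool.Agent.W_7d29a1_NR

open MeasureTheory ProbabilityTheory Filter Topology Pool.Agent.W_MP_7d29a1_pr
  Pool.Agent.W_7d29a1_h46 Pool.Agent.W_7d29a1_h46u Pool.Agent.W_7d29a1_D2.B35
  Pool.Agent.W_7d29a1_Q29 Pool.Agent.W_7d29a1_SP

/-- The split, second moment: the variables `G - (A (k + m) - A k - A m)` for one good environment
of the rows `≤ k`. -/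
def SplS (d : ℕ) (ρ : Measure ℝ) (β : ℝ) : Prop := ∀ (h : Vec d) (k m : ℕ),
  ∃ μ : Site d → ℝ, (∀ y, 0 ≤ μ y) ∧ (∀ y, μ y ≤ 1) ∧ ∑ y ∈ boxF d k, μ y = 1 ∧
    Integrable (fun ξ => Real.log (∑ y ∈ boxF d k,
      μ y * Real.exp (X β h (sh 0 y ξ) m - A ρ β h m))) (law d ρ) ∧
    Integrable (fun ξ => (Real.log (∑ y ∈ boxF d k,
      μ y * Real.exp (X β h (sh 0 y ξ) m - A ρ β h m)) -
      (A ρ β h (k + m) - A ρ β h k - A ρ β h m)) ^ 2) (law d ρ) ∧
    ∫ ξ, (Real.log (∑ y ∈ boxF d k, μ y * Real.exp (X β h (sh 0 y ξ) m - A ρ β h m)) -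
      (A ρ β h (k + m) - A ρ β h k - A ρ β h m)) ^ 2 ∂(law d ρ) ≤
        2 * (Va ρ β h (k + m) + Va ρ β h k)

variable {d : ℕ} {ρ : Measure ℝ}

lemma int_sq45 [IsProbabilityMeasure ρ] (hd : 0 < d) (hρ : EM ρ) (β : ℝ) (h : Vec d) (L : ℕ) :
    Integrable (fun η => (X β h η L - A ρ β h L) ^ 2) (law d ρ) := by
  have h1 := integrable_X_sq39 hd hρ β h L
  have h2 := (concU hd hρ β h L).1
  have h3 : Integrable (fun η => X β h η L ^ 2 - 2 * A ρ β h L * X β h η L +
      A ρ β h L ^ 2) (law d ρ) := (h1.sub (h2.const_mul _)).add (integrable_const _)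
  refine h3.congr (Eventually.of_forall fun η => ?_)
  ring

/-- **The split with the second moment.** -/
theorem splS45 [IsProbabilityMeasure ρ] (hd : 0 < d) (hρ : EM ρ) (β : ℝ) : SplS d ρ β := by
  intro h k m
  set D : Env d × Env d → ℝ := fun w =>
    (X β h (spl (Pa d k) w.1 w.2) (k + m) - A ρ β h (k + m)) - (X β h w.1 k - A ρ β h k) with hD
  have hmD : Measurable D :=
    (((measurable_X β h (k + m)).comp (measurable_spl (Pa d k))).sub_const _).sub
      (((measurable_X β h k).comp measurable_fst).sub_const _)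
  have j1 : Integrable (fun w : Env d × Env d =>
      (X β h (spl (Pa d k) w.1 w.2) (k + m) - A ρ β h (k + m)) ^ 2)
        ((law d ρ).prod (law d ρ)) :=
    (mp_spl (ρ := ρ) (Pa d k)).integrable_comp_of_integrable (int_sq45 hd hρ β h (k + m))
  have j2 : Integrable (fun w : Env d × Env d => (X β h w.1 k - A ρ β h k) ^ 2)
      ((law d ρ).prod (law d ρ)) :=
    (measurePreserving_fst (μ := law d ρ) (ν := law d ρ)).integrable_comp_of_integrable
      (int_sq45 hd hρ β h k)
  have i1 : Integrable (fun w : Env d × Env d =>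
      X β h (spl (Pa d k) w.1 w.2) (k + m) - A ρ β h (k + m)) ((law d ρ).prod (law d ρ)) :=
    ((mp_spl (ρ := ρ) (Pa d k)).integrable_comp_of_integrable
      (concU hd hρ β h (k + m)).1).sub (integrable_const _)
  have i2 : Integrable (fun w : Env d × Env d => X β h w.1 k - A ρ β h k)
      ((law d ρ).prod (law d ρ)) :=
    ((measurePreserving_fst (μ := law d ρ) (ν := law d ρ)).integrable_comp_of_integrable
      (concU hd hρ β h k).1).sub (integrable_const _)
  have iD : Integrable D ((law d ρ).prod (law d ρ)) := i1.sub i2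
  have hpt : ∀ w, D w ^ 2 ≤ 2 * (X β h (spl (Pa d k) w.1 w.2) (k + m) - A ρ β h (k + m)) ^ 2 +
      2 * (X β h w.1 k - A ρ β h k) ^ 2 := by
    intro w
    simp only [hD]
    nlinarith [sq_nonneg ((X β h (spl (Pa d k) w.1 w.2) (k + m) - A ρ β h (k + m)) +
      (X β h w.1 k - A ρ β h k))]
  have iD2 : Integrable (fun w => D w ^ 2) ((law d ρ).prod (law d ρ)) := by
    refine ((j1.const_mul 2).add (j2.const_mul 2)).mono' (hmD.pow_const 2).aestronglyMeasurable
      (Eventually.of_forall fun w => ?_)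
    rw [Real.norm_eq_abs, abs_of_nonneg (sq_nonneg _)]
    exact hpt w
  have e1 : ∫ w, (X β h (spl (Pa d k) w.1 w.2) (k + m) - A ρ β h (k + m)) ^ 2
      ∂((law d ρ).prod (law d ρ)) = Va ρ β h (k + m) := by
    unfold Va
    rw [← (mp_spl (ρ := ρ) (Pa d k)).map_eq, integral_map (mp_spl (ρ := ρ) (Pa d k)).aemeasurable]
    rw [(mp_spl (ρ := ρ) (Pa d k)).map_eq]
    exact (((measurable_X β h (k + m)).sub_const _).pow_const 2).aestronglyMeasurable
  have e2 : ∫ w : Env d × Env d, (X β h w.1 k - A ρ β h k) ^ 2 ∂((law d ρ).prod (law d ρ)) =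
      Va ρ β h k := by
    unfold Va
    have mp := measurePreserving_fst (μ := law d ρ) (ν := law d ρ)
    conv_rhs => rw [← mp.map_eq]
    rw [integral_map mp.aemeasurable]
    rw [mp.map_eq]
    exact (((measurable_X β h k).sub_const _).pow_const 2).aestronglyMeasurable
  have hDle : ∫ w, D w ^ 2 ∂((law d ρ).prod (law d ρ)) ≤
      2 * (Va ρ β h (k + m) + Va ρ β h k) := by
    rw [← e1, ← e2, mul_add, ← integral_const_mul, ← integral_const_mul,
      ← integral_add (j1.const_mul 2) (j2.const_mul 2)]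
    exact integral_mono iD2 ((j1.const_mul 2).add (j2.const_mul 2)) hpt
  have hint : Integrable (fun η => ∫ ξ, D (η, ξ) ^ 2 ∂(law d ρ)) (law d ρ) :=
    iD2.integral_prod_left
  have hae : ∀ᵐ η ∂(law d ρ), Integrable (fun ξ => D (η, ξ)) (law d ρ) ∧
      Integrable (fun ξ => D (η, ξ) ^ 2) (law d ρ) := by
    filter_upwards [iD.prod_right_ae, iD2.prod_right_ae] with η h1 h2
    exact ⟨h1, h2⟩
  obtain ⟨η, hη, hle⟩ := exists_notMem_null_le_integral hint (ae_iff.1 hae)
  rw [← integral_prod (fun w => D w ^ 2) iD2] at hle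
  have hη' : Integrable (fun ξ => D (η, ξ)) (law d ρ) ∧
      Integrable (fun ξ => D (η, ξ) ^ 2) (law d ρ) := by
    by_contra hc
    exact hη hc
  have hk : ∀ ξ : Env d, Real.log (∑ y ∈ boxF d k, PP β h η k y / Z β h η k *
      Real.exp (X β h (sh 0 y (sh k 0 ξ)) m - A ρ β h m)) =
      D (η, ξ) + (A ρ β h (k + m) - A ρ β h k - A ρ β h m) := by
    intro ξ
    have h1 : ∀ y : Site d, sh 0 y (sh k 0 ξ) = sh k y ξ := by
      intro y
      funext p
      unfold sh
      simp
    simp only [h1]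
    rw [glue45 hd]
    simp only [hD]
    ring
  have hmeas : Measurable fun ξ : Env d => Real.log (∑ y ∈ boxF d k,
      PP β h η k y / Z β h η k * Real.exp (X β h (sh 0 y ξ) m - A ρ β h m)) := by
    refine Real.measurable_log.comp (Finset.measurable_sum _ fun y _ => ?_)
    refine measurable_const.mul (Real.measurable_exp.comp (Measurable.sub_const ?_ _))
    exact (measurable_X β h m).comp (mp_sh (ρ := ρ) 0 y).measurable
  have mp := mp_sh (d := d) (ρ := ρ) k 0
  refine ⟨fun y => PP β h η k y / Z β h η k, fun y => ?_, fun y => ?_, ?_, ?_, ?_, ?_⟩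
  · exact div_nonneg (PP_nonneg45 hd β h η k y) (Z_pos hd β h η k).le
  · exact (div_le_one (Z_pos hd β h η k)).2 (PP_le_Z45 hd β h η k y)
  · rw [← Finset.sum_div, ← Z_eq_sum]
    exact div_self (Z_pos hd β h η k).ne'
  · rw [← mp.integrable_comp hmeas.aestronglyMeasurable]
    have h2 : Integrable (fun ξ => D (η, ξ) + (A ρ β h (k + m) - A ρ β h k - A ρ β h m))
      (law d ρ) := hη'.1.add (integrable_const _)
    refine h2.congr (Eventually.of_forall fun ξ => ?_)
    exact (hk ξ).symm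
  · rw [← mp.integrable_comp ((hmeas.sub_const _).pow_const 2).aestronglyMeasurable]
    refine hη'.2.congr (Eventually.of_forall fun ξ => ?_)
    show D (η, ξ) ^ 2 = (Real.log (∑ y ∈ boxF d k, PP β h η k y / Z β h η k *
      Real.exp (X β h (sh 0 y (sh k 0 ξ)) m - A ρ β h m)) - _) ^ 2
    rw [hk ξ]
    congr 1
    ring
  · refine le_trans (le_of_eq ?_) (hle.trans hDle)
    conv_lhs => rw [← mp.map_eq]
    rw [integral_map mp.aemeasurable]
    · refine integral_congr_ae (Eventually.of_forall fun ξ => ?_)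
      show (Real.log (∑ y ∈ boxF d k, PP β h η k y / Z β h η k *
        Real.exp (X β h (sh 0 y (sh k 0 ξ)) m - A ρ β h m)) - _) ^ 2 = D (η, ξ) ^ 2
      rw [hk ξ]
      congr 1
      ring
    · rw [mp.map_eq]
      exact ((hmeas.sub_const _).pow_const 2).aestronglyMeasurable

end Pool.Agent.W_7d29a1_NR
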