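import Pool.Agent.W_7d29a1_NR.DefsU45
import Pool.Agent.W_7d29a1_NR.Del11
import Pool.Agent.W_7d29a1_NR.HalvA45
import Pool.Agent.W_7d29a1_NR.SplS45

/-!
Theorem NR for every law with exponential moments: the assembly, from the amplification of the
partial mixtures.
-/

namespace Pool.Agent.W_7d29a1_NR

open MeasureTheory ProbabilityTheory Filter Topology Pool.Agent.W_MP_7d29a1_pr
  Pool.Agent.W_7d29a1_h46 Pool.Agent.W_7d29a1_h46u Pool.Agent.W_7d29a1_D2.B35
  Pool.Agent.W_7d29a1_Q29 Pool.Agent.W_7d29a1_R34 Pool.Agent.W_7d29a1_SP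

/-- Chebyshev. -/
lemma cheb45 {Ω : Type*} [MeasurableSpace Ω] {P : Measure Ω} [IsProbabilityMeasure P] {f : Ω → ℝ}
    (hf : Integrable (fun ω => f ω ^ 2) P) {B t : ℝ} (hB : ∫ ω, f ω ^ 2 ∂P ≤ B) (ht : 0 < t) :
    P.real {ω | t ≤ |f ω|} ≤ B / t ^ 2 := by
  have h := mul_meas_ge_le_integral_of_nonneg (μ := P) (f := fun ω => f ω ^ 2)
    (Eventually.of_forall fun ω => sq_nonneg _) hf (t ^ 2)
  rw [le_div_iff₀ (by positivity), mul_comm]
  refine (mul_le_mul_of_nonneg_left (measureReal_mono fun ω hω => ?_) (sq_nonneg t)).trans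
    (h.trans hB)
  show t ^ 2 ≤ f ω ^ 2
  rw [← sq_abs (f ω)]
  exact pow_le_pow_left₀ ht.le hω 2

/-- The numbers. -/
lemma numS45 {J : ℕ} (hJ : 1 ≤ J) {c C p z G B F : ℝ} (hp : 0 < p) (hC : 1 ≤ C)
    (hc : c = (J : ℝ) ^ (-(1 / (p + 1)))) (hz : z = (J : ℝ) ^ (p / (p + 1))) (hG : 1 ≤ G)
    (hB0 : 0 ≤ B) (hB : B ≤ 2 * G) (hF : F ≤ G) :
    2 * B + 2 * F + ((2 * B + 2 * B * Real.exp (C * z / 2)) + C * z + 2) / c * (1 + c) ^ J ≤
      (16 + C) * G * Real.exp ((C + 1 / p + 2) * z) := by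
  have hJ1 : (1 : ℝ) ≤ J := by exact_mod_cast hJ
  have hJ0 : (0 : ℝ) < J := by linarith
  have hc0 : 0 < c := by rw [hc]; positivity
  have hz1 : 1 ≤ z := by rw [hz]; exact Real.one_le_rpow hJ1 (by positivity)
  have hcJ : c * J = z := by
    rw [hc, hz]
    nth_rewrite 2 [← Real.rpow_one (J : ℝ)]
    rw [← Real.rpow_add hJ0]
    congr 1
    field_simp
    ring
  have hcinv : 1 / c ≤ Real.exp (z / p) := by
    have h1 : 1 / c = (J : ℝ) ^ (1 / (p + 1)) := by
      rw [hc, Real.rpow_neg hJ0.le, one_div, inv_inv]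
    have h2 : (J : ℝ) ^ (1 / (p + 1)) = z ^ (1 / p) := by
      rw [hz, ← Real.rpow_mul hJ0.le]
      congr 1
      field_simp
    rw [h1, h2, Real.rpow_def_of_pos (by linarith)]
    refine Real.exp_le_exp.2 ?_
    have h3 : Real.log z ≤ z := by
      have := Real.log_le_sub_one_of_pos (show 0 < z by linarith)
      linarith
    calc Real.log z * (1 / p) ≤ z * (1 / p) := mul_le_mul_of_nonneg_right h3 (by positivity)
      _ = z / p := by ring
  have e1 : (1 + c) ^ J ≤ Real.exp z := by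
    calc (1 + c) ^ J ≤ (Real.exp c) ^ J := by
          refine pow_le_pow_left₀ (by linarith) ?_ J
          have := Real.add_one_le_exp c
          linarith
      _ = Real.exp z := by rw [← Real.exp_nat_mul, mul_comm, hcJ]
  have q1 : 1 ≤ Real.exp (C * z) := Real.one_le_exp (by positivity)
  have q2 : Real.exp (C * z / 2) ≤ Real.exp (C * z) := Real.exp_le_exp.2 (by
    have : 0 ≤ C * z := by positivity
    linarith)
  have q3 : z ≤ Real.exp (C * z) := by
    have h1 := Real.add_one_le_exp (C * z)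
    have h2 : z ≤ C * z := by nlinarith
    linarith
  have hG0 : 0 < G := by linarith
  have hE0 : 0 < Real.exp (C * z) := Real.exp_pos _
  have e2 : (2 * B + 2 * B * Real.exp (C * z / 2)) + C * z + 2 ≤
      (10 + C) * G * Real.exp (C * z) := by
    have h1 : 2 * B ≤ 4 * G * Real.exp (C * z) := by
      have : 4 * G * 1 ≤ 4 * G * Real.exp (C * z) := mul_le_mul_of_nonneg_left q1 (by positivity)
      linarith
    have h2 : 2 * B * Real.exp (C * z / 2) ≤ 4 * G * Real.exp (C * z) :=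
      mul_le_mul (by linarith) q2 (Real.exp_pos _).le (by positivity)
    have h3 : C * z ≤ C * G * Real.exp (C * z) := by
      calc C * z ≤ C * Real.exp (C * z) := mul_le_mul_of_nonneg_left q3 (by linarith)
        _ = C * 1 * Real.exp (C * z) := by ring
        _ ≤ C * G * Real.exp (C * z) := by
            refine mul_le_mul_of_nonneg_right ?_ hE0.le
            exact mul_le_mul_of_nonneg_left hG (by linarith)
    have h4 : 2 ≤ 2 * G * Real.exp (C * z) := by
      have : 2 * G * 1 ≤ 2 * G * Real.exp (C * z) := mul_le_mul_of_nonneg_left q1 (by positivity)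
      linarith
    calc _ ≤ 4 * G * Real.exp (C * z) + 4 * G * Real.exp (C * z) + C * G * Real.exp (C * z) +
          2 * G * Real.exp (C * z) := by linarith
      _ = _ := by ring
  have e3 : ((2 * B + 2 * B * Real.exp (C * z / 2)) + C * z + 2) / c * (1 + c) ^ J ≤
      (10 + C) * G * Real.exp ((C + 1 / p + 2) * z) := by
    calc ((2 * B + 2 * B * Real.exp (C * z / 2)) + C * z + 2) / c * (1 + c) ^ J
        = ((2 * B + 2 * B * Real.exp (C * z / 2)) + C * z + 2) * ((1 / c) * (1 + c) ^ J) := by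
          ring
      _ ≤ ((10 + C) * G * Real.exp (C * z)) * (Real.exp (z / p) * Real.exp z) := by
          refine mul_le_mul e2 (mul_le_mul hcinv e1 (by positivity) (Real.exp_pos _).le)
            (by positivity) (by positivity)
      _ = (10 + C) * G * Real.exp (C * z + (z / p + z)) := by
          rw [← Real.exp_add, mul_assoc, ← Real.exp_add]
      _ ≤ (10 + C) * G * Real.exp ((C + 1 / p + 2) * z) := by
          refine mul_le_mul_of_nonneg_left (Real.exp_le_exp.2 ?_) (by positivity)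
          have : C * z + (z / p + z) = (C + 1 / p + 1) * z := by ring
          rw [this]
          exact mul_le_mul_of_nonneg_right (by linarith) (by linarith)
  have q4 : 1 ≤ Real.exp ((C + 1 / p + 2) * z) := Real.one_le_exp (by positivity)
  have e4 : 2 * B + 2 * F ≤ 6 * G * Real.exp ((C + 1 / p + 2) * z) := by
    have : 6 * G * 1 ≤ 6 * G * Real.exp ((C + 1 / p + 2) * z) :=
      mul_le_mul_of_nonneg_left q4 (by positivity)
    linarith
  calc _ ≤ 6 * G * Real.exp ((C + 1 / p + 2) * z) +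
        (10 + C) * G * Real.exp ((C + 1 / p + 2) * z) := by linarith
    _ = _ := by ring

variable {d : ℕ} {ρ : Measure ℝ}

/-- **The assembly.** -/
theorem nrS45 [IsProbabilityMeasure ρ] (hd : 0 < d) (hρ : EM ρ) {β : ℝ} (hW : AmpW d ρ β) :
    NrS d ρ β := by
  classical
  obtain ⟨C, p, hC, hp, hamp⟩ := hW
  obtain ⟨CJ, hCJ⟩ : ∃ CJ : ℝ, CJ = (3 * d + 1) / Real.log 2 := ⟨_, rfl⟩
  have l2 : 0 < Real.log 2 := Real.log_pos (by norm_num)
  have hCJ1 : 1 ≤ CJ := by
    rw [hCJ, le_div_iff₀ l2]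
    have h1 := Real.log_two_lt_d9
    have h2 : (0 : ℝ) ≤ d := Nat.cast_nonneg d
    linarith
  obtain ⟨θ, hθ⟩ : ∃ θ : ℝ, θ = p / (p + 1) := ⟨_, rfl⟩
  have hθ0 : 0 < θ := by rw [hθ]; positivity
  have hθ1 : θ < 1 := by rw [hθ, div_lt_one (by positivity)]; linarith
  obtain ⟨K, hK⟩ : ∃ K : ℝ, K = (16 + C) + (C + 1 / p + 2) * CJ := ⟨_, rfl⟩
  have hc2 : 0 ≤ (C + 1 / p + 2) * CJ := by positivity
  refine ⟨K, θ, by linarith, hθ0, hθ1, fun h k m => ?_⟩
  obtain ⟨μ, hμ0, hμ1, hμs, hint, hint2, hvar⟩ := splS45 hd hρ β h k m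
  obtain ⟨δ, hδ⟩ : ∃ δ : ℝ, δ = A ρ β h (k + m) - A ρ β h k - A ρ β h m := ⟨_, rfl⟩
  -- the support
  obtain ⟨S, hS⟩ : ∃ S : Finset (Site d), S = (boxF d k).filter fun y => 0 < μ y := ⟨_, rfl⟩
  have hSsub : S ⊆ boxF d k := by rw [hS]; exact Finset.filter_subset _ _
  have hSpos : ∀ y ∈ S, 0 < μ y := by
    intro y hy
    rw [hS] at hy
    exact (Finset.mem_filter.1 hy).2
  have hzero : ∀ y ∈ boxF d k, y ∉ S → μ y = 0 := by
    intro y hy hyS
    rw [hS, Finset.mem_filter] at hyS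
    push Not at hyS
    exact le_antisymm (hyS hy) (hμ0 y)
  have hSn : S.Nonempty := by
    by_contra hcon
    rw [Finset.not_nonempty_iff_eq_empty] at hcon
    have h1 : ∑ y ∈ boxF d k, μ y = 0 := Finset.sum_eq_zero fun y hy =>
      hzero y hy (by rw [hcon]; exact Finset.notMem_empty y)
    rw [h1] at hμs
    exact zero_ne_one hμs
  have hgain : ∀ ξ : Env d, Real.log (∑ y ∈ boxF d k,
      μ y * Real.exp (X β h (sh 0 y ξ) m - A ρ β h m)) = gain d ρ β h m S μ ξ := by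
    intro ξ
    unfold gain
    congr 1
    symm
    refine Finset.sum_subset hSsub fun y hy hyS => ?_
    rw [hzero y hy hyS, zero_mul]
  simp only [hgain] at hint hint2 hvar
  rw [← hδ] at hint2 hvar
  -- the numbers
  obtain ⟨B, hB⟩ : ∃ B : ℝ, B = 2 * (Sg ρ β h (k + m) + Sg ρ β h k) + 1 := ⟨_, rfl⟩
  have hs1 : 0 ≤ Sg ρ β h (k + m) := Real.sqrt_nonneg _
  have hs2 : 0 ≤ Sg ρ β h k := Real.sqrt_nonneg _
  have hs3 : 0 ≤ Sg ρ β h m := Real.sqrt_nonneg _
  have hVa : ∀ n : ℕ, Va ρ β h n = Sg ρ β h n ^ 2 := fun n => by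
    unfold Sg
    rw [Real.sq_sqrt]
    unfold Va
    exact integral_nonneg fun _ => sq_nonneg _
  have hB1 : 1 ≤ B := by rw [hB]; linarith
  have hB0 : 0 < B := by linarith
  have hvar' : ∫ ξ, (gain d ρ β h m S μ ξ - δ) ^ 2 ∂(law d ρ) ≤ B ^ 2 := by
    refine hvar.trans ?_
    rw [hVa, hVa, hB]
    nlinarith [mul_nonneg hs1 hs2]
  obtain ⟨J, hJ⟩ : ∃ J : ℕ, J = Del11.JJ d k := ⟨_, rfl⟩
  have hJ1 : 1 ≤ J := by rw [hJ]; unfold Del11.JJ; omega
  have hJ1' : (1 : ℝ) ≤ J := by exact_mod_cast hJ1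
  have hJ0 : (0 : ℝ) < J := by linarith
  obtain ⟨c, hc⟩ : ∃ c : ℝ, c = (J : ℝ) ^ (-(1 / (p + 1))) := ⟨_, rfl⟩
  have hc0 : 0 < c := by rw [hc]; positivity
  have hc1 : c ≤ 1 := by
    rw [hc, Real.rpow_neg hJ0.le]
    exact inv_le_one_of_one_le₀ (Real.one_le_rpow hJ1' (by positivity))
  obtain ⟨z, hz⟩ : ∃ z : ℝ, z = (J : ℝ) ^ (p / (p + 1)) := ⟨_, rfl⟩
  have hcz : c ^ (-p) = z := by
    rw [hc, hz, ← Real.rpow_mul hJ0.le]
    congr 1
    field_simp
  have hz0 : 0 < z := by rw [hz]; positivity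
  obtain ⟨a, ha⟩ : ∃ a : ℝ, a = 2 * B + 2 * B * Real.exp (C * z / 2) := ⟨_, rfl⟩
  have hex : 1 ≤ Real.exp (C * z / 2) := Real.one_le_exp (by positivity)
  have haB : 2 * B ≤ 2 * B * Real.exp (C * z / 2) := by
    have := mul_le_mul_of_nonneg_left hex (by linarith : 0 ≤ 2 * B)
    linarith
  have ha0 : 0 ≤ a := by rw [ha]; linarith
  obtain ⟨T, hT⟩ : ∃ T : ℝ, T = δ - 2 * B := ⟨_, rfl⟩
  have hmeas : Measurable (gain d ρ β h m S μ) := by
    unfold gain
    refine Real.measurable_log.comp (Finset.measurable_sum _ fun y _ => ?_)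
    refine measurable_const.mul (Real.measurable_exp.comp (Measurable.sub_const ?_ _))
    exact (measurable_X β h m).comp (mp_sh (ρ := ρ) 0 y).measurable
  have hT1 : 1 / 2 ≤ (law d ρ).real {ξ | T ≤ gain d ρ β h m S μ ξ} := by
    have h1 := cheb45 hint2 hvar' (by linarith : (0 : ℝ) < 2 * B)
    have h2 : B ^ 2 / (2 * B) ^ 2 = 1 / 4 := by
      field_simp
      norm_num
    rw [h2] at h1
    have h3 : (law d ρ).real {ξ | T ≤ gain d ρ β h m S μ ξ} =
        1 - (law d ρ).real {ξ | gain d ρ β h m S μ ξ < T} := by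
      rw [← probReal_compl_eq_one_sub (measurableSet_lt hmeas measurable_const)]
      congr 1
      ext ξ
      simp
    have h4 : (law d ρ).real {ξ | gain d ρ β h m S μ ξ < T} ≤
        (law d ρ).real {ξ | 2 * B ≤ |gain d ρ β h m S μ ξ - δ|} := by
      refine measureReal_mono fun ξ hξ => ?_
      have h5 : gain d ρ β h m S μ ξ < T := hξ
      show 2 * B ≤ |gain d ρ β h m S μ ξ - δ|
      rw [hT] at h5
      rw [abs_of_neg (by linarith)]
      linarith
    linarith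
  have hG : (law d ρ).real {ξ | T + a ≤ gain d ρ β h m S μ ξ} < Real.exp (-(C * c ^ (-p))) := by
    have h0 : 0 < 2 * B * Real.exp (C * z / 2) := by positivity
    have h1 := cheb45 hint2 hvar' h0
    have h2 : (law d ρ).real {ξ | T + a ≤ gain d ρ β h m S μ ξ} ≤
        (law d ρ).real {ξ | 2 * B * Real.exp (C * z / 2) ≤ |gain d ρ β h m S μ ξ - δ|} := by
      refine measureReal_mono fun ξ hξ => ?_
      have h5 : T + a ≤ gain d ρ β h m S μ ξ := hξ
      show 2 * B * Real.exp (C * z / 2) ≤ |gain d ρ β h m S μ ξ - δ|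
      rw [hT, ha] at h5
      rw [abs_of_nonneg (by linarith)]
      linarith
    have h3 : B ^ 2 / (2 * B * Real.exp (C * z / 2)) ^ 2 = Real.exp (-(C * z)) / 4 := by
      have h4 : Real.exp (C * z / 2) ^ 2 = Real.exp (C * z) := by
        rw [← Real.exp_nat_mul]
        congr 1
        push_cast
        ring
      rw [mul_pow, h4, Real.exp_neg]
      field_simp
      norm_num
    rw [h3] at h1
    rw [hcz]
    have := Real.exp_pos (-(C * z))
    linarith
  have hu : ∀ y ∈ S, ∀ u : ℝ, 2 * Sg ρ β h m < u →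
      (law d ρ).real {ξ | u ≤ X β h (sh 0 y ξ) m - A ρ β h m} < 1 / 2 := by
    intro y _ u hu
    have hu0 : 0 < u := by linarith
    have h1 : (law d ρ).real {ξ | u ≤ X β h (sh 0 y ξ) m - A ρ β h m} =
        (law d ρ).real {ξ | u ≤ X β h ξ m - A ρ β h m} := by
      have mp := mp_sh (d := d) (ρ := ρ) 0 y
      have h2 : {ξ : Env d | u ≤ X β h (sh 0 y ξ) m - A ρ β h m} =
          sh 0 y ⁻¹' {ξ | u ≤ X β h ξ m - A ρ β h m} := rfl
      rw [h2]
      unfold Measure.real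
      rw [mp.measure_preimage
        (measurableSet_le measurable_const ((measurable_X β h m).sub_const _)).nullMeasurableSet]
    have h2 := cheb45 (int_sq45 hd hρ β h m) (le_of_eq rfl) hu0
    have h3 : (law d ρ).real {ξ | u ≤ X β h ξ m - A ρ β h m} ≤
        (law d ρ).real {ξ | u ≤ |X β h ξ m - A ρ β h m|} :=
      measureReal_mono fun ξ hξ => le_trans (show u ≤ X β h ξ m - A ρ β h m from hξ) (le_abs_self _)
    have h4 : (∫ ξ, (X β h ξ m - A ρ β h m) ^ 2 ∂(law d ρ)) / u ^ 2 ≤ 1 / 4 := by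
      rw [div_le_iff₀ (by positivity)]
      have h5 : (∫ ξ, (X β h ξ m - A ρ β h m) ^ 2 ∂(law d ρ)) = Sg ρ β h m ^ 2 := hVa m
      rw [h5]
      nlinarith
    rw [h1]
    linarith
  have hfin := halvB45 (law d ρ) (μ := μ) (V := fun y ξ => X β h (sh 0 y ξ) m - A ρ β h m)
    (S := S) hSn hSpos (fun y _ => hμ1 y)
    (fun y _ => ((measurable_X β h m).comp (mp_sh (ρ := ρ) 0 y).measurable).sub_const _)
    (T := T) (a := a) (c := c) (κ := Real.exp (-(C * c ^ (-p)))) (b₀ := C * c ^ (-p))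
    (u₀ := 2 * Sg ρ β h m) hc0 hc1 ha0 (by rw [hcz]; positivity) hu
    (fun D hD hDn M b hb hb0 hcb hMb m1 m2 m3 =>
      hamp h m S μ hSn hSpos (fun y _ => hμ1 y) δ B c T a M b hB1 hc0 hc1 ha0 hint2 hvar'
        (by rw [hT]; linarith) (by rw [hT, ha]; linarith) D hD hDn hb hb0 hcb hMb m1 m2 m3)
    hG hT1 (J := J) (by
      rw [hJ]
      exact (Finset.card_le_card hSsub).trans (Del11.JJ_card d k))
  rw [hcz, hT, ha] at hfin
  obtain ⟨G, hGd⟩ : ∃ G : ℝ, G = Sg ρ β h (k + m) + Sg ρ β h k + Sg ρ β h m + 1 := ⟨_, rfl⟩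
  have hnum := numS45 hJ1 (G := G) (B := B) (F := Sg ρ β h m) hp hC hc hz (by linarith) hB0.le
    (by rw [hB, hGd]; linarith) (by linarith)
  have h1 : δ ≤ (16 + C) * G * Real.exp ((C + 1 / p + 2) * z) := by linarith
  -- the logarithm
  have hL1 : Real.log 2 ≤ Real.log ((k : ℝ) + 2) :=
    Real.log_le_log (by norm_num) (by
      have : (0 : ℝ) ≤ k := Nat.cast_nonneg k
      linarith)
  have hL0 : 0 ≤ Real.log ((k : ℝ) + 2) := by linarith
  have hzL : z ≤ CJ * Real.log ((k : ℝ) + 2) ^ θ := by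
    have h2 : (J : ℝ) ≤ CJ * Real.log ((k : ℝ) + 2) := by
      rw [hJ, hCJ]
      exact Del11.JJ_le d k
    rw [hz, ← hθ]
    calc (J : ℝ) ^ θ ≤ (CJ * Real.log ((k : ℝ) + 2)) ^ θ :=
          Real.rpow_le_rpow hJ0.le h2 hθ0.le
      _ = CJ ^ θ * Real.log ((k : ℝ) + 2) ^ θ := Real.mul_rpow (by linarith) hL0
      _ ≤ CJ * Real.log ((k : ℝ) + 2) ^ θ := by
          refine mul_le_mul_of_nonneg_right ?_ (by positivity)
          calc CJ ^ θ ≤ CJ ^ (1 : ℝ) := Real.rpow_le_rpow_of_exponent_le hCJ1 hθ1.le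
            _ = CJ := Real.rpow_one _
  rw [← hδ, ← hGd]
  refine h1.trans ?_
  have hG0 : 0 < G := by rw [hGd]; linarith
  have h3 : Real.exp ((C + 1 / p + 2) * z) ≤ Real.exp (K * Real.log ((k : ℝ) + 2) ^ θ) := by
    refine Real.exp_le_exp.2 ?_
    have h4 : (C + 1 / p + 2) * z ≤ (C + 1 / p + 2) * (CJ * Real.log ((k : ℝ) + 2) ^ θ) :=
      mul_le_mul_of_nonneg_left hzL (by positivity)
    have h5 : 0 ≤ (16 + C) * Real.log ((k : ℝ) + 2) ^ θ := by positivity
    rw [hK]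
    nlinarith
  calc (16 + C) * G * Real.exp ((C + 1 / p + 2) * z) ≤
        K * G * Real.exp (K * Real.log ((k : ℝ) + 2) ^ θ) := by
        refine mul_le_mul ?_ h3 (Real.exp_pos _).le (by rw [hK]; positivity)
        exact mul_le_mul_of_nonneg_right (by rw [hK]; linarith) hG0.le
    _ = K * Real.exp (K * Real.log ((k : ℝ) + 2) ^ θ) * G := by ring

end Pool.Agent.W_7d29a1_NR
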