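import Pool.Agent.W_7d29a1_NR.AmpWN86
import Pool.Agent.W_7d29a1_NR.NrS45
import Pool.Agent.W_7d29a1_NR.Cor11

/-!
Theorem NR for every law with exponential moments: the plug.
-/

set_option autoImplicit false

namespace Pool.Agent.W_7d29a1_NR

open MeasureTheory ProbabilityTheory Filter Topology Pool.Agent.W_MP_7d29a1_pr
  Pool.Agent.W_7d29a1_h46 Pool.Agent.W_7d29a1_h46u Pool.Agent.W_7d29a1_D2.B35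
  Pool.Agent.W_7d29a1_Q29 Pool.Agent.W_7d29a1_R34 Pool.Agent.W_7d29a1_SP

variable {d : ℕ} {ρ : Measure ℝ} [IsProbabilityMeasure ρ] {β : ℝ}

/-- **Theorem NR (D), every law.** -/
theorem nrAll86 (hd : 0 < d) (hρ : EM ρ) (hnc : ∀ c : ℝ, ρ {c} ≠ 1) (hβ : 0 < β) :
    NrS d ρ β := nrS45 hd hρ (ampWAll86 hd hρ hnc hβ)

/-- **Theorem NR (L), every law.** -/
theorem nrL86 (hd : 0 < d) (hρ : EM ρ) (hnc : ∀ c : ℝ, ρ {c} ≠ 1) (hβ : 0 < β) :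
    ∃ θ : ℝ, θ < 1 ∧ ∀ h : Vec d,
    ∃ C : ℝ, ∀ (k : ℕ) (M : ℝ), 1 ≤ k → (∀ n : ℕ, n ≤ k ^ 3 → Va ρ β h n ≤ M ^ 2) → 0 ≤ M →
      En ρ β h k ≤ (1 + M) * Real.exp (C * (1 + Real.log (k + 2) ^ θ)) :=
  corL11 hd hρ (nrAll86 hd hρ hnc hβ)

/-- **Theorem NR (X), every law.** -/
theorem nrX86 (hd : 0 < d) (hρ : EM ρ) (hnc : ∀ c : ℝ, ρ {c} ≠ 1) (hβ : 0 < β) (h : Vec d)
    {x ε : ℝ} (hx : 0 ≤ x) (hε : 0 < ε) (hV : ∀ᶠ n : ℕ in atTop, Va ρ β h n ≤ (n : ℝ) ^ x) :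
    ∀ᶠ n : ℕ in atTop, Va ρ β h n + En ρ β h n ^ 2 ≤ (n : ℝ) ^ (x + ε) :=
  corX11 hd hρ (nrAll86 hd hρ hnc hβ) h hx hε hV

/-- **Theorem NR (P), every law.** -/
theorem nrP86 (hd : 0 < d) (hρ : EM ρ) (hnc : ∀ c : ℝ, ρ {c} ≠ 1) (hβ : 0 < β) (h : Vec d)
    {e : ℝ} (he : 0 < e)
    (hP : ∀ᶠ n : ℕ in atTop, ∃ m : ℕ, m ≤ n ∧ (n : ℝ) ^ e ≤ Va ρ β h m + En ρ β h m ^ 2) :
    ∃ θ : ℝ, 0 < θ ∧ ∀ᶠ n : ℕ in atTop, ∃ m : ℕ, m ≤ n ∧ (n : ℝ) ^ θ ≤ Va ρ β h m :=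
  corP11 hd hρ (nrAll86 hd hρ hnc hβ) h he hP

end Pool.Agent.W_7d29a1_NR
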