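import Pool.Agent.W_7d29a1_SP.DefsSP
import Pool.Agent.W_7d29a1_Q29.Poly85
import Pool.Agent.W_7d29a1_Q29.Box98

/-!
Theorem NR, the split at the time `k`: for fixed rows `≤ k` the free energy of length `k + m` is the
free energy of length `k` plus the logarithm of a mixture of free energies of length `m`.
-/

namespace Pool.Agent.W_7d29a1_NR

open MeasureTheory ProbabilityTheory Filter Topology Pool.Agent.W_MP_7d29a1_pr
  Pool.Agent.W_7d29a1_h46 Pool.Agent.W_7d29a1_h46u Pool.Agent.W_7d29a1_D2.B35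
  Pool.Agent.W_7d29a1_Q29 Pool.Agent.W_7d29a1_SP

/-- The split. -/
def SplR (d : ℕ) (ρ : Measure ℝ) (β : ℝ) : Prop := ∀ (h : Vec d) (k m : ℕ),
  ∃ μ : Site d → ℝ, (∀ y, 0 ≤ μ y) ∧ (∀ y, μ y ≤ 1) ∧ ∑ y ∈ boxF d k, μ y = 1 ∧
    Integrable (fun ξ => Real.log (∑ y ∈ boxF d k,
      μ y * Real.exp (X β h (sh 0 y ξ) m - A ρ β h m))) (law d ρ) ∧
    ∫ ξ, |Real.log (∑ y ∈ boxF d k, μ y * Real.exp (X β h (sh 0 y ξ) m - A ρ β h m)) -
      (A ρ β h (k + m) - A ρ β h k - A ρ β h m)| ∂(law d ρ) ≤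
        Fn ρ β h (k + m) + Fn ρ β h k

variable {d : ℕ} {ρ : Measure ℝ}

/-- The free energy of the glued environment. -/
lemma glue45 (hd : 0 < d) (β : ℝ) (h : Vec d) (k m : ℕ) (a : ℝ) (η ξ : Env d) :
    Real.log (∑ y ∈ boxF d k, PP β h η k y / Z β h η k *
      Real.exp (X β h (sh k y ξ) m - a)) =
    X β h (spl (Pa d k) η ξ) (k + m) - X β h η k - a := by
  have h1 : ∑ y ∈ boxF d k, PP β h η k y / Z β h η k * Real.exp (X β h (sh k y ξ) m - a) =
      Z β h (spl (Pa d k) η ξ) (k + m) / Z β h η k * Real.exp (-a) := by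
    rw [S98.Z_split β h (spl (Pa d k) η ξ) k m, Finset.sum_div, Finset.sum_mul]
    refine Finset.sum_congr rfl fun y _ => ?_
    rw [N85.PP_spl, N85.Z_sh_spl, sub_eq_add_neg, Real.exp_add]
    unfold X
    rw [Real.exp_log (Z_pos hd β h _ m)]
    ring
  rw [h1, Real.log_mul (div_pos (Z_pos hd β h _ _) (Z_pos hd β h _ _)).ne' (Real.exp_pos _).ne',
    Real.log_div (Z_pos hd β h _ _).ne' (Z_pos hd β h _ _).ne', Real.log_exp]
  unfold X
  ring

lemma PP_nonneg45 (hd : 0 < d) (β : ℝ) (h : Vec d) (η : Env d) (k : ℕ) (y : Site d) :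
    0 ≤ PP β h η k y := by
  classical
  unfold PP ZT
  refine Finset.sum_nonneg fun q _ => ?_
  split_ifs
  · exact (wgt_pos β h η q).le
  · exact le_rfl

lemma PP_le_Z45 (hd : 0 < d) (β : ℝ) (h : Vec d) (η : Env d) (k : ℕ) (y : Site d) :
    PP β h η k y ≤ Z β h η k := by
  classical
  rw [Z_eq]
  unfold PP ZT
  refine Finset.sum_le_sum fun q _ => ?_
  split_ifs
  · exact le_rfl
  · exact (wgt_pos β h η q).le

/-- **The split.** -/
theorem splR45 [IsProbabilityMeasure ρ] (hd : 0 < d) (hρ : EM ρ) (β : ℝ) : SplR d ρ β := by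
  intro h k m
  set D : Env d × Env d → ℝ := fun w =>
    (X β h (spl (Pa d k) w.1 w.2) (k + m) - A ρ β h (k + m)) - (X β h w.1 k - A ρ β h k) with hD
  have i1 : Integrable (fun w : Env d × Env d =>
      X β h (spl (Pa d k) w.1 w.2) (k + m) - A ρ β h (k + m)) ((law d ρ).prod (law d ρ)) :=
    ((mp_spl (ρ := ρ) (Pa d k)).integrable_comp_of_integrable
      (concU hd hρ β h (k + m)).1).sub (integrable_const _)
  have i2 : Integrable (fun w : Env d × Env d => X β h w.1 k - A ρ β h k)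
      ((law d ρ).prod (law d ρ)) :=
    ((measurePreserving_fst (μ := law d ρ) (ν := law d ρ)).integrable_comp_of_integrable
      (concU hd hρ β h k).1).sub (integrable_const _)
  have iD : Integrable D ((law d ρ).prod (law d ρ)) := i1.sub i2
  have e1 : ∫ w, |X β h (spl (Pa d k) w.1 w.2) (k + m) - A ρ β h (k + m)|
      ∂((law d ρ).prod (law d ρ)) = Fn ρ β h (k + m) := by
    unfold Fn
    rw [← (mp_spl (ρ := ρ) (Pa d k)).map_eq, integral_map (mp_spl (ρ := ρ) (Pa d k)).aemeasurable]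
    rw [(mp_spl (ρ := ρ) (Pa d k)).map_eq]
    exact ((measurable_X β h (k + m)).sub_const _).abs.aestronglyMeasurable
  have e2 : ∫ w : Env d × Env d, |X β h w.1 k - A ρ β h k| ∂((law d ρ).prod (law d ρ)) =
      Fn ρ β h k := by
    unfold Fn
    have mp := measurePreserving_fst (μ := law d ρ) (ν := law d ρ)
    conv_rhs => rw [← mp.map_eq]
    rw [integral_map mp.aemeasurable]
    rw [mp.map_eq]
    exact ((measurable_X β h k).sub_const _).abs.aestronglyMeasurable
  have hDle : ∫ w, |D w| ∂((law d ρ).prod (law d ρ)) ≤ Fn ρ β h (k + m) + Fn ρ β h k := by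
    rw [← e1, ← e2, ← integral_add i1.abs i2.abs]
    exact integral_mono iD.abs (i1.abs.add i2.abs) fun w => abs_sub _ _
  have hint : Integrable (fun η => ∫ ξ, |D (η, ξ)| ∂(law d ρ)) (law d ρ) :=
    iD.abs.integral_prod_left
  have hae : ∀ᵐ η ∂(law d ρ), Integrable (fun ξ => D (η, ξ)) (law d ρ) := iD.prod_right_ae
  obtain ⟨η, hη, hle⟩ := exists_notMem_null_le_integral hint (ae_iff.1 hae)
  rw [← integral_prod (fun w => |D w|) iD.abs] at hle
  have hη' : Integrable (fun ξ => D (η, ξ)) (law d ρ) := by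
    by_contra hc
    exact hη hc
  have hk : ∀ ξ : Env d, Real.log (∑ y ∈ boxF d k, PP β h η k y / Z β h η k *
      Real.exp (X β h (sh 0 y (sh k 0 ξ)) m - A ρ β h m)) =
      D (η, ξ) + (A ρ β h (k + m) - A ρ β h k - A ρ β h m) := by
    intro ξ
    have h1 : ∀ y : Site d, sh 0 y (sh k 0 ξ) = sh k y ξ := by
      intro y
      funext p
      unfold sh
      simp
    simp only [h1]
    rw [glue45 hd]
    simp only [hD]
    ring
  have hmeas : Measurable fun ξ : Env d => Real.log (∑ y ∈ boxF d k,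
      PP β h η k y / Z β h η k * Real.exp (X β h (sh 0 y ξ) m - A ρ β h m)) := by
    refine Real.measurable_log.comp (Finset.measurable_sum _ fun y _ => ?_)
    refine measurable_const.mul (Real.measurable_exp.comp (Measurable.sub_const ?_ _))
    exact (measurable_X β h m).comp (mp_sh (ρ := ρ) 0 y).measurable
  have mp := mp_sh (d := d) (ρ := ρ) k 0
  refine ⟨fun y => PP β h η k y / Z β h η k, fun y => ?_, fun y => ?_, ?_, ?_, ?_⟩
  · exact div_nonneg (PP_nonneg45 hd β h η k y) (Z_pos hd β h η k).le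
  · exact (div_le_one (Z_pos hd β h η k)).2 (PP_le_Z45 hd β h η k y)
  · rw [← Finset.sum_div, ← Z_eq_sum]
    exact div_self (Z_pos hd β h η k).ne'
  · rw [← mp.integrable_comp hmeas.aestronglyMeasurable]
    have h2 : Integrable (fun ξ => D (η, ξ) + (A ρ β h (k + m) - A ρ β h k - A ρ β h m))
      (law d ρ) := hη'.add (integrable_const _)
    refine h2.congr (Eventually.of_forall fun ξ => ?_)
    exact (hk ξ).symm
  · refine le_trans (le_of_eq ?_) (hle.trans hDle)
    conv_lhs => rw [← mp.map_eq]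
    rw [integral_map mp.aemeasurable]
    · refine integral_congr_ae (Eventually.of_forall fun ξ => ?_)
      show |Real.log (∑ y ∈ boxF d k, PP β h η k y / Z β h η k *
        Real.exp (X β h (sh 0 y (sh k 0 ξ)) m - A ρ β h m)) - _| = |D (η, ξ)|
      rw [hk ξ]
      congr 1
      ring
    · rw [mp.map_eq]
      exact (hmeas.sub_const _).abs.aestronglyMeasurable

end Pool.Agent.W_7d29a1_NR
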