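import Pool.Agent.W_7d29a1_NR.Tails

/-!
THE LOWER TAIL of `log Z_n` from below (MP_7d29a1_pr). (helper87)
-/

namespace Pool.Agent.W_7d29a1_NR

open MeasureTheory ProbabilityTheory Filter Topology
open Pool.Agent.W_7d29a1_F Pool.Agent.W_7d29a1_h4g Pool.Agent.W_7d29a1_G Pool.Agent.W_7d29a1_L
open Pool.Agent.W_7d29a1_SL Pool.Agent.W_7d29a1_SR Pool.Agent.W_7d29a1_X

noncomputable section

variable {μ : Measure ℝ} [IsProbabilityMeasure μ] {c C : ℝ} {n₀ : ℕ}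

/-- **THE LOWER TAIL FROM BELOW.** -/
theorem down_tail (h : In μ c C n₀) : ∃ A θ : ℝ, 0 < A ∧ 0 < θ ∧ ∃ n₁ : ℕ, ∀ n : ℕ, n₁ ≤ n → ∀ s : ℝ, 1 ≤ s →
    s ≤ (n : ℝ) ^ θ → Real.exp (-(A * s ^ A)) ≤ (law μ).real {η | V μ 0 η 0 n ≤ -(s * EE μ n)} := by
  have hc0 := h.c0
  obtain ⟨κ, p, hκ, hp, hp1, J, n1, hcell⟩ := cell_prob h
  obtain ⟨B, θ₀, hB, hθ₀, hθ₁, n2, hsub⟩ := sub_pow h
  obtain ⟨D, hD1, n4, hexit⟩ := exit_ev h
  obtain ⟨n5, hwd⟩ := (tendsto_atTop.1 (wd_tendsto h) (2 / c)).exists_forall_of_atTop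
  obtain ⟨n6, hEE1⟩ := (tendsto_atTop.1 h.tE 1).exists_forall_of_atTop
  have hB0 : 0 < B := by linarith
  have hD0 : 0 < D := by linarith
  obtain ⟨D1, hD1d⟩ : ∃ D1 : ℝ, D1 = 4 * B / κ := ⟨_, rfl⟩
  have hD1p : 0 < D1 := by rw [hD1d]; positivity
  obtain ⟨T, hT⟩ : ∃ T : ℕ, T = 2 ^ J * (n1 + n5 + 2) := ⟨_, rfl⟩
  have hJ1 : 1 ≤ 2 ^ J := Nat.one_le_two_pow
  have hJr : (0 : ℝ) < (2 : ℝ) ^ J := by positivity
  obtain ⟨D5, hD5, n3, hM⟩ := choose_M hD1p hθ₀ (2 * (T + n2 + 2))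
  obtain ⟨D6, hD6⟩ : ∃ D6 : ℝ, D6 = (64 * D * 2 ^ J / c + 1) * D5 ^ 2 := ⟨_, rfl⟩
  have hD6p : 0 < D6 := by rw [hD6]; positivity
  obtain ⟨A, hA, hexp⟩ := pow_exp hp (a := 1 + 2 / θ₀) (D := D6) (by positivity) hD6p.le
  refine ⟨A, θ₀ / 4, hA, by positivity, n3 + n4 + n6, fun n hn s hs1 hs2 => ?_⟩
  have hs0 : 0 < s := by linarith
  obtain ⟨M, hM2, hMs, hMD, hMn⟩ := hM n (by omega) s hs1 hs2
  have hMr : (2 : ℝ) ≤ M := by exact_mod_cast hM2
  -- the blocks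
  obtain ⟨m', hm'⟩ : ∃ m' : ℕ, m' = n / (2 * M) := ⟨_, rfl⟩
  have hm'M : (T + n2 + 2) * M ≤ m' := by
    rw [hm']
    refine (Nat.le_div_iff_mul_le (by omega)).2 ?_
    calc (T + n2 + 2) * M * (2 * M) = 2 * (T + n2 + 2) * M ^ 2 := by ring
      _ ≤ n := hMn
  have hm'T : T + n2 + 2 ≤ m' := by
    have : (T + n2 + 2) * 1 ≤ (T + n2 + 2) * M := Nat.mul_le_mul_left _ (by omega)
    omega
  have hMm' : M ≤ m' := by
    have : 1 * M ≤ (T + n2 + 2) * M := Nat.mul_le_mul_right _ (by omega)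
    omega
  have h2M : 2 * M * m' ≤ n := by
    rw [hm']
    exact Nat.mul_div_le n (2 * M)
  have h2M' : n < 2 * M * (m' + 1) := by
    rw [hm']
    exact Nat.lt_mul_div_succ n (by omega)
  obtain ⟨k, hk⟩ : ∃ k : ℕ, M = k + 1 := ⟨M - 1, by omega⟩
  obtain ⟨l, hl⟩ : ∃ l : ℕ, l = n - k * (2 * m') := ⟨_, rfl⟩
  have e1 : 2 * M * m' = k * (2 * m') + 2 * m' := by rw [hk]; ring
  have e2 : 2 * M * (m' + 1) = k * (2 * m') + 2 * m' + 2 * M := by rw [hk]; ring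
  have hkl : k * (2 * m') + l = n := by omega
  have hl1 : 2 * m' ≤ l := by omega
  have hln : l ≤ n := by omega
  -- the cells
  obtain ⟨r, hr⟩ : ∃ r : ℕ, r = m' / 2 ^ J := ⟨_, rfl⟩
  have hJr1 : 2 ^ J * r ≤ m' := by
    rw [hr]
    exact Nat.mul_div_le m' (2 ^ J)
  have hJr2 : m' < 2 ^ J * (r + 1) := by
    rw [hr]
    exact Nat.lt_mul_div_succ m' (by omega)
  have hrn : n1 + n5 + 2 ≤ r := by
    rw [hr]
    refine (Nat.le_div_iff_mul_le (by omega)).2 ?_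
    rw [mul_comm, ← hT]
    omega
  have hwr : 2 ≤ c * wd μ r := by
    have := hwd r (by omega)
    rw [div_le_iff₀ hc0] at this
    linarith
  obtain ⟨w, hw⟩ : ∃ w : ℕ, w = ⌊c * wd μ r⌋₊ := ⟨_, rfl⟩
  have hw1 : (w : ℝ) ≤ c * wd μ r := by rw [hw]; exact Nat.floor_le (by linarith)
  have hw2 : c * wd μ r < w + 1 := by rw [hw]; exact Nat.lt_floor_add_one _
  have hw3 : c * wd μ r / 2 ≤ w := by linarith
  have hw4 : 1 ≤ w := by
    have : (1 : ℝ) < w + 1 := by linarith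
    have : (0 : ℝ) < w := by linarith
    have : 0 < w := by exact_mod_cast this
    omega
  have hwpos : (0 : ℝ) < w := by exact_mod_cast (show 0 < w by omega)
  have hmono := EE_mono (μ := μ)
  have hEm := EE_pos (μ := μ) (2 * m')
  have hEn := EE_pos (μ := μ) n
  have hcell' : ∀ t y0 : ℤ, ∀ L : ℕ, 2 * m' ≤ L →
      p ≤ (law μ).real {η | sm μ η (Finset.Ico y0 (y0 + w)) t L ≤ -(κ * EE μ (2 * m'))} := by
    intro t y0 L hL
    refine (hcell r L w (by omega) (by omega) hw4 hw1 t y0).trans (measureReal_mono (fun η hη => ?_) (measure_ne_top _ _))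
    rw [Set.mem_ofPred_eq] at hη ⊢
    have := mul_le_mul_of_nonneg_left (hmono hL) hκ.le
    linarith
  -- the region
  obtain ⟨ρ, hρ⟩ : ∃ ρ : ℝ, ρ = D * s * wd μ n := ⟨_, rfl⟩
  have hrn' : r ≤ n := by
    have : 1 * r ≤ 2 ^ J * r := Nat.mul_le_mul_right r hJ1
    have : 1 * m' ≤ 2 * M * m' := Nat.mul_le_mul_right m' (by omega)
    omega
  have hwn : 0 ≤ wd μ n := mul_nonneg (vA_nonneg (μ := μ) h.em zero_le_one n) (Nat.cast_nonneg n)
  have hρ0 : 0 ≤ ρ := by rw [hρ]; positivity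
  obtain ⟨I, hI⟩ : ∃ I : ℕ, I = 2 * ⌊ρ⌋.toNat / w + 1 := ⟨_, rfl⟩
  have hfl : ((⌊ρ⌋.toNat : ℕ) : ℤ) = ⌊ρ⌋ := Int.toNat_of_nonneg (Int.floor_nonneg.2 hρ0)
  have hIw : 2 * ⌊ρ⌋ < I * w := by
    have h1 : 2 * ⌊ρ⌋.toNat < I * w := by
      rw [hI]
      have := Nat.lt_mul_div_succ (2 * ⌊ρ⌋.toNat) (show 0 < w by omega)
      linarith
    have h2 : ((2 * ⌊ρ⌋.toNat : ℕ) : ℤ) < ((I * w : ℕ) : ℤ) := by exact_mod_cast h1
    push_cast at h2
    rw [← hfl]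
    linarith
  have hIr : (I : ℝ) ≤ 64 * D * 2 ^ J / c * (s * M) + 1 := by
    have h1 : ((⌊ρ⌋.toNat : ℕ) : ℝ) ≤ ρ := by
      have : (((⌊ρ⌋.toNat : ℕ) : ℤ) : ℝ) ≤ ρ := by
        rw [hfl]
        exact Int.floor_le ρ
      exact_mod_cast this
    have h2 : (I : ℝ) ≤ 2 * ρ / w + 1 := by
      rw [hI]
      push_cast
      have h3 : ((2 * ⌊ρ⌋.toNat / w : ℕ) : ℝ) ≤ ((2 * ⌊ρ⌋.toNat : ℕ) : ℝ) / w := Nat.cast_div_le
      push_cast at h3
      have h4 : 2 * ((⌊ρ⌋.toNat : ℕ) : ℝ) / w ≤ 2 * ρ / w := div_le_div_of_nonneg_right (by linarith) hwpos.le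
      linarith
    have h3 : n ≤ 8 * M * (2 ^ J * r) := by
      have k1 : m' + 1 ≤ 2 ^ J * (r + 1) := hJr2
      have k2 : 2 ^ J * (r + 1) ≤ 2 ^ J * (2 * r) := Nat.mul_le_mul_left _ (by omega)
      have k3 : m' + 1 ≤ 2 * (2 ^ J * r) := by
        have : 2 ^ J * (2 * r) = 2 * (2 ^ J * r) := by ring
        omega
      have k4 : 2 * M * (m' + 1) ≤ 2 * M * (2 * (2 ^ J * r)) := Nat.mul_le_mul_left _ k3
      have k5 : 2 * M * (2 * (2 ^ J * r)) ≤ 8 * M * (2 ^ J * r) := by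
        have : 2 * M * (2 * (2 ^ J * r)) = 4 * M * (2 ^ J * r) := by ring
        rw [this]
        exact Nat.mul_le_mul_right _ (by omega)
      omega
    have h4 : wd μ n ≤ 16 * M * 2 ^ J * wd μ r := by
      have k1 : vA μ 1 n ≤ 2 * vA μ 1 r := vA_le_two (μ := μ) h.em zero_le_one (show 1 ≤ r by omega) hrn'
      have k2 : (n : ℝ) ≤ 8 * M * (2 ^ J * r) := by exact_mod_cast h3
      have k3 := vA_nonneg (μ := μ) h.em zero_le_one r
      unfold wd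
      calc vA μ 1 n * n ≤ 2 * vA μ 1 r * (8 * M * (2 ^ J * r)) :=
            mul_le_mul k1 k2 (Nat.cast_nonneg n) (by positivity)
        _ = 16 * M * 2 ^ J * (vA μ 1 r * r) := by ring
    have h5 : 2 * ρ / w ≤ 64 * D * 2 ^ J / c * (s * M) := by
      rw [div_le_iff₀ hwpos, hρ]
      have k1 : 2 * (D * s * wd μ n) ≤ 2 * (D * s * (16 * M * 2 ^ J * wd μ r)) :=
        mul_le_mul_of_nonneg_left (mul_le_mul_of_nonneg_left h4 (by positivity)) (by norm_num)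
      refine k1.trans ?_
      have k2 : 64 * D * 2 ^ J / c * (s * M) * (c * wd μ r / 2) ≤ 64 * D * 2 ^ J / c * (s * M) * w :=
        mul_le_mul_of_nonneg_left hw3 (by positivity)
      refine le_trans (le_of_eq ?_) k2
      field_simp
      ring
    linarith
  have hIM : ((I * M : ℕ) : ℝ) ≤ D6 * s ^ (1 + 2 / θ₀) := by
    push_cast
    have h1 : (1 : ℝ) ≤ s * M := by nlinarith
    have h2 : (I : ℝ) ≤ (64 * D * 2 ^ J / c + 1) * (s * M) := by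
      rw [add_mul]
      linarith
    have h3 : (M : ℝ) ^ 2 ≤ D5 ^ 2 * s ^ (2 / θ₀) := by
      have h4 := pow_le_pow_left₀ (Nat.cast_nonneg _) hMD 2
      refine h4.trans (le_of_eq ?_)
      rw [mul_pow, ← Real.rpow_natCast (s ^ (1 / θ₀)) 2, ← Real.rpow_mul hs0.le]
      congr 2
      push_cast
      ring
    have h4 : s ^ (1 + 2 / θ₀) = s * s ^ (2 / θ₀) := by
      rw [Real.rpow_add hs0, Real.rpow_one]
    calc (I : ℝ) * M ≤ (64 * D * 2 ^ J / c + 1) * (s * M) * M := mul_le_mul_of_nonneg_right h2 (by linarith)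
      _ = (64 * D * 2 ^ J / c + 1) * s * (M : ℝ) ^ 2 := by ring
      _ ≤ (64 * D * 2 ^ J / c + 1) * s * (D5 ^ 2 * s ^ (2 / θ₀)) := mul_le_mul_of_nonneg_left h3 (by positivity)
      _ = D6 * s ^ (1 + 2 / θ₀) := by rw [hD6, h4]; ring
  -- the unlucky rows
  have hDn := Dn_iter (μ := μ) (ρ := ρ) (κ := κ * EE μ (2 * m')) (m' := m') (l := l) (I := I) (by omega) hw4 hp.le hIw
    (fun t y0 => hcell' t y0 (2 * m') le_rfl) (fun y0 => hcell' 0 y0 l hl1) k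
  rw [hkl, ← pow_mul, ← hk] at hDn
  have hk1 : (k : ℝ) + 1 = M := by rw [hk]; push_cast; ring
  rw [hk1] at hDn
  -- the exit
  have hEx := hexit n (by omega) s hs1
  rw [← hρ] at hEx
  obtain ⟨Ex, hExd⟩ : ∃ Ex : Set Env, Ex = {η | Real.exp (V μ 0 η 0 n) - cS μ (Sp ρ) η 0 n ≤
      Real.exp (-((s + 1) * EE μ n))} := ⟨_, rfl⟩
  rw [← hExd] at hEx
  have mEx : MeasurableSet Ex := by
    rw [hExd]
    exact measurableSet_le ((Real.measurable_exp.comp (measurable_V 0 n)).sub (measurable_cS _ _ _)) measurable_const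
  have dEx : Dec Ex := by
    intro η η' hh hη
    rw [hExd] at hη ⊢
    exact (exit_sum_mono (μ := μ) (Sp ρ) hh 0 n).trans hη
  have hH := harris_dec (μ := μ) (A := Ex) (B := Dn μ ρ n (M * (κ * EE μ (2 * m')))) mEx
    (Dn_meas (μ := μ) ρ n (M * (κ * EE μ (2 * m')))) dEx (Dn_dec (μ := μ) _ _ _) (Dn_fin (μ := μ) _ _ _)
  have hP : p ^ (I * M) * (1 / 2) ≤ (law μ).real (Ex ∩ Dn μ ρ n (M * (κ * EE μ (2 * m')))) := by
    refine le_trans ?_ hH
    rw [mul_comm]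
    exact mul_le_mul hEx hDn (pow_nonneg hp.le _) measureReal_nonneg
  refine (hexp s (I * M) hs1 hIM).trans (hP.trans (measureReal_mono (fun η hη => ?_) (measure_ne_top _ _)))
  obtain ⟨q1, q2⟩ := hη
  rw [hExd, Set.mem_ofPred_eq] at q1
  rw [Set.mem_ofPred_eq]
  have q3 := q2 0 (by
    rw [Finset.mem_Icc]
    have := Int.floor_nonneg.2 hρ0
    omega)
  have e0 : (((0 : ℤ), (0 : ℤ)) : Pt) = 0 := rfl
  rw [e0] at q3
  have hn2 : n ≤ 2 * M * (2 * m') := by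
    have : 2 * M * (m' + 1) ≤ 2 * M * (2 * m') := Nat.mul_le_mul_left _ (by omega)
    omega
  have hunit := block_unit (μ := μ) hB hθ₁ hsub (m := 2 * m') (n := n) (M := M) (by omega) (by omega) (by omega) (by omega)
    hn2 (K := κ / 2) (s := 2 * s) (by
      rw [hD1d] at hMs
      have h1 := mul_le_mul_of_nonneg_left hMs (show 0 ≤ κ / 2 by positivity)
      have h2 : κ / 2 * (4 * B / κ * s) = B * (2 * s) := by
        field_simp
        ring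
      linarith) (by linarith)
  have hEn1 := hEE1 n (by omega)
  have h1 : Real.exp (-(M * (κ * EE μ (2 * m')))) ≤ Real.exp (-((s + 1) * EE μ n)) := by
    refine Real.exp_le_exp.2 ?_
    have h2 : (s + 1) * EE μ n ≤ 2 * s * EE μ n := mul_le_mul_of_nonneg_right (by linarith) hEn.le
    have h3 : κ / 2 * (2 * M) * EE μ (2 * m') = M * (κ * EE μ (2 * m')) := by ring
    linarith
  have h2 : Real.exp (V μ 0 η 0 n) ≤ 2 * Real.exp (-((s + 1) * EE μ n)) := by linarith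
  have h3 : 2 * Real.exp (-((s + 1) * EE μ n)) ≤ Real.exp (-(s * EE μ n)) := by
    have h4 : Real.exp (-((s + 1) * EE μ n)) = Real.exp (-(s * EE μ n)) * Real.exp (-EE μ n) := by
      rw [← Real.exp_add]
      congr 1
      ring
    rw [h4]
    have h5 : 2 * Real.exp (-EE μ n) ≤ 1 := by
      have h6 : Real.exp (-EE μ n) ≤ Real.exp (-1) := Real.exp_le_exp.2 (by linarith)
      have h7 := Real.exp_neg_one_lt_d9
      linarith
    have h6 := mul_le_mul_of_nonneg_left h5 (Real.exp_pos (-(s * EE μ n))).le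
    linarith
  exact Real.exp_le_exp.1 (h2.trans h3)

end

end Pool.Agent.W_7d29a1_NR
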