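import Pool.Agent.W_7d29a1_NR.Tails
import Pool.Agent.W_7d29a1_NR.TailsD
import Pool.Agent.W_7d29a1_SR.MainS

/-!
BOTH TAILS OF `log Z_n` ARE STRETCHED EXPONENTIAL FROM BELOW, on the probability space of the problem (MP_7d29a1_pr). (helper87)
-/

namespace Pool.Agent.W_7d29a1_NR

open MeasureTheory ProbabilityTheory Filter Topology
open Pool.Agent.W_7d29a1_F Pool.Agent.W_7d29a1_h4g Pool.Agent.W_7d29a1_G Pool.Agent.W_7d29a1_SR

noncomputable section

variable {Ω : Type*} [MeasurableSpace Ω] {P : Measure Ω} [IsProbabilityMeasure P] {ω : ℕ × ℤ → Ω → ℝ} {β : ℝ}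
  {μ : Measure ℝ} [IsProbabilityMeasure μ] {c C : ℝ} {n₀ : ℕ}

theorem low_P (hμ : Pool.Agent.W_7d29a1_h47.EM μ)
    (hmp : MeasurePreserving (fun x => toF β fun p => ω p x) P (law μ)) (n : ℕ) (t : ℝ) :
    P.real {x | Real.log (pZ β (fun p => ω p x) n) - ∫ y, Real.log (pZ β (fun p => ω p y) n) ∂P ≤ t} =
      (law μ).real {η | V μ 0 η 0 n - ∫ ξ, V μ 0 ξ 0 n ∂(law μ) ≤ t} := by
  have hA : MeasurableSet {η : Env | V μ 0 η 0 n - ∫ ξ, V μ 0 ξ 0 n ∂(law μ) ≤ t} :=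
    measurableSet_le ((measurable_V 0 n).sub_const _) measurable_const
  rw [← toF_real hmp hA]
  congr 1
  ext x
  simp only [Set.mem_ofPred_eq, dev_eq hμ hmp]

/-- **Both tails of `log Z_n` are stretched exponential from below** at the unit of the standard deviation, in a power range. -/
theorem tails_P (h : In μ c C n₀) (hmp : MeasurePreserving (fun x => toF β fun p => ω p x) P (law μ)) :
    ∃ a A : ℝ, 0 < a ∧ 0 < A ∧ ∀ᶠ n : ℕ in atTop, ∀ t : ℝ, 1 ≤ t → t ≤ (n : ℝ) ^ a →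
      Real.exp (-(A * t ^ A)) ≤ P.real {x | t * sgm P β ω n ≤
        Real.log (pZ β (fun p => ω p x) n) - ∫ y, Real.log (pZ β (fun p => ω p y) n) ∂P} ∧
      Real.exp (-(A * t ^ A)) ≤ P.real {x | Real.log (pZ β (fun p => ω p x) n) -
        ∫ y, Real.log (pZ β (fun p => ω p y) n) ∂P ≤ -(t * sgm P β ω n)} := by
  obtain ⟨b, B, hb, hB, h2⟩ := sV_EE h
  obtain ⟨A₁, θ₁, hA₁, hθ₁, n₁, hup⟩ := up_tail h
  obtain ⟨A₂, θ₂, hA₂, hθ₂, n₂, hdn⟩ := down_tail h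
  obtain ⟨L, hL⟩ : ∃ L : ℝ, L = 1 + B := ⟨_, rfl⟩
  have hL1 : 1 ≤ L := by linarith
  have hL0 : 0 < L := by linarith
  have hθ : 0 < min θ₁ θ₂ := lt_min hθ₁ hθ₂
  obtain ⟨A, hA⟩ : ∃ A : ℝ, A = max (max A₁ (A₁ * L ^ A₁)) (max A₂ (A₂ * L ^ A₂)) := ⟨_, rfl⟩
  have hA1 : A₁ ≤ A := by
    rw [hA]
    exact (le_max_left _ _).trans (le_max_left _ _)
  have hA1' : A₁ * L ^ A₁ ≤ A := by
    rw [hA]
    exact (le_max_right _ _).trans (le_max_left _ _)
  have hA2 : A₂ ≤ A := by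
    rw [hA]
    exact (le_max_left _ _).trans (le_max_right _ _)
  have hA2' : A₂ * L ^ A₂ ≤ A := by
    rw [hA]
    exact (le_max_right _ _).trans (le_max_right _ _)
  have hA0 : 0 < A := hA₁.trans_le hA1
  have key : ∀ A' : ℝ, 0 < A' → A' ≤ A → A' * L ^ A' ≤ A → ∀ t : ℝ, 1 ≤ t →
      Real.exp (-(A * t ^ A)) ≤ Real.exp (-(A' * (L * t) ^ A')) := by
    intro A' hA' h1 h2 t ht
    refine Real.exp_le_exp.2 (neg_le_neg ?_)
    rw [Real.mul_rpow hL0.le (by linarith), ← mul_assoc]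
    exact mul_le_mul h2 (Real.rpow_le_rpow_of_exponent_le ht h1) (by positivity) hA0.le
  refine ⟨min θ₁ θ₂ / 2, A, by positivity, hA0, ?_⟩
  filter_upwards [eventually_ge_atTop n₁, eventually_ge_atTop n₂, eventually_ge_atTop 1,
    ev_pow (δ := min θ₁ θ₂ / 2) (by positivity) (max L 1)] with n e1 e2 e3 e4 t ht ht'
  have hn0 : (1 : ℝ) ≤ n := by exact_mod_cast e3
  have hE : 0 < EE μ n := EE_pos (μ := μ) n
  have hs : L * t ≤ (n : ℝ) ^ min θ₁ θ₂ := by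
    have k1 : (n : ℝ) ^ min θ₁ θ₂ = (n : ℝ) ^ (min θ₁ θ₂ / 2) * (n : ℝ) ^ (min θ₁ θ₂ / 2) := by
      rw [← Real.rpow_add (by linarith)]
      congr 1
      ring
    rw [k1]
    exact mul_le_mul ((le_max_left _ _).trans e4) ht' (by linarith) (by positivity)
  have hs1 : L * t ≤ (n : ℝ) ^ θ₁ := hs.trans (Real.rpow_le_rpow_of_exponent_le hn0 (min_le_left _ _))
  have hs2 : L * t ≤ (n : ℝ) ^ θ₂ := hs.trans (Real.rpow_le_rpow_of_exponent_le hn0 (min_le_right _ _))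
  have hs0 : 1 ≤ L * t := by nlinarith
  obtain ⟨m1, m2⟩ := mean_V h n
  have hsd := (h2 n e3).2
  have hst : t * sV μ n ≤ B * t * EE μ n := by
    have := mul_le_mul_of_nonneg_left hsd (show 0 ≤ t by linarith)
    linarith
  have hLt : L * t * EE μ n = B * t * EE μ n + t * EE μ n := by
    rw [hL]
    ring
  have htE : EE μ n ≤ t * EE μ n := by nlinarith
  have htE0 : 0 ≤ t * EE μ n := by positivity
  rw [luck_P h.em hmp, low_P h.em hmp, sgm_eq hmp]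
  constructor
  · refine (key A₁ hA₁ hA1 hA1' t ht).trans ((hup n e1 (L * t) hs0 hs1).trans
      (measureReal_mono (fun η hη => ?_) (measure_ne_top _ _)))
    rw [Set.mem_ofPred_eq] at hη ⊢
    linarith
  · refine (key A₂ hA₂ hA2 hA2' t ht).trans ((hdn n e2 (L * t) hs0 hs2).trans
      (measureReal_mono (fun η hη => ?_) (measure_ne_top _ _)))
    rw [Set.mem_ofPred_eq] at hη ⊢
    linarith

end

end Pool.Agent.W_7d29a1_NR
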