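import Pool.Agent.W_7d29a1_NR.NonRand
import Pool.Agent.W_7d29a1_SR.MainS

/-!
THE NON RANDOM FLUCTUATION of `log Z_n` on the probability space of the problem (MP_7d29a1_pr). (helper87)
-/

namespace Pool.Agent.W_7d29a1_NR

open MeasureTheory ProbabilityTheory Filter Topology
open Pool.Agent.W_7d29a1_F Pool.Agent.W_7d29a1_h4g Pool.Agent.W_7d29a1_G Pool.Agent.W_7d29a1_SR

noncomputable section

variable {Ω : Type*} [MeasurableSpace Ω] {P : Measure Ω} [IsProbabilityMeasure P] {ω : ℕ × ℤ → Ω → ℝ} {β : ℝ}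
  {μ : Measure ℝ} [IsProbabilityMeasure μ] {c C : ℝ} {n₀ : ℕ}

/-- **THE NON RANDOM FLUCTUATION** `n F - E log Z_n` is at least of the order of the standard deviation, and so is the gap of
superadditivity `E log Z_(2 n) - 2 E log Z_n`. -/
theorem nonrand_P (h : In μ c C n₀) (hmp : MeasurePreserving (fun x => toF β fun p => ω p x) P (law μ)) :
    ∃ c' : ℝ, 0 < c' ∧ ∀ᶠ n : ℕ in atTop,
      c' * sgm P β ω n ≤ n * (Pool.Agent.W_7d29a1_h47.Lam μ 0 - Real.log 2) - ∫ x, Real.log (pZ β (fun p => ω p x) n) ∂P ∧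
      c' * sgm P β ω n ≤ ∫ x, Real.log (pZ β (fun p => ω p x) (2 * n)) ∂P - 2 * ∫ x, Real.log (pZ β (fun p => ω p x) n) ∂P := by
  obtain ⟨a, A, b, B, ha, hA, hb, hB, n₁, hn₁, hsc⟩ := scales (P := P) (β := β) (ω := ω) h hmp
  obtain ⟨c₁, hc₁, n₂, h1⟩ := nonrand h
  obtain ⟨c₂, hc₂, n₃, h2⟩ := gap h
  have hm : 0 < min c₁ c₂ := lt_min hc₁ hc₂
  refine ⟨min c₁ c₂ / A, by positivity, ?_⟩
  filter_upwards [eventually_ge_atTop n₁, eventually_ge_atTop n₂, eventually_ge_atTop n₃] with n e1 e2 e3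
  obtain ⟨s1, s2, s3, s4, s5⟩ := hsc n e1
  have hE : 0 < EE μ n := EE_pos (μ := μ) n
  have k0 : min c₁ c₂ / A * sgm P β ω n ≤ min c₁ c₂ * EE μ n := by
    rw [div_mul_eq_mul_div, div_le_iff₀ hA]
    have := mul_le_mul_of_nonneg_left s2 hm.le
    linarith
  have k1 : min c₁ c₂ * EE μ n ≤ c₁ * EE μ n := mul_le_mul_of_nonneg_right (min_le_left _ _) hE.le
  have k2 : min c₁ c₂ * EE μ n ≤ c₂ * EE μ n := mul_le_mul_of_nonneg_right (min_le_right _ _) hE.le
  have g1 := (h1 n e2).1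
  have g2 := h2 n e3
  rw [← two_mul] at g2
  rw [mean_pZ h.em hmp, mean_pZ h.em hmp]
  push_cast
  constructor <;> linarith

end

end Pool.Agent.W_7d29a1_NR
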