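import Pool.Agent.W_7d29a1_AM.AmpU5

/-!
Amplification of the upper deviations of the logarithm of a weighted sum over finite sets of sites,
every law.
-/

set_option autoImplicit false

namespace Pool.Agent.W_7d29a1_NR.L86

open MeasureTheory ProbabilityTheory Filter Topology Set Pool.Agent.W_MP_7d29a1_pr
  Pool.Agent.W_7d29a1_h46 Pool.Agent.W_7d29a1_h46u Pool.Agent.W_7d29a1_AM

/-- The iterated amplification in the class. -/
lemma iter86 {ρ : Measure ℝ} [IsProbabilityMeasure ρ] {β C D : ℝ} (hC1 : 1 ≤ C) (hD : 1 ≤ D)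
    (hC : ∀ (N : ℕ) (V : (Fin N → ℝ) → ℝ) (p : Fin N → (Fin N → ℝ) → ℝ), Cls β V p →
      ∀ q s : ℝ, 0 < q → q ≤ 1 / 2 → C * (1 + Real.log (1 / q)) ≤ s →
        q ≤ (PN ρ N).real {y | V y ≤ Real.log 2} → q ≤ (PN ρ N).real {y | s ≤ V y} →
        ∫ y, V y ^ 2 ∂PN ρ N ≤ (s / q) ^ 2 → q ^ C ≤ (PN ρ N).real {y | D * s ≤ V y})
    {N : ℕ} {V : (Fin N → ℝ) → ℝ} {p : Fin N → (Fin N → ℝ) → ℝ} (hV : Cls β V p) {q s : ℝ}
    (hq : 0 < q) (hq2 : q ≤ 1 / 2) (h0 : 1 / 2 ≤ (PN ρ N).real {y | V y ≤ Real.log 2})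
    (h1 : q ≤ (PN ρ N).real {y | s ≤ V y}) (hm : ∫ y, V y ^ 2 ∂PN ρ N ≤ (s / q) ^ 2) (i : ℕ)
    (hs : C * (1 + C ^ i * Real.log (1 / q)) ≤ s) :
    q ^ (C ^ i : ℝ) ≤ (PN ρ N).real {y | D ^ i * s ≤ V y} := by
  have hlq : 0 ≤ Real.log (1 / q) := Real.log_nonneg (by rw [le_div_iff₀ hq]; linarith)
  have hC0 : 0 < C := by linarith
  induction i with
  | zero => simpa using h1
  | succ i ih =>
    have hCi : C ^ i ≤ C ^ (i + 1) := pow_le_pow_right₀ hC1 (Nat.le_succ i)
    have hCi1 : 1 ≤ C ^ i := one_le_pow₀ hC1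
    have hs1 : C * (1 + C ^ i * Real.log (1 / q)) ≤ s := by
      refine le_trans (mul_le_mul_of_nonneg_left ?_ hC0.le) hs
      have := mul_le_mul_of_nonneg_right hCi hlq
      linarith
    have hs0 : 0 < s := by
      refine lt_of_lt_of_le ?_ hs1
      have := mul_nonneg (pow_pos hC0 i).le hlq
      positivity
    have h2 := ih hs1
    set q' : ℝ := q ^ (C ^ i : ℝ) with hq'
    have hq'0 : 0 < q' := Real.rpow_pos_of_pos hq _
    have hq'1 : q' ≤ q := by
      calc q' ≤ q ^ (1 : ℝ) := Real.rpow_le_rpow_of_exponent_ge hq (by linarith) hCi1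
        _ = q := Real.rpow_one q
    have hDi : 1 ≤ D ^ i := one_le_pow₀ hD
    have hsD : s ≤ D ^ i * s := le_mul_of_one_le_left hs0.le hDi
    have hlog : Real.log (1 / q') = C ^ i * Real.log (1 / q) := by
      rw [hq', one_div, one_div, Real.log_inv, Real.log_inv, Real.log_rpow hq]
      ring
    have h3 := hC N V p hV q' (D ^ i * s) hq'0 (by linarith)
      (by rw [hlog]; exact hs1.trans hsD) (by linarith) h2 (by
        refine hm.trans (pow_le_pow_left₀ (by positivity) ?_ 2)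
        exact div_le_div₀ (by positivity) hsD hq'0 hq'1)
    have e1 : q ^ (C ^ (i + 1) : ℝ) = q' ^ C := by
      rw [hq', ← Real.rpow_mul hq.le, pow_succ]
    have e2 : D ^ (i + 1) * s = D * (D ^ i * s) := by ring
    rw [e1, e2]
    exact h3

variable {d : ℕ}

/-- The values of the environment at the sites of `I`. -/
noncomputable def prI (I : Finset (ℕ × Pool.Agent.W_MP_7d29a1_pr.Site d)) (η : Env d) : Fin (Fintype.card I) → ℝ := fun i =>
  η ((Fintype.equivFin I).symm i : ℕ × Pool.Agent.W_MP_7d29a1_pr.Site d)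

lemma law_prI {ρ : Measure ℝ} [IsProbabilityMeasure ρ] (I : Finset (ℕ × Pool.Agent.W_MP_7d29a1_pr.Site d)) :
    (law d ρ).map (prI I) = PN ρ (Fintype.card I) := by
  have h1 : (law d ρ).map I.restrict = Measure.pi fun _ : I => ρ :=
    Measure.infinitePi_map_restrict _
  have h2 := Measure.pi_map_piCongrLeft (Fintype.equivFin I) (β := fun _ => ℝ) (fun _ => ρ)
  have h3 : prI I = (MeasurableEquiv.piCongrLeft (fun _ => ℝ) (Fintype.equivFin I)) ∘
      (I.restrict (π := fun _ => ℝ)) := by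
    funext η i
    obtain ⟨j, rfl⟩ := (Fintype.equivFin I).surjective i
    show η ((Fintype.equivFin I).symm (Fintype.equivFin I j) : ℕ × Pool.Agent.W_MP_7d29a1_pr.Site d) =
      (Equiv.piCongrLeft (fun _ => ℝ) (Fintype.equivFin I)) (I.restrict η) (Fintype.equivFin I j)
    rw [Equiv.symm_apply_apply, Equiv.piCongrLeft_apply_apply]
    rfl
  have h4 : Measure.map ((MeasurableEquiv.piCongrLeft (fun _ => ℝ) (Fintype.equivFin I)) ∘
      (I.restrict (π := fun _ => ℝ))) (law d ρ) =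
      Measure.map (MeasurableEquiv.piCongrLeft (fun _ => ℝ) (Fintype.equivFin I))
        (Measure.map (I.restrict (π := fun _ => ℝ)) (law d ρ)) :=
    (Measure.map_map (MeasurableEquiv.measurable _) (Finset.measurable_restrict _)).symm
  rw [h3, h4, h1]
  exact h2

lemma meas_prI (I : Finset (ℕ × Pool.Agent.W_MP_7d29a1_pr.Site d)) : Measurable (prI I) := by
  unfold prI
  exact measurable_pi_lambda _ fun i => measurable_pi_apply _

open Classical in
/-- The numbers of the sites of `B`. -/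
noncomputable def AtI (I B : Finset (ℕ × Pool.Agent.W_MP_7d29a1_pr.Site d)) : Finset (Fin (Fintype.card I)) :=
  Finset.univ.filter fun i => ((Fintype.equivFin I).symm i : ℕ × Pool.Agent.W_MP_7d29a1_pr.Site d) ∈ B

lemma sum_AtI {I B : Finset (ℕ × Pool.Agent.W_MP_7d29a1_pr.Site d)} (hB : B ⊆ I) (η : Env d) :
    ∑ i ∈ AtI I B, prI I η i = ∑ p ∈ B, η p := by
  classical
  unfold AtI prI
  rw [Finset.sum_filter]
  have h1 : ∑ i : Fin (Fintype.card I),
      (if ((Fintype.equivFin I).symm i : ℕ × Pool.Agent.W_MP_7d29a1_pr.Site d) ∈ B then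
        η ((Fintype.equivFin I).symm i : ℕ × Pool.Agent.W_MP_7d29a1_pr.Site d) else 0) =
      ∑ j : I, (if (j : ℕ × Pool.Agent.W_MP_7d29a1_pr.Site d) ∈ B then η (j : ℕ × Pool.Agent.W_MP_7d29a1_pr.Site d) else 0) :=
    Equiv.sum_comp (Fintype.equivFin I).symm fun j : I =>
      if (j : ℕ × Pool.Agent.W_MP_7d29a1_pr.Site d) ∈ B then η (j : ℕ × Pool.Agent.W_MP_7d29a1_pr.Site d) else 0
  rw [h1, Finset.sum_coe_sort I fun p => if p ∈ B then η p else 0, ← Finset.sum_filter]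
  congr 1
  ext p
  simp only [Finset.mem_filter]
  exact ⟨fun h => h.2, fun h => ⟨hB h, h⟩⟩

/-- The partition function of a finite family of sets of sites. -/
noncomputable def ZS {κ : Type*} [Fintype κ] (β : ℝ) (c : κ → ℝ)
    (B : κ → Finset (ℕ × Pool.Agent.W_MP_7d29a1_pr.Site d)) (η : Env d) : ℝ :=
  ∑ k, c k * Real.exp (β * ∑ p ∈ B k, η p)

lemma Z_prI {κ : Type*} [Fintype κ] (β : ℝ) (c : κ → ℝ)
    (B : κ → Finset (ℕ × Pool.Agent.W_MP_7d29a1_pr.Site d)) {I : Finset (ℕ × Pool.Agent.W_MP_7d29a1_pr.Site d)} (hB : ∀ k, B k ⊆ I)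
    (η : Env d) : C5.Z β c (fun k => AtI I (B k)) (prI I η) = ZS β c B η := by
  unfold C5.Z C5.T ZS
  refine Finset.sum_congr rfl fun k _ => ?_
  rw [sum_AtI (hB k)]

/-- **Amplification for the logarithm of a finite weighted sum**, every law, iterated. -/
theorem ampZS86 {ρ : Measure ℝ} [IsProbabilityMeasure ρ] {β : ℝ} (hβ : 0 ≤ β) {C D : ℝ}
    (hC1 : 1 ≤ C) (hD : 1 ≤ D)
    (hC : ∀ (N : ℕ) (V : (Fin N → ℝ) → ℝ) (p : Fin N → (Fin N → ℝ) → ℝ), Cls β V p →
      ∀ q s : ℝ, 0 < q → q ≤ 1 / 2 → C * (1 + Real.log (1 / q)) ≤ s →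
        q ≤ (PN ρ N).real {y | V y ≤ Real.log 2} → q ≤ (PN ρ N).real {y | s ≤ V y} →
        ∫ y, V y ^ 2 ∂PN ρ N ≤ (s / q) ^ 2 → q ^ C ≤ (PN ρ N).real {y | D * s ≤ V y})
    {κ : Type*} [Fintype κ] {c : κ → ℝ} (hc : ∀ k, 0 ≤ c k)
    (B : κ → Finset (ℕ × Pool.Agent.W_MP_7d29a1_pr.Site d)) {W : Env d → ℝ}
    (hW : ∀ η, Real.exp (W η) = ZS β c B η) {M b L q : ℝ} {i : ℕ} (hq : 0 < q) (hq2 : q ≤ 1 / 4)
    (hb : C * (1 + C ^ i * Real.log (1 / q)) ≤ b) (hL : L - M + 1 ≤ D ^ i * b)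
    (h0 : 1 / 2 ≤ (law d ρ).real {η | W η ≤ M}) (h1 : 1 / 4 ≤ (law d ρ).real {η | M + b ≤ W η})
    (hm : ∫ η, Real.log (1 + Real.exp (W η - M)) ^ 2 ∂(law d ρ) ≤ (b / q) ^ 2) :
    q ^ (C ^ i : ℝ) ≤ (law d ρ).real {η | L ≤ W η} := by
  classical
  set I : Finset (ℕ × Pool.Agent.W_MP_7d29a1_pr.Site d) := Finset.univ.biUnion B with hI
  have hBI : ∀ k, B k ⊆ I := fun k => Finset.subset_biUnion_of_mem B (Finset.mem_univ k)
  set V := C5.V β c (fun k => AtI I (B k)) M with hVd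
  have hV : ∀ η : Env d, V (prI I η) = Real.log (1 + Real.exp (W η - M)) := by
    intro η
    rw [hVd]
    unfold C5.V C5.Dn
    rw [Z_prI β c B hBI, ← hW, sub_eq_add_neg, Real.exp_add]
  have hcls := cls5 hβ hc (fun k => AtI I (B k)) M
  have mV : Measurable V := hcls.meas
  have hlaw : ∀ T : Set ℝ, MeasurableSet T → (PN ρ (Fintype.card I)).real {y | V y ∈ T} =
      (law d ρ).real {η | Real.log (1 + Real.exp (W η - M)) ∈ T} := fun T hT => by
    have mS : MeasurableSet {y | V y ∈ T} := mV hT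
    rw [← law_prI, map_measureReal_apply (meas_prI I) mS]
    congr 1
    ext η
    show V (prI I η) ∈ T ↔ Real.log (1 + Real.exp (W η - M)) ∈ T
    rw [hV]
  have hlq : 0 ≤ Real.log (1 / q) := Real.log_nonneg (by rw [le_div_iff₀ hq]; linarith)
  have hb1 : 1 ≤ b := by
    refine le_trans ?_ hb
    have h2 : 0 ≤ C ^ i * Real.log (1 / q) := mul_nonneg (pow_nonneg (by linarith) i) hlq
    nlinarith
  have hDi : 1 ≤ D ^ i := one_le_pow₀ hD
  have e0 := hlaw (Iic (Real.log 2)) measurableSet_Iic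
  have e1 := hlaw (Ici b) measurableSet_Ici
  have e2 := hlaw (Ici (D ^ i * b)) measurableSet_Ici
  simp only [mem_Iic, mem_Ici] at e0 e1 e2
  have key := iter86 hC1 hD hC hcls (q := q) (s := b) hq (by linarith) ?_ ?_ ?_ i hb
  · refine key.trans ?_
    show (PN ρ (Fintype.card I)).real {y | D ^ i * b ≤ V y} ≤ _
    rw [e2]
    refine measureReal_mono fun η (hη : D ^ i * b ≤ Real.log (1 + Real.exp (W η - M))) => ?_
    show L ≤ W η
    have h3 := U5.log_le (W η - M)
    have h4 := Real.log_two_lt_d9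
    have h5 : b ≤ D ^ i * b := le_mul_of_one_le_left (by linarith) hDi
    rcases le_total (W η - M) 0 with h6 | h6
    · rw [max_eq_right h6] at h3
      linarith
    · rw [max_eq_left h6] at h3
      linarith
  · show 1 / 2 ≤ (PN ρ (Fintype.card I)).real {y | V y ≤ Real.log 2}
    rw [e0]
    refine h0.trans ?_
    refine measureReal_mono fun η (hη : W η ≤ M) => ?_
    show Real.log (1 + Real.exp (W η - M)) ≤ Real.log 2
    apply Real.log_le_log (by positivity)
    have : Real.exp (W η - M) ≤ 1 := Real.exp_le_one_iff.2 (by linarith)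
    linarith
  · show q ≤ (PN ρ (Fintype.card I)).real {y | b ≤ V y}
    rw [e1]
    refine (hq2.trans h1).trans ?_
    refine measureReal_mono fun η (hη : M + b ≤ W η) => ?_
    show b ≤ Real.log (1 + Real.exp (W η - M))
    rw [Real.le_log_iff_exp_le (by positivity)]
    have : Real.exp b ≤ Real.exp (W η - M) := Real.exp_le_exp.2 (by linarith)
    linarith
  · show ∫ y, V y ^ 2 ∂PN ρ (Fintype.card I) ≤ (b / q) ^ 2
    rw [← law_prI, integral_map (meas_prI I).aemeasurable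
      ((mV.pow_const 2).aestronglyMeasurable)]
    simp only [hV]
    exact hm

end Pool.Agent.W_7d29a1_NR.L86
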