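import Pool.Agent.W_7d29a1_NR.AmpLS86
import Pool.Agent.W_7d29a1_NR.HalvA45
import Pool.Agent.W_7d29a1_NR.SplS45

/-!
Theorem NR for every law: the amplification hypothesis of the halving lemma.
-/

set_option autoImplicit false

namespace Pool.Agent.W_7d29a1_NR.L86

open MeasureTheory ProbabilityTheory Filter Topology Pool.Agent.W_MP_7d29a1_pr
  Pool.Agent.W_7d29a1_h46 Pool.Agent.W_7d29a1_h46u Pool.Agent.W_7d29a1_D2.B35
  Pool.Agent.W_7d29a1_Q29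

variable {d : ℕ}

/-- The futures. -/
noncomputable def V86 (ρ : Measure ℝ) (β : ℝ) (h : Vec d) (m : ℕ)
    (y : Pool.Agent.W_MP_7d29a1_pr.Site d) (ξ : Env d) : ℝ :=
  X β h (sh 0 y ξ) m - A ρ β h m

/-- The sites of a walk which starts at `y`. -/
noncomputable def Bw {m : ℕ} (y : Pool.Agent.W_MP_7d29a1_pr.Site d) (s : Fin m → Step d) :
    Finset (ℕ × Pool.Agent.W_MP_7d29a1_pr.Site d) :=
  Finset.univ.map ⟨fun i : Fin m => (((i : ℕ) + 1 + 0, pos s ((i : ℕ) + 1) + y) :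
    ℕ × Pool.Agent.W_MP_7d29a1_pr.Site d), fun i j hij => by
      have h1 : (i : ℕ) + 1 + 0 = (j : ℕ) + 1 + 0 := congrArg Prod.fst hij
      exact Fin.ext (by omega)⟩

lemma sum_Bw {m : ℕ} (y : Pool.Agent.W_MP_7d29a1_pr.Site d) (s : Fin m → Step d) (ξ : Env d) :
    ∑ p ∈ Bw y s, ξ p = energy (sh 0 y ξ) s := by
  unfold Bw energy sh
  rw [Finset.sum_map]
  rfl

/-- The weights of the walks. -/
noncomputable def cW (ρ : Measure ℝ) (β : ℝ) (h : Vec d) (m : ℕ)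
    (μ : Pool.Agent.W_MP_7d29a1_pr.Site d → ℝ) (D : Finset (Pool.Agent.W_MP_7d29a1_pr.Site d))
    (k : {y // y ∈ D} × (Fin m → Step d)) : ℝ :=
  μ k.1 * (Real.exp (-A ρ β h m) * Real.exp (inner ℝ h (emb (pos k.2 m))))

/-- The sites of the walks. -/
noncomputable def BW (m : ℕ) (D : Finset (Pool.Agent.W_MP_7d29a1_pr.Site d))
    (k : {y // y ∈ D} × (Fin m → Step d)) : Finset (ℕ × Pool.Agent.W_MP_7d29a1_pr.Site d) :=
  Bw (k.1 : Pool.Agent.W_MP_7d29a1_pr.Site d) k.2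

/-- The exponential of the gain is a finite weighted sum. -/
lemma exp_gain86 (hd : 0 < d) (ρ : Measure ℝ) (β : ℝ) (h : Vec d) (m : ℕ)
    {μ : Pool.Agent.W_MP_7d29a1_pr.Site d → ℝ} {D : Finset (Pool.Agent.W_MP_7d29a1_pr.Site d)}
    (hD : D.Nonempty) (hμ : ∀ y ∈ D, 0 < μ y) (ξ : Env d) :
    Real.exp (WD45 μ (V86 ρ β h m) D ξ) =
      ZS β (cW ρ β h m μ D) (BW m D) ξ := by
  have hpos : 0 < ∑ y ∈ D, μ y * Real.exp (V86 ρ β h m y ξ) :=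
    Finset.sum_pos (fun y hy => mul_pos (hμ y hy) (Real.exp_pos _)) hD
  unfold WD45
  rw [Real.exp_log hpos]
  unfold ZS cW BW
  rw [Fintype.sum_prod_type, ← Finset.sum_coe_sort D]
  refine Finset.sum_congr rfl fun y _ => ?_
  have e1 : Real.exp (V86 ρ β h m y ξ) = Real.exp (-A ρ β h m) * Z β h (sh 0 (y : _) ξ) m := by
    unfold V86 X
    rw [sub_eq_add_neg, add_comm, Real.exp_add, Real.exp_log (Z_pos hd β h _ m)]
  rw [e1]
  unfold Z ZT wgt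
  simp only [Set.mem_univ, if_true]
  rw [Finset.mul_sum, Finset.mul_sum]
  refine Finset.sum_congr rfl fun s _ => ?_
  rw [sum_Bw, Real.exp_add]
  ring

/-- A number. -/
lemma num86 {x u v : ℝ} (hx : 0 ≤ x) (h : x ≤ 1 + (u + 2 * v)) :
    x ^ 2 ≤ 3 * (1 + 4 * v ^ 2) + 3 * u ^ 2 := by
  have h1 : x ^ 2 ≤ (1 + (u + 2 * v)) ^ 2 := pow_le_pow_left₀ hx h 2
  nlinarith [sq_nonneg (1 - u), sq_nonneg (1 - 2 * v), sq_nonneg (u - 2 * v)]

/-- The second moment, abstractly. -/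
lemma mom86 {Ω : Type*} [MeasurableSpace Ω] (P : Measure Ω) [IsProbabilityMeasure P]
    {W W' : Ω → ℝ} {M δ B v : ℝ} (hW : ∀ ω, W ω ≤ W' ω) (hv1 : 1 ≤ v) (hB0 : 0 ≤ B)
    (hBv : B ≤ v) (hM : δ - M ≤ 2 * v) (hI : Integrable (fun ω => (W' ω - δ) ^ 2) P)
    (hB : ∫ ω, (W' ω - δ) ^ 2 ∂P ≤ B ^ 2) :
    ∫ ω, Real.log (1 + Real.exp (W ω - M)) ^ 2 ∂P ≤ 64 * v ^ 2 := by
  have hpt : ∀ ω, Real.log (1 + Real.exp (W ω - M)) ^ 2 ≤
      3 * (1 + 4 * v ^ 2) + 3 * (W' ω - δ) ^ 2 := by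
    intro ω
    have h5 := W_7d29a1_AM.U5.log_le (W ω - M)
    have h6 : 0 ≤ Real.log (1 + Real.exp (W ω - M)) :=
      Real.log_nonneg (by
        have := Real.exp_pos (W ω - M)
        linarith)
    have h7 := hW ω
    have h8 : max (W ω - M) 0 ≤ |W' ω - δ| + 2 * v := by
      refine max_le ?_ (by positivity)
      have := le_abs_self (W' ω - δ)
      linarith
    have h9 := Real.log_two_lt_d9
    rw [← sq_abs (W' ω - δ)]
    exact num86 h6 (by linarith)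
  have h11 := integral_mono_of_nonneg (μ := P)
    (Eventually.of_forall fun ω => sq_nonneg (Real.log (1 + Real.exp (W ω - M))))
    ((integrable_const (3 * (1 + 4 * v ^ 2))).add (hI.const_mul 3))
    (Eventually.of_forall hpt)
  have h12 := integral_add (μ := P) (integrable_const (3 * (1 + 4 * v ^ 2))) (hI.const_mul 3)
  rw [integral_const, probReal_univ, one_smul, integral_const_mul] at h12
  have h15 : ∫ ω, Real.log (1 + Real.exp (W ω - M)) ^ 2 ∂P ≤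
      3 * (1 + 4 * v ^ 2) + 3 * ∫ ω, (W' ω - δ) ^ 2 ∂P := h11.trans (le_of_eq h12)
  refine h15.trans ?_
  have h13 : B ^ 2 ≤ v ^ 2 := pow_le_pow_left₀ hB0 hBv 2
  have h14 : 1 ≤ v ^ 2 := one_le_pow₀ hv1
  linarith

/-- The numbers of the amplification step. -/
lemma nums86 {C c T a M b B δ : ℝ} {i : ℕ} (hC1 : 1 ≤ C) (hc : 0 < c) (hc1 : c ≤ 1)
    (hi : 3 / c ≤ (4 : ℝ) ^ i) (hBa : B ≤ a) (hδ : δ ≤ T + a) (hb : 0 < b)
    (hbC : C * (1 + C ^ i * Real.log (1 / (c / 8))) ≤ b) (hcb : c * (T + a - (M + b)) ≤ b)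
    (hMT : M + b ≤ T) :
    1 ≤ b / c ∧ B ≤ b / c ∧ δ - M ≤ 2 * (b / c) ∧ T + a - M + 1 ≤ 4 ^ i * b := by
  have hq : 0 < c / 8 := by positivity
  have hlq : 0 ≤ Real.log (1 / (c / 8)) :=
    Real.log_nonneg (by rw [le_div_iff₀ hq]; linarith)
  have hb1 : 1 ≤ b := by
    refine le_trans ?_ hbC
    have h2 : 0 ≤ C ^ i * Real.log (1 / (c / 8)) :=
      mul_nonneg (pow_nonneg (by linarith) i) hlq
    nlinarith
  have hbc : b ≤ b / c := by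
    rw [le_div_iff₀ hc]
    nlinarith
  have h1 : T + a - (M + b) ≤ b / c := by
    rw [le_div_iff₀ hc]
    linarith
  have h2 : 3 / c * b ≤ (4 : ℝ) ^ i * b := mul_le_mul_of_nonneg_right hi hb.le
  have h3 : 3 / c * b = 3 * (b / c) := by ring
  refine ⟨hb1.trans hbc, by linarith, by linarith, by linarith⟩

/-- **The amplification hypothesis of the halving lemma, every law.** -/
theorem hA86 (hd : 0 < d) {ρ : Measure ℝ} [IsProbabilityMeasure ρ] {β : ℝ} (hβ : 0 ≤ β) {C : ℝ}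
    (hC1 : 1 ≤ C)
    (hC : ∀ (N : ℕ) (V : (Fin N → ℝ) → ℝ) (p : Fin N → (Fin N → ℝ) → ℝ),
      W_7d29a1_AM.Cls β V p → ∀ q s : ℝ, 0 < q → q ≤ 1 / 2 → C * (1 + Real.log (1 / q)) ≤ s →
        q ≤ (W_7d29a1_AM.PN ρ N).real {y | V y ≤ Real.log 2} →
        q ≤ (W_7d29a1_AM.PN ρ N).real {y | s ≤ V y} →
        ∫ y, V y ^ 2 ∂W_7d29a1_AM.PN ρ N ≤ (s / q) ^ 2 →
          q ^ C ≤ (W_7d29a1_AM.PN ρ N).real {y | 4 * s ≤ V y})
    (h : Vec d) (m : ℕ) {μ : Pool.Agent.W_MP_7d29a1_pr.Site d → ℝ}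
    {S : Finset (Pool.Agent.W_MP_7d29a1_pr.Site d)} (hμ : ∀ y ∈ S, 0 < μ y)
    {T a c B δ : ℝ} {i : ℕ} (hc : 0 < c) (hc1 : c ≤ 1) (hi : 3 / c ≤ (4 : ℝ) ^ i) (hB0 : 0 ≤ B)
    (hBa : B ≤ a) (hδ : δ ≤ T + a)
    (hI : Integrable (fun ξ => (WD45 μ (V86 ρ β h m) S ξ - δ) ^ 2) (law d ρ))
    (hB : ∫ ξ, (WD45 μ (V86 ρ β h m) S ξ - δ) ^ 2 ∂(law d ρ) ≤ B ^ 2)
    (D : Finset (Pool.Agent.W_MP_7d29a1_pr.Site d)) (hDS : D ⊆ S) (hD : D.Nonempty) (M b : ℝ)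
    (hb : 0 < b) (hbC : C * (1 + C ^ i * Real.log (1 / (c / 8))) ≤ b)
    (hcb : c * (T + a - (M + b)) ≤ b) (hMT : M + b ≤ T)
    (m1 : 1 / 2 ≤ (law d ρ).real {ω | WD45 μ (V86 ρ β h m) D ω ≤ M})
    (m3 : 1 / 4 ≤ (law d ρ).real {ω | M + b ≤ WD45 μ (V86 ρ β h m) D ω}) :
      (c / 8) ^ (C ^ i : ℝ) ≤ (law d ρ).real {ω | T + a ≤ WD45 μ (V86 ρ β h m) D ω} := by
  have hμD : ∀ y ∈ D, 0 < μ y := fun y hy => hμ y (hDS hy)
  have hq : 0 < c / 8 := by positivity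
  obtain ⟨n1, n2, n3, n4⟩ := nums86 hC1 hc hc1 hi hBa hδ hb hbC hcb hMT
  have hWW : ∀ ξ : Env d, WD45 μ (V86 ρ β h m) D ξ ≤ WD45 μ (V86 ρ β h m) S ξ := by
    intro ξ
    unfold WD45
    refine Real.log_le_log (Finset.sum_pos (fun y hy => mul_pos (hμD y hy)
      (Real.exp_pos _)) hD) ?_
    exact Finset.sum_le_sum_of_subset_of_nonneg hDS fun y hy _ =>
      (mul_pos (hμ y hy) (Real.exp_pos _)).le
  have hmom := mom86 (law d ρ) hWW n1 hB0 n2 n3 hI hB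
  have h12 : (b / (c / 8)) ^ 2 = 64 * (b / c) ^ 2 := by
    field_simp
    ring
  rw [← h12] at hmom
  have hcw : ∀ k, 0 ≤ cW ρ β h m μ D k := fun k =>
    mul_nonneg (hμD _ k.1.2).le (mul_pos (Real.exp_pos _) (Real.exp_pos _)).le
  have hWexp := exp_gain86 hd ρ β h m hD hμD
  have key := @ampZS86 d ρ _ β hβ C 4 hC1 (by norm_num) hC _ _ (cW ρ β h m μ D) hcw (BW m D)
    (WD45 μ (V86 ρ β h m) D) hWexp M b (T + a) (c / 8) i hq (by linarith) hbC n4 m1 m3 hmom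
  exact key

end Pool.Agent.W_7d29a1_NR.L86
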