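import Pool.Agent.W_7d29a1_NR.DefsU45
import Pool.Agent.W_7d29a1_NR.Del11
import Pool.Agent.W_7d29a1_R34.Tail13

/-!
Theorem MON (helper43), the interface: a mixture of future free energies which is concentrated has
a mean which is at most the standard deviation of one of them, up to the concentration times a
subpolynomial factor.
-/

namespace Pool.Agent.W_7d29a1_NR

open MeasureTheory ProbabilityTheory Filter Topology Pool.Agent.W_MP_7d29a1_pr
  Pool.Agent.W_7d29a1_h46 Pool.Agent.W_7d29a1_h46u Pool.Agent.W_7d29a1_D2.B35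
  Pool.Agent.W_7d29a1_Q29 Pool.Agent.W_7d29a1_R34 Pool.Agent.W_7d29a1_SP

/-- The interface. -/
def CoreW (d : ℕ) (ρ : Measure ℝ) (β C₀ : ℝ) (W : ℕ → ℝ) : Prop := ∀ (h : Vec d) (k m : ℕ)
  (μ : Site d → ℝ), (∀ y, 0 ≤ μ y) → (∀ y, μ y ≤ 1) → ∑ y ∈ boxF d k, μ y = 1 →
  ∀ δ B : ℝ, 0 ≤ B → Integrable (gain d ρ β h m (boxF d k) μ) (law d ρ) →
    Integrable (fun ξ => (gain d ρ β h m (boxF d k) μ ξ - δ) ^ 2) (law d ρ) →
    ∫ ξ, (gain d ρ β h m (boxF d k) μ ξ - δ) ^ 2 ∂(law d ρ) ≤ B ^ 2 →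
      δ ≤ C₀ * Sg ρ β h m + W k * (B + 1)

lemma jen2 {Ω : Type*} [MeasurableSpace Ω] {P : Measure Ω} [IsProbabilityMeasure P] {f : Ω → ℝ}
    (hf : Integrable f P) (hf2 : Integrable (fun ω => f ω ^ 2) P) :
    (∫ ω, f ω ∂P) ^ 2 ≤ ∫ ω, f ω ^ 2 ∂P := by
  obtain ⟨a, ha⟩ : ∃ a : ℝ, a = ∫ ω, f ω ∂P := ⟨_, rfl⟩
  have h1 : 0 ≤ ∫ ω, (f ω - a) ^ 2 ∂P := integral_nonneg fun ω => sq_nonneg _
  have h2 : ∫ ω, (f ω - a) ^ 2 ∂P = ∫ ω, (f ω ^ 2 - 2 * a * f ω + a ^ 2) ∂P :=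
    integral_congr_ae (Eventually.of_forall fun ω => by simp only; ring)
  have i1 : Integrable (fun ω => f ω ^ 2 - 2 * a * f ω) P := hf2.sub (hf.const_mul _)
  have i2 : Integrable (fun ω => 2 * a * f ω) P := hf.const_mul _
  rw [h2, integral_add i1 (integrable_const _), integral_sub hf2 i2, integral_const_mul,
    integral_const, probReal_univ, one_smul, ← ha] at h1
  rw [← ha]
  nlinarith

lemma Fn_le_Sg {d : ℕ} {ρ : Measure ℝ} [IsProbabilityMeasure ρ] {β : ℝ}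
    (hd : 0 < d) (hρ : EM ρ) (h : Vec d) (n : ℕ) : Fn ρ β h n ≤ Sg ρ β h n := by
  unfold Fn Sg
  refine Real.le_sqrt_of_sq_le ?_
  have i1 : Integrable (fun η => X β h η n - A ρ β h n) (law d ρ) :=
    (concU hd hρ β h n).1.sub (integrable_const _)
  have i2 : Integrable (fun η => (X β h η n - A ρ β h n) ^ 2) (law d ρ) :=
    Pool.Agent.W_7d29a1_R34.integrable_cen13 hd hρ β h n
  have h3 := jen2 (P := law d ρ) i1.abs (by
    refine i2.congr (Eventually.of_forall fun η => ?_)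
    simp only [sq_abs])
  refine h3.trans (le_of_eq ?_)
  unfold Va
  simp only [sq_abs]

open Del11 in
/-- The interface for the laws of the convex functions of a Gaussian variable. -/
theorem coreG43 {d : ℕ} {ρ : Measure ℝ} [IsProbabilityMeasure ρ] {β : ℝ} (hd : 0 < d)
    (hρ : EM ρ) (hT : TraP d ρ β) : ∃ C : ℝ, 1 ≤ C ∧
      CoreW d ρ β 2 fun k => C * Real.exp (C * Real.log (k + 2) ^ (2 / 3 : ℝ)) := by
  classical
  have hA := A84.cA_pos
  have l2 : 0 < Real.log 2 := Real.log_pos (by norm_num)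
  refine ⟨(9 + 1 / A84.cA) + 66 * ((3 * d + 1) / Real.log 2) ^ (2 / 3 : ℝ), ?_, ?_⟩
  · have h1 : 0 ≤ 1 / A84.cA := by positivity
    have h2 : 0 ≤ 66 * (((3 * d + 1) / Real.log 2) ^ (2 / 3 : ℝ) : ℝ) := by positivity
    linarith
  intro h k m w hw0 hw1 hsum δ B₀ hB₀ hint hint2 hbd2
  have hbd : ∫ η, |gain d ρ β h m (boxF d k) w η - δ| ∂(law d ρ) ≤ B₀ := by
    have i1 : Integrable (fun η => gain d ρ β h m (boxF d k) w η - δ) (law d ρ) :=
      hint.sub (integrable_const _)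
    have h3 := jen2 (P := law d ρ) i1.abs (by
      refine hint2.congr (Eventually.of_forall fun η => ?_)
      simp only [sq_abs])
    simp only [sq_abs] at h3
    exact abs_le_of_sq_le_sq' (h3.trans hbd2) hB₀ |>.2
  obtain ⟨S, hSd⟩ : ∃ S : Finset (Site d), S = (boxF d k).filter fun y => w y ≠ 0 := ⟨_, rfl⟩
  have hSsub : S ⊆ boxF d k := by rw [hSd]; exact Finset.filter_subset _ _
  have hg : ∀ η, gain d ρ β h m S w η = gain d ρ β h m (boxF d k) w η := by
    intro η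
    unfold gain
    congr 1
    refine Finset.sum_subset hSsub fun y hy hyS => ?_
    have : w y = 0 := by
      by_contra hne
      exact hyS (by rw [hSd]; exact Finset.mem_filter.2 ⟨hy, hne⟩)
    rw [this, zero_mul]
  have hSne : S.Nonempty := by
    rw [Finset.nonempty_iff_ne_empty]
    intro h0
    have h1 : ∑ y ∈ boxF d k, w y = ∑ y ∈ S, w y := by
      refine (Finset.sum_subset hSsub fun y hy hyS => ?_).symm
      by_contra hne
      exact hyS (by rw [hSd]; exact Finset.mem_filter.2 ⟨hy, hne⟩)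
    rw [h0, Finset.sum_empty, hsum] at h1
    exact one_ne_zero h1
  have hcard : S.card ≤ 2 ^ JJ d k := (Finset.card_le_card hSsub).trans (JJ_card d k)
  have hwS : ∀ y ∈ S, 0 < w y ∧ w y ≤ 1 := fun y hy => by
    rw [hSd, Finset.mem_filter] at hy
    exact ⟨lt_of_le_of_ne (hw0 y) (Ne.symm hy.2), hw1 y⟩
  obtain ⟨J, hJ⟩ : ∃ J : ℕ, J = JJ d k := ⟨_, rfl⟩
  have hJ1 : 1 ≤ J := by rw [hJ]; exact Nat.le_add_left 1 _
  have hJr : (1 : ℝ) ≤ J := by exact_mod_cast hJ1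
  obtain ⟨c, hc⟩ : ∃ c : ℝ, c = (J : ℝ) ^ (-(1 / 3 : ℝ)) := ⟨_, rfl⟩
  have hc0 : 0 < c := by rw [hc]; exact Real.rpow_pos_of_pos (by linarith) _
  have hc1 : c ≤ 1 := by rw [hc]; exact Real.rpow_le_one_of_one_le_of_nonpos hJr (by norm_num)
  obtain ⟨κ, hκ⟩ : ∃ κ : ℝ, κ = Ehr.Phi (-(4 + 4 / c)) := ⟨_, rfl⟩
  have hκ0 : 0 < κ := by rw [hκ]; exact Ehr.Phi_pos _
  have hκ1 : A84.cA * Real.exp (-(4 + 4 / c) ^ 2) ≤ κ := by
    rw [hκ]
    exact A84.Phi_lower (by positivity)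
  have f3 := Fn_nonneg (ρ := ρ) (β := β) h m
  obtain ⟨B, hB⟩ : ∃ B : ℝ, B = B₀ + 1 := ⟨_, rfl⟩
  have hB0 : 0 < B := by rw [hB]; linarith
  obtain ⟨a, ha⟩ : ∃ a : ℝ, a = 2 * B + B / κ := ⟨_, rfl⟩
  have ha0 : 0 ≤ a := by rw [ha]; positivity
  have hgi : Integrable (fun η => gain d ρ β h m (boxF d k) w η - δ) (law d ρ) :=
    hint.sub (integrable_const _)
  have hX : Integrable (fun η => X β h η m) (law d ρ) := (concU hd hρ β h m).1
  have main := hT h m S w J c a (δ - 2 * B) (2 * Fn ρ β h m) hSne (hJ ▸ hcard) hwS hc0 hc1 ha0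
    ?_ ?_ ?_
  · have hn := nums (J := J) hJ1 (G := B) (B := B)
      (F := 0) hc hκ0 hκ1 (by rw [hB]; linarith) le_rfl hB0.le hB0.le
    rw [← ha] at hn
    have h1 : δ ≤ 2 * Fn ρ β h m + (9 + 1 / A84.cA) * B * Real.exp (66 * (J : ℝ) ^ (2 / 3 : ℝ)) := by
      linarith
    obtain ⟨C₁, hC₁⟩ : ∃ C₁ : ℝ, C₁ = (3 * d + 1) / Real.log 2 := ⟨_, rfl⟩
    have hC₁0 : 0 ≤ C₁ := by rw [hC₁]; positivity
    rw [← hC₁]
    have hL0 : 0 ≤ Real.log ((k : ℝ) + 2) := Real.log_nonneg (by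
      have : (0 : ℝ) ≤ k := Nat.cast_nonneg k
      linarith)
    have h2 : (J : ℝ) ^ (2 / 3 : ℝ) ≤ C₁ ^ (2 / 3 : ℝ) * Real.log (k + 2) ^ (2 / 3 : ℝ) := by
      rw [← Real.mul_rpow hC₁0 hL0]
      refine Real.rpow_le_rpow (by positivity) ?_ (by norm_num)
      rw [hJ, hC₁]
      exact JJ_le d k
    have hC2 : 0 ≤ C₁ ^ (2 / 3 : ℝ) := Real.rpow_nonneg hC₁0 _
    have hL2 : 0 ≤ Real.log ((k : ℝ) + 2) ^ (2 / 3 : ℝ) := Real.rpow_nonneg hL0 _
    have hA1 : 0 ≤ 1 / A84.cA := by positivity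
    have h3 : Real.exp (66 * (J : ℝ) ^ (2 / 3 : ℝ)) ≤
        Real.exp ((9 + 1 / A84.cA + 66 * C₁ ^ (2 / 3 : ℝ)) * Real.log (k + 2) ^ (2 / 3 : ℝ)) := by
      refine Real.exp_le_exp.2 ?_
      have h4 : 0 ≤ (9 + 1 / A84.cA) * Real.log ((k : ℝ) + 2) ^ (2 / 3 : ℝ) := by positivity
      nlinarith
    have h4 := Fn_le_Sg (ρ := ρ) (β := β) hd hρ h m
    calc δ ≤ 2 * Fn ρ β h m + (9 + 1 / A84.cA) * B * Real.exp (66 * (J : ℝ) ^ (2 / 3 : ℝ)) := h1
      _ ≤ 2 * Sg ρ β h m + (9 + 1 / A84.cA + 66 * C₁ ^ (2 / 3 : ℝ)) * B *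
          Real.exp ((9 + 1 / A84.cA + 66 * C₁ ^ (2 / 3 : ℝ)) * Real.log (k + 2) ^ (2 / 3 : ℝ)) := by
        refine add_le_add (by linarith) (mul_le_mul ?_ h3 (Real.exp_pos _).le (by positivity))
        refine mul_le_mul_of_nonneg_right ?_ (by linarith)
        linarith
      _ = _ := by rw [hB]; ring
  · intro u hu
    have hu0 : 0 < u := by linarith
    have h1 := markov (P := law d ρ) (f := fun η => X β h η m - A ρ β h m)
      (hX.sub (integrable_const _)) (B := Fn ρ β h m) le_rfl hu0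
    have h2 : (law d ρ).real {η | A ρ β h m + u ≤ X β h η m} ≤
        (law d ρ).real {η | u ≤ |X β h η m - A ρ β h m|} := by
      refine measureReal_mono fun η hη => ?_
      have hη' : A ρ β h m + u ≤ X β h η m := hη
      show u ≤ |X β h η m - A ρ β h m|
      exact le_trans (by linarith) (le_abs_self _)
    have h3 : Fn ρ β h m / u < 1 / 2 := by
      rw [div_lt_iff₀ hu0]
      linarith
    linarith
  · have h1 := markov (P := law d ρ) hgi (B := B₀) hbd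
      (t := 2 * B) (by linarith)
    have h2 : B₀ / (2 * B) ≤ 1 / 2 := by
      rw [div_le_iff₀ (by linarith)]
      linarith
    have hmeas : NullMeasurableSet {η | 2 * B ≤ |gain d ρ β h m (boxF d k) w η - δ|} (law d ρ) :=
      nullMeasurableSet_le aemeasurable_const hgi.abs.aestronglyMeasurable.aemeasurable
    have h3 : (law d ρ).real {η | 2 * B ≤ |gain d ρ β h m (boxF d k) w η - δ|}ᶜ =
        1 - (law d ρ).real {η | 2 * B ≤ |gain d ρ β h m (boxF d k) w η - δ|} :=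
      probReal_compl_eq_one_sub₀ hmeas
    have h4 : (law d ρ).real {η | 2 * B ≤ |gain d ρ β h m (boxF d k) w η - δ|}ᶜ ≤
        (law d ρ).real {η | δ - 2 * B ≤ gain d ρ β h m S w η} := by
      refine measureReal_mono fun η hη => ?_
      have hη' : ¬ (2 * B ≤ |gain d ρ β h m (boxF d k) w η - δ|) := hη
      push Not at hη'
      show δ - 2 * B ≤ gain d ρ β h m S w η
      rw [hg]
      have := (abs_lt.1 hη').1
      linarith
    linarith
  · have hpos : 0 < B / κ := by positivity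
    have h1 := markov (P := law d ρ) hgi (B := B₀) hbd
      (t := B / κ) hpos
    have h2 : B₀ / (B / κ) < κ := by
      rw [div_lt_iff₀ hpos]
      have : κ * (B / κ) = B := by field_simp
      rw [this]
      linarith
    have h4 : (law d ρ).real {η | δ - 2 * B + a < gain d ρ β h m S w η} ≤
        (law d ρ).real {η | B / κ ≤ |gain d ρ β h m (boxF d k) w η - δ|} := by
      refine measureReal_mono fun η hη => ?_
      have hη' : δ - 2 * B + a < gain d ρ β h m S w η := hη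
      rw [hg, ha] at hη'
      show B / κ ≤ |gain d ρ β h m (boxF d k) w η - δ|
      exact le_trans (by linarith) (le_abs_self _)
    rw [← hκ]
    linarith

end Pool.Agent.W_7d29a1_NR
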