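import Pool.Agent.W_7d29a1_NR.NrS45
import Pool.Agent.W_7d29a1_NR.Core43

/-!
Theorem MON for every law: the interface CORE from the amplification of the partial mixtures
(helper44, after the assembly of helper45).
-/

set_option autoImplicit false

namespace Pool.Agent.W_7d29a1_NR

open MeasureTheory ProbabilityTheory Filter Topology Pool.Agent.W_MP_7d29a1_pr
  Pool.Agent.W_7d29a1_h46 Pool.Agent.W_7d29a1_h46u Pool.Agent.W_7d29a1_D2.B35
  Pool.Agent.W_7d29a1_Q29 Pool.Agent.W_7d29a1_R34 Pool.Agent.W_7d29a1_SP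

variable {d : ℕ} {ρ : Measure ℝ}

/-- **The interface of MON for every law.** -/
theorem coreU44 [IsProbabilityMeasure ρ] (hd : 0 < d) (hρ : EM ρ) {β : ℝ} (hW : AmpW d ρ β) :
    ∃ C θ : ℝ, 1 ≤ C ∧ 0 < θ ∧ θ < 1 ∧
      CoreW d ρ β 2 fun k => C * Real.exp (C * Real.log (k + 2) ^ θ) := by
  classical
  obtain ⟨C, p, hC, hp, hamp⟩ := hW
  obtain ⟨CJ, hCJ⟩ : ∃ CJ : ℝ, CJ = (3 * d + 1) / Real.log 2 := ⟨_, rfl⟩
  have l2 : 0 < Real.log 2 := Real.log_pos (by norm_num)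
  have hCJ1 : 1 ≤ CJ := by
    rw [hCJ, le_div_iff₀ l2]
    have h1 := Real.log_two_lt_d9
    have h2 : (0 : ℝ) ≤ d := Nat.cast_nonneg d
    linarith
  obtain ⟨θ, hθ⟩ : ∃ θ : ℝ, θ = p / (p + 1) := ⟨_, rfl⟩
  have hθ0 : 0 < θ := by rw [hθ]; positivity
  have hθ1 : θ < 1 := by rw [hθ, div_lt_one (by positivity)]; linarith
  obtain ⟨K, hK⟩ : ∃ K : ℝ, K = (16 + C) + (C + 1 / p + 2) * CJ := ⟨_, rfl⟩
  have hc2 : 0 ≤ (C + 1 / p + 2) * CJ := by positivity
  refine ⟨K, θ, by linarith, hθ0, hθ1, ?_⟩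
  intro h k m μ hμ0 hμ1 hμs δ B₀ hB₀ hint hint2 hvar
  -- the support
  obtain ⟨S, hS⟩ : ∃ S : Finset (Site d), S = (boxF d k).filter fun y => 0 < μ y := ⟨_, rfl⟩
  have hSsub : S ⊆ boxF d k := by rw [hS]; exact Finset.filter_subset _ _
  have hSpos : ∀ y ∈ S, 0 < μ y := by
    intro y hy
    rw [hS] at hy
    exact (Finset.mem_filter.1 hy).2
  have hzero : ∀ y ∈ boxF d k, y ∉ S → μ y = 0 := by
    intro y hy hyS
    rw [hS, Finset.mem_filter] at hyS
    push Not at hyS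
    exact le_antisymm (hyS hy) (hμ0 y)
  have hSn : S.Nonempty := by
    by_contra hcon
    rw [Finset.not_nonempty_iff_eq_empty] at hcon
    have h1 : ∑ y ∈ boxF d k, μ y = 0 := Finset.sum_eq_zero fun y hy =>
      hzero y hy (by rw [hcon]; exact Finset.notMem_empty y)
    rw [h1] at hμs
    exact zero_ne_one hμs
  have hgain : ∀ ξ : Env d, gain d ρ β h m (boxF d k) μ ξ = gain d ρ β h m S μ ξ := by
    intro ξ
    unfold gain
    congr 1
    symm
    refine Finset.sum_subset hSsub fun y hy hyS => ?_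
    rw [hzero y hy hyS, zero_mul]
  simp only [hgain] at hint hint2 hvar
  -- the numbers
  obtain ⟨B, hB⟩ : ∃ B : ℝ, B = B₀ + 1 := ⟨_, rfl⟩
  have hs3 : 0 ≤ Sg ρ β h m := Real.sqrt_nonneg _
  have hVa : ∀ n : ℕ, Va ρ β h n = Sg ρ β h n ^ 2 := fun n => by
    unfold Sg
    rw [Real.sq_sqrt]
    unfold Va
    exact integral_nonneg fun _ => sq_nonneg _
  have hB1 : 1 ≤ B := by rw [hB]; linarith
  have hB0 : 0 < B := by linarith
  have hvar' : ∫ ξ, (gain d ρ β h m S μ ξ - δ) ^ 2 ∂(law d ρ) ≤ B ^ 2 := by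
    refine hvar.trans ?_
    rw [hB]
    nlinarith
  obtain ⟨J, hJ⟩ : ∃ J : ℕ, J = Del11.JJ d k := ⟨_, rfl⟩
  have hJ1 : 1 ≤ J := by rw [hJ]; unfold Del11.JJ; omega
  have hJ1' : (1 : ℝ) ≤ J := by exact_mod_cast hJ1
  have hJ0 : (0 : ℝ) < J := by linarith
  obtain ⟨c, hc⟩ : ∃ c : ℝ, c = (J : ℝ) ^ (-(1 / (p + 1))) := ⟨_, rfl⟩
  have hc0 : 0 < c := by rw [hc]; positivity
  have hc1 : c ≤ 1 := by
    rw [hc, Real.rpow_neg hJ0.le]
    exact inv_le_one_of_one_le₀ (Real.one_le_rpow hJ1' (by positivity))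
  obtain ⟨z, hz⟩ : ∃ z : ℝ, z = (J : ℝ) ^ (p / (p + 1)) := ⟨_, rfl⟩
  have hcz : c ^ (-p) = z := by
    rw [hc, hz, ← Real.rpow_mul hJ0.le]
    congr 1
    field_simp
  have hz0 : 0 < z := by rw [hz]; positivity
  obtain ⟨a, ha⟩ : ∃ a : ℝ, a = 2 * B + 2 * B * Real.exp (C * z / 2) := ⟨_, rfl⟩
  have hex : 1 ≤ Real.exp (C * z / 2) := Real.one_le_exp (by positivity)
  have haB : 2 * B ≤ 2 * B * Real.exp (C * z / 2) := by
    have := mul_le_mul_of_nonneg_left hex (by linarith : 0 ≤ 2 * B)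
    linarith
  have ha0 : 0 ≤ a := by rw [ha]; linarith
  obtain ⟨T, hT⟩ : ∃ T : ℝ, T = δ - 2 * B := ⟨_, rfl⟩
  have hmeas : Measurable (gain d ρ β h m S μ) := by
    unfold gain
    refine Real.measurable_log.comp (Finset.measurable_sum _ fun y _ => ?_)
    refine measurable_const.mul (Real.measurable_exp.comp (Measurable.sub_const ?_ _))
    exact (measurable_X β h m).comp (mp_sh (ρ := ρ) 0 y).measurable
  have hT1 : 1 / 2 ≤ (law d ρ).real {ξ | T ≤ gain d ρ β h m S μ ξ} := by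
    have h1 := cheb45 hint2 hvar' (by linarith : (0 : ℝ) < 2 * B)
    have h2 : B ^ 2 / (2 * B) ^ 2 = 1 / 4 := by
      field_simp
      norm_num
    rw [h2] at h1
    have h3 : (law d ρ).real {ξ | T ≤ gain d ρ β h m S μ ξ} =
        1 - (law d ρ).real {ξ | gain d ρ β h m S μ ξ < T} := by
      rw [← probReal_compl_eq_one_sub (measurableSet_lt hmeas measurable_const)]
      congr 1
      ext ξ
      simp
    have h4 : (law d ρ).real {ξ | gain d ρ β h m S μ ξ < T} ≤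
        (law d ρ).real {ξ | 2 * B ≤ |gain d ρ β h m S μ ξ - δ|} := by
      refine measureReal_mono fun ξ hξ => ?_
      have h5 : gain d ρ β h m S μ ξ < T := hξ
      show 2 * B ≤ |gain d ρ β h m S μ ξ - δ|
      rw [hT] at h5
      rw [abs_of_neg (by linarith)]
      linarith
    linarith
  have hG : (law d ρ).real {ξ | T + a ≤ gain d ρ β h m S μ ξ} < Real.exp (-(C * c ^ (-p))) := by
    have h0 : 0 < 2 * B * Real.exp (C * z / 2) := by positivity
    have h1 := cheb45 hint2 hvar' h0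
    have h2 : (law d ρ).real {ξ | T + a ≤ gain d ρ β h m S μ ξ} ≤
        (law d ρ).real {ξ | 2 * B * Real.exp (C * z / 2) ≤ |gain d ρ β h m S μ ξ - δ|} := by
      refine measureReal_mono fun ξ hξ => ?_
      have h5 : T + a ≤ gain d ρ β h m S μ ξ := hξ
      show 2 * B * Real.exp (C * z / 2) ≤ |gain d ρ β h m S μ ξ - δ|
      rw [hT, ha] at h5
      rw [abs_of_nonneg (by linarith)]
      linarith
    have h3 : B ^ 2 / (2 * B * Real.exp (C * z / 2)) ^ 2 = Real.exp (-(C * z)) / 4 := by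
      have h4 : Real.exp (C * z / 2) ^ 2 = Real.exp (C * z) := by
        rw [← Real.exp_nat_mul]
        congr 1
        push_cast
        ring
      rw [mul_pow, h4, Real.exp_neg]
      field_simp
      norm_num
    rw [h3] at h1
    rw [hcz]
    have := Real.exp_pos (-(C * z))
    linarith
  have hu : ∀ y ∈ S, ∀ u : ℝ, 2 * Sg ρ β h m < u →
      (law d ρ).real {ξ | u ≤ X β h (sh 0 y ξ) m - A ρ β h m} < 1 / 2 := by
    intro y _ u hu
    have hu0 : 0 < u := by linarith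
    have h1 : (law d ρ).real {ξ | u ≤ X β h (sh 0 y ξ) m - A ρ β h m} =
        (law d ρ).real {ξ | u ≤ X β h ξ m - A ρ β h m} := by
      have mp := mp_sh (d := d) (ρ := ρ) 0 y
      have h2 : {ξ : Env d | u ≤ X β h (sh 0 y ξ) m - A ρ β h m} =
          sh 0 y ⁻¹' {ξ | u ≤ X β h ξ m - A ρ β h m} := rfl
      rw [h2]
      unfold Measure.real
      rw [mp.measure_preimage
        (measurableSet_le measurable_const ((measurable_X β h m).sub_const _)).nullMeasurableSet]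
    have h2 := cheb45 (int_sq45 hd hρ β h m) (le_of_eq rfl) hu0
    have h3 : (law d ρ).real {ξ | u ≤ X β h ξ m - A ρ β h m} ≤
        (law d ρ).real {ξ | u ≤ |X β h ξ m - A ρ β h m|} :=
      measureReal_mono fun ξ hξ => le_trans (show u ≤ X β h ξ m - A ρ β h m from hξ) (le_abs_self _)
    have h4 : (∫ ξ, (X β h ξ m - A ρ β h m) ^ 2 ∂(law d ρ)) / u ^ 2 ≤ 1 / 4 := by
      rw [div_le_iff₀ (by positivity)]
      have h5 : (∫ ξ, (X β h ξ m - A ρ β h m) ^ 2 ∂(law d ρ)) = Sg ρ β h m ^ 2 := hVa m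
      rw [h5]
      nlinarith
    rw [h1]
    linarith
  have hfin := halvB45 (law d ρ) (μ := μ) (V := fun y ξ => X β h (sh 0 y ξ) m - A ρ β h m)
    (S := S) hSn hSpos (fun y _ => hμ1 y)
    (fun y _ => ((measurable_X β h m).comp (mp_sh (ρ := ρ) 0 y).measurable).sub_const _)
    (T := T) (a := a) (c := c) (κ := Real.exp (-(C * c ^ (-p)))) (b₀ := C * c ^ (-p))
    (u₀ := 2 * Sg ρ β h m) hc0 hc1 ha0 (by rw [hcz]; positivity) hu
    (fun D hD hDn M b hb hb0 hcb hMb m1 m2 m3 =>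
      hamp h m S μ hSn hSpos (fun y _ => hμ1 y) δ B c T a M b hB1 hc0 hc1 ha0 hint2 hvar'
        (by rw [hT]; linarith) (by rw [hT, ha]; linarith) D hD hDn hb hb0 hcb hMb m1 m2 m3)
    hG hT1 (J := J) (by
      rw [hJ]
      exact (Finset.card_le_card hSsub).trans (Del11.JJ_card d k))
  rw [hcz, hT, ha] at hfin
  have hnum := numS45 hJ1 (G := B) (B := B) (F := 0) hp hC hc hz hB1 hB0.le
    (by linarith) (by linarith)
  have h1 : δ ≤ 2 * Sg ρ β h m + (16 + C) * B * Real.exp ((C + 1 / p + 2) * z) := by linarith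
  -- the logarithm
  have hL1 : Real.log 2 ≤ Real.log ((k : ℝ) + 2) :=
    Real.log_le_log (by norm_num) (by
      have : (0 : ℝ) ≤ k := Nat.cast_nonneg k
      linarith)
  have hL0 : 0 ≤ Real.log ((k : ℝ) + 2) := by linarith
  have hzL : z ≤ CJ * Real.log ((k : ℝ) + 2) ^ θ := by
    have h2 : (J : ℝ) ≤ CJ * Real.log ((k : ℝ) + 2) := by
      rw [hJ, hCJ]
      exact Del11.JJ_le d k
    rw [hz, ← hθ]
    calc (J : ℝ) ^ θ ≤ (CJ * Real.log ((k : ℝ) + 2)) ^ θ :=
          Real.rpow_le_rpow hJ0.le h2 hθ0.le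
      _ = CJ ^ θ * Real.log ((k : ℝ) + 2) ^ θ := Real.mul_rpow (by linarith) hL0
      _ ≤ CJ * Real.log ((k : ℝ) + 2) ^ θ := by
          refine mul_le_mul_of_nonneg_right ?_ (by positivity)
          calc CJ ^ θ ≤ CJ ^ (1 : ℝ) := Real.rpow_le_rpow_of_exponent_le hCJ1 hθ1.le
            _ = CJ := Real.rpow_one _
  refine h1.trans ?_
  have h3 : Real.exp ((C + 1 / p + 2) * z) ≤ Real.exp (K * Real.log ((k : ℝ) + 2) ^ θ) := by
    refine Real.exp_le_exp.2 ?_
    have h4 : (C + 1 / p + 2) * z ≤ (C + 1 / p + 2) * (CJ * Real.log ((k : ℝ) + 2) ^ θ) :=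
      mul_le_mul_of_nonneg_left hzL (by positivity)
    have h5 : 0 ≤ (16 + C) * Real.log ((k : ℝ) + 2) ^ θ := by positivity
    rw [hK]
    nlinarith
  have h6 : (16 + C) * B * Real.exp ((C + 1 / p + 2) * z) ≤
        K * B * Real.exp (K * Real.log ((k : ℝ) + 2) ^ θ) := by
    refine mul_le_mul ?_ h3 (Real.exp_pos _).le (by rw [hK]; positivity)
    exact mul_le_mul_of_nonneg_right (by rw [hK]; linarith) hB0.le
  show 2 * Sg ρ β h m + (16 + C) * B * Real.exp ((C + 1 / p + 2) * z) ≤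
    2 * Sg ρ β h m + K * Real.exp (K * Real.log ((k : ℝ) + 2) ^ θ) * (B₀ + 1)
  rw [← hB]
  have h7 : K * B * Real.exp (K * Real.log ((k : ℝ) + 2) ^ θ) =
    K * Real.exp (K * Real.log ((k : ℝ) + 2) ^ θ) * B := by ring
  linarith

end Pool.Agent.W_7d29a1_NR
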