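import Pool.Agent.W_7d29a1_NR.Cor11
import Pool.Agent.W_7d29a1_NR.Del11
import Pool.Agent.W_7d29a1_NR.Tra11
import Pool.Agent.W_7d29a1_NR.Spl45
import Pool.Agent.W_7d29a1_UC.TrC19

/-!
Theorem NR (helper11): the theorem for the laws of the convex functions of a Gaussian variable, and
its form in the letters of the problem (for every law for which the gap bound holds).
-/

namespace Pool.Agent.W_7d29a1_NR

open MeasureTheory ProbabilityTheory Filter Topology Pool.Agent.W_MP_7d29a1_pr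
  Pool.Agent.W_7d29a1_h46 Pool.Agent.W_7d29a1_h46u Pool.Agent.W_7d29a1_D2.B35
  Pool.Agent.W_7d29a1_Q29 Pool.Agent.W_7d29a1_R34 Pool.Agent.W_7d29a1_SP

section Core

variable {d : ℕ} {ρ : Measure ℝ} [IsProbabilityMeasure ρ] {β : ℝ}

theorem spl11 (hd : 0 < d) (hρ : EM ρ) (β : ℝ) : SplP d ρ β := fun h k m => splR45 hd hρ β h k m

/-- **(D)** for the laws of the convex functions of a Gaussian variable. -/
theorem delG11 (hd : 0 < d) (hρ : EM ρ) (hG : GC ρ) (hβ : 0 ≤ β) : DelP d ρ β :=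
  del11 (fun h n => (concU hd hρ β h n).1) (tra11 hd hG hβ) (spl11 hd hρ β)

/-- The gap bound for the laws of the convex functions of a Gaussian variable. -/
theorem nrG11 (hd : 0 < d) (hρ : EM ρ) (hG : GC ρ) (hβ : 0 ≤ β) : NrS d ρ β := by
  obtain ⟨C, hC, hD⟩ := delG11 hd hρ hG hβ
  refine ⟨C, 2 / 3, hC, by norm_num, by norm_num, fun h k m => ?_⟩
  have hF : ∀ n, Fn ρ β h n ≤ Sg ρ β h n := fun n => by
    refine Real.le_sqrt_of_sq_le ?_
    exact Pool.Agent.W_7d29a1_UC.fn_sq19 hd hρ h n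
  have h1 := hF (k + m)
  have h2 := hF k
  have h3 := hF m
  have h4 : 0 < C * Real.exp (C * Real.log (k + 2) ^ (2 / 3 : ℝ)) := by positivity
  calc A ρ β h (k + m) - A ρ β h k - A ρ β h m
      ≤ C * (Fn ρ β h (k + m) + Fn ρ β h k + Fn ρ β h m + 1) *
          Real.exp (C * Real.log (k + 2) ^ (2 / 3 : ℝ)) := hD h k m
    _ = C * Real.exp (C * Real.log (k + 2) ^ (2 / 3 : ℝ)) *
          (Fn ρ β h (k + m) + Fn ρ β h k + Fn ρ β h m + 1) := by ring
    _ ≤ _ := mul_le_mul_of_nonneg_left (by linarith) h4.le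

end Core

section Letters

variable {Ω : Type*} [MeasurableSpace Ω] {μ : Measure Ω} [IsProbabilityMeasure μ] {d : ℕ}
  {ρ : Measure ℝ} [IsProbabilityMeasure ρ] {ω : ℕ × Site d → Ω → ℝ} {β : ℝ}

/-- The mean square distance of the free energy from its linear growth. -/
lemma quad11 (hd : 0 < d) (hω : IID μ ρ ω) (hρ : EM ρ) (h : Vec d) (n : ℕ) :
    ∫ x, (Real.log (Zn β h (fun p => ω p x) n) - n * lamN ρ β h) ^ 2 ∂μ =
      Va ρ β h n + En ρ β h n ^ 2 := by
  have hX := measurable_X (d := d) β h n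
  have e1 : ∫ x, (Real.log (Zn β h (fun p => ω p x) n) - n * lamN ρ β h) ^ 2 ∂μ =
      ∫ x, (fun η : Env d => (X β h η n - n * lam ρ β h) ^ 2) (fun p => ω p x) ∂μ := by
    refine integral_congr_ae (Eventually.of_forall fun x => ?_)
    show (Real.log (Zn β h (fun p => ω p x) n) - n * lamN ρ β h) ^ 2 =
      (X β h (fun p => ω p x) n - n * lam ρ β h) ^ 2
    rw [StrA_log hd β h _ n, Real.log_pow]
    unfold lamN
    congr 1
    ring
  rw [e1, StrA_int hω ((hX.sub_const _).pow_const 2)]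
  have m2 : MemLp (fun η : Env d => X β h η n) 2 (law d ρ) := by
    rw [memLp_two_iff_integrable_sq hX.aestronglyMeasurable]
    exact integrable_X_sq39 hd hρ β h n
  have i1 : Integrable (fun η : Env d => X β h η n) (law d ρ) := m2.integrable one_le_two
  have i2 : Integrable (fun η : Env d => (X β h η n - A ρ β h n) ^ 2) (law d ρ) :=
    (m2.sub (memLp_const (A ρ β h n))).integrable_sq
  have e2 : (fun η : Env d => (X β h η n - n * lam ρ β h) ^ 2) = fun η =>
      (X β h η n - A ρ β h n) ^ 2 - (2 * En ρ β h n) * (X β h η n - A ρ β h n) +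
        En ρ β h n ^ 2 := by
    funext η
    unfold En
    ring
  have i3 : Integrable (fun η : Env d => (2 * En ρ β h n) * (X β h η n - A ρ β h n)) (law d ρ) :=
    (i1.sub (integrable_const _)).const_mul _
  have e3 : ∫ η, (X β h η n - A ρ β h n) ∂(law d ρ) = 0 := by
    rw [integral_sub i1 (integrable_const _), integral_const]
    unfold A
    simp
  have i4 : Integrable (fun η : Env d => (X β h η n - A ρ β h n) ^ 2 -
      (2 * En ρ β h n) * (X β h η n - A ρ β h n)) (law d ρ) := i2.sub i3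
  rw [e2, integral_add i4 (integrable_const _), integral_sub i2 i3, integral_const_mul, e3,
    integral_const]
  unfold Va
  simp

/-- **The clause (X) of theorem NR in the letters of the problem.** -/
theorem clauseX11 (hd : 0 < d) (hω : IID μ ρ ω) (hρ : EM ρ) (hN : NrS d ρ β) (h : Vec d) :
    ∀ x ε : ℝ, 0 ≤ x → 0 < ε →
      (∀ᶠ n : ℕ in atTop, Var[fun x => Real.log (Zn β h (fun p => ω p x) n); μ] ≤ (n : ℝ) ^ x) →
      ∀ᶠ n : ℕ in atTop,
        ∫ x, (Real.log (Zn β h (fun p => ω p x) n) - n * lamN ρ β h) ^ 2 ∂μ ≤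
          (n : ℝ) ^ (x + ε) := by
  intro x ε hx hε
  simp only [quad11 hd hω hρ, var29 hd hω hρ]
  exact corX11 hd hρ hN h hx hε

/-- **The clause (P) of theorem NR in the letters of the problem.** -/
theorem clauseP11 (hd : 0 < d) (hω : IID μ ρ ω) (hρ : EM ρ) (hN : NrS d ρ β) (h : Vec d) :
    ∀ e : ℝ, 0 < e →
      (∀ᶠ n : ℕ in atTop, ∃ m : ℕ, m ≤ n ∧ (n : ℝ) ^ e ≤
        ∫ x, (Real.log (Zn β h (fun p => ω p x) m) - m * lamN ρ β h) ^ 2 ∂μ) →
      ∃ θ : ℝ, 0 < θ ∧ ∀ᶠ n : ℕ in atTop, ∃ m : ℕ, m ≤ n ∧ (n : ℝ) ^ θ ≤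
        Var[fun x => Real.log (Zn β h (fun p => ω p x) m); μ] := by
  intro e he
  simp only [quad11 hd hω hρ, var29 hd hω hρ]
  exact corP11 hd hρ hN h he

/-- **The clause (L) of theorem NR in the letters of the problem.** -/
theorem clauseL11 (hd : 0 < d) (hω : IID μ ρ ω) (hρ : EM ρ) (hN : NrS d ρ β) :
    ∃ θ : ℝ, θ < 1 ∧ ∀ h : Vec d, ∃ C : ℝ, ∀ (k : ℕ) (M : ℝ), 1 ≤ k → 0 ≤ M →
      (∀ n : ℕ, n ≤ k ^ 3 → Var[fun x => Real.log (Zn β h (fun p => ω p x) n); μ] ≤ M ^ 2) →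
      k * lamN ρ β h - ∫ x, Real.log (Zn β h (fun p => ω p x) k) ∂μ ≤
        (1 + M) * Real.exp (C * (1 + Real.log (k + 2) ^ θ)) := by
  obtain ⟨θ, hθ, hL⟩ := corL11 hd hρ hN
  refine ⟨θ, hθ, fun h => ?_⟩
  obtain ⟨C, hC⟩ := hL h
  refine ⟨C, fun k M hk hM hV => ?_⟩
  simp only [var29 hd hω hρ] at hV
  rw [def29 hd hω hρ]
  exact hC k M hk hV hM

end Letters

end Pool.Agent.W_7d29a1_NR
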