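import Pool.Agent.W_7d29a1_NR.Core43
import Pool.Agent.W_7d29a1_NR.Spl45

/-!
Theorem MON (helper43): the gain of a concatenation, given the first rows.
-/

namespace Pool.Agent.W_7d29a1_NR

open MeasureTheory ProbabilityTheory Filter Topology Pool.Agent.W_MP_7d29a1_pr
  Pool.Agent.W_7d29a1_h46 Pool.Agent.W_7d29a1_h46u Pool.Agent.W_7d29a1_D2.B35
  Pool.Agent.W_7d29a1_Q29 Pool.Agent.W_7d29a1_R34 Pool.Agent.W_7d29a1_SP

variable {d : ℕ} {ρ : Measure ℝ} [IsProbabilityMeasure ρ] {β C₀ : ℝ} {W : ℕ → ℝ}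

/-- **The gain of a concatenation**: the standard deviation of the shorter block and of the
whole, the latter with a subpolynomial factor. -/
theorem gapW43 (hd : 0 < d) (hρ : EM ρ) (hW : ∀ k, 0 ≤ W k) (hC : CoreW d ρ β C₀ W) (h : Vec d)
    (k m : ℕ) : A ρ β h (k + m) - A ρ β h k - A ρ β h m ≤
      C₀ * Sg ρ β h m + W k * (Sg ρ β h (k + m) + 1) := by
  classical
  -- the centered free energy of the glued environment
  obtain ⟨Y, hY⟩ : ∃ Y : Env d × Env d → ℝ, Y = fun w =>
      X β h (spl (Pa d k) w.1 w.2) (k + m) - A ρ β h (k + m) := ⟨_, rfl⟩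
  have mp := mp_spl (ρ := ρ) (Pa d k)
  have i1 : Integrable (fun η => X β h η (k + m) - A ρ β h (k + m)) (law d ρ) :=
    (concU hd hρ β h (k + m)).1.sub (integrable_const _)
  have i2 : Integrable (fun η => (X β h η (k + m) - A ρ β h (k + m)) ^ 2) (law d ρ) :=
    integrable_cen13 hd hρ β h (k + m)
  have iY : Integrable Y ((law d ρ).prod (law d ρ)) := by
    rw [hY]
    exact mp.integrable_comp_of_integrable i1
  have iY2 : Integrable (fun w => Y w ^ 2) ((law d ρ).prod (law d ρ)) := by
    rw [hY]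
    exact mp.integrable_comp_of_integrable i2
  have eY : ∫ w, Y w ∂((law d ρ).prod (law d ρ)) = 0 := by
    have h1 : ∫ w, Y w ∂((law d ρ).prod (law d ρ)) =
        ∫ η, (X β h η (k + m) - A ρ β h (k + m)) ∂(law d ρ) := by
      rw [hY]
      conv_rhs => rw [← mp.map_eq]
      rw [integral_map mp.aemeasurable]
      rw [mp.map_eq]
      exact i1.aestronglyMeasurable
    rw [h1, integral_sub (concU hd hρ β h (k + m)).1 (integrable_const _), integral_const,
      probReal_univ, one_smul]
    unfold A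
    ring
  have eY2 : ∫ w, Y w ^ 2 ∂((law d ρ).prod (law d ρ)) = Va ρ β h (k + m) := by
    rw [hY]
    unfold Va
    conv_rhs => rw [← mp.map_eq]
    rw [integral_map mp.aemeasurable]
    rw [mp.map_eq]
    exact i2.aestronglyMeasurable
  -- the mean and the bound, given the first rows
  obtain ⟨D, hD⟩ : ∃ D : Env d → ℝ, D = fun η => ∫ ξ, Y (η, ξ) ∂(law d ρ) := ⟨_, rfl⟩
  obtain ⟨Q, hQ⟩ : ∃ Q : Env d → ℝ, Q = fun η => ∫ ξ, Y (η, ξ) ^ 2 ∂(law d ρ) := ⟨_, rfl⟩
  have iD : Integrable D (law d ρ) := by rw [hD]; exact iY.integral_prod_left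
  have iQ : Integrable Q (law d ρ) := by rw [hQ]; exact iY2.integral_prod_left
  have eD : ∫ η, D η ∂(law d ρ) = 0 := by
    rw [hD, ← integral_prod Y iY]
    exact eY
  have eQ : ∫ η, Q η ∂(law d ρ) = Va ρ β h (k + m) := by
    rw [hQ, ← integral_prod (fun w => Y w ^ 2) iY2]
    exact eY2
  have hQ0 : ∀ η, 0 ≤ Q η := fun η => by rw [hQ]; exact integral_nonneg fun _ => sq_nonneg _
  have iS : Integrable (fun η => Real.sqrt (Q η)) (law d ρ) := by
    refine Integrable.mono' ((integrable_const (1 : ℝ)).add iQ)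
      (Real.continuous_sqrt.comp_aestronglyMeasurable iQ.aestronglyMeasurable)
      (Eventually.of_forall fun η => ?_)
    rw [Real.norm_eq_abs, abs_of_nonneg (Real.sqrt_nonneg _)]
    have h1 := Real.sq_sqrt (hQ0 η)
    show Real.sqrt (Q η) ≤ 1 + Q η
    nlinarith [sq_nonneg (Real.sqrt (Q η) - 1), Real.sqrt_nonneg (Q η)]
  have eS : ∫ η, Real.sqrt (Q η) ∂(law d ρ) ≤ Sg ρ β h (k + m) := by
    unfold Sg
    refine Real.le_sqrt_of_sq_le ?_
    have i3 : Integrable (fun η => Real.sqrt (Q η) ^ 2) (law d ρ) :=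
      iQ.congr (Eventually.of_forall fun η => (Real.sq_sqrt (hQ0 η)).symm)
    refine (jen2 iS i3).trans (le_of_eq ?_)
    rw [← eQ]
    exact integral_congr_ae (Eventually.of_forall fun η => Real.sq_sqrt (hQ0 η))
  -- the inequality, given the first rows
  have msh := mp_sh (d := d) (ρ := ρ) k 0
  have hae : ∀ᵐ η ∂(law d ρ), D η + (A ρ β h (k + m) - X β h η k - A ρ β h m) ≤
      C₀ * Sg ρ β h m + W k * (Real.sqrt (Q η) + 1) := by
    filter_upwards [iY.prod_right_ae, iY2.prod_right_ae] with η hη hη2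
    obtain ⟨w, hw⟩ : ∃ w : Site d → ℝ, w = fun y => PP β h η k y / Z β h η k := ⟨_, rfl⟩
    obtain ⟨a, ha⟩ : ∃ a : ℝ, a = A ρ β h (k + m) - X β h η k - A ρ β h m := ⟨_, rfl⟩
    rw [← ha]
    have hk : ∀ ξ : Env d, gain d ρ β h m (boxF d k) w (sh k 0 ξ) = Y (η, ξ) + a := by
      intro ξ
      have h1 : ∀ y : Site d, sh 0 y (sh k 0 ξ) = sh k y ξ := by
        intro y
        funext p
        unfold sh
        simp
      unfold gain
      simp only [h1, hw]
      rw [glue45 hd, hY, ha]
      ring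
    have hmeas : Measurable (gain d ρ β h m (boxF d k) w) := by
      unfold gain
      refine Real.measurable_log.comp (Finset.measurable_sum _ fun y _ => ?_)
      refine measurable_const.mul (Real.measurable_exp.comp (Measurable.sub_const ?_ _))
      exact (measurable_X β h m).comp (mp_sh (ρ := ρ) 0 y).measurable
    have iG : Integrable (gain d ρ β h m (boxF d k) w) (law d ρ) := by
      rw [← msh.integrable_comp hmeas.aestronglyMeasurable]
      have h2 : Integrable (fun ξ => Y (η, ξ) + a) (law d ρ) := hη.add (integrable_const _)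
      exact h2.congr (Eventually.of_forall fun ξ => (hk ξ).symm)
    have hc : ∀ ξ : Env d, (gain d ρ β h m (boxF d k) w (sh k 0 ξ) - (D η + a)) ^ 2 =
        Y (η, ξ) ^ 2 - 2 * D η * Y (η, ξ) + D η ^ 2 := by
      intro ξ
      rw [hk ξ]
      ring
    have i4 : Integrable (fun ξ => Y (η, ξ) ^ 2 - 2 * D η * Y (η, ξ)) (law d ρ) :=
      hη2.sub (hη.const_mul _)
    have i5 : Integrable (fun ξ => 2 * D η * Y (η, ξ)) (law d ρ) := hη.const_mul _
    have iG2 : Integrable (fun ξ => (gain d ρ β h m (boxF d k) w ξ - (D η + a)) ^ 2)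
        (law d ρ) := by
      rw [← msh.integrable_comp ((hmeas.sub_const _).pow_const 2).aestronglyMeasurable]
      exact (i4.add (integrable_const (D η ^ 2))).congr
        (Eventually.of_forall fun ξ => (hc ξ).symm)
    have eG2 : ∫ ξ, (gain d ρ β h m (boxF d k) w ξ - (D η + a)) ^ 2 ∂(law d ρ) ≤
        Real.sqrt (Q η) ^ 2 := by
      rw [Real.sq_sqrt (hQ0 η)]
      conv_lhs => rw [← msh.map_eq]
      rw [integral_map msh.aemeasurable (by
        rw [msh.map_eq]
        exact ((hmeas.sub_const _).pow_const 2).aestronglyMeasurable)]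
      simp only [hc]
      rw [integral_add i4 (integrable_const _), integral_sub hη2 i5, integral_const_mul,
        integral_const, probReal_univ, one_smul]
      have h1 : ∫ ξ, Y (η, ξ) ∂(law d ρ) = D η := by rw [hD]
      have h2 : ∫ ξ, Y (η, ξ) ^ 2 ∂(law d ρ) = Q η := by rw [hQ]
      rw [h1, h2]
      nlinarith [sq_nonneg (D η)]
    refine hC h k m w (fun y => ?_) (fun y => ?_) ?_ (D η + a) (Real.sqrt (Q η))
      (Real.sqrt_nonneg _) iG iG2 eG2
    · rw [hw]
      exact div_nonneg (PP_nonneg45 hd β h η k y) (Z_pos hd β h η k).le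
    · rw [hw]
      exact (div_le_one (Z_pos hd β h η k)).2 (PP_le_Z45 hd β h η k y)
    · rw [hw, ← Finset.sum_div, ← Z_eq_sum]
      exact div_self (Z_pos hd β h η k).ne'
  -- integrate over the first rows
  have iX : Integrable (fun η => X β h η k) (law d ρ) := (concU hd hρ β h k).1
  have i6 : Integrable (fun η => A ρ β h (k + m) - X β h η k - A ρ β h m) (law d ρ) :=
    ((integrable_const _).sub iX).sub (integrable_const _)
  have i7 : Integrable (fun η => C₀ * Sg ρ β h m + W k * (Real.sqrt (Q η) + 1)) (law d ρ) :=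
    (integrable_const _).add ((iS.add (integrable_const 1)).const_mul _)
  have h8 := integral_mono_ae (iD.add i6) i7 hae
  have e9 : ∫ η, (D η + (A ρ β h (k + m) - X β h η k - A ρ β h m)) ∂(law d ρ) =
      A ρ β h (k + m) - A ρ β h k - A ρ β h m := by
    have i8 : Integrable (fun η => A ρ β h (k + m) - X β h η k) (law d ρ) :=
      (integrable_const _).sub iX
    rw [integral_add iD i6, eD, integral_sub i8 (integrable_const _),
      integral_sub (integrable_const _) iX]
    simp only [integral_const, probReal_univ, one_smul]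
    unfold A
    ring
  have e10 : ∫ η, (C₀ * Sg ρ β h m + W k * (Real.sqrt (Q η) + 1)) ∂(law d ρ) =
      C₀ * Sg ρ β h m + W k * ((∫ η, Real.sqrt (Q η) ∂(law d ρ)) + 1) := by
    have i9 : Integrable (fun η => Real.sqrt (Q η) + 1) (law d ρ) := iS.add (integrable_const 1)
    have i10 : Integrable (fun η => W k * (Real.sqrt (Q η) + 1)) (law d ρ) := i9.const_mul _
    have e11 : ∫ η, W k * (Real.sqrt (Q η) + 1) ∂(law d ρ) =
        W k * ((∫ η, Real.sqrt (Q η) ∂(law d ρ)) + 1) := by
      rw [integral_const_mul, integral_add iS (integrable_const _)]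
      simp only [integral_const, probReal_univ, one_smul]
    rw [integral_add (integrable_const _) i10, e11]
    simp only [integral_const, probReal_univ, one_smul]
  have h11 : A ρ β h (k + m) - A ρ β h k - A ρ β h m ≤
      C₀ * Sg ρ β h m + W k * ((∫ η, Real.sqrt (Q η) ∂(law d ρ)) + 1) := by
    rw [← e9, ← e10]
    exact h8
  have h12 : W k * ((∫ η, Real.sqrt (Q η) ∂(law d ρ)) + 1) ≤ W k * (Sg ρ β h (k + m) + 1) :=
    mul_le_mul_of_nonneg_left (by linarith) (hW k)
  linarith

end Pool.Agent.W_7d29a1_NR
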