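import Pool.Agent.W_7d29a1_L78.RowA
import Pool.Agent.W_7d29a1_SR.Lucky

/-!
The non random fluctuation `n λ - E log Z_n` is of the order of the unit (MP_7d29a1_pr): the gain of the second slab over
the mean of its profile for the end law of the first slab. (helper87)
-/

namespace Pool.Agent.W_7d29a1_NR

open MeasureTheory ProbabilityTheory Filter Topology
open Pool.Agent.W_7d29a1_F Pool.Agent.W_7d29a1_h4g Pool.Agent.W_7d29a1_G Pool.Agent.W_7d29a1_L78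

noncomputable section

variable {μ : Measure ℝ}

/-- The Gibbs weight of the end point of the first slab. -/
def gb (μ : Measure ℝ) (η : Env) (m : ℕ) (k : ℤ) : ℝ := W μ 0 η 0 m k / Real.exp (V μ 0 η 0 m)

/-- The gain of the second slab. -/
def Gp (μ : Measure ℝ) (η : Env) (m n : ℕ) : ℝ :=
  V μ 0 η 0 (m + n) - V μ 0 η 0 m - ∑ k ∈ Finset.Icc (0 : ℤ) m, gb μ η m k * V μ 0 η ((m : ℤ), k) n

theorem gb_nonneg (η : Env) (m : ℕ) (k : ℤ) : 0 ≤ gb μ η m k := div_nonneg (W_nonneg _ _ _ _) (Real.exp_pos _).le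

theorem gb_sum (η : Env) (m : ℕ) : ∑ k ∈ Finset.Icc (0 : ℤ) m, gb μ η m k = 1 := by
  unfold gb
  rw [← Finset.sum_div, exp_V]
  have h2 : 0 < WS μ 0 η 0 m (Finset.Icc (0 : ℤ) m) := by
    rw [← exp_V]
    exact Real.exp_pos _
  unfold WS at h2 ⊢
  exact div_self h2.ne'

theorem gb_le_one (η : Env) (m : ℕ) {k : ℤ} (hk : k ∈ Finset.Icc (0 : ℤ) m) : gb μ η m k ≤ 1 := by
  rw [← gb_sum (μ := μ) η m]
  exact Finset.single_le_sum (f := fun k => gb μ η m k) (fun k _ => gb_nonneg η m k) hk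

/-- The second slab in terms of the Gibbs weights. -/
theorem gb_exp (η : Env) (m n : ℕ) :
    ∑ k ∈ Finset.Icc (0 : ℤ) m, gb μ η m k * Real.exp (V μ 0 η ((m : ℤ), k) n) =
      Real.exp (V μ 0 η 0 (m + n) - V μ 0 η 0 m) := by
  rw [Real.exp_sub, exp_V_add, Finset.sum_div]
  refine Finset.sum_congr rfl fun k _ => ?_
  have h1 : ((0 : Pt).1 + (m : ℤ), (0 : Pt).2 + k) = ((m : ℤ), k) := by simp
  rw [h1]
  unfold gb
  ring

/-- The gain is nonnegative. -/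
theorem Gp_nonneg (η : Env) (m n : ℕ) : 0 ≤ Gp μ η m n := by
  have h := V_add_jensen (μ := μ) (s := 0) η 0 m n
  unfold Gp
  have h1 : (∑ k ∈ Finset.Icc (0 : ℤ) m, W μ 0 η 0 m k * V μ 0 η ((0 : Pt).1 + (m : ℤ), (0 : Pt).2 + k) n) /
      Real.exp (V μ 0 η 0 m) = ∑ k ∈ Finset.Icc (0 : ℤ) m, gb μ η m k * V μ 0 η ((m : ℤ), k) n := by
    rw [Finset.sum_div]
    refine Finset.sum_congr rfl fun k _ => ?_
    have h1 : ((0 : Pt).1 + (m : ℤ), (0 : Pt).2 + k) = ((m : ℤ), k) := by simp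
    rw [h1]
    unfold gb
    ring
  rw [h1] at h
  linarith

/-- THE RESTRICTION TO A SET OF ENDS costs at most `1`. -/
theorem Gp_ge (η : Env) (m n : ℕ) (S : Finset ℤ) (hS : S ⊆ Finset.Icc (0 : ℤ) m) :
    ∑ k ∈ S, gb μ η m k * (V μ 0 η 0 (m + n) - V μ 0 η 0 m - V μ 0 η ((m : ℤ), k) n) ≤ Gp μ η m n + 1 := by
  obtain ⟨L, hL⟩ : ∃ L : ℝ, L = V μ 0 η 0 (m + n) - V μ 0 η 0 m := ⟨_, rfl⟩
  obtain ⟨v, hv⟩ : ∃ v : ℤ → ℝ, v = fun k => V μ 0 η ((m : ℤ), k) n := ⟨_, rfl⟩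
  obtain ⟨g, hg⟩ : ∃ g : ℤ → ℝ, g = fun k => gb μ η m k := ⟨_, rfl⟩
  have hg0 : ∀ k, 0 ≤ g k := fun k => by rw [hg]; exact gb_nonneg η m k
  have h1 : ∑ k ∈ Finset.Icc (0 : ℤ) m, g k = 1 := by rw [hg]; exact gb_sum η m
  have h2 : ∑ k ∈ Finset.Icc (0 : ℤ) m, g k * Real.exp (v k) = Real.exp L := by
    rw [hg, hv, hL]
    exact gb_exp η m n
  have h3 : Gp μ η m n = ∑ k ∈ Finset.Icc (0 : ℤ) m, g k * (L - v k) := by
    have h4 : ∀ k, g k * (L - v k) = g k * L - g k * v k := fun k => by ring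
    simp only [h4]
    rw [Finset.sum_sub_distrib, ← Finset.sum_mul, h1, one_mul, hL, hg, hv]
    rfl
  have h4 : ∑ k ∈ (Finset.Icc (0 : ℤ) m) \ S, g k * (v k - L) ≤ 1 := by
    have h5 : ∀ k ∈ (Finset.Icc (0 : ℤ) m) \ S, g k * (v k - L) ≤ g k * Real.exp (v k) * Real.exp (-L) := by
      intro k _
      rw [mul_assoc, ← Real.exp_add]
      refine mul_le_mul_of_nonneg_left ?_ (hg0 k)
      have := Real.add_one_le_exp (v k + -L)
      linarith
    refine (Finset.sum_le_sum h5).trans ?_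
    rw [← Finset.sum_mul]
    have h6 : ∑ k ∈ (Finset.Icc (0 : ℤ) m) \ S, g k * Real.exp (v k) ≤ Real.exp L := by
      rw [← h2]
      exact Finset.sum_le_sum_of_subset_of_nonneg Finset.sdiff_subset fun k _ _ =>
        mul_nonneg (hg0 k) (Real.exp_pos _).le
    have h7 := mul_le_mul_of_nonneg_right h6 (Real.exp_pos (-L)).le
    rw [← Real.exp_add, add_neg_cancel, Real.exp_zero] at h7
    exact h7
  have h5 := Finset.sum_sdiff (f := fun k => g k * (L - v k)) hS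
  have h6 : ∑ k ∈ (Finset.Icc (0 : ℤ) m) \ S, g k * (L - v k) = -∑ k ∈ (Finset.Icc (0 : ℤ) m) \ S, g k * (v k - L) := by
    rw [← Finset.sum_neg_distrib]
    exact Finset.sum_congr rfl fun k _ => by ring
  rw [h3]
  have h7 : ∑ k ∈ S, gb μ η m k * (V μ 0 η 0 (m + n) - V μ 0 η 0 m - V μ 0 η ((m : ℤ), k) n) =
      ∑ k ∈ S, g k * (L - v k) := by
    rw [hL, hv, hg]
  rw [h7]
  linarith

/-- One end point: the free energy of the second slab. -/
theorem gain_ge (η : Env) (m n : ℕ) {k : ℤ} (h0 : 0 ≤ k) (h1 : k ≤ m) :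
    -X μ 0 η 0 m k - V μ 0 η 0 m + V μ 0 η ((m : ℤ), k) n ≤ V μ 0 η 0 (m + n) - V μ 0 η 0 m := by
  have h := V_add_ge (μ := μ) (s := 0) η 0 m n h0 h1
  have h2 : ((0 : Pt).1 + (m : ℤ), (0 : Pt).2 + k) = ((m : ℤ), k) := by simp
  rw [h2] at h
  linarith

theorem measurable_gb (m : ℕ) (k : ℤ) : Measurable fun η => gb μ η m k :=
  (measurable_W 0 m k).div (Real.measurable_exp.comp (measurable_V 0 m))

theorem gb_dep (m : ℕ) (k : ℤ) : DependsOn (fun η : Env => gb μ η m k) (rows 0 m) := by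
  intro η η' h
  have h1 : ∀ x ∈ rows (0 : Pt).1 ((0 : Pt).1 + m), η x = η' x := fun x hx => h x (by simpa using hx)
  have h2 : V μ 0 η 0 m = V μ 0 η' 0 m := V_dep_rows (μ := μ) (s := 0) 0 m h1
  have h3 : W μ 0 η 0 m k = W μ 0 η' 0 m k := W_dep_rows (μ := μ) (s := 0) 0 m k h1
  show gb μ η m k = gb μ η' m k
  unfold gb
  rw [h2, h3]

variable [IsProbabilityMeasure μ]

theorem Sub_gb (m : ℕ) {k : ℤ} (hk : k ∈ Finset.Icc (0 : ℤ) m) : Sub fun η => gb μ η m k :=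
  Pool.Agent.W_7d29a1_h60.Sub_bdd (measurable_gb m k) fun η => by
    rw [abs_of_nonneg (gb_nonneg η m k)]
    exact gb_le_one η m hk

/-- The mean of an average over the end law of the first slab of functionals of the rows behind it. -/
theorem gb_mean (hEM : Pool.Agent.W_7d29a1_h47.EM μ) (m : ℕ) {F : ℤ → Env → ℝ}
    (hF : ∀ k ∈ Finset.Icc (0 : ℤ) m, Sub (F k)) {d : ℤ} (hFd : ∀ k ∈ Finset.Icc (0 : ℤ) m, DependsOn (F k) (rows m d))
    {B : ℝ} (hB : ∀ k ∈ Finset.Icc (0 : ℤ) m, ∫ η, F k η ∂(law μ) ≤ B) :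
    Integrable (fun η => ∑ k ∈ Finset.Icc (0 : ℤ) m, gb μ η m k * F k η) (law μ) ∧
      ∫ η, ∑ k ∈ Finset.Icc (0 : ℤ) m, gb μ η m k * F k η ∂(law μ) ≤ B := by
  have hint : ∀ k ∈ Finset.Icc (0 : ℤ) m, Integrable (fun η => gb μ η m k * F k η) (law μ) := fun k hk =>
    Sub.mul_integrable hEM (Sub_gb m hk) (hF k hk)
  refine ⟨integrable_finsetSum _ hint, ?_⟩
  rw [integral_finsetSum _ hint]
  have h1 : ∀ k ∈ Finset.Icc (0 : ℤ) m, ∫ η, gb μ η m k * F k η ∂(law μ) ≤ (∫ η, gb μ η m k ∂(law μ)) * B := by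
    intro k hk
    rw [integral_indep (measurable_gb m k) (hF k hk).1 (gb_dep m k) (hFd k hk) (rows_disj le_rfl)]
    exact mul_le_mul_of_nonneg_left (hB k hk) (integral_nonneg fun η => gb_nonneg η m k)
  refine (Finset.sum_le_sum h1).trans (le_of_eq ?_)
  rw [← Finset.sum_mul, ← integral_finsetSum _ fun k hk => (Sub_gb m hk).integrable hEM]
  have h2 : ∀ η : Env, ∑ k ∈ Finset.Icc (0 : ℤ) m, gb μ η m k = 1 := fun η => gb_sum η m
  simp only [h2]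
  simp

/-- The same with equality, for the profile. -/
theorem gb_mean_V (hEM : Pool.Agent.W_7d29a1_h47.EM μ) (m n : ℕ) :
    Integrable (fun η => ∑ k ∈ Finset.Icc (0 : ℤ) m, gb μ η m k * V μ 0 η ((m : ℤ), k) n) (law μ) ∧
      ∫ η, ∑ k ∈ Finset.Icc (0 : ℤ) m, gb μ η m k * V μ 0 η ((m : ℤ), k) n ∂(law μ) = ∫ η, V μ 0 η 0 n ∂(law μ) := by
  have hint : ∀ k ∈ Finset.Icc (0 : ℤ) m, Integrable (fun η => gb μ η m k * V μ 0 η ((m : ℤ), k) n) (law μ) :=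
    fun k hk => Sub.mul_integrable hEM (Sub_gb m hk) (Sub_V _ n)
  refine ⟨integrable_finsetSum _ hint, ?_⟩
  rw [integral_finsetSum _ hint]
  have h1 : ∀ k ∈ Finset.Icc (0 : ℤ) m, ∫ η, gb μ η m k * V μ 0 η ((m : ℤ), k) n ∂(law μ) =
      (∫ η, gb μ η m k ∂(law μ)) * ∫ η, V μ 0 η 0 n ∂(law μ) := by
    intro k hk
    rw [integral_indep (measurable_gb m k) (measurable_V _ n) (gb_dep m k)
      (V_dep_rows (μ := μ) (s := 0) ((m : ℤ), k) n) (rows_disj le_rfl), integral_V]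
  rw [Finset.sum_congr rfl h1, ← Finset.sum_mul, ← integral_finsetSum _ fun k hk => (Sub_gb m hk).integrable hEM]
  have h2 : ∀ η : Env, ∑ k ∈ Finset.Icc (0 : ℤ) m, gb μ η m k = 1 := fun η => gb_sum η m
  simp only [h2]
  simp

theorem Gp_int (hEM : Pool.Agent.W_7d29a1_h47.EM μ) (m n : ℕ) :
    Integrable (fun η => Gp μ η m n) (law μ) ∧ ∫ η, Gp μ η m n ∂(law μ) =
      ∫ η, V μ 0 η 0 (m + n) ∂(law μ) - ∫ η, V μ 0 η 0 m ∂(law μ) - ∫ η, V μ 0 η 0 n ∂(law μ) := by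
  have h1 : Integrable (fun η => V μ 0 η 0 (m + n)) (law μ) := (Sub_V (μ := μ) (s := 0) 0 (m + n)).integrable hEM
  have h2 : Integrable (fun η => V μ 0 η 0 m) (law μ) := (Sub_V (μ := μ) (s := 0) 0 m).integrable hEM
  obtain ⟨h3, h4⟩ := gb_mean_V (μ := μ) hEM m n
  unfold Gp
  refine ⟨(h1.sub h2).sub h3, ?_⟩
  have h5 : ∫ η, (V μ 0 η 0 (m + n) - V μ 0 η 0 m) ∂(law μ) =
      ∫ η, V μ 0 η 0 (m + n) ∂(law μ) - ∫ η, V μ 0 η 0 m ∂(law μ) := integral_sub h1 h2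
  have h6 : Integrable (fun η => V μ 0 η 0 (m + n) - V μ 0 η 0 m) (law μ) := h1.sub h2
  rw [integral_sub h6 h3, h5, h4]

/-- THE ABSTRACT CONCLUSION. -/
theorem mean_of_gap (hEM : Pool.Agent.W_7d29a1_h47.EM μ) (m n : ℕ) {A : Set Env} (hA : MeasurableSet A) {g p : ℝ}
    (hg : 0 ≤ g) (hp : p ≤ (law μ).real A) (h : ∀ η ∈ A, g ≤ Gp μ η m n) :
    ∫ η, V μ 0 η 0 m ∂(law μ) + ∫ η, V μ 0 η 0 n ∂(law μ) + g * p ≤ ∫ η, V μ 0 η 0 (m + n) ∂(law μ) := by
  obtain ⟨h1, h2⟩ := Gp_int (μ := μ) hEM m n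
  have h3 : ∫ η, A.indicator (fun _ => g) η ∂(law μ) ≤ ∫ η, Gp μ η m n ∂(law μ) := by
    refine integral_mono ((integrable_const g).indicator hA) h1 fun η => ?_
    by_cases hη : η ∈ A
    · rw [Set.indicator_of_mem hη]
      exact h η hη
    · rw [Set.indicator_of_notMem hη]
      exact Gp_nonneg η m n
  rw [integral_indicator hA, h2] at h3
  simp only [integral_const, smul_eq_mul, Measure.restrict_apply_univ, measureReal_def] at h3
  have h4 : p * g ≤ (law μ A).toReal * g := mul_le_mul_of_nonneg_right hp hg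
  have h5 : ((law μ).restrict A Set.univ).toReal = (law μ A).toReal := by rw [Measure.restrict_apply_univ]
  linarith

end

end Pool.Agent.W_7d29a1_NR
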