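import Pool.Agent.W_7d29a1_NR.Law84

/-!
Theorem NR: the amplification hypothesis of the halving lemma, for the laws of convex functions of a
Gaussian variable, from Ehrhard's inequality.
-/

set_option autoImplicit false

namespace Pool.Agent.W_7d29a1_NR.G1

open MeasureTheory ProbabilityTheory Filter Topology Set Pool.Agent.W_MP_7d29a1_pr
  Pool.Agent.W_7d29a1_h46 Pool.Agent.W_7d29a1_h46u Pool.Agent.W_7d29a1_SP
  Pool.Agent.W_7d29a1_SP.A84 Pool.Agent.W_7d29a1_NR.L84

lemma Phi_zero1 : Ehr.Phi 0 = 1 / 2 := by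
  have := Phi_add 0
  rw [neg_zero] at this
  linarith

lemma Phi_mtwo1 : Ehr.Phi (-2) ≤ 1 / 4 := by
  have h := Phi_upper (b := 2) (by norm_num)
  have h2 : Real.exp (-(2 : ℝ) ^ 2 / 2) ≤ 1 / 4 := by
    rw [show (-(2 : ℝ) ^ 2 / 2) = -2 by norm_num, Real.exp_neg, inv_eq_one_div]
    apply one_div_le_one_div_of_le (by norm_num)
    have h3 := Real.add_one_le_exp (1 : ℝ)
    have h4 : Real.exp 2 = Real.exp 1 * Real.exp 1 := by rw [← Real.exp_add]; norm_num
    rw [h4]
    nlinarith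
  exact h.trans h2

lemma Phi_two1 : 3 / 4 ≤ Ehr.Phi 2 := by
  have := Phi_add 2
  linarith [Phi_mtwo1]

/-- The amplification hypothesis of the halving lemma, abstract form. -/
theorem haA1 {Ω : Type*} [MeasurableSpace Ω] (P : Measure Ω) [IsProbabilityMeasure P] {W : Ω → ℝ}
    (hW : Measurable W)
    (hl : ∀ a b s0 s1 t : ℝ, 0 ≤ t → Ehr.Phi a ≤ P.real {ω | W ω ≤ s0} →
      P.real {ω | W ω ≤ s1} ≤ Ehr.Phi b →
      P.real {ω | W ω ≤ s1 + t * (s1 - s0)} ≤ Ehr.Phi (b + t * (b - a)))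
    {c M b L : ℝ} (hc : 0 < c) (hb : 0 < b) (hL : c * (L - (M + b)) ≤ b)
    (h1 : 1 / 2 ≤ P.real {ω | W ω ≤ M}) (h2 : 1 / 4 ≤ P.real {ω | M + b ≤ W ω}) :
    Ehr.Phi (-(4 + 4 / c)) ≤ P.real {ω | L ≤ W ω} := by
  have hcpos : 0 < 4 / c := by positivity
  rcases le_total L (M + b) with hLe | hLe
  · have h3 : P.real {ω | M + b ≤ W ω} ≤ P.real {ω | L ≤ W ω} :=
      measureReal_mono (fun ω hω => hLe.trans hω) (measure_ne_top _ _)
    have h4 : Ehr.Phi (-(4 + 4 / c)) ≤ Ehr.Phi (-2) :=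
      Ehr.Phi_strictMono.monotone (by linarith)
    linarith [Phi_mtwo1]
  · have hcompl : ∀ s : ℝ, P.real {ω | W ω ≤ s} = 1 - P.real {ω | s < W ω} := by
      intro s
      have hs : {ω | W ω ≤ s} = {ω | s < W ω}ᶜ := by
        ext ω
        simp
      rw [hs, measureReal_compl (measurableSet_lt measurable_const hW)]
      simp
    have h3 : P.real {ω | W ω ≤ M + b / 2} ≤ Ehr.Phi 2 := by
      have h4 : P.real {ω | M + b ≤ W ω} ≤ P.real {ω | M + b / 2 < W ω} :=
        measureReal_mono (fun ω hω => by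
          have : M + b ≤ W ω := hω
          show M + b / 2 < W ω
          linarith) (measure_ne_top _ _)
      rw [hcompl]
      linarith [Phi_two1]
    have ht : 0 ≤ (L - (M + b / 2)) / (b / 2) := div_nonneg (by linarith) (by linarith)
    have h5 := hl 0 2 M (M + b / 2) ((L - (M + b / 2)) / (b / 2)) ht (by rw [Phi_zero1]; exact h1) h3
    have h6 : M + b / 2 + (L - (M + b / 2)) / (b / 2) * (M + b / 2 - M) = L := by
      have hb2 : b ≠ 0 := hb.ne'
      field_simp
      ring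
    rw [h6] at h5
    have h7 : (L - (M + b / 2)) / (b / 2) ≤ 2 / c + 1 := by
      rw [div_le_iff₀ (by linarith)]
      have h8 : L - (M + b) ≤ b / c := by
        rw [le_div_iff₀ hc]
        linarith
      have h9 : (2 / c + 1) * (b / 2) = b / c + b / 2 := by
        field_simp
        try ring
      rw [h9]
      linarith
    have h10 : Ehr.Phi (2 + (L - (M + b / 2)) / (b / 2) * (2 - 0)) ≤ Ehr.Phi (4 + 4 / c) := by
      apply Ehr.Phi_strictMono.monotone
      have h11 : 4 / c = 2 * (2 / c) := by ring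
      rw [h11]
      linarith
    have h12 : P.real {ω | L < W ω} ≤ P.real {ω | L ≤ W ω} :=
      measureReal_mono (fun ω hω => by
        have h0 : L < W ω := hω
        exact h0.le) (measure_ne_top _ _)
    have h13 := hcompl L
    have h14 := Phi_add (4 + 4 / c)
    linarith

/-- The amplification hypothesis of the halving lemma for the mixtures of free energies. -/
theorem haG1 {d : ℕ} (hd : 0 < d) {ρ : Measure ℝ} [IsProbabilityMeasure ρ] (hG : GC ρ) {β : ℝ}
    (hβ : 0 ≤ β) (h : Vec d) (k m : ℕ) {D : Finset (Site d)} (hD : D.Nonempty) {w : Site d → ℝ}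
    (hw : ∀ y ∈ D, 0 < w y) {c M b L : ℝ} (hc : 0 < c) (hb : 0 < b)
    (hL : c * (L - (M + b)) ≤ b)
    (h1 : 1 / 2 ≤ (law d ρ).real {η | WD β h k m D w η ≤ M})
    (h2 : 1 / 4 ≤ (law d ρ).real {η | M + b ≤ WD β h k m D w η}) :
    Ehr.Phi (-(4 + 4 / c)) ≤ (law d ρ).real {η | L ≤ WD β h k m D w η} :=
  haA1 (law d ρ) (measurable_WD hd β h k m D w hw)
    (fun _ _ _ _ _ ht h0 h1 => luckW84 hd hG hβ h k m hD hw ht h0 h1) hc hb hL h1 h2

/-- The price. -/
lemma price1 {c : ℝ} (hc : 0 < c) :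
    cA * Real.exp (-(4 + 4 / c) ^ 2) ≤ Ehr.Phi (-(4 + 4 / c)) :=
  Phi_lower (by positivity)

end Pool.Agent.W_7d29a1_NR.G1
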