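import Pool.Agent.W_7d29a1_NR.DefsR11
import Pool.Agent.W_7d29a1_SP.Amp84

/-!
HALV (helper11): the halving lemma for convex functions of a Gaussian vector.
-/

namespace Pool.Agent.W_7d29a1_NR

namespace Halv11

open MeasureTheory ProbabilityTheory Filter Topology Set Pool.Agent.W_7d29a1_SP.A84

variable {ι Y : Type}

/-- the value of a set of alternatives -/
noncomputable def W (w : Y → ℝ) (V : Y → (ι → ℝ) → ℝ) (D : Finset Y) (x : ι → ℝ) : ℝ :=
  Real.log (∑ y ∈ D, w y * Real.exp (V y x))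

section

variable {w : Y → ℝ} {V : Y → (ι → ℝ) → ℝ} {D : Finset Y}

lemma sumpos (hD : D.Nonempty) (hw : ∀ y ∈ D, 0 < w y) (x : ι → ℝ) :
    0 < ∑ y ∈ D, w y * Real.exp (V y x) :=
  Finset.sum_pos (fun y hy => mul_pos (hw y hy) (Real.exp_pos _)) hD

lemma W_cont (hD : D.Nonempty) (hw : ∀ y ∈ D, 0 < w y) (hV : ∀ y ∈ D, Continuous (V y)) :
    Continuous (W w V D) := by
  unfold W
  refine Continuous.log ?_ fun x => (sumpos hD hw x).ne'
  exact continuous_finsetSum _ fun y hy => continuous_const.mul (Real.continuous_exp.comp (hV y hy))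

lemma W_conv (hD : D.Nonempty) (hw : ∀ y ∈ D, 0 < w y) (hV : ∀ y ∈ D, ConvexOn ℝ univ (V y)) :
    ConvexOn ℝ univ (W w V D) := by
  have : Nonempty D := hD.to_subtype
  have h := lse (S := D) (E := ι → ℝ) (g := fun s x => Real.log (w s) + V s x)
    (fun s => (convexOn_const _ convex_univ).add (hV s s.2))
  have e : W w V D = fun x => Real.log (∑ s : D, Real.exp (Real.log (w s) + V s x)) := by
    funext x
    unfold W
    rw [← Finset.sum_coe_sort D]
    congr 1
    refine Finset.sum_congr rfl fun s _ => ?_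
    rw [Real.exp_add, Real.exp_log (hw s s.2)]
  rw [e]
  exact h

lemma W_mono {D' : Finset Y} (hD : D.Nonempty) (h : D ⊆ D') (hw : ∀ y ∈ D', 0 < w y) (x : ι → ℝ) :
    W w V D x ≤ W w V D' x := by
  unfold W
  refine Real.log_le_log (sumpos hD (fun y hy => hw y (h hy)) x) ?_
  exact Finset.sum_le_sum_of_subset_of_nonneg h fun y hy _ =>
    (mul_pos (hw y hy) (Real.exp_pos _)).le

end

/-- A median, with a margin. -/
lemma median {Ω : Type*} [MeasurableSpace Ω] (P : Measure Ω) [IsProbabilityMeasure P] {L : Ω → ℝ}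
    (hL : Measurable L) : ∃ M : ℝ, 1 / 2 ≤ P.real {ω | L ω ≤ M} ∧
      1 / 2 ≤ P.real {ω | M - 1 ≤ L ω} := by
  have hP : IsProbabilityMeasure (P.map L) := Measure.isProbabilityMeasure_map hL.aemeasurable
  have hF : ∀ s, cdf (P.map L) s = P.real {ω | L ω ≤ s} := by
    intro s
    rw [cdf_eq_real, map_measureReal_apply hL measurableSet_Iic]
    rfl
  have hmono : Monotone (cdf (P.map L)) := monotone_cdf _
  obtain ⟨S, hS⟩ : ∃ S : Set ℝ, S = {s | 1 / 2 ≤ cdf (P.map L) s} := ⟨_, rfl⟩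
  have hne : S.Nonempty := by
    obtain ⟨s, hs⟩ := ((tendsto_cdf_atTop (P.map L)).eventually
      (lt_mem_nhds (show (1 / 2 : ℝ) < 1 by norm_num))).exists
    exact ⟨s, by rw [hS]; exact hs.le⟩
  have hbdd : BddBelow S := by
    obtain ⟨s₀, hs₀⟩ := ((tendsto_cdf_atBot (P.map L)).eventually
      (gt_mem_nhds (show (0 : ℝ) < 1 / 2 by norm_num))).exists
    refine ⟨s₀, fun s hs => ?_⟩
    rw [hS] at hs
    by_contra hcon
    push Not at hcon
    have h1 := hmono hcon.le
    have h2 : (1 / 2 : ℝ) ≤ cdf (P.map L) s := hs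
    linarith
  obtain ⟨M, hM, hlt⟩ := (csInf_lt_iff hbdd hne).1 (show sInf S < sInf S + 1 by linarith)
  rw [hS] at hM
  have hM' : (1 / 2 : ℝ) ≤ cdf (P.map L) M := hM
  refine ⟨M, by rw [← hF]; exact hM', ?_⟩
  have h3 : M - 1 ∉ S := fun h => by
    have := csInf_le hbdd h
    linarith
  have h4 : P.real {ω | L ω ≤ M - 1} < 1 / 2 := by
    rw [hS] at h3
    have h5 : ¬ (1 / 2 : ℝ) ≤ cdf (P.map L) (M - 1) := h3
    rw [hF] at h5
    exact not_le.1 h5
  have h6 : P.real {ω | L ω ≤ M - 1}ᶜ = 1 - P.real {ω | L ω ≤ M - 1} :=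
    probReal_compl_eq_one_sub (measurableSet_le hL measurable_const)
  have h7 : P.real {ω | L ω ≤ M - 1}ᶜ ≤ P.real {ω | M - 1 ≤ L ω} := by
    refine measureReal_mono fun ω hω => ?_
    have : ¬ L ω ≤ M - 1 := hω
    exact (not_le.1 this).le
  linarith

lemma Phi_two : (3 / 4 : ℝ) ≤ Ehr.Phi 2 := by
  have h1 := Phi_add 2
  have h2 := Phi_upper (b := 2) (by norm_num)
  have h3 : Real.exp (-(2 : ℝ) ^ 2 / 2) ≤ 1 / 4 := by
    have h4 : (4 : ℝ) ≤ Real.exp 2 := by
      have h5 := Real.add_one_le_exp (1 : ℝ)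
      have h6 : Real.exp 2 = Real.exp 1 * Real.exp 1 := by rw [← Real.exp_add]; norm_num
      rw [h6]
      nlinarith
    rw [show (-(2 : ℝ) ^ 2 / 2) = -2 by norm_num, Real.exp_neg, inv_eq_one_div]
    exact one_div_le_one_div_of_le (by norm_num) h4
  linarith

lemma log2_lt : Real.log 2 < 1 := by
  have := Real.log_two_lt_d9
  linarith

variable [Fintype ι]

lemma Phi_zero : Ehr.Phi 0 = 1 / 2 := by
  have := Phi_add 0
  rw [neg_zero] at this
  linarith

/-- one step of the halving -/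
lemma step {S D : Finset Y} {w : Y → ℝ} {V : Y → (ι → ℝ) → ℝ} {c a T t : ℝ}
    (hw : ∀ y ∈ S, 0 < w y) (hV : ∀ y ∈ S, ConvexOn ℝ univ (V y)) (hVc : ∀ y ∈ S, Continuous (V y))
    (hc0 : 0 < c) (hc1 : c ≤ 1) (ha : 0 ≤ a)
    (hT : (Ehr.gpi ι).real {x | T + a < W w V S x} < Ehr.Phi (-(2 + 2 / c)))
    (hDS : D ⊆ S) (hD : D.Nonempty) (ht : t ≤ T)
    (h4 : 1 / 4 ≤ (Ehr.gpi ι).real {x | t - Real.log 2 ≤ W w V D x}) :
    ∃ t' : ℝ, t' ≤ T ∧ 1 / 2 ≤ (Ehr.gpi ι).real {x | t' ≤ W w V D x} ∧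
      T - t' ≤ (1 + c) * (T - t) + (a + 3) := by
  have hwD : ∀ y ∈ D, 0 < w y := fun y hy => hw y (hDS hy)
  have cW : Continuous (W w V D) := W_cont hD hwD fun y hy => hVc y (hDS hy)
  have vW : ConvexOn ℝ univ (W w V D) := W_conv hD hwD fun y hy => hV y (hDS hy)
  have cS : Continuous (W w V S) := W_cont (hD.mono hDS) hw hVc
  have hl2 := log2_lt
  obtain ⟨M, hM1, hM2⟩ := median (Ehr.gpi ι) cW.measurable
  have hcs : 0 ≤ c * (T - t) := mul_nonneg hc0.le (by linarith)
  by_cases hb : t - 1 ≤ M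
  · refine ⟨t - 2, by linarith, ?_, by nlinarith⟩
    refine hM2.trans (measureReal_mono fun x hx => ?_)
    have hx' : M - 1 ≤ W w V D x := hx
    show t - 2 ≤ W w V D x
    linarith
  · push Not at hb
    obtain ⟨b, hbd⟩ : ∃ b : ℝ, b = t - 1 - M := ⟨_, rfl⟩
    have hb0 : 0 < b := by rw [hbd]; linarith
    refine ⟨M - 1, by linarith, hM2, ?_⟩
    have h1 : (Ehr.gpi ι).real {x | W w V D x ≤ t - 1} ≤ Ehr.Phi 2 := by
      have h2 : (Ehr.gpi ι).real {x | t - Real.log 2 ≤ W w V D x}ᶜ =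
          1 - (Ehr.gpi ι).real {x | t - Real.log 2 ≤ W w V D x} :=
        probReal_compl_eq_one_sub (measurableSet_le measurable_const cW.measurable)
      have h3 : (Ehr.gpi ι).real {x | W w V D x ≤ t - 1} ≤
          (Ehr.gpi ι).real {x | t - Real.log 2 ≤ W w V D x}ᶜ := by
        refine measureReal_mono fun x hx => ?_
        have hx' : W w V D x ≤ t - 1 := hx
        show ¬ (t - Real.log 2 ≤ W w V D x)
        push Not
        linarith
      linarith [Phi_two]
    obtain ⟨τ, hτ⟩ : ∃ τ : ℝ, τ = (T - t + a + 1) / b := ⟨_, rfl⟩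
    have hτb : τ * b = T - t + a + 1 := by rw [hτ]; field_simp
    have hτ0 : 0 ≤ τ := by rw [hτ]; exact div_nonneg (by linarith) hb0.le
    have h5 := Ehr.luck vW cW (a := 0) (b := 2) (s0 := M) (s1 := t - 1) (t := τ) hτ0
      (by rw [Phi_zero]; exact hM1) h1
    have e1 : t - 1 + τ * (t - 1 - M) = T + a := by rw [← hbd, hτb]; ring
    rw [e1] at h5
    have h6 : (Ehr.gpi ι).real {x | T + a < W w V D x} =
        1 - (Ehr.gpi ι).real {x | W w V D x ≤ T + a} := by
      rw [← probReal_compl_eq_one_sub (measurableSet_le cW.measurable measurable_const)]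
      congr 1
      ext x
      simp
    have h7 : (Ehr.gpi ι).real {x | T + a < W w V D x} ≤
        (Ehr.gpi ι).real {x | T + a < W w V S x} := by
      refine measureReal_mono fun x hx => ?_
      have hx' : T + a < W w V D x := hx
      exact hx'.trans_le (W_mono hD hDS hw x)
    have h8 := Phi_add (2 + τ * (2 - 0))
    have h9 : Ehr.Phi (-(2 + τ * (2 - 0))) < Ehr.Phi (-(2 + 2 / c)) :=
      calc Ehr.Phi (-(2 + τ * (2 - 0))) = 1 - Ehr.Phi (2 + τ * (2 - 0)) := by linarith
        _ ≤ 1 - (Ehr.gpi ι).real {x | W w V D x ≤ T + a} := sub_le_sub_left h5 1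
        _ = (Ehr.gpi ι).real {x | T + a < W w V D x} := h6.symm
        _ ≤ (Ehr.gpi ι).real {x | T + a < W w V S x} := h7
        _ < Ehr.Phi (-(2 + 2 / c)) := hT
    have h10 := Ehr.Phi_strictMono.lt_iff_lt.1 h9
    have h11 : 1 / c < τ := by
      have e2 : 2 / c = 2 * (1 / c) := by ring
      rw [e2] at h10
      linarith
    have h12 : b < c * (T - t + a + 1) := by
      have h13 : 1 / c * b < τ * b := mul_lt_mul_of_pos_right h11 hb0
      rw [hτb, one_div, inv_mul_lt_iff₀ hc0] at h13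
      exact h13
    nlinarith

/-- the induction -/
lemma main {S : Finset Y} {w : Y → ℝ} {V : Y → (ι → ℝ) → ℝ} {c a T u₀ : ℝ}
    (hw : ∀ y ∈ S, 0 < w y ∧ w y ≤ 1) (hV : ∀ y ∈ S, ConvexOn ℝ univ (V y))
    (hVc : ∀ y ∈ S, Continuous (V y)) (hc0 : 0 < c) (hc1 : c ≤ 1) (ha : 0 ≤ a)
    (hu : ∀ y ∈ S, ∀ u : ℝ, u₀ < u → (Ehr.gpi ι).real {x | u ≤ V y x} < 1 / 2)
    (hT : (Ehr.gpi ι).real {x | T + a < W w V S x} < Ehr.Phi (-(2 + 2 / c))) (J : ℕ) :
    ∀ D : Finset Y, D ⊆ S → D.Nonempty → D.card ≤ 2 ^ J → ∀ t : ℝ, t ≤ T →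
      1 / 2 ≤ (Ehr.gpi ι).real {x | t ≤ W w V D x} →
      T - u₀ ≤ (1 + c) ^ J * (T - t) + (a + 3) * (((1 + c) ^ J - 1) / c) := by
  classical
  induction J with
  | zero =>
    intro D hDS hD hcard t ht hp
    obtain ⟨y, rfl⟩ := Finset.card_eq_one.1 (le_antisymm (by simpa using hcard) hD.card_pos)
    have hy : y ∈ S := hDS (Finset.mem_singleton_self y)
    have h1 : t ≤ u₀ := by
      by_contra hcon
      push Not at hcon
      have h2 := hu y hy t hcon
      have h3 : (Ehr.gpi ι).real {x | t ≤ W w V {y} x} ≤ (Ehr.gpi ι).real {x | t ≤ V y x} := by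
        refine measureReal_mono fun x hx => ?_
        have hx' : t ≤ W w V {y} x := hx
        unfold W at hx'
        rw [Finset.sum_singleton, Real.log_mul (hw y hy).1.ne' (Real.exp_pos _).ne', Real.log_exp]
          at hx'
        have := Real.log_nonpos (hw y hy).1.le (hw y hy).2
        show t ≤ V y x
        linarith
      linarith
    simp only [pow_zero, sub_self, zero_div, mul_zero, one_mul, add_zero]
    linarith
  | succ J ih =>
    intro D hDS hD hcard t ht hp
    have hpow : 1 ≤ (1 + c) ^ J := one_le_pow₀ (by linarith)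
    have e0 : (1 + c) ^ (J + 1) = (1 + c) ^ J * (1 + c) := pow_succ _ _
    have e1 : ((1 + c) ^ (J + 1) - 1) / c = (1 + c) ^ J + ((1 + c) ^ J - 1) / c := by
      rw [e0]
      field_simp
      ring
    by_cases hc : D.card ≤ 2 ^ J
    · have h1 := ih D hDS hD hc t ht hp
      rw [e1, e0]
      have h2 : 0 ≤ (1 + c) ^ J * c * (T - t) := by
        have : 0 ≤ T - t := by linarith
        positivity
      have h3 : 0 ≤ (a + 3) * (1 + c) ^ J := by positivity
      nlinarith
    · push Not at hc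
      obtain ⟨D', hD', hcD'⟩ := Finset.exists_subset_card_eq hc.le
      have hne' : D'.Nonempty := by
        rw [← Finset.card_pos, hcD']
        positivity
      have hcard2 : (D \ D').card ≤ 2 ^ J := by
        rw [Finset.card_sdiff_of_subset hD', hcD']
        rw [pow_succ] at hcard
        omega
      have hne2 : (D \ D').Nonempty := by
        rw [← Finset.card_pos, Finset.card_sdiff_of_subset hD', hcD']
        omega
      obtain ⟨D₁, hD₁, hne₁, hc₁, h4⟩ : ∃ D₁ : Finset Y, D₁ ⊆ D ∧ D₁.Nonempty ∧ D₁.card ≤ 2 ^ J ∧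
          1 / 4 ≤ (Ehr.gpi ι).real {x | t - Real.log 2 ≤ W w V D₁ x} := by
        by_contra hcon
        push Not at hcon
        have h5 := hcon D' hD' hne' hcD'.le
        have h6 := hcon (D \ D') Finset.sdiff_subset hne2 hcard2
        have h7 : (Ehr.gpi ι).real {x | t ≤ W w V D x} ≤
            (Ehr.gpi ι).real ({x | t - Real.log 2 ≤ W w V D' x} ∪
              {x | t - Real.log 2 ≤ W w V (D \ D') x}) := by
          refine measureReal_mono fun x hx => ?_
          have hx' : t ≤ W w V D x := hx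
          by_contra hno
          have hn1 : W w V D' x < t - Real.log 2 := by
            by_contra hk
            exact hno (Or.inl (not_lt.1 hk))
          have hn2 : W w V (D \ D') x < t - Real.log 2 := by
            by_contra hk
            exact hno (Or.inr (not_lt.1 hk))
          have p1 := sumpos (V := V) hne' (fun y hy => (hw y (hDS (hD' hy))).1) x
          have p2 := sumpos (V := V) hne2
            (fun y hy => (hw y (hDS (Finset.sdiff_subset hy))).1) x
          have q1 := (Real.log_lt_iff_lt_exp p1).1 hn1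
          have q2 := (Real.log_lt_iff_lt_exp p2).1 hn2
          have e2 : ∑ y ∈ D, w y * Real.exp (V y x) = ∑ y ∈ D \ D', w y * Real.exp (V y x) +
              ∑ y ∈ D', w y * Real.exp (V y x) := (Finset.sum_sdiff hD').symm
          have p3 := sumpos (V := V) hD (fun y hy => (hw y (hDS hy)).1) x
          have q3 := (Real.le_log_iff_exp_le p3).1 hx'
          have e3 : Real.exp (t - Real.log 2) = Real.exp t / 2 := by
            rw [Real.exp_sub, Real.exp_log (by norm_num)]
          rw [e3] at q1 q2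
          linarith
        have h8 := measureReal_union_le (μ := Ehr.gpi ι) {x | t - Real.log 2 ≤ W w V D' x}
          {x | t - Real.log 2 ≤ W w V (D \ D') x}
        linarith
      obtain ⟨t', ht', hp', hs⟩ := step (fun y hy => (hw y hy).1) hV hVc hc0 hc1 ha hT
        (hD₁.trans hDS) hne₁ ht h4
      have h9 := ih D₁ (hD₁.trans hDS) hne₁ hc₁ t' ht' hp'
      rw [e1, e0]
      have h10 : (1 + c) ^ J * (T - t') ≤ (1 + c) ^ J * ((1 + c) * (T - t) + (a + 3)) :=
        mul_le_mul_of_nonneg_left hs (by linarith)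
      nlinarith

end Halv11

open Halv11 in
/-- **HALV.** -/
theorem halv11 : HalvP := by
  intro ι Y _ S w V J c a T u₀ hS hcard hw hV hVc hc0 hc1 ha hu hT1 hT2
  have h := main hw hV hVc hc0 hc1 ha hu hT2 J S (Finset.Subset.refl S) hS hcard T le_rfl hT1
  rw [sub_self, mul_zero, zero_add] at h
  have hpow : 0 < (1 + c) ^ J := by positivity
  have h2 : (a + 3) * (((1 + c) ^ J - 1) / c) ≤ (a + 3) * (1 + c) ^ J / c := by
    rw [mul_div_assoc]
    refine mul_le_mul_of_nonneg_left ?_ (by linarith)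
    gcongr
    linarith
  linarith

end Pool.Agent.W_7d29a1_NR
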