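import Pool.Agent.W_7d29a1_UC.Med31

/-!
Theorem NR (helper11), the halving lemma: second text (helper44).
-/

set_option autoImplicit false

namespace Pool.Agent.W_7d29a1_NR

open MeasureTheory ProbabilityTheory Filter Topology Set Ehr

lemma Phi_zero44 : Phi 0 = 1 / 2 := by
  have h := Pool.Agent.W_7d29a1_SP.A84.Phi_add 0
  rw [neg_zero] at h
  linarith

lemma inv_sqrt44 : (39 : ℝ) / 100 ≤ (√(2 * Real.pi))⁻¹ := by
  have h1 : √(2 * Real.pi) ≤ 100 / 39 := by
    rw [Real.sqrt_le_left (by norm_num)]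
    have := Real.pi_lt_d2
    norm_num at this ⊢
    linarith
  have h2 : 0 < √(2 * Real.pi) := Real.sqrt_pos.2 (by positivity)
  rw [le_inv_comm₀ (by norm_num) h2]
  refine h1.trans (le_of_eq (by norm_num))

lemma Phi_seg44 {x y : ℝ} (hx : 0 ≤ x) (hxy : x ≤ y) : Phi x + (y - x) * phi y ≤ Phi y := by
  rcases hxy.eq_or_lt with h | h
  · rw [h]; simp
  obtain ⟨z, hz, hz'⟩ := exists_hasDerivAt_eq_slope Phi phi h Phi_cont.continuousOn
    (fun u _ => hasDerivAt_Phi u)
  have h1 : phi y ≤ phi z := phi_mono_abs (by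
    rw [abs_of_nonneg (by linarith [hz.1]), abs_of_nonneg (by linarith)]
    exact hz.2.le)
  rw [hz', le_div_iff₀ (by linarith)] at h1
  linarith

lemma Phi_one44 : 3 / 4 ≤ Phi 1 := by
  have h1 := Phi_seg44 (x := 0) (y := 1 / 2) le_rfl (by norm_num)
  have h2 := Phi_seg44 (x := 1 / 2) (y := 1) (by norm_num) (by norm_num)
  rw [Phi_zero44] at h1
  have h3 : (39 : ℝ) / 100 * (7 / 8) ≤ phi (1 / 2) := by
    rw [phi_eq]
    refine mul_le_mul inv_sqrt44 ?_ (by norm_num) (by positivity)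
    have := Real.add_one_le_exp (-(1 / 2 : ℝ) ^ 2 / 2)
    refine le_trans (by norm_num) this
  have h4 : (39 : ℝ) / 100 * (1 / 2) ≤ phi 1 := by
    rw [phi_eq]
    refine mul_le_mul inv_sqrt44 ?_ (by norm_num) (by positivity)
    have := Real.add_one_le_exp (-(1 : ℝ) ^ 2 / 2)
    refine le_trans (by norm_num) this
  linarith

section Halv

variable {ι S : Type*} [Fintype ι]

/-- The logarithm of a weighted sum of exponentials. -/
noncomputable def W44 (μ : S → ℝ) (V : S → (ι → ℝ) → ℝ) (D : Finset S) (x : ι → ℝ) : ℝ :=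
  Real.log (∑ y ∈ D, μ y * Real.exp (V y x))

variable {μ : S → ℝ} {V : S → (ι → ℝ) → ℝ} {D D' D'' : Finset S}

lemma sum_pos44 (hμ : ∀ y, 0 < μ y) (hD : D.Nonempty) (x : ι → ℝ) :
    0 < ∑ y ∈ D, μ y * Real.exp (V y x) :=
  Finset.sum_pos (fun y _ => mul_pos (hμ y) (Real.exp_pos _)) hD

lemma W_cont44 (hμ : ∀ y, 0 < μ y) (hc : ∀ y, Continuous (V y)) (hD : D.Nonempty) :
    Continuous (W44 μ V D) := by
  unfold W44
  refine Continuous.log ?_ fun x => (sum_pos44 hμ hD x).ne'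
  exact continuous_finsetSum _ fun y _ => continuous_const.mul (Real.continuous_exp.comp (hc y))

lemma W_conv44 (hμ : ∀ y, 0 < μ y) (hV : ∀ y, ConvexOn ℝ univ (V y)) (hD : D.Nonempty) :
    ConvexOn ℝ univ (W44 μ V D) := by
  have hne : Nonempty D := ⟨⟨_, hD.choose_spec⟩⟩
  have h1 := Pool.Agent.W_7d29a1_SP.A84.lse (S := D) (g := fun s x => Real.log (μ s) + V s x)
    (fun s => (convexOn_const (Real.log (μ s)) convex_univ).add (hV s))
  have h2 : W44 μ V D = fun x => Real.log (∑ s : D, Real.exp (Real.log (μ s) + V s x)) := by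
    funext x
    unfold W44
    congr 1
    rw [← Finset.sum_coe_sort D fun y => μ y * Real.exp (V y x)]
    refine Finset.sum_congr rfl fun s _ => ?_
    rw [Real.exp_add, Real.exp_log (hμ s)]
  rw [h2]
  exact h1

lemma W_mono44 (hμ : ∀ y, 0 < μ y) (hD : D.Nonempty) (hs : D ⊆ D') (x : ι → ℝ) :
    W44 μ V D x ≤ W44 μ V D' x :=
  Real.log_le_log (sum_pos44 hμ hD x) (Finset.sum_le_sum_of_subset_of_nonneg hs
    fun y _ _ => (mul_pos (hμ y) (Real.exp_pos _)).le)

open Classical in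
lemma W_union44 (hμ : ∀ y, 0 < μ y) (hD' : D'.Nonempty) (hD'' : D''.Nonempty)
    (hdis : Disjoint D' D'') (x : ι → ℝ) :
    W44 μ V (D' ∪ D'') x ≤ max (W44 μ V D' x) (W44 μ V D'' x) + Real.log 2 := by
  have h1 := sum_pos44 (V := V) hμ hD' x
  have h2 := sum_pos44 (V := V) hμ hD'' x
  unfold W44
  rw [Finset.sum_union hdis]
  set A := ∑ y ∈ D', μ y * Real.exp (V y x)
  set B := ∑ y ∈ D'', μ y * Real.exp (V y x)
  rcases le_total A B with h | h
  · have h3 : Real.log (A + B) ≤ Real.log (B * 2) := Real.log_le_log (by linarith) (by linarith)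
    rw [Real.log_mul h2.ne' (by norm_num)] at h3
    exact h3.trans (add_le_add (le_max_right _ _) le_rfl)
  · have h3 : Real.log (A + B) ≤ Real.log (A * 2) := Real.log_le_log (by linarith) (by linarith)
    rw [Real.log_mul h1.ne' (by norm_num)] at h3
    exact h3.trans (add_le_add (le_max_left _ _) le_rfl)

lemma ms_le44 {f : (ι → ℝ) → ℝ} (hf : Continuous f) (s : ℝ) : MeasurableSet {x | f x ≤ s} :=
  measurableSet_le hf.measurable measurable_const

/-- A median below a level. -/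
lemma med44 {f : (ι → ℝ) → ℝ} (hf : Continuous f) : ∃ M : ℝ,
    1 / 2 ≤ (gpi ι).real {x | f x ≤ M} ∧ ∀ s, s < M → (gpi ι).real {x | f x ≤ s} ≤ 1 / 2 := by
  have hP : IsProbabilityMeasure ((gpi ι).map f) :=
    Measure.isProbabilityMeasure_map hf.measurable.aemeasurable
  obtain ⟨s₀, hs₀⟩ := ((tendsto_cdf_atBot ((gpi ι).map f)).eventually
    (gt_mem_nhds (show (0 : ℝ) < 1 / 2 by norm_num))).exists
  rw [cdf_eq_real, map_measureReal_apply hf.measurable measurableSet_Iic] at hs₀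
  obtain ⟨M, -, h1, h2⟩ := Pool.Agent.W_7d29a1_UC.median31 (gpi ι) hf.measurable (s₀ := s₀) hs₀
  exact ⟨M, h1, fun s hs => (h2 s hs).le⟩

/-- One halving. -/
lemma step44 (hμ : ∀ y, 0 < μ y) (hV : ∀ y, ConvexOn ℝ univ (V y)) (hc : ∀ y, Continuous (V y))
    {c a T t : ℝ} (hc0 : 0 < c) (hc1 : c ≤ 1) (ha : 0 ≤ a) (htT : t ≤ T) (hD : D.Nonempty)
    (h3 : (gpi ι).real {x | W44 μ V D x ≤ t - 1} ≤ 3 / 4)
    (h2 : 1 - Phi (-(1 + 1 / c)) < (gpi ι).real {x | W44 μ V D x ≤ T + a}) :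
    ∃ t', t' ≤ T ∧ (∀ s, s < t' → (gpi ι).real {x | W44 μ V D x ≤ s} ≤ 1 / 2) ∧
      T - t' ≤ (1 + c) * (T - t) + (a + 2) := by
  have hcont := W_cont44 hμ hc hD
  obtain ⟨M, hM1, hM2⟩ := med44 hcont
  have hs0 : 0 ≤ T - t := by linarith
  rcases le_or_gt (t - 1) M with h | h
  · refine ⟨min M t, (min_le_right _ _).trans htT, fun s hs => hM2 s (hs.trans_le (min_le_left _ _)),
      ?_⟩
    have h4 : t - 1 ≤ min M t := le_min h (by linarith)
    have h5 : 0 ≤ c * (T - t) := mul_nonneg hc0.le hs0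
    linarith
  · refine ⟨M, by linarith, hM2, ?_⟩
    have hb : 0 < t - 1 - M := by linarith
    by_contra hcon
    push Not at hcon
    -- the parameter
    set τ := (T + a - (t - 1)) / (t - 1 - M) with hτ
    have hτ0 : 0 ≤ τ := div_nonneg (by linarith) hb.le
    have hτb : τ * (t - 1 - M) = T + a - (t - 1) := div_mul_cancel₀ _ hb.ne'
    have h4 := luck (W_conv44 hμ hV hD) hcont (a := 0) (b := 1) (s0 := M) (s1 := t - 1) hτ0
      (by rw [Phi_zero44]; exact hM1) (h3.trans Phi_one44)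
    rw [hτb, sub_zero, mul_one] at h4
    have e1 : t - 1 + (T + a - (t - 1)) = T + a := by ring
    rw [e1] at h4
    have h5 := lt_of_lt_of_le h2 h4
    have h6 := Pool.Agent.W_7d29a1_SP.A84.Phi_add (1 + 1 / c)
    have h7 : Phi (1 + 1 / c) < Phi (1 + τ) := by linarith
    have h8 : 1 + 1 / c < 1 + τ := Phi_strictMono.lt_iff_lt.1 h7
    have h9 : 1 / c < τ := by linarith
    have h10 : t - 1 - M < c * (T + a - (t - 1)) := by
      rw [hτ, div_lt_div_iff₀ hc0 hb] at h9
      linarith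
    have h11 : c * (a + 1) ≤ a + 1 := mul_le_of_le_one_left (by linarith) hc1
    nlinarith

open Classical in
/-- **The halving lemma.** -/
theorem halv44 (hμ : ∀ y, 0 < μ y) (hμ1 : ∀ y, μ y ≤ 1) (hV : ∀ y, ConvexOn ℝ univ (V y))
    (hc : ∀ y, Continuous (V y)) {c a T u₀ : ℝ} (hc0 : 0 < c) (hc1 : c ≤ 1) (ha : 0 ≤ a)
    (hu : ∀ y, ∀ u, u₀ < u → (gpi ι).real {x | u < V y x} < 1 / 2) (J : ℕ) :
    ∀ D : Finset S, D.Nonempty → D.card ≤ 2 ^ J → ∀ t, t ≤ T →
      (∀ s, s < t → (gpi ι).real {x | W44 μ V D x ≤ s} ≤ 1 / 2) →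
      1 - Phi (-(1 + 1 / c)) < (gpi ι).real {x | W44 μ V D x ≤ T + a} →
      T - u₀ ≤ (1 + c) ^ J * (T - t) + (a + 2) * (((1 + c) ^ J - 1) / c) := by
  induction J with
  | zero =>
    intro D hD hcard t htT h1 _
    have e0 : (1 + c) ^ 0 * (T - t) + (a + 2) * (((1 + c) ^ 0 - 1) / c) = T - t := by simp
    rw [e0]
    have hcard1 : D.card ≤ 1 := by simpa using hcard
    by_contra hcon
    push Not at hcon
    have hlt : u₀ < t := by linarith
    obtain ⟨y, hy⟩ := Finset.card_eq_one.1 (le_antisymm hcard1 hD.card_pos)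
    obtain ⟨u, hu1, hu2⟩ := exists_between hlt
    have h2 := h1 u hu2
    have h3 := hu y u hu1
    have h4 : {x | V y x ≤ u} ⊆ {x | W44 μ V D x ≤ u} := by
      intro x hx
      have hx' : V y x ≤ u := hx
      show W44 μ V D x ≤ u
      unfold W44
      rw [hy, Finset.sum_singleton, Real.log_mul (hμ y).ne' (Real.exp_pos _).ne', Real.log_exp]
      have := Real.log_nonpos (hμ y).le (hμ1 y)
      linarith
    have h5 : (gpi ι).real {x | V y x ≤ u} ≤ 1 / 2 := (measureReal_mono h4).trans h2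
    have h6 : {x | u < V y x} = {x | V y x ≤ u}ᶜ := by
      ext x
      simp
    rw [h6, probReal_compl_eq_one_sub (ms_le44 (hc y) u)] at h3
    linarith
  | succ J ih =>
    intro D hD hcard t htT h1 h2
    have hpow : 1 ≤ (1 + c) ^ J := one_le_pow₀ (by linarith)
    have hstep : (1 + c) ^ (J + 1) * (T - t) + (a + 2) * (((1 + c) ^ (J + 1) - 1) / c) =
        (1 + c) ^ J * ((1 + c) * (T - t) + (a + 2)) + (a + 2) * (((1 + c) ^ J - 1) / c) := by
      field_simp
      ring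
    rw [hstep]
    -- the next set
    obtain ⟨D₁, hD₁, hc₁, hsub, h3⟩ : ∃ D₁ : Finset S, D₁.Nonempty ∧ D₁.card ≤ 2 ^ J ∧ D₁ ⊆ D ∧
        (gpi ι).real {x | W44 μ V D₁ x ≤ t - 1} ≤ 3 / 4 := by
      rcases le_or_gt D.card (2 ^ J) with hle | hlt
      · exact ⟨D, hD, hle, Finset.Subset.refl _, (h1 (t - 1) (by linarith)).trans (by norm_num)⟩
      · obtain ⟨D', hD's, hD'c⟩ := Finset.exists_subset_card_eq hlt.le
        set D'' := D \ D' with hD''
        have hD'n : D'.Nonempty := Finset.card_pos.1 (by rw [hD'c]; positivity)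
        have hcc := Finset.card_sdiff_add_card_eq_card hD's
        have hp : (2 : ℕ) ^ (J + 1) = 2 ^ J + 2 ^ J := by ring
        have hD''n : D''.Nonempty := Finset.card_pos.1 (by
          rw [hD'']
          omega)
        have hD''c : D''.card ≤ 2 ^ J := by
          rw [hD'']
          omega
        have hun : D' ∪ D'' = D := Finset.union_sdiff_of_subset hD's
        by_contra hcon
        push Not at hcon
        have g1 := hcon D' hD'n hD'c.le hD's
        have g2 := hcon D'' hD''n hD''c Finset.sdiff_subset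
        have hl2 : Real.log 2 < 1 := by
          have := Real.log_two_lt_d9
          norm_num at this ⊢
          linarith
        have g3 := h1 (t - 1 + Real.log 2) (by linarith)
        have hsub : {x | W44 μ V D' x ≤ t - 1} ∩ {x | W44 μ V D'' x ≤ t - 1} ⊆
            {x | W44 μ V D x ≤ t - 1 + Real.log 2} := by
          intro x hx
          have hx1 : W44 μ V D' x ≤ t - 1 := hx.1
          have hx2 : W44 μ V D'' x ≤ t - 1 := hx.2
          have h := W_union44 (V := V) hμ hD'n hD''n Finset.disjoint_sdiff x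
          rw [hun] at h
          exact h.trans (add_le_add (max_le hx1 hx2) le_rfl)
        have g4 := (measureReal_mono hsub).trans g3
        have m1 := ms_le44 (W_cont44 (V := V) hμ hc hD'n) (t - 1)
        have m2 := ms_le44 (W_cont44 (V := V) hμ hc hD''n) (t - 1)
        have g5 := measureReal_union_add_inter (μ := gpi ι) (s := {x | W44 μ V D' x ≤ t - 1}) m2
        have g6 : (gpi ι).real ({x | W44 μ V D' x ≤ t - 1} ∪ {x | W44 μ V D'' x ≤ t - 1}) ≤ 1 :=
          measureReal_le_one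
        linarith
    have h2' : 1 - Phi (-(1 + 1 / c)) < (gpi ι).real {x | W44 μ V D₁ x ≤ T + a} := by
      refine lt_of_lt_of_le h2 (measureReal_mono fun x hx => ?_)
      exact (W_mono44 hμ hD₁ hsub x).trans hx
    obtain ⟨t', ht'T, h4, h5⟩ := step44 hμ hV hc hc0 hc1 ha htT hD₁ h3 h2'
    have h6 := ih D₁ hD₁ hc₁ t' ht'T h4 h2'
    have h7 := mul_le_mul_of_nonneg_left h5 (by linarith : 0 ≤ (1 + c) ^ J)
    linarith

/-- The halving lemma, the form of the page. -/
theorem halvP44 (hμ : ∀ y, 0 < μ y) (hμ1 : ∀ y, μ y ≤ 1) (hV : ∀ y, ConvexOn ℝ univ (V y))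
    (hc : ∀ y, Continuous (V y)) {c a T u₀ : ℝ} (hc0 : 0 < c) (hc1 : c ≤ 1) (ha : 0 ≤ a)
    (hu : ∀ y, ∀ u, u₀ < u → (gpi ι).real {x | u < V y x} < 1 / 2) {J : ℕ} (hD : D.Nonempty)
    (hcard : D.card ≤ 2 ^ J) (h1 : (gpi ι).real {x | W44 μ V D x < T} ≤ 1 / 2)
    (h2 : (gpi ι).real {x | T + a < W44 μ V D x} < Phi (-(1 + 1 / c))) :
    T ≤ u₀ + (a + 2) * (1 + c) ^ J / c := by
  have h3 : ∀ s, s < T → (gpi ι).real {x | W44 μ V D x ≤ s} ≤ 1 / 2 := fun s hs =>
    (measureReal_mono fun x hx => lt_of_le_of_lt hx hs).trans h1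
  have h4 : {x | T + a < W44 μ V D x} = {x | W44 μ V D x ≤ T + a}ᶜ := by
    ext x
    simp
  rw [h4, probReal_compl_eq_one_sub (ms_le44 (W_cont44 hμ hc hD) _)] at h2
  have h5 := halv44 hμ hμ1 hV hc hc0 hc1 ha hu J D hD hcard T le_rfl h3 (by linarith)
  rw [sub_self, mul_zero, zero_add] at h5
  have h6 : (a + 2) * (((1 + c) ^ J - 1) / c) ≤ (a + 2) * (1 + c) ^ J / c := by
    rw [← mul_div_assoc]
    refine div_le_div_of_nonneg_right ?_ hc0.le
    exact mul_le_mul_of_nonneg_left (by linarith) (by linarith)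
  linarith

end Halv

end Pool.Agent.W_7d29a1_NR
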