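import Mathlib

/-!
Theorem NR for every law: the halving lemma from the amplification of upper deviations.
-/

set_option autoImplicit false

namespace Pool.Agent.W_7d29a1_NR.HalvU41

open MeasureTheory ProbabilityTheory Filter Topology

variable {Ω : Type*} [MeasurableSpace Ω] {S : Type*}

/-- The logarithm of the sum over a set of classes. -/
noncomputable def WI (u : S → Ω → ℝ) (I : Finset S) (ω : Ω) : ℝ := Real.log (∑ s ∈ I, u s ω)

/-- The amplification of the upper deviations. -/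
def AmpI (μ : Measure Ω) (u : S → Ω → ℝ) (I₀ : Finset S) (q D C : ℝ) : Prop :=
  ∀ I : Finset S, I ⊆ I₀ → I.Nonempty → ∀ M b : ℝ, C * (1 + Real.log (1 / q)) ≤ b →
    q ≤ μ.real {ω | WI u I ω ≤ M} → q ≤ μ.real {ω | M + b ≤ WI u I ω} →
    ∫ ω, Real.log (1 + Real.exp (WI u I ω - M)) ^ 2 ∂μ ≤ (b / q) ^ 2 →
      q ^ C ≤ μ.real {ω | D * b ≤ Real.log (1 + Real.exp (WI u I ω - M))}

/-- A median. -/
lemma median41 (P : Measure Ω) [IsProbabilityMeasure P] {Y : Ω → ℝ} (hY : Measurable Y) :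
    ∃ M : ℝ, 1 / 2 ≤ P.real {ω | Y ω ≤ M} ∧ 1 / 2 ≤ P.real {ω | M ≤ Y ω} := by
  have hP : IsProbabilityMeasure (P.map Y) := Measure.isProbabilityMeasure_map hY.aemeasurable
  have hF : ∀ s, cdf (P.map Y) s = P.real {ω | Y ω ≤ s} := by
    intro s
    rw [cdf_eq_real, map_measureReal_apply hY measurableSet_Iic]
    rfl
  have hmono : Monotone (cdf (P.map Y)) := monotone_cdf _
  obtain ⟨T, hT⟩ : ∃ T : Set ℝ, T = {s | 1 / 2 ≤ cdf (P.map Y) s} := ⟨_, rfl⟩
  have hne : T.Nonempty := by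
    obtain ⟨s, hs⟩ := ((tendsto_cdf_atTop (P.map Y)).eventually
      (lt_mem_nhds (show (1 / 2 : ℝ) < 1 by norm_num))).exists
    exact ⟨s, by rw [hT]; exact hs.le⟩
  obtain ⟨s₀, hs₀⟩ := ((tendsto_cdf_atBot (P.map Y)).eventually
      (gt_mem_nhds (show (0 : ℝ) < 1 / 2 by norm_num))).exists
  have hbd : ∀ s ∈ T, s₀ ≤ s := by
    intro s hs
    rw [hT] at hs
    by_contra hcon
    push Not at hcon
    have h1 := hmono hcon.le
    have h2 : (1 / 2 : ℝ) ≤ cdf (P.map Y) s := hs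
    linarith
  have hbdd : BddBelow T := ⟨s₀, hbd⟩
  have hM : 1 / 2 ≤ cdf (P.map Y) (sInf T) := by
    have h1 : Tendsto (cdf (P.map Y)) (𝓝[>] (sInf T)) (𝓝 (cdf (P.map Y) (sInf T))) :=
      ((cdf (P.map Y)).right_continuous (sInf T)).mono Set.Ioi_subset_Ici_self
    refine ge_of_tendsto h1 ?_
    filter_upwards [self_mem_nhdsWithin] with s hs
    obtain ⟨s', hs', hlt⟩ := (csInf_lt_iff hbdd hne).1 hs
    rw [hT] at hs'
    have h2 : (1 / 2 : ℝ) ≤ cdf (P.map Y) s' := hs'
    exact h2.trans (hmono hlt.le)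
  obtain ⟨m, hm⟩ : ∃ m : ℝ, m = sInf T := ⟨_, rfl⟩
  have hmem : ∀ s, 1 / 2 ≤ cdf (P.map Y) s → m ≤ s := by
    intro s hs
    have h2 : s ∈ T := by
      rw [hT]
      exact hs
    rw [hm]
    exact csInf_le hbdd h2
  rw [← hm] at hM
  refine ⟨m, by rw [← hF]; exact hM, ?_⟩
  -- the event is the decreasing intersection of the events `m - 1 / (n + 1) < Y`
  obtain ⟨G, hG⟩ : ∃ G : ℕ → Set Ω, G = fun n : ℕ => {ω | m - 1 / ((n : ℝ) + 1) < Y ω} :=
    ⟨_, rfl⟩
  have hGm : ∀ n, MeasurableSet (G n) := by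
    intro n
    rw [hG]
    exact measurableSet_lt measurable_const hY
  have hms : ∀ n : ℕ, 1 / 2 ≤ P.real (G n) := by
    intro n
    have hn : (0 : ℝ) < 1 / ((n : ℝ) + 1) := by positivity
    have h1 : P.real {ω | Y ω ≤ m - 1 / ((n : ℝ) + 1)} < 1 / 2 := by
      rw [← hF]
      by_contra hcon
      push Not at hcon
      have h3 := hmem _ hcon
      linarith
    have h2 : (G n)ᶜ = {ω | Y ω ≤ m - 1 / ((n : ℝ) + 1)} := by
      rw [hG]
      ext ω
      simp
    have h3 := probReal_compl_eq_one_sub (μ := P) (hGm n)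
    rw [h2] at h3
    linarith
  have hinter : {ω | m ≤ Y ω} = ⋂ n : ℕ, G n := by
    rw [hG]
    ext ω
    constructor
    · intro h
      refine Set.mem_iInter.2 fun n => ?_
      have hn : (0 : ℝ) < 1 / ((n : ℝ) + 1) := by positivity
      have h' : m ≤ Y ω := h
      show m - 1 / ((n : ℝ) + 1) < Y ω
      linarith
    · intro h
      by_contra hcon
      have hcon' : Y ω < m := not_le.1 hcon
      obtain ⟨n, hn⟩ := exists_nat_one_div_lt (sub_pos.2 hcon')
      have h1 : m - 1 / ((n : ℝ) + 1) < Y ω := Set.mem_iInter.1 h n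
      linarith
  have hanti : Antitone G := by
    rw [hG]
    intro k n hkn ω h
    have h' : m - 1 / ((n : ℝ) + 1) < Y ω := h
    have h1 : 1 / ((n : ℝ) + 1) ≤ 1 / ((k : ℝ) + 1) := by
      have : (k : ℝ) ≤ n := by exact_mod_cast hkn
      exact one_div_le_one_div_of_le (by positivity) (by linarith)
    show m - 1 / ((k : ℝ) + 1) < Y ω
    linarith
  have ht := tendsto_measure_iInter_atTop (μ := P) (fun n => (hGm n).nullMeasurableSet)
    hanti ⟨0, measure_ne_top _ _⟩
  have ht2 : Tendsto (fun n : ℕ => P.real (G n)) atTop (𝓝 (P.real {ω | m ≤ Y ω})) := by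
    rw [hinter]
    exact (ENNReal.tendsto_toReal (measure_ne_top _ _)).comp ht
  exact ge_of_tendsto ht2 (Eventually.of_forall hms)

lemma log_le41 (x : ℝ) : Real.log (1 + Real.exp x) ≤ Real.log 2 + max x 0 := by
  have h1 : (1 : ℝ) + Real.exp x ≤ 2 * Real.exp (max x 0) := by
    have h2 : (1 : ℝ) ≤ Real.exp (max x 0) := Real.one_le_exp (le_max_right _ _)
    have h3 : Real.exp x ≤ Real.exp (max x 0) := Real.exp_le_exp.2 (le_max_left _ _)
    linarith
  have h4 := Real.log_le_log (by positivity) h1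
  rwa [Real.log_mul (by norm_num) (Real.exp_pos _).ne', Real.log_exp] at h4

omit [MeasurableSpace Ω] in
lemma WI_mono {u : S → Ω → ℝ} (hpos : ∀ s ω, 0 < u s ω) {I I' : Finset S} (hI : I ⊆ I')
    (hne : I.Nonempty) (ω : Ω) : WI u I ω ≤ WI u I' ω := by
  unfold WI
  refine Real.log_le_log (Finset.sum_pos (fun s _ => hpos s ω) hne) ?_
  exact Finset.sum_le_sum_of_subset_of_nonneg hI fun s _ _ => (hpos s ω).le

lemma WI_meas {u : S → Ω → ℝ} (hu : ∀ s, Measurable (u s)) (I : Finset S) :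
    Measurable (WI u I) :=
  (Finset.measurable_sum _ fun s _ => hu s).log

/-- One halving: the claim `b ≤ c (s + a + 1) + C₁`. -/
lemma claim41 (μ : Measure Ω) [IsProbabilityMeasure μ] {u : S → Ω → ℝ}
    (hpos : ∀ s ω, 0 < u s ω) {I₀ I : Finset S} (hI : I ⊆ I₀)
    (hne : I.Nonempty) {c C : ℝ} (hc : 0 < c) (hc1 : c ≤ 1) (hC : 1 ≤ C)
    (hA : AmpI μ u I₀ (c / 5) (1 + 3 / c) C) {T a B δ t M : ℝ} (hB : 0 ≤ B)
    (hT : T = δ - 2 * B) (ha : 2 * B ≤ a) (ht : t ≤ T)
    (hint : Integrable (fun ω => (WI u I₀ ω - δ) ^ 2) μ)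
    (hvar : ∫ ω, (WI u I₀ ω - δ) ^ 2 ∂μ ≤ B ^ 2)
    (h2 : μ.real {ω | T + a < WI u I₀ ω} < (c / 5) ^ C)
    (hM : 1 / 2 ≤ μ.real {ω | WI u I ω ≤ M}) (h4 : 1 / 4 ≤ μ.real {ω | t - 1 ≤ WI u I ω}) :
    t - 1 - M ≤ c * (T - t + a + 1) + C * (1 + Real.log (5 / c)) := by
  by_contra hcon
  push Not at hcon
  set b := t - 1 - M with hb
  have hlog : 0 ≤ Real.log (5 / c) := Real.log_nonneg (by rw [le_div_iff₀ hc]; linarith)
  have hC1 : 0 ≤ C * (1 + Real.log (5 / c)) := by nlinarith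
  have hs : 0 ≤ T - t := by linarith
  have hbc : c * (T - t + a + 1) < b := by linarith
  have hb0 : 0 < b := lt_of_le_of_lt (mul_nonneg hc.le (by linarith)) hbc
  have hbc' : T - t + a + 1 < b / c := by rw [lt_div_iff₀ hc]; linarith
  have hl2 : 0 ≤ Real.log 2 := Real.log_nonneg (by norm_num)
  have hl2' : Real.log 2 < 0.7 := by
    have := Real.log_two_lt_d9
    linarith
  have e1 : Real.log (1 / (c / 5)) = Real.log (5 / c) := by
    congr 1
    field_simp
  have hq : c / 5 ≤ 1 / 4 := by linarith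
  -- the second moment
  have hV : ∀ ω, Real.log (1 + Real.exp (WI u I ω - M)) ≤ 1 + |WI u I₀ ω - δ| + 2 * (b / c) := by
    intro ω
    have h5 := log_le41 (WI u I ω - M)
    have h6 := WI_mono hpos hI hne ω
    have h7 : max (WI u I ω - M) 0 ≤ |WI u I₀ ω - δ| + 2 * (b / c) := by
      have h8 := le_abs_self (WI u I₀ ω - δ)
      have h9 := abs_nonneg (WI u I₀ ω - δ)
      have h10 : b ≤ b / c := by
        rw [le_div_iff₀ hc]
        nlinarith
      refine max_le ?_ (by linarith)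
      have h11 : δ - M = (T - t) + 2 * B + 1 + b := by rw [hT, hb]; ring
      linarith
    linarith
  have hV0 : ∀ ω, 0 ≤ Real.log (1 + Real.exp (WI u I ω - M)) := fun ω =>
    Real.log_nonneg (by have := Real.exp_pos (WI u I ω - M); linarith)
  have hbc0 : 0 ≤ b / c := by positivity
  have h12 : ∫ ω, Real.log (1 + Real.exp (WI u I ω - M)) ^ 2 ∂μ ≤
      ∫ ω, (3 * (1 + 4 * (b / c) ^ 2) + 3 * (WI u I₀ ω - δ) ^ 2) ∂μ := by
    refine integral_mono_of_nonneg (Eventually.of_forall fun ω => sq_nonneg _)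
      ((integrable_const _).add (hint.const_mul 3)) (Eventually.of_forall fun ω => ?_)
    have h13 := pow_le_pow_left₀ (hV0 ω) (hV ω) 2
    have h14 := sq_abs (WI u I₀ ω - δ)
    simp only
    rw [← h14]
    nlinarith [sq_nonneg (1 - |WI u I₀ ω - δ|), sq_nonneg (1 - 2 * (b / c)),
      sq_nonneg (|WI u I₀ ω - δ| - 2 * (b / c))]
  rw [integral_add (integrable_const _) (hint.const_mul 3), integral_const, probReal_univ,
    one_smul, integral_const_mul] at h12
  have h15 : ∫ ω, Real.log (1 + Real.exp (WI u I ω - M)) ^ 2 ∂μ ≤ (b / (c / 5)) ^ 2 := by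
    have e2 : b / (c / 5) = 5 * (b / c) := by field_simp
    rw [e2]
    have h16 : B ≤ b / c := by linarith
    have h17 : (1 : ℝ) ≤ b / c := by linarith
    nlinarith
  have h18 := hA I hI hne M b (by rw [e1]; nlinarith) (by linarith)
    (by
      have e3 : M + b = t - 1 := by rw [hb]; ring
      rw [e3]
      linarith) h15
  -- the contradiction
  have h19 : μ.real {ω | (1 + 3 / c) * b ≤ Real.log (1 + Real.exp (WI u I ω - M))} ≤
      μ.real {ω | T + a < WI u I₀ ω} := by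
    refine measureReal_mono fun ω (hω : (1 + 3 / c) * b ≤
      Real.log (1 + Real.exp (WI u I ω - M))) => ?_
    show T + a < WI u I₀ ω
    have h20 := log_le41 (WI u I ω - M)
    have h21 := WI_mono hpos hI hne ω
    have e4 : (1 + 3 / c) * b = b + 3 * (b / c) := by field_simp
    rw [e4] at hω
    have h22 : b + 3 * (b / c) - 0.7 < max (WI u I ω - M) 0 := by linarith
    have h23 : max (WI u I ω - M) 0 = WI u I ω - M := by
      rcases le_total (WI u I ω - M) 0 with h | h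
      · rw [max_eq_right h] at h22
        linarith
      · exact max_eq_left h
    rw [h23] at h22
    have h24 : M + b = t - 1 := by rw [hb]; ring
    linarith
  linarith

/-- The chain of the halvings. -/
lemma chain41 (μ : Measure Ω) [IsProbabilityMeasure μ] {u : S → Ω → ℝ}
    (hu : ∀ s, Measurable (u s)) (hpos : ∀ s ω, 0 < u s ω) {I₀ : Finset S}
    {c C : ℝ} (hc : 0 < c) (hc1 : c ≤ 1) (hC : 1 ≤ C)
    (hA : AmpI μ u I₀ (c / 5) (1 + 3 / c) C) {T a B δ u₀ : ℝ} (hB : 0 ≤ B)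
    (hT : T = δ - 2 * B) (ha : 2 * B ≤ a)
    (hint : Integrable (fun ω => (WI u I₀ ω - δ) ^ 2) μ)
    (hvar : ∫ ω, (WI u I₀ ω - δ) ^ 2 ∂μ ≤ B ^ 2)
    (h2 : μ.real {ω | T + a < WI u I₀ ω} < (c / 5) ^ C)
    (h3 : ∀ s ∈ I₀, ∀ v, u₀ < v → μ.real {ω | v ≤ Real.log (u s ω)} < 1 / 2) (J : ℕ) :
    ∀ (I : Finset S), I ⊆ I₀ → I.Nonempty → I.card ≤ 2 ^ J → ∀ t : ℝ, t ≤ T →
      1 / 2 ≤ μ.real {ω | t ≤ WI u I ω} →
      T - u₀ + (a + 2 + C * (1 + Real.log (5 / c))) / c ≤
        (1 + c) ^ J * (T - t + (a + 2 + C * (1 + Real.log (5 / c))) / c) := by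
  classical
  have hlog : 0 ≤ Real.log (5 / c) := Real.log_nonneg (by rw [le_div_iff₀ hc]; linarith)
  set C₁ := C * (1 + Real.log (5 / c)) with hC₁
  have hC1 : 0 ≤ C₁ := by rw [hC₁]; nlinarith
  set K := (a + 2 + C₁) / c with hK
  have hK0 : 0 ≤ K := by
    rw [hK]
    have : 0 ≤ a + 2 + C₁ := by linarith
    positivity
  have hcK : c * K = a + 2 + C₁ := by rw [hK]; field_simp
  induction J with
  | zero =>
    intro I hI hne hcard t ht h1
    have h4 : I.card = 1 := le_antisymm (by simpa using hcard) hne.card_pos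
    obtain ⟨s, rfl⟩ := Finset.card_eq_one.1 h4
    have h5 : WI u {s} = fun ω => Real.log (u s ω) := by
      funext ω
      unfold WI
      rw [Finset.sum_singleton]
    rw [h5] at h1
    have h6 : t ≤ u₀ := by
      by_contra hcon
      push Not at hcon
      have := h3 s (hI (Finset.mem_singleton_self s)) t hcon
      linarith
    rw [pow_zero, one_mul]
    linarith
  | succ J ih =>
    intro I hI hne hcard t ht h1
    have hs : 0 ≤ T - t := by linarith
    have hp0 : 0 < (1 + c) ^ J := by positivity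
    by_cases hsmall : I.card ≤ 2 ^ J
    · have h4 := ih I hI hne hsmall t ht h1
      have h5 : (1 + c) ^ J * (T - t + K) ≤ (1 + c) ^ (J + 1) * (T - t + K) := by
        refine mul_le_mul_of_nonneg_right ?_ (by linarith)
        exact pow_le_pow_right₀ (by linarith) (Nat.le_succ J)
      exact h4.trans h5
    · push Not at hsmall
      obtain ⟨I', hI', hc'⟩ := Finset.exists_subset_card_eq hsmall.le
      have hne' : I'.Nonempty := by
        rw [← Finset.card_pos, hc']
        positivity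
      set I'' := I \ I' with hI''
      have hc'' : I''.card ≤ 2 ^ J := by
        rw [hI'', Finset.card_sdiff_of_subset hI', hc']
        have : 2 ^ (J + 1) = 2 ^ J + 2 ^ J := by ring
        omega
      have hne'' : I''.Nonempty := by
        rw [← Finset.card_pos, hI'', Finset.card_sdiff_of_subset hI', hc']
        omega
      have hsub'' : I'' ⊆ I := Finset.sdiff_subset
      -- one of the halves
      have hsplit : {ω | t ≤ WI u I ω} ⊆ {ω | t - 1 ≤ WI u I' ω} ∪ {ω | t - 1 ≤ WI u I'' ω} := by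
        intro ω hω
        have hω' : t ≤ WI u I ω := hω
        by_contra hcon
        rw [Set.mem_union, not_or] at hcon
        have g1 : WI u I' ω < t - 1 := not_le.1 hcon.1
        have g2 : WI u I'' ω < t - 1 := not_le.1 hcon.2
        have p1 : 0 < ∑ s ∈ I', u s ω := Finset.sum_pos (fun s _ => hpos s ω) hne'
        have p2 : 0 < ∑ s ∈ I'', u s ω := Finset.sum_pos (fun s _ => hpos s ω) hne''
        have g3 : ∑ s ∈ I', u s ω < Real.exp (t - 1) := (Real.log_lt_iff_lt_exp p1).1 g1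
        have g4 : ∑ s ∈ I'', u s ω < Real.exp (t - 1) := (Real.log_lt_iff_lt_exp p2).1 g2
        have g5 : ∑ s ∈ I, u s ω = ∑ s ∈ I'', u s ω + ∑ s ∈ I', u s ω := by
          rw [hI'', Finset.sum_sdiff hI']
        have p3 : 0 < ∑ s ∈ I, u s ω := Finset.sum_pos (fun s _ => hpos s ω) hne
        have g6 : Real.exp t ≤ ∑ s ∈ I, u s ω := (Real.le_log_iff_exp_le p3).1 hω'
        have g7 : Real.exp t = Real.exp (t - 1) * Real.exp 1 := by
          rw [← Real.exp_add]
          congr 1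
          ring
        have g8 : (2 : ℝ) ≤ Real.exp 1 := by
          have := Real.add_one_le_exp (1 : ℝ)
          linarith
        have g9 := Real.exp_pos (t - 1)
        nlinarith
      have hone : ∃ I₁ : Finset S, I₁ ⊆ I ∧ I₁.Nonempty ∧ I₁.card ≤ 2 ^ J ∧
          1 / 4 ≤ μ.real {ω | t - 1 ≤ WI u I₁ ω} := by
        by_contra hcon
        push Not at hcon
        have k1 := hcon I' hI' hne' hc'.le
        have k2 := hcon I'' hsub'' hne'' hc''
        have k3 := (measureReal_mono hsplit).trans (measureReal_union_le (μ := μ) _ _)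
        linarith
      obtain ⟨I₁, hI₁, hne₁, hc₁, h4⟩ := hone
      obtain ⟨M, hM1, hM2⟩ := median41 μ (WI_meas hu I₁)
      have hcl := claim41 μ hpos (hI₁.trans hI) hne₁ hc hc1 hC hA hB hT ha ht hint hvar h2 hM1 h4
      rw [← hC₁] at hcl
      have h5 : 1 / 2 ≤ μ.real {ω | min M T ≤ WI u I₁ ω} := by
        refine hM2.trans (measureReal_mono fun ω (hω : M ≤ WI u I₁ ω) => ?_)
        exact (min_le_left M T).trans hω
      have h6 := ih I₁ (hI₁.trans hI) hne₁ hc₁ (min M T) (min_le_right _ _) h5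
      have h7 : T - min M T + K ≤ (1 + c) * (T - t + K) := by
        rcases le_total M T with h | h
        · rw [min_eq_left h]
          have h8 : c * (a + 1) ≤ a + 1 := by nlinarith
          have h9 : (1 + c) * (T - t + K) = (T - t) + c * (T - t) + K + c * K := by ring
          rw [h9, hcK]
          have h10 : c * (T - t + a + 1) = c * (T - t) + c * (a + 1) := by ring
          rw [h10] at hcl
          linarith
        · rw [min_eq_right h]
          nlinarith
      calc T - u₀ + K ≤ (1 + c) ^ J * (T - min M T + K) := h6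
        _ ≤ (1 + c) ^ J * ((1 + c) * (T - t + K)) := mul_le_mul_of_nonneg_left h7 hp0.le
        _ = (1 + c) ^ (J + 1) * (T - t + K) := by ring

/-- The halving lemma: the numbers. -/
theorem halv41 (μ : Measure Ω) [IsProbabilityMeasure μ] {u : S → Ω → ℝ}
    (hu : ∀ s, Measurable (u s)) (hpos : ∀ s ω, 0 < u s ω) {I₀ : Finset S} (hne : I₀.Nonempty)
    {c C : ℝ} (hc : 0 < c) (hc1 : c ≤ 1) (hC : 1 ≤ C)
    (hA : AmpI μ u I₀ (c / 5) (1 + 3 / c) C) {B δ Fm : ℝ} (hB : 0 ≤ B) (hFm : 0 ≤ Fm)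
    (hint : Integrable (fun ω => (WI u I₀ ω - δ) ^ 2) μ)
    (hvar : ∫ ω, (WI u I₀ ω - δ) ^ 2 ∂μ ≤ B ^ 2)
    (h3 : ∀ s ∈ I₀, ∀ v, 2 * Fm < v → μ.real {ω | v ≤ Real.log (u s ω)} < 1 / 2)
    {J : ℕ} (hJ : I₀.card ≤ 2 ^ J) :
    δ ≤ (1 + c) ^ J * ((B + Fm + 1) * (8 + C * (1 + Real.log (5 / c)) + 4 / (c / 5) ^ C) / c) := by
  have hlog : 0 ≤ Real.log (5 / c) := Real.log_nonneg (by rw [le_div_iff₀ hc]; linarith)
  set C₁ := C * (1 + Real.log (5 / c)) with hC₁
  have hC1 : 0 ≤ C₁ := by rw [hC₁]; nlinarith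
  set κ := (c / 5) ^ C with hκ
  have hκ0 : 0 < κ := Real.rpow_pos_of_pos (by positivity) _
  have hκ1 : κ ≤ 1 := Real.rpow_le_one (by positivity) (by linarith) (by linarith)
  set a := 2 * B + 2 * (B + 1) / κ with ha
  have ha0 : 0 < 2 * (B + 1) / κ := by positivity
  -- Markov
  have hmark : ∀ v : ℝ, 0 < v → μ.real {ω | v ≤ |WI u I₀ ω - δ|} ≤ B ^ 2 / v ^ 2 := by
    intro v hv
    have k1 := mul_meas_ge_le_integral_of_nonneg (μ := μ)
      (f := fun ω => (WI u I₀ ω - δ) ^ 2) (Eventually.of_forall fun ω => sq_nonneg _) hint (v ^ 2)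
    have k2 : μ.real {ω | v ≤ |WI u I₀ ω - δ|} ≤
        μ.real {ω | v ^ 2 ≤ (WI u I₀ ω - δ) ^ 2} := by
      refine measureReal_mono fun ω (hω : v ≤ |WI u I₀ ω - δ|) => ?_
      show v ^ 2 ≤ (WI u I₀ ω - δ) ^ 2
      rw [← sq_abs (WI u I₀ ω - δ)]
      exact pow_le_pow_left₀ hv.le hω 2
    rw [le_div_iff₀ (by positivity), mul_comm]
    exact (mul_le_mul_of_nonneg_left k2 (by positivity)).trans (k1.trans hvar)
  have h2 : μ.real {ω | (δ - 2 * B) + a < WI u I₀ ω} < κ := by
    have k1 : μ.real {ω | (δ - 2 * B) + a < WI u I₀ ω} ≤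
        μ.real {ω | 2 * (B + 1) / κ ≤ |WI u I₀ ω - δ|} := by
      refine measureReal_mono fun ω (hω : (δ - 2 * B) + a < WI u I₀ ω) => ?_
      show 2 * (B + 1) / κ ≤ |WI u I₀ ω - δ|
      have := le_abs_self (WI u I₀ ω - δ)
      linarith
    refine lt_of_le_of_lt (k1.trans (hmark _ ha0)) ?_
    rw [div_lt_iff₀ (by positivity), div_pow]
    have k2 : κ * ((2 * (B + 1)) ^ 2 / κ ^ 2) = (2 * (B + 1)) ^ 2 / κ := by
      field_simp
    rw [k2, lt_div_iff₀ hκ0]
    nlinarith
  have h1 : 1 / 2 ≤ μ.real {ω | (δ - 2 * B) ≤ WI u I₀ ω} := by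
    rcases hB.eq_or_lt with h0 | h0
    · -- `B = 0`
      rw [← h0, mul_zero, sub_zero]
      have k1 : ∫ ω, (WI u I₀ ω - δ) ^ 2 ∂μ = 0 := by
        refine le_antisymm ?_ (integral_nonneg fun ω => sq_nonneg _)
        rw [← h0] at hvar
        simpa using hvar
      have k2 := (integral_eq_zero_iff_of_nonneg (fun ω => sq_nonneg _) hint).1 k1
      have k3 : ∀ᵐ ω ∂μ, ω ∈ {ω | δ ≤ WI u I₀ ω} := by
        filter_upwards [k2] with ω hω
        have k4 : (WI u I₀ ω - δ) ^ 2 = 0 := hω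
        have k5 : WI u I₀ ω - δ = 0 := by simpa using k4
        show δ ≤ WI u I₀ ω
        linarith
      have k6 : μ.real {ω | δ ≤ WI u I₀ ω} = 1 := by
        have k7 : μ {ω | δ ≤ WI u I₀ ω} = 1 :=
          (mem_ae_iff_prob_eq_one (measurableSet_le measurable_const (WI_meas hu I₀))).1 k3
        rw [measureReal_def, k7, ENNReal.toReal_one]
      rw [k6]
      norm_num
    · have k1 := hmark (2 * B) (by linarith)
      have k2 : B ^ 2 / (2 * B) ^ 2 = 1 / 4 := by
        field_simp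
        norm_num
      rw [k2] at k1
      have k3 : {ω | (δ - 2 * B) ≤ WI u I₀ ω}ᶜ ⊆ {ω | 2 * B ≤ |WI u I₀ ω - δ|} := by
        intro ω hω
        have k4 : WI u I₀ ω < δ - 2 * B := not_le.1 hω
        show 2 * B ≤ |WI u I₀ ω - δ|
        have := neg_le_abs (WI u I₀ ω - δ)
        linarith
      have k4 := (measureReal_mono k3).trans k1
      have k5 := probReal_compl_eq_one_sub (μ := μ)
        (measurableSet_le (measurable_const (a := δ - 2 * B)) (WI_meas hu I₀))
      rw [k5] at k4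
      linarith
  have hch := chain41 μ hu hpos hc hc1 hC hA hB (T := δ - 2 * B) (a := a) (δ := δ) rfl
    (by linarith) hint hvar h2 h3 J I₀ Finset.Subset.rfl hne hJ (δ - 2 * B) le_rfl h1
  rw [sub_self, zero_add, ← hC₁] at hch
  have hp1 : 1 ≤ (1 + c) ^ J := one_le_pow₀ (by linarith)
  have hK0 : 0 ≤ (a + 2 + C₁) / c := by
    have : 0 ≤ a + 2 + C₁ := by linarith
    positivity
  have hBF : 1 ≤ B + Fm + 1 := by linarith
  -- the sum
  have h10 : (a + 2 + C₁) ≤ (B + Fm + 1) * (4 + C₁ + 4 / κ) := by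
    have k1 : 2 * (B + 1) / κ ≤ (B + Fm + 1) * (4 / κ) := by
      rw [mul_div_assoc']
      exact div_le_div_of_nonneg_right (by nlinarith) hκ0.le
    nlinarith
  have h11 : (a + 2 + C₁) / c ≤ (B + Fm + 1) * (4 + C₁ + 4 / κ) / c :=
    div_le_div_of_nonneg_right h10 hc.le
  have h12 : 2 * B + 2 * Fm ≤ (B + Fm + 1) * 4 / c := by
    rw [le_div_iff₀ hc]
    nlinarith
  have h13 : (B + Fm + 1) * (8 + C₁ + 4 / κ) / c =
      (B + Fm + 1) * (4 + C₁ + 4 / κ) / c + (B + Fm + 1) * 4 / c := by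
    rw [← add_div]
    ring_nf
  rw [h13]
  have h14 : 0 ≤ (B + Fm + 1) * 4 / c := by positivity
  have h15 := mul_le_mul_of_nonneg_left h11 (zero_le_one.trans hp1)
  have h16 : (B + Fm + 1) * 4 / c ≤ (1 + c) ^ J * ((B + Fm + 1) * 4 / c) :=
    le_mul_of_one_le_left h14 hp1
  rw [mul_add]
  linarith

end Pool.Agent.W_7d29a1_NR.HalvU41
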