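import Pool.Agent.W_7d29a1_NR.Halv44

/-!
The halving lemma with the sharp dependence on `c` (for KZ, helper70), any `c > 0` (helper44).
-/

set_option autoImplicit false

namespace Pool.Agent.W_7d29a1_NR

open MeasureTheory ProbabilityTheory Filter Topology Set Ehr

section HalvZ

variable {ι S : Type*} [Fintype ι] {μ : S → ℝ} {V : S → (ι → ℝ) → ℝ} {D : Finset S}

/-- One halving. -/
lemma stepZ44 (hμ : ∀ y, 0 < μ y) (hV : ∀ y, ConvexOn ℝ univ (V y)) (hc : ∀ y, Continuous (V y))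
    {c a T t : ℝ} (hc0 : 0 < c) (ha : 0 ≤ a) (htT : t ≤ T) (hD : D.Nonempty)
    (h3 : (gpi ι).real {x | W44 μ V D x ≤ t - 1} ≤ 3 / 4)
    (h2 : 1 - Phi (-(1 + 1 / c)) < (gpi ι).real {x | W44 μ V D x ≤ T + a}) :
    ∃ t', t' ≤ T ∧ (∀ s, s < t' → (gpi ι).real {x | W44 μ V D x ≤ s} ≤ 1 / 2) ∧
      T - t' ≤ (1 + c) * (T - t) + (1 + c * (a + 1)) := by
  have hcont := W_cont44 hμ hc hD
  obtain ⟨M, hM1, hM2⟩ := med44 hcont
  have hs0 : 0 ≤ T - t := by linarith
  rcases le_or_gt (t - 1) M with h | h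
  · refine ⟨min M t, (min_le_right _ _).trans htT, fun s hs => hM2 s (hs.trans_le (min_le_left _ _)),
      ?_⟩
    have h4 : t - 1 ≤ min M t := le_min h (by linarith)
    have h5 : 0 ≤ c * (T - t) := mul_nonneg hc0.le hs0
    have h6 : 0 ≤ c * (a + 1) := mul_nonneg hc0.le (by linarith)
    linarith
  · refine ⟨M, by linarith, hM2, ?_⟩
    have hb : 0 < t - 1 - M := by linarith
    by_contra hcon
    push Not at hcon
    set τ := (T + a - (t - 1)) / (t - 1 - M) with hτ
    have hτ0 : 0 ≤ τ := div_nonneg (by linarith) hb.le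
    have hτb : τ * (t - 1 - M) = T + a - (t - 1) := div_mul_cancel₀ _ hb.ne'
    have h4 := luck (W_conv44 hμ hV hD) hcont (a := 0) (b := 1) (s0 := M) (s1 := t - 1) hτ0
      (by rw [Phi_zero44]; exact hM1) (h3.trans Phi_one44)
    rw [hτb, sub_zero, mul_one] at h4
    have e1 : t - 1 + (T + a - (t - 1)) = T + a := by ring
    rw [e1] at h4
    have h5 := lt_of_lt_of_le h2 h4
    have h6 := Pool.Agent.W_7d29a1_SP.A84.Phi_add (1 + 1 / c)
    have h7 : Phi (1 + 1 / c) < Phi (1 + τ) := by linarith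
    have h8 : 1 + 1 / c < 1 + τ := Phi_strictMono.lt_iff_lt.1 h7
    have h9 : 1 / c < τ := by linarith
    have h10 : t - 1 - M < c * (T + a - (t - 1)) := by
      rw [hτ, div_lt_div_iff₀ hc0 hb] at h9
      linarith
    nlinarith

open Classical in
/-- The halving lemma. -/
theorem halvA44 (hμ : ∀ y, 0 < μ y) (hμ1 : ∀ y, μ y ≤ 1) (hV : ∀ y, ConvexOn ℝ univ (V y))
    (hc : ∀ y, Continuous (V y)) {c a T u₀ : ℝ} (hc0 : 0 < c) (ha : 0 ≤ a)
    (hu : ∀ y, ∀ u, u₀ < u → (gpi ι).real {x | u < V y x} < 1 / 2) (J : ℕ) :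
    ∀ D : Finset S, D.Nonempty → D.card ≤ 2 ^ J → ∀ t, t ≤ T →
      (∀ s, s < t → (gpi ι).real {x | W44 μ V D x ≤ s} ≤ 1 / 2) →
      1 - Phi (-(1 + 1 / c)) < (gpi ι).real {x | W44 μ V D x ≤ T + a} →
      T - u₀ ≤ (1 + c) ^ J * (T - t) + (a + 1 + 1 / c) * ((1 + c) ^ J - 1) := by
  induction J with
  | zero =>
    intro D hD hcard t htT h1 _
    have e0 : (1 + c) ^ 0 * (T - t) + (a + 1 + 1 / c) * ((1 + c) ^ 0 - 1) = T - t := by simp
    rw [e0]
    have hcard1 : D.card ≤ 1 := by simpa using hcard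
    by_contra hcon
    push Not at hcon
    have hlt : u₀ < t := by linarith
    obtain ⟨y, hy⟩ := Finset.card_eq_one.1 (le_antisymm hcard1 hD.card_pos)
    obtain ⟨u, hu1, hu2⟩ := exists_between hlt
    have h2 := h1 u hu2
    have h3 := hu y u hu1
    have h4 : {x | V y x ≤ u} ⊆ {x | W44 μ V D x ≤ u} := by
      intro x hx
      have hx' : V y x ≤ u := hx
      show W44 μ V D x ≤ u
      unfold W44
      rw [hy, Finset.sum_singleton, Real.log_mul (hμ y).ne' (Real.exp_pos _).ne', Real.log_exp]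
      have := Real.log_nonpos (hμ y).le (hμ1 y)
      linarith
    have h5 : (gpi ι).real {x | V y x ≤ u} ≤ 1 / 2 := (measureReal_mono h4).trans h2
    have h6 : {x | u < V y x} = {x | V y x ≤ u}ᶜ := by
      ext x
      simp
    rw [h6, probReal_compl_eq_one_sub (ms_le44 (hc y) u)] at h3
    linarith
  | succ J ih =>
    intro D hD hcard t htT h1 h2
    have hpow : 1 ≤ (1 + c) ^ J := one_le_pow₀ (by linarith)
    have hstep : (1 + c) ^ (J + 1) * (T - t) + (a + 1 + 1 / c) * ((1 + c) ^ (J + 1) - 1) =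
        (1 + c) ^ J * ((1 + c) * (T - t) + (1 + c * (a + 1))) +
          (a + 1 + 1 / c) * ((1 + c) ^ J - 1) := by
      field_simp
      ring
    rw [hstep]
    obtain ⟨D₁, hD₁, hc₁, hsub, h3⟩ : ∃ D₁ : Finset S, D₁.Nonempty ∧ D₁.card ≤ 2 ^ J ∧ D₁ ⊆ D ∧
        (gpi ι).real {x | W44 μ V D₁ x ≤ t - 1} ≤ 3 / 4 := by
      rcases le_or_gt D.card (2 ^ J) with hle | hlt
      · exact ⟨D, hD, hle, Finset.Subset.refl _, (h1 (t - 1) (by linarith)).trans (by norm_num)⟩
      · obtain ⟨D', hD's, hD'c⟩ := Finset.exists_subset_card_eq hlt.le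
        set D'' := D \ D' with hD''
        have hD'n : D'.Nonempty := Finset.card_pos.1 (by rw [hD'c]; positivity)
        have hcc := Finset.card_sdiff_add_card_eq_card hD's
        have hp : (2 : ℕ) ^ (J + 1) = 2 ^ J + 2 ^ J := by ring
        have hD''n : D''.Nonempty := Finset.card_pos.1 (by
          rw [hD'']
          omega)
        have hD''c : D''.card ≤ 2 ^ J := by
          rw [hD'']
          omega
        have hun : D' ∪ D'' = D := Finset.union_sdiff_of_subset hD's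
        by_contra hcon
        push Not at hcon
        have g1 := hcon D' hD'n hD'c.le hD's
        have g2 := hcon D'' hD''n hD''c Finset.sdiff_subset
        have hl2 : Real.log 2 < 1 := by
          have := Real.log_two_lt_d9
          norm_num at this ⊢
          linarith
        have g3 := h1 (t - 1 + Real.log 2) (by linarith)
        have hsub : {x | W44 μ V D' x ≤ t - 1} ∩ {x | W44 μ V D'' x ≤ t - 1} ⊆
            {x | W44 μ V D x ≤ t - 1 + Real.log 2} := by
          intro x hx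
          have hx1 : W44 μ V D' x ≤ t - 1 := hx.1
          have hx2 : W44 μ V D'' x ≤ t - 1 := hx.2
          have h := W_union44 (V := V) hμ hD'n hD''n Finset.disjoint_sdiff x
          rw [hun] at h
          exact h.trans (add_le_add (max_le hx1 hx2) le_rfl)
        have g4 := (measureReal_mono hsub).trans g3
        have m2 := ms_le44 (W_cont44 (V := V) hμ hc hD''n) (t - 1)
        have g5 := measureReal_union_add_inter (μ := gpi ι) (s := {x | W44 μ V D' x ≤ t - 1}) m2
        have g6 : (gpi ι).real ({x | W44 μ V D' x ≤ t - 1} ∪ {x | W44 μ V D'' x ≤ t - 1}) ≤ 1 :=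
          measureReal_le_one
        linarith
    have h2' : 1 - Phi (-(1 + 1 / c)) < (gpi ι).real {x | W44 μ V D₁ x ≤ T + a} := by
      refine lt_of_lt_of_le h2 (measureReal_mono fun x hx => ?_)
      exact (W_mono44 hμ hD₁ hsub x).trans hx
    obtain ⟨t', ht'T, h4, h5⟩ := stepZ44 hμ hV hc hc0 ha htT hD₁ h3 h2'
    have h6 := ih D₁ hD₁ hc₁ t' ht'T h4 h2'
    have h7 := mul_le_mul_of_nonneg_left h5 (by linarith : 0 ≤ (1 + c) ^ J)
    linarith

/-- **The halving lemma, the form asked for KZ.** -/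
theorem halvZ44 (hμ : ∀ y, 0 < μ y) (hμ1 : ∀ y, μ y ≤ 1) (hV : ∀ y, ConvexOn ℝ univ (V y))
    (hc : ∀ y, Continuous (V y)) {c a t u : ℝ} (hc0 : 0 < c) (ha : 0 ≤ a)
    (hu : ∀ y, (gpi ι).real {x | u < V y x} < 1 / 2) {J : ℕ} (hD : D.Nonempty)
    (hcard : D.card ≤ 2 ^ J) (h1 : (gpi ι).real {x | W44 μ V D x < t - a} ≤ 1 / 2)
    (h2 : (gpi ι).real {x | t + a < W44 μ V D x} < Phi (-(1 + 1 / c))) :
    t ≤ u + (1 + c) ^ J * (2 * a + 1 + 1 / c) := by
  have h3 : ∀ s, s < t - a → (gpi ι).real {x | W44 μ V D x ≤ s} ≤ 1 / 2 := fun s hs =>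
    (measureReal_mono fun x hx => lt_of_le_of_lt hx hs).trans h1
  have h4 : {x | t + a < W44 μ V D x} = {x | W44 μ V D x ≤ t - a + 2 * a}ᶜ := by
    ext x
    simp only [mem_setOf_eq, mem_compl_iff, not_le]
    rw [show t - a + 2 * a = t + a by ring]
  rw [h4, probReal_compl_eq_one_sub (ms_le44 (W_cont44 hμ hc hD) _)] at h2
  have hu' : ∀ y, ∀ v, u < v → (gpi ι).real {x | v < V y x} < 1 / 2 := fun y v hv =>
    lt_of_le_of_lt (measureReal_mono fun x hx => lt_trans hv hx) (hu y)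
  have h5 := halvA44 hμ hμ1 hV hc hc0 (by linarith : 0 ≤ 2 * a) hu' J D hD hcard (t - a) le_rfl h3
    (by linarith)
  have h6 : 0 < 1 / c := by positivity
  rw [sub_self, mul_zero, zero_add] at h5
  linarith

end HalvZ

end Pool.Agent.W_7d29a1_NR
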