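import Pool.Agent.W_7d29a1_NR.Cell
import Pool.Agent.W_7d29a1_h48.Ins
import Pool.Agent.W_7d29a1_SR.ExitS

/-!
The lower tail of `log Z_n` from below (MP_7d29a1_pr): unlucky rows, one after the other. (helper87)
-/

namespace Pool.Agent.W_7d29a1_NR

open MeasureTheory ProbabilityTheory Filter Topology
open Pool.Agent.W_7d29a1_F Pool.Agent.W_7d29a1_h4g Pool.Agent.W_7d29a1_G Pool.Agent.W_7d29a1_L
open Pool.Agent.W_7d29a1_SL Pool.Agent.W_7d29a1_SR
open Pool.Agent.W_7d29a1_h48 (W_mono_env WR_mono_env Zr_mono_env MonoOn harrisB)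

noncomputable section

variable {μ : Measure ℝ}

/-- Decreasing events. -/
def Dec (A : Set Env) : Prop := ∀ η η' : Env, (∀ p, η p ≤ η' p) → η' ∈ A → η ∈ A

/-- Events which depend on finitely many sites. -/
def Fin' (A : Set Env) : Prop := ∃ D : Finset Pt, ∀ η η' : Env, (∀ p ∈ D, η p = η' p) → (η ∈ A ↔ η' ∈ A)

theorem Dec.inter {A B : Set Env} (hA : Dec A) (hB : Dec B) : Dec (A ∩ B) := fun η η' h hη =>
  ⟨hA η η' h hη.1, hB η η' h hη.2⟩

theorem harris_dec [IsProbabilityMeasure μ] {A B : Set Env} (mA : MeasurableSet A) (mB : MeasurableSet B) (dA : Dec A)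
    (dB : Dec B) (fB : Fin' B) : (law μ).real A * (law μ).real B ≤ (law μ).real (A ∩ B) := by
  obtain ⟨D, hD⟩ := fB
  have mono : ∀ {A : Set Env}, Dec A → MonoOn (D : Set Pt) (A.indicator fun _ => (-1 : ℝ)) := by
    intro A dA g g' h1 _
    by_cases hg' : g' ∈ A
    · rw [Set.indicator_of_mem hg', Set.indicator_of_mem (dA g g' h1 hg')]
    · rw [Set.indicator_of_notMem hg']
      exact Set.indicator_nonpos (fun _ _ => by norm_num) g
  have bd : ∀ (A : Set Env) (g : Env), |A.indicator (fun _ => (-1 : ℝ)) g| ≤ 1 := by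
    intro A g
    by_cases hg : g ∈ A
    · rw [Set.indicator_of_mem hg]
      norm_num
    · rw [Set.indicator_of_notMem hg]
      norm_num
  have h1 := harrisB (ι := Pt) (μ := μ) D (F := A.indicator fun _ => (-1 : ℝ)) (G := B.indicator fun _ => (-1 : ℝ))
    (measurable_const.indicator mA) (measurable_const.indicator mB) (bd A) (bd B) (mono dA) (mono dB) (by
      intro η η' hh
      have h2 := hD η η' hh
      by_cases hη : η ∈ B
      · rw [Set.indicator_of_mem hη, Set.indicator_of_mem (h2.1 hη)]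
      · rw [Set.indicator_of_notMem hη, Set.indicator_of_notMem fun h3 => hη (h2.2 h3)])
  have h2 : ∀ {A : Set Env}, MeasurableSet A → ∫ g, A.indicator (fun _ => (-1 : ℝ)) g ∂(law μ) = -(law μ).real A := by
    intro A mA
    rw [integral_indicator mA]
    simp [Measure.real]
  have h3 : ∀ g, A.indicator (fun _ => (-1 : ℝ)) g * B.indicator (fun _ => (-1 : ℝ)) g =
      -((A ∩ B).indicator (fun _ => (-1 : ℝ)) g) := by
    intro g
    by_cases hA : g ∈ A
    · by_cases hB : g ∈ B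
      · rw [Set.indicator_of_mem hA, Set.indicator_of_mem hB, Set.indicator_of_mem (show g ∈ A ∩ B from ⟨hA, hB⟩)]
        norm_num
      · rw [Set.indicator_of_notMem hB, Set.indicator_of_notMem (show g ∉ A ∩ B from fun h => hB h.2)]
        norm_num
    · rw [Set.indicator_of_notMem hA, Set.indicator_of_notMem (show g ∉ A ∩ B from fun h => hA h.1)]
      norm_num
  have h4 : (∫ g, A.indicator (fun _ => (-1 : ℝ)) g ∂(law μ)) * (∫ g, B.indicator (fun _ => (-1 : ℝ)) g ∂(law μ)) ≤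
      ∫ g, A.indicator (fun _ => (-1 : ℝ)) g * B.indicator (fun _ => (-1 : ℝ)) g ∂(law μ) := h1
  simp only [h3] at h4
  rw [integral_neg, h2 mA, h2 mB, h2 (mA.inter mB)] at h4
  linarith

theorem V_mono_env {η η' : Env} (h : ∀ p, η p ≤ η' p) (a : Pt) (n : ℕ) : V μ 0 η a n ≤ V μ 0 η' a n := by
  have h1 : Real.exp (V μ 0 η a n) ≤ Real.exp (V μ 0 η' a n) := by
    rw [exp_V, exp_V]
    exact Finset.sum_le_sum fun y _ => W_mono_env h a n y
  exact Real.exp_le_exp.1 h1

theorem sm_mono_env {η η' : Env} (h : ∀ p, η p ≤ η' p) {I : Finset ℤ} (hI : I.Nonempty) (t : ℤ) (l : ℕ) :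
    sm μ η I t l ≤ sm μ η' I t l :=
  Real.log_le_log (sm_pos η hI t l) (Finset.sum_le_sum fun _ _ => Real.exp_le_exp.2 (V_mono_env h _ l))

theorem sm_dep (I : Finset ℤ) (t : ℤ) (l : ℕ) : ∃ D : Finset Pt, ∀ η η' : Env, (∀ p ∈ D, η p = η' p) →
    sm μ η I t l = sm μ η' I t l := by
  classical
  refine ⟨I.biUnion fun x => Finset.Icc t (t + l) ×ˢ Finset.Icc x (x + l), fun η η' hh => ?_⟩
  unfold sm
  congr 1
  refine Finset.sum_congr rfl fun x hx => ?_
  congr 1
  refine V_dep (μ := μ) (s := 0) (t, x) l fun p hp => hh p ?_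
  obtain ⟨h1, h2, h3, h4⟩ := hp
  simp only at h1 h2 h3 h4
  refine Finset.mem_biUnion.2 ⟨x, hx, ?_⟩
  rw [Finset.mem_product, Finset.mem_Icc, Finset.mem_Icc]
  omega

/-- `I` unlucky cells in a row. -/
theorem row_prob [IsProbabilityMeasure μ] {p u : ℝ} {l w : ℕ} {t : ℤ} (hw : 1 ≤ w)
    (hp : 0 ≤ p) (hc : ∀ y0 : ℤ, p ≤ (law μ).real {η | sm μ η (Finset.Ico y0 (y0 + w)) t l ≤ u}) (y0 : ℤ) (I : ℕ) :
    p ^ I ≤ (law μ).real {η | ∀ j < I, sm μ η (Finset.Ico (y0 + j * w) (y0 + j * w + w)) t l ≤ u} := by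
  have hne : ∀ y : ℤ, (Finset.Ico y (y + w)).Nonempty := fun y => ⟨y, by rw [Finset.mem_Ico]; omega⟩
  have hm : ∀ y : ℤ, MeasurableSet {η : Env | sm μ η (Finset.Ico y (y + w)) t l ≤ u} := fun y =>
    measurableSet_le (measurable_sm _ t l) measurable_const
  have hd : ∀ y : ℤ, Dec {η : Env | sm μ η (Finset.Ico y (y + w)) t l ≤ u} := fun y η η' h h1 =>
    (sm_mono_env h (hne y) t l).trans h1
  have hf : ∀ y : ℤ, Fin' {η : Env | sm μ η (Finset.Ico y (y + w)) t l ≤ u} := fun y => by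
    obtain ⟨D, hD⟩ := sm_dep (μ := μ) (Finset.Ico y (y + w)) t l
    refine ⟨D, fun η η' hh => ?_⟩
    rw [Set.mem_ofPred_eq, Set.mem_ofPred_eq, hD η η' hh]
  have hm' : ∀ I : ℕ, MeasurableSet {η : Env | ∀ j < I, sm μ η (Finset.Ico (y0 + j * w) (y0 + j * w + w)) t l ≤ u} ∧
      Dec {η : Env | ∀ j < I, sm μ η (Finset.Ico (y0 + j * w) (y0 + j * w + w)) t l ≤ u} := by
    intro I
    refine ⟨?_, fun η η' h h1 j hj => (sm_mono_env h (hne _) t l).trans (h1 j hj)⟩
    have e : {η : Env | ∀ j < I, sm μ η (Finset.Ico (y0 + j * w) (y0 + j * w + w)) t l ≤ u} =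
        ⋂ j ∈ Finset.range I, {η : Env | sm μ η (Finset.Ico (y0 + (j : ℕ) * w) (y0 + j * w + w)) t l ≤ u} := by
      ext η
      simp only [Set.mem_iInter, Finset.mem_range]
      exact Iff.rfl
    rw [e]
    exact Finset.measurableSet_biInter _ fun j _ => hm _
  induction I with
  | zero => simp
  | succ I ih =>
    obtain ⟨k1, k2⟩ := hm' I
    have h1 := harris_dec (μ := μ) k1 (hm (y0 + I * w)) k2 (hd _) (hf _)
    have h2 : {η : Env | ∀ j < I, sm μ η (Finset.Ico (y0 + j * w) (y0 + j * w + w)) t l ≤ u} ∩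
        {η | sm μ η (Finset.Ico (y0 + I * w) (y0 + I * w + w)) t l ≤ u} =
        {η | ∀ j < I + 1, sm μ η (Finset.Ico (y0 + j * w) (y0 + j * w + w)) t l ≤ u} := by
      ext η
      constructor
      · rintro ⟨q1, q2⟩ j hj
        rcases Nat.lt_succ_iff_lt_or_eq.1 hj with h3 | h3
        · exact q1 j h3
        · rw [h3]
          exact q2
      · intro q
        exact ⟨fun j hj => q j (by omega), q I (by omega)⟩
    rw [h2] at h1
    refine le_trans ?_ h1
    rw [pow_succ]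
    exact mul_le_mul ih (hc _) hp measureReal_nonneg

/-- The starts in the region are all unlucky. -/
theorem row_all [IsProbabilityMeasure μ] {p u : ℝ} {l w : ℕ} {t : ℤ} (hw : 1 ≤ w)
    (hp : 0 ≤ p) (hc : ∀ y0 : ℤ, p ≤ (law μ).real {η | sm μ η (Finset.Ico y0 (y0 + w)) t l ≤ u}) (y0 y1 : ℤ) {I : ℕ}
    (hI : y1 < y0 + I * w) :
    p ^ I ≤ (law μ).real {η | ∀ y ∈ Finset.Icc y0 y1, V μ 0 η (t, y) l ≤ u} := by
  refine (row_prob (μ := μ) hw hp hc y0 I).trans (measureReal_mono (fun η hη y hy => ?_) (measure_ne_top _ _))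
  rw [Finset.mem_Icc] at hy
  have hwz : (0 : ℤ) < w := by exact_mod_cast (show 0 < w by omega)
  obtain ⟨j, hj⟩ : ∃ j : ℕ, (j : ℤ) = (y - y0) / w := ⟨((y - y0) / w).toNat, Int.toNat_of_nonneg
    (Int.ediv_nonneg (by omega) hwz.le)⟩
  have h1 : (y - y0) / w * w ≤ y - y0 := Int.ediv_mul_le _ hwz.ne'
  have h2 : y - y0 < (y - y0) / w * w + w := by
    have := Int.lt_ediv_add_one_mul_self (y - y0) hwz
    linarith
  rw [← hj] at h1 h2
  have h3 : j < I := by
    have h4 : (j : ℤ) * w < I * w := by linarith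
    have h5 : (j : ℤ) < I := lt_of_mul_lt_mul_right h4 hwz.le
    exact_mod_cast h5
  exact (V_le_sm (μ := μ) η t l (I := Finset.Ico (y0 + j * w) (y0 + j * w + w)) (by
    rw [Finset.mem_Ico]
    constructor <;> linarith)).trans (hη j h3)

end

end Pool.Agent.W_7d29a1_NR
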