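import Pool.Agent.W_7d29a1_NR.Low

/-!
The lower tail of `log Z_n` from below (MP_7d29a1_pr): the polymer confined to a strip, and the exit. (helper87)
-/

namespace Pool.Agent.W_7d29a1_NR

open MeasureTheory ProbabilityTheory Filter Topology
open Pool.Agent.W_7d29a1_F Pool.Agent.W_7d29a1_h4g Pool.Agent.W_7d29a1_G Pool.Agent.W_7d29a1_L
open Pool.Agent.W_7d29a1_SL Pool.Agent.W_7d29a1_SR
open Pool.Agent.W_7d29a1_h48 (W_mono_env WR_mono_env Zr_mono_env)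

noncomputable section

variable {μ : Measure ℝ}

/-- The weights of a confined polymer, cut at the row `t + m`. -/
theorem cS_add_le [IsProbabilityMeasure μ] (S : Set Pt) (η : Env) (t x : ℤ) (m n : ℕ) :
    cS μ S η (t, x) (m + n) ≤ ∑ u ∈ Finset.Icc x (x + m), WR μ 0 S η (t, x) m (u - x) * cS μ S η (t + m, u) n := by
  have h1 : cS μ S η (t, x) (m + n) = ∑ y ∈ Finset.Icc (0 : ℤ) (m + n : ℕ), ∑ u ∈ Finset.Icc x (x + m),
      WR μ 0 S η (t, x) m (u - x) * WR μ 0 S η (t + m, u) n (y + x - u) := by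
    unfold cS
    refine Finset.sum_congr rfl fun y _ => ?_
    have h2 := WR_add' (μ := μ) S η t x m n (y + x) (A := x) (B := x + m) le_rfl le_rfl
    rw [add_sub_cancel_right] at h2
    exact h2
  rw [h1, Finset.sum_comm]
  refine Finset.sum_le_sum fun u _ => ?_
  rw [← Finset.mul_sum]
  refine mul_le_mul_of_nonneg_left ?_ (WR_nonneg _ _ _ _ _)
  -- the sum over a translate of an interval
  have h3 : ∑ y ∈ Finset.Icc (0 : ℤ) (m + n : ℕ), WR μ 0 S η (t + m, u) n (y + x - u) =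
      ∑ z ∈ (Finset.Icc (0 : ℤ) (m + n : ℕ)).map (addRightEmbedding (x - u)), WR μ 0 S η (t + m, u) n z := by
    rw [Finset.sum_map]
    refine Finset.sum_congr rfl fun y _ => ?_
    congr 1
    show y + x - u = y + (x - u)
    ring
  rw [h3]
  unfold cS
  have h4 : ∑ z ∈ (Finset.Icc (0 : ℤ) (m + n : ℕ)).map (addRightEmbedding (x - u)), WR μ 0 S η (t + m, u) n z =
      ∑ z ∈ ((Finset.Icc (0 : ℤ) (m + n : ℕ)).map (addRightEmbedding (x - u))).filter (fun z => z ∈ Finset.Icc (0 : ℤ) n),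
        WR μ 0 S η (t + m, u) n z := by
    rw [Finset.sum_filter]
    refine Finset.sum_congr rfl fun z _ => ?_
    split_ifs with h5
    · rfl
    · exact WR_off S η _ fun h6 => h5 (Finset.mem_Icc.2 h6)
  rw [h4]
  exact Finset.sum_le_sum_of_subset_of_nonneg (fun z hz => (Finset.mem_filter.1 hz).2) fun z _ _ => WR_nonneg _ _ _ _ _

/-- One block: the polymer confined to `S` from a start whose free polymer is unlucky. -/
theorem cS_step [IsProbabilityMeasure μ] {S : Set Pt} (η : Env) {t x : ℤ} {m n : ℕ} (hm : 1 ≤ m) {A B : ℝ}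
    (hV : V μ 0 η (t, x) m ≤ -A) (hn : ∀ u : ℤ, ((t + m, u) : Pt) ∈ S → cS μ S η (t + m, u) n ≤ Real.exp (-B)) :
    cS μ S η (t, x) (m + n) ≤ Real.exp (-(A + B)) := by
  refine (cS_add_le S η t x m n).trans ?_
  have h1 : ∀ u ∈ Finset.Icc x (x + m), WR μ 0 S η (t, x) m (u - x) * cS μ S η (t + m, u) n ≤
      WR μ 0 S η (t, x) m (u - x) * Real.exp (-B) := by
    intro u _
    by_cases hu : ((t + m, u) : Pt) ∈ S
    · exact mul_le_mul_of_nonneg_left (hn u hu) (WR_nonneg _ _ _ _ _)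
    · rw [WR_last_off η (t, x) hm (by
        have : ((t : ℤ) + m, x + (u - x)) = ((t + m, u) : Pt) := by
          ext
          · rfl
          · show x + (u - x) = u
            ring
        show ((t : ℤ) + m, x + (u - x)) ∉ S
        rw [this]
        exact hu), zero_mul, zero_mul]
  refine (Finset.sum_le_sum h1).trans ?_
  rw [← Finset.sum_mul]
  have h2 : ∑ u ∈ Finset.Icc x (x + m), WR μ 0 S η (t, x) m (u - x) ≤ Real.exp (V μ 0 η (t, x) m) := by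
    rw [exp_V]
    have h3 : ∑ u ∈ Finset.Icc x (x + m), WR μ 0 S η (t, x) m (u - x) =
        ∑ y ∈ Finset.Icc (0 : ℤ) m, WR μ 0 S η (t, x) m y := by
      refine Finset.sum_nbij' (fun u => u - x) (fun y => y + x) ?_ ?_ ?_ ?_ ?_
      · intro u hu
        rw [Finset.mem_Icc] at hu ⊢
        omega
      · intro y hy
        rw [Finset.mem_Icc] at hy ⊢
        omega
      · intro u _
        ring
      · intro y _
        ring
      · intro u _
        rfl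
    rw [h3]
    exact Finset.sum_le_sum fun y _ => WR_le_W _ _ _ _ _
  have h3 : Real.exp (-(A + B)) = Real.exp (-A) * Real.exp (-B) := by
    rw [← Real.exp_add]
    congr 1
    ring
  rw [h3]
  exact mul_le_mul_of_nonneg_right (h2.trans (Real.exp_le_exp.2 hV)) (Real.exp_pos _).le

theorem cS_mono_env (S : Set Pt) {η η' : Env} (h : ∀ p, η p ≤ η' p) (a : Pt) (l : ℕ) : cS μ S η a l ≤ cS μ S η' a l :=
  Finset.sum_le_sum fun y _ => WR_mono_env S h a l y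

theorem cS_le_V (S : Set Pt) (η : Env) (a : Pt) (l : ℕ) : cS μ S η a l ≤ Real.exp (V μ 0 η a l) := by
  rw [exp_V]
  exact Finset.sum_le_sum fun y _ => WR_le_W _ _ _ _ _

/-- The strip around `0`. -/
def Sp (ρ : ℝ) : Set Pt := St ρ 0

theorem mem_Sp {ρ : ℝ} {p : Pt} : p ∈ Sp ρ ↔ |2 * (p.2 : ℝ) - (p.1 : ℝ)| ≤ 2 * ρ := by
  show |2 * ((p.2 : ℝ) - ((0 : ℤ) : ℝ)) - ((p.1 : ℝ) - ((0 : ℤ) : ℝ))| ≤ 2 * ρ ↔ _
  push_cast
  rw [sub_zero, sub_zero]

/-- The confined polymers of length `N` are all unlucky. -/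
def Dn (μ : Measure ℝ) (ρ : ℝ) (N : ℕ) (Y : ℝ) : Set Env :=
  {η | ∀ y ∈ Finset.Icc (-⌊ρ⌋) ⌊ρ⌋, cS μ (Sp ρ) η ((0 : ℤ), y) N ≤ Real.exp (-Y)}

theorem Dn_meas (ρ : ℝ) (N : ℕ) (Y : ℝ) : MeasurableSet (Dn μ ρ N Y) := by
  have e : Dn μ ρ N Y = ⋂ y ∈ Finset.Icc (-⌊ρ⌋) ⌊ρ⌋, {η | cS μ (Sp ρ) η ((0 : ℤ), y) N ≤ Real.exp (-Y)} := by
    ext η
    simp only [Set.mem_iInter]
    exact Iff.rfl
  rw [e]
  exact Finset.measurableSet_biInter _ fun y _ => measurableSet_le (measurable_cS _ _ _) measurable_const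

theorem Dn_dec (ρ : ℝ) (N : ℕ) (Y : ℝ) : Dec (Dn μ ρ N Y) := fun _ _ h hη y hy =>
  (cS_mono_env _ h _ _).trans (hη y hy)

theorem Dn_fin (ρ : ℝ) (N : ℕ) (Y : ℝ) : Fin' (Dn μ ρ N Y) := by
  classical
  refine ⟨Finset.Icc (0 : ℤ) N ×ˢ Finset.Icc (-⌊ρ⌋) (⌊ρ⌋ + N), fun η η' hh => ?_⟩
  have h1 : ∀ y ∈ Finset.Icc (-⌊ρ⌋) ⌊ρ⌋, cS μ (Sp ρ) η ((0 : ℤ), y) N = cS μ (Sp ρ) η' ((0 : ℤ), y) N := by
    intro y hy
    rw [Finset.mem_Icc] at hy
    unfold cS
    refine Finset.sum_congr rfl fun z _ => WR_dep (μ := μ) (s := 0) (Sp ρ) _ N z fun p hp => hh p ?_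
    obtain ⟨⟨k1, k2, k3, k4, k5, k6⟩, -⟩ := hp
    simp only at k1 k2 k3 k4
    rw [Finset.mem_product, Finset.mem_Icc, Finset.mem_Icc]
    omega
  constructor
  · intro h y hy
    rw [← h1 y hy]
    exact h y hy
  · intro h y hy
    rw [h1 y hy]
    exact h y hy

theorem Dn_dep (ρ : ℝ) (N : ℕ) (Y : ℝ) : ∀ η η' : Env, (∀ p ∈ {p : Pt | 0 < p.1}, η p = η' p) →
    (η ∈ Dn μ ρ N Y ↔ η' ∈ Dn μ ρ N Y) := by
  intro η η' hh
  have h1 : ∀ y : ℤ, cS μ (Sp ρ) η ((0 : ℤ), y) N = cS μ (Sp ρ) η' ((0 : ℤ), y) N := by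
    intro y
    unfold cS
    exact Finset.sum_congr rfl fun z _ => WR_dep (μ := μ) (s := 0) (Sp ρ) _ N z fun p hp => hh p hp.1.1
  constructor
  · intro h y hy
    rw [← h1 y]
    exact h y hy
  · intro h y hy
    rw [h1 y]
    exact h y hy

theorem cS_sh {ρ : ℝ} (η : Env) (m' : ℤ) (x : ℤ) (N : ℕ) :
    cS μ (Sp ρ) (sh (2 * m', m') η) ((0 : ℤ), x) N = cS μ (Sp ρ) η (2 * m', x + m') N := by
  unfold cS
  refine Finset.sum_congr rfl fun y _ => ?_
  have h1 := WR_sh (μ := μ) (s := 0) (Sp ρ) η ((0 : ℤ), x) (2 * m', m') N y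
  have h2 : {p : Pt | p + (2 * m', m') ∈ Sp ρ} = Sp ρ := by
    ext p
    rw [Set.mem_ofPred_eq, mem_Sp, mem_Sp]
    show |2 * ((p.2 + m' : ℤ) : ℝ) - ((p.1 + 2 * m' : ℤ) : ℝ)| ≤ 2 * ρ ↔ _
    push_cast
    have : 2 * ((p.2 : ℝ) + m') - ((p.1 : ℝ) + 2 * m') = 2 * (p.2 : ℝ) - p.1 := by ring
    rw [this]
  rw [h2] at h1
  rw [h1]
  congr 1
  ext
  · show (0 : ℤ) + 2 * m' = 2 * m'
    ring
  · rfl

variable [IsProbabilityMeasure μ]

/-- ONE UNLUCKY ROW in front. -/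
theorem Dn_step {ρ κ p : ℝ} {m' w I : ℕ} (hm : 1 ≤ m') (hw : 1 ≤ w) (hp : 0 ≤ p) (hI : 2 * ⌊ρ⌋ < I * w)
    (hc : ∀ t y0 : ℤ, p ≤ (law μ).real {η | sm μ η (Finset.Ico y0 (y0 + w)) t (2 * m') ≤ -κ}) (N : ℕ) (Y : ℝ) :
    p ^ I * (law μ).real (Dn μ ρ N Y) ≤ (law μ).real (Dn μ ρ (2 * m' + N) (κ + Y)) := by
  obtain ⟨a, ha⟩ : ∃ a : Pt, a = (2 * (m' : ℤ), (m' : ℤ)) := ⟨_, rfl⟩
  obtain ⟨U, hU⟩ : ∃ U : Set Env, U = {η | ∀ y ∈ Finset.Icc (-⌊ρ⌋) ⌊ρ⌋, V μ 0 η ((0 : ℤ), y) (2 * m') ≤ -κ} := ⟨_, rfl⟩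
  have hUp : p ^ I ≤ (law μ).real U := by
    rw [hU]
    exact row_all (μ := μ) hw hp (fun y0 => hc 0 y0) (-⌊ρ⌋) ⌊ρ⌋ (by linarith)
  have mU : MeasurableSet U := by
    have e : U = ⋂ y ∈ Finset.Icc (-⌊ρ⌋) ⌊ρ⌋, {η | V μ 0 η ((0 : ℤ), y) (2 * m') ≤ -κ} := by
      rw [hU]
      ext η
      simp only [Set.mem_iInter]
      exact Iff.rfl
    rw [e]
    exact Finset.measurableSet_biInter _ fun y _ => measurableSet_le (measurable_V _ _) measurable_const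
  have dU : ∀ η η' : Env, (∀ q ∈ rows 0 (2 * m' : ℕ), η q = η' q) → (η ∈ U ↔ η' ∈ U) := by
    intro η η' hh
    have g1 : ∀ y : ℤ, V μ 0 η ((0 : ℤ), y) (2 * m') = V μ 0 η' ((0 : ℤ), y) (2 * m') := fun y =>
      V_dep (μ := μ) (s := 0) _ _ fun q hq => hh q (by
        have k1 := hq.1
        have k2 := hq.2.1
        simp only [zero_add] at k1 k2
        exact ⟨k1, k2⟩)
    rw [hU, Set.mem_ofPred_eq, Set.mem_ofPred_eq]
    simp only [g1]
  have hs : Measurable fun η : Env => sh a η := measurable_pi_lambda _ fun p => measurable_pi_apply (p + a)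
  obtain ⟨E, hE⟩ : ∃ E : Set Env, E = {η | sh a η ∈ Dn μ ρ N Y} := ⟨_, rfl⟩
  have mE : MeasurableSet E := by rw [hE]; exact hs (Dn_meas ρ N Y)
  have hEp : (law μ).real E = (law μ).real (Dn μ ρ N Y) := by rw [hE]; exact real_sh a (Dn_meas ρ N Y)
  have dE : ∀ η η' : Env, (∀ q ∈ {q : Pt | ((2 * m' : ℕ) : ℤ) < q.1}, η q = η' q) → (η ∈ E ↔ η' ∈ E) := by
    intro η η' hh
    rw [hE, Set.mem_ofPred_eq, Set.mem_ofPred_eq]
    refine Dn_dep ρ N Y _ _ fun q hq => ?_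
    show η (q + a) = η' (q + a)
    refine hh (q + a) ?_
    show ((2 * m' : ℕ) : ℤ) < (q + a).1
    have k1 : 0 < q.1 := hq
    have k2 : (q + a).1 = q.1 + 2 * m' := by rw [ha]; rfl
    rw [k2]
    push_cast
    omega
  have hind := real_inter_indep (μ := μ) mU mE dU dE (by
    rw [Set.disjoint_left]
    intro q hq1 hq2
    have k1 := hq1.2
    have k2 : ((2 * m' : ℕ) : ℤ) < q.1 := hq2
    omega)
  have hincl : U ∩ E ⊆ Dn μ ρ (2 * m' + N) (κ + Y) := by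
    rintro η ⟨q1, q2⟩ y hy
    rw [hU, Set.mem_ofPred_eq] at q1
    rw [hE, Set.mem_ofPred_eq] at q2
    refine cS_step (μ := μ) η (by omega) (q1 y hy) fun u hu => ?_
    rw [mem_Sp] at hu
    simp only [zero_add] at hu
    have h1 : |((u - m' : ℤ) : ℝ)| ≤ ρ := by
      push_cast at hu ⊢
      have h2 : |2 * (u : ℝ) - 2 * m'| = 2 * |(u : ℝ) - m'| := by
        rw [← mul_sub, abs_mul]
        norm_num
      rw [h2] at hu
      linarith
    have h2 : u - m' ∈ Finset.Icc (-⌊ρ⌋) ⌊ρ⌋ := by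
      rw [abs_le] at h1
      rw [Finset.mem_Icc]
      constructor
      · have h3 : -(u - m' : ℤ) ≤ ⌊ρ⌋ := Int.le_floor.2 (by push_cast at h1 ⊢; linarith [h1.1])
        omega
      · exact Int.le_floor.2 h1.2
    have h3 := q2 (u - m') h2
    rw [ha, cS_sh] at h3
    have h4 : ((2 * (m' : ℤ), u - m' + m') : Pt) = ((0 : ℤ) + ((2 * m' : ℕ) : ℤ), u) := by
      ext
      · show 2 * (m' : ℤ) = (0 : ℤ) + ((2 * m' : ℕ) : ℤ)
        push_cast
        ring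
      · show u - m' + m' = u
        ring
    rw [h4] at h3
    exact h3
  have h1 := measureReal_mono hincl (measure_ne_top (law μ) _)
  rw [hind, hEp] at h1
  exact (mul_le_mul_of_nonneg_right hUp measureReal_nonneg).trans h1

/-- `k + 1` UNLUCKY ROWS. -/
theorem Dn_iter {ρ κ p : ℝ} {m' w I l : ℕ} (hm : 1 ≤ m') (hw : 1 ≤ w) (hp : 0 ≤ p) (hI : 2 * ⌊ρ⌋ < I * w)
    (hc : ∀ t y0 : ℤ, p ≤ (law μ).real {η | sm μ η (Finset.Ico y0 (y0 + w)) t (2 * m') ≤ -κ})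
    (hc' : ∀ y0 : ℤ, p ≤ (law μ).real {η | sm μ η (Finset.Ico y0 (y0 + w)) 0 l ≤ -κ}) (k : ℕ) :
    (p ^ I) ^ (k + 1) ≤ (law μ).real (Dn μ ρ (k * (2 * m') + l) ((k + 1) * κ)) := by
  induction k with
  | zero =>
    have h1 := row_all (μ := μ) hw hp hc' (-⌊ρ⌋) ⌊ρ⌋ (I := I) (by linarith)
    rw [zero_add, pow_one]
    refine h1.trans (measureReal_mono (fun η hη y hy => ?_) (measure_ne_top _ _))
    have h2 : ((0 : ℕ) : ℝ) + 1 = 1 := by norm_num
    rw [h2, one_mul]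
    have h3 : 0 * (2 * m') + l = l := by ring
    rw [h3]
    exact (cS_le_V _ _ _ _).trans (Real.exp_le_exp.2 (hη y hy))
  | succ k ih =>
    have h1 := Dn_step (μ := μ) hm hw hp hI hc (k * (2 * m') + l) ((k + 1) * κ)
    have e1 : 2 * m' + (k * (2 * m') + l) = (k + 1) * (2 * m') + l := by ring
    have e2 : κ + ((k : ℝ) + 1) * κ = (((k + 1 : ℕ) : ℝ) + 1) * κ := by push_cast; ring
    rw [e1, e2] at h1
    refine le_trans ?_ h1
    rw [pow_succ, mul_comm]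
    exact mul_le_mul_of_nonneg_left ih (pow_nonneg hp _)

/-- The weight of the exit is increasing. -/
theorem exit_mono (R : Set Pt) {η η' : Env} (h : ∀ p, η p ≤ η' p) (a : Pt) (n : ℕ) (y : ℤ) :
    0 ≤ Zr Set.univ η a n y - Zr R η a n y ∧
    Zr Set.univ η a n y - Zr R η a n y ≤ Zr Set.univ η' a n y - Zr R η' a n y := by
  induction n generalizing y with
  | zero =>
    show 0 ≤ (if y = 0 then (1 : ℝ) else 0) - (if y = 0 then (1 : ℝ) else 0) ∧
      (if y = 0 then (1 : ℝ) else 0) - (if y = 0 then (1 : ℝ) else 0) ≤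
      (if y = 0 then (1 : ℝ) else 0) - (if y = 0 then (1 : ℝ) else 0)
    simp
  | succ n ih =>
    obtain ⟨q, hq⟩ : ∃ q : Pt, q = (a.1 + (n + 1), a.2 + y) := ⟨_, rfl⟩
    have hexp : Real.exp (η q) ≤ Real.exp (η' q) := Real.exp_le_exp.2 (h q)
    have e0 := Real.exp_pos (η q)
    show 0 ≤ (Set.univ : Set Pt).indicator (fun p => Real.exp (η p)) (a.1 + (n + 1), a.2 + y) *
        (Zr Set.univ η a n y + Zr Set.univ η a n (y - 1)) -
        R.indicator (fun p => Real.exp (η p)) (a.1 + (n + 1), a.2 + y) * (Zr R η a n y + Zr R η a n (y - 1)) ∧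
      (Set.univ : Set Pt).indicator (fun p => Real.exp (η p)) (a.1 + (n + 1), a.2 + y) *
        (Zr Set.univ η a n y + Zr Set.univ η a n (y - 1)) -
        R.indicator (fun p => Real.exp (η p)) (a.1 + (n + 1), a.2 + y) * (Zr R η a n y + Zr R η a n (y - 1)) ≤
      (Set.univ : Set Pt).indicator (fun p => Real.exp (η' p)) (a.1 + (n + 1), a.2 + y) *
        (Zr Set.univ η' a n y + Zr Set.univ η' a n (y - 1)) -
        R.indicator (fun p => Real.exp (η' p)) (a.1 + (n + 1), a.2 + y) * (Zr R η' a n y + Zr R η' a n (y - 1))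
    rw [← hq, Set.indicator_univ, Set.indicator_univ]
    obtain ⟨i1, i2⟩ := ih y
    obtain ⟨j1, j2⟩ := ih (y - 1)
    have u1 := Zr_nonneg (Set.univ : Set Pt) η a n y
    have u2 := Zr_nonneg (Set.univ : Set Pt) η a n (y - 1)
    have v1 := Zr_mono_env (Set.univ : Set Pt) h a n y
    have v2 := Zr_mono_env (Set.univ : Set Pt) h a n (y - 1)
    by_cases hR : q ∈ R
    · rw [Set.indicator_of_mem hR, Set.indicator_of_mem hR, ← mul_sub, ← mul_sub]
      have e1 : Zr Set.univ η a n y + Zr Set.univ η a n (y - 1) - (Zr R η a n y + Zr R η a n (y - 1)) =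
          (Zr Set.univ η a n y - Zr R η a n y) + (Zr Set.univ η a n (y - 1) - Zr R η a n (y - 1)) := by ring
      have e2 : Zr Set.univ η' a n y + Zr Set.univ η' a n (y - 1) - (Zr R η' a n y + Zr R η' a n (y - 1)) =
          (Zr Set.univ η' a n y - Zr R η' a n y) + (Zr Set.univ η' a n (y - 1) - Zr R η' a n (y - 1)) := by ring
      rw [e1, e2]
      exact ⟨mul_nonneg e0.le (add_nonneg i1 j1), mul_le_mul hexp (add_le_add i2 j2) (add_nonneg i1 j1)
        (Real.exp_pos _).le⟩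
    · rw [Set.indicator_of_notMem hR, Set.indicator_of_notMem hR, zero_mul, zero_mul, sub_zero, sub_zero]
      exact ⟨mul_nonneg e0.le (add_nonneg u1 u2), mul_le_mul hexp (add_le_add v1 v2) (add_nonneg u1 u2)
        (Real.exp_pos _).le⟩

omit [IsProbabilityMeasure μ] in
theorem exit_sum_mono (R : Set Pt) {η η' : Env} (h : ∀ p, η p ≤ η' p) (a : Pt) (n : ℕ) :
    Real.exp (V μ 0 η a n) - cS μ R η a n ≤ Real.exp (V μ 0 η' a n) - cS μ R η' a n := by
  rw [exp_V, exp_V]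
  unfold WS cS
  rw [← Finset.sum_sub_distrib, ← Finset.sum_sub_distrib]
  refine Finset.sum_le_sum fun y _ => ?_
  unfold W WR
  rw [← mul_sub, ← mul_sub]
  exact mul_le_mul_of_nonneg_left (exit_mono R h a n y).2 (Real.exp_pos _).le

end

end Pool.Agent.W_7d29a1_NR
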