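import Pool.Agent.W_7d29a1_NR.GapA
import Pool.Agent.W_7d29a1_F.CoreA4
import Pool.Agent.W_7d29a1_h66.D7oct

/-!
The non random fluctuation of `log Z_n` (MP_7d29a1_pr): the deterministic conclusion and the mass on the left. (helper87)
-/

namespace Pool.Agent.W_7d29a1_NR

open MeasureTheory ProbabilityTheory Filter Topology
open Pool.Agent.W_7d29a1_F Pool.Agent.W_7d29a1_h4g Pool.Agent.W_7d29a1_G Pool.Agent.W_7d29a1_L78

noncomputable section

variable {μ : Measure ℝ}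

/-- THE DETERMINISTIC CONCLUSION. -/
theorem det_gap (η : Env) (m n : ℕ) (S : Finset ℤ) (hS : S ⊆ Finset.Icc (0 : ℤ) m) {L : ℤ} (h0 : 0 ≤ L) (h1 : L ≤ m)
    {a : ℤ → ℝ} {q I M M1 : ℝ} (ha : ∀ k ∈ S, 0 ≤ a k) (hI : X μ 0 η 0 m L + V μ 0 η 0 m ≤ I)
    (hsep : ∀ k ∈ S, Real.exp (V μ 0 η ((m : ℤ), k) n) ≤
      Real.exp (a k) + Real.exp (V μ 0 η ((m : ℤ), L) n + a k - q))
    (hq : M ≤ q - I) (hV : M + I ≤ V μ 0 η ((m : ℤ), L) n) (hM : 1 ≤ M) (hm : 1 / 4 ≤ ∑ k ∈ S, gb μ η m k)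
    (hY : ∑ k ∈ S, gb μ η m k * a k ≤ M1) : (M - 1) / 4 - M1 - 1 ≤ Gp μ η m n := by
  have hG := Gp_ge (μ := μ) η m n S hS
  have hgain := gain_ge (μ := μ) η m n h0 h1
  obtain ⟨Λ, hΛ⟩ : ∃ Λ : ℝ, Λ = V μ 0 η 0 (m + n) - V μ 0 η 0 m := ⟨_, rfl⟩
  rw [← hΛ] at hG hgain
  have hΛM : M ≤ Λ := by linarith
  have key : ∀ k ∈ S, gb μ η m k * ((M - 1) - a k) ≤ gb μ η m k * (Λ - V μ 0 η ((m : ℤ), k) n) := by
    intro k hk
    refine mul_le_mul_of_nonneg_left ?_ (gb_nonneg η m k)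
    have h2 := hsep k hk
    have h3 := ha k hk
    have h4 : Real.exp (V μ 0 η ((m : ℤ), k) n) ≤ Real.exp (a k + (Λ - M) + 1) := by
      refine h2.trans ?_
      have h5 : Real.exp (a k) ≤ Real.exp (a k + (Λ - M)) := Real.exp_le_exp.2 (by linarith)
      have h6 : Real.exp (V μ 0 η ((m : ℤ), L) n + a k - q) ≤ Real.exp (a k + (Λ - M)) :=
        Real.exp_le_exp.2 (by linarith)
      have h7 : Real.exp (a k + (Λ - M) + 1) = Real.exp (a k + (Λ - M)) * Real.exp 1 := Real.exp_add _ _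
      have h8 : (2 : ℝ) ≤ Real.exp 1 := by
        have := Real.add_one_le_exp (1 : ℝ)
        linarith
      have h9 := mul_le_mul_of_nonneg_left h8 (Real.exp_pos (a k + (Λ - M))).le
      rw [h7]
      linarith
    have h5 := Real.exp_le_exp.1 h4
    linarith
  have h2 := Finset.sum_le_sum key
  have h3 : ∑ k ∈ S, gb μ η m k * ((M - 1) - a k) = (M - 1) * ∑ k ∈ S, gb μ η m k - ∑ k ∈ S, gb μ η m k * a k := by
    rw [Finset.mul_sum, ← Finset.sum_sub_distrib]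
    exact Finset.sum_congr rfl fun k _ => by ring
  rw [h3] at h2
  have h4 := mul_le_mul_of_nonneg_left hm (show (0 : ℝ) ≤ M - 1 by linarith)
  linarith

/-- The ends on the left. -/
def SL0 (m : ℕ) : Finset ℤ := (Finset.Icc (0 : ℤ) m).filter fun k => k ≤ md m

theorem SL0_sub (m : ℕ) : SL0 m ⊆ Finset.Icc (0 : ℤ) m := Finset.filter_subset _ _

theorem gb_mirror [IsProbabilityMeasure μ] (m : ℕ) (k : ℤ) (η : Env) :
    gb μ (fun p => η (p.1, p.1 - p.2)) m (m - k) = gb μ η m k := by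
  have hZ : ∀ y : ℤ, Zr Set.univ (fun p => η (p.1, p.1 - p.2)) 0 m (m - y) = Zr Set.univ η 0 m y := by
    intro y
    have := Zr_mirror η m y 0 0
    rw [sub_zero] at this
    exact this
  have hW : ∀ y : ℤ, W μ 0 (fun p => η (p.1, p.1 - p.2)) 0 m (m - y) = W μ 0 η 0 m y := by
    intro y
    unfold W WR
    rw [hZ]
    simp
  unfold gb
  have hV : Real.exp (V μ 0 (fun p => η (p.1, p.1 - p.2)) 0 m) = Real.exp (V μ 0 η 0 m) := by
    rw [exp_V, exp_V]
    unfold WS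
    refine Finset.sum_nbij' (fun y => (m : ℤ) - y) (fun y => (m : ℤ) - y) ?_ ?_ ?_ ?_ ?_
    · intro y hy
      rw [Finset.mem_Icc] at hy ⊢
      omega
    · intro y hy
      rw [Finset.mem_Icc] at hy ⊢
      omega
    · intro y _
      ring
    · intro y _
      ring
    · intro y _
      have h := hW ((m : ℤ) - y)
      rw [sub_sub_cancel] at h
      exact h
  rw [hW, hV]

theorem mass_mean [IsProbabilityMeasure μ] (hEM : Pool.Agent.W_7d29a1_h47.EM μ) (m : ℕ) :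
    1 / 2 ≤ ∫ η, ∑ k ∈ SL0 m, gb μ η m k ∂(law μ) := by
  have hsub : Sub fun η => ∑ k ∈ SL0 m, gb μ η m k := Sub.sum _ fun k hk => Sub_gb m (SL0_sub m hk)
  have h1 : ∫ η, ∑ k ∈ SL0 m, gb μ (fun p => η (p.1, p.1 - p.2)) m k ∂(law μ) =
      ∫ η, ∑ k ∈ SL0 m, gb μ η m k ∂(law μ) :=
    Pool.Agent.W_7d29a1_f21.mp_integral (mp_mirror (μ := μ))
      (F := fun η : Env => ∑ k ∈ SL0 m, gb μ η m k) hsub.1.aestronglyMeasurable
  have hsub2 : Sub fun η => ∑ k ∈ (Finset.Icc (0 : ℤ) m).filter (fun k => (m : ℤ) ≤ k + md m), gb μ η m k :=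
    Sub.sum _ fun k hk => Sub_gb m (Finset.filter_subset _ _ hk)
  have h2 : ∫ η, ∑ k ∈ SL0 m, gb μ (fun p => η (p.1, p.1 - p.2)) m k ∂(law μ) =
      ∫ η, ∑ k ∈ (Finset.Icc (0 : ℤ) m).filter (fun k => (m : ℤ) ≤ k + md m), gb μ η m k ∂(law μ) := by
    refine integral_congr_ae (Filter.Eventually.of_forall fun η => ?_)
    show ∑ k ∈ SL0 m, gb μ (fun p => η (p.1, p.1 - p.2)) m k = _
    refine Finset.sum_nbij' (fun y => (m : ℤ) - y) (fun y => (m : ℤ) - y) ?_ ?_ ?_ ?_ ?_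
    · intro y hy
      unfold SL0 at hy
      rw [Finset.mem_filter, Finset.mem_Icc] at hy ⊢
      omega
    · intro y hy
      unfold SL0
      rw [Finset.mem_filter, Finset.mem_Icc] at hy ⊢
      omega
    · intro y _
      ring
    · intro y _
      ring
    · intro y _
      have h := gb_mirror (μ := μ) m ((m : ℤ) - y) η
      rw [sub_sub_cancel] at h
      exact h
  have h3 : ∀ η : Env, (1 : ℝ) ≤ ∑ k ∈ SL0 m, gb μ η m k +
      ∑ k ∈ (Finset.Icc (0 : ℤ) m).filter (fun k => (m : ℤ) ≤ k + md m), gb μ η m k := by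
    intro η
    rw [← gb_sum (μ := μ) η m]
    have h4 : Finset.Icc (0 : ℤ) m ⊆ SL0 m ∪ (Finset.Icc (0 : ℤ) m).filter (fun k => (m : ℤ) ≤ k + md m) := by
      intro k hk
      rw [Finset.mem_union]
      unfold SL0
      rw [Finset.mem_filter, Finset.mem_filter]
      by_cases h5 : k ≤ md m
      · exact Or.inl ⟨hk, h5⟩
      · refine Or.inr ⟨hk, ?_⟩
        unfold md at h5 ⊢
        omega
    refine (Finset.sum_le_sum_of_subset_of_nonneg h4 fun k _ _ => gb_nonneg η m k).trans ?_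
    have h6 := Finset.sum_union_inter (s₁ := SL0 m)
      (s₂ := (Finset.Icc (0 : ℤ) m).filter (fun k => (m : ℤ) ≤ k + md m)) (f := fun k => gb μ η m k)
    have h7 : 0 ≤ ∑ k ∈ SL0 m ∩ (Finset.Icc (0 : ℤ) m).filter (fun k => (m : ℤ) ≤ k + md m), gb μ η m k :=
      Finset.sum_nonneg fun k _ => gb_nonneg η m k
    linarith
  have h4 : ∫ _η : Env, (1 : ℝ) ∂(law μ) ≤ ∫ η, (∑ k ∈ SL0 m, gb μ η m k +
      ∑ k ∈ (Finset.Icc (0 : ℤ) m).filter (fun k => (m : ℤ) ≤ k + md m), gb μ η m k) ∂(law μ) :=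
    integral_mono (integrable_const _) ((hsub.integrable hEM).add (hsub2.integrable hEM)) h3
  rw [integral_add (hsub.integrable hEM) (hsub2.integrable hEM), ← h2, h1] at h4
  have h5 : ∫ _η : Env, (1 : ℝ) ∂(law μ) = 1 := by simp
  rw [h5] at h4
  linarith

theorem mass_prob [IsProbabilityMeasure μ] (hEM : Pool.Agent.W_7d29a1_h47.EM μ) (m : ℕ) :
    1 / 3 ≤ (law μ).real {η | 1 / 4 ≤ ∑ k ∈ SL0 m, gb μ η m k} := by
  have hsub : Sub fun η => ∑ k ∈ SL0 m, gb μ η m k := Sub.sum _ fun k hk => Sub_gb m (SL0_sub m hk)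
  have h1 := mass_mean (μ := μ) hEM m
  obtain ⟨A, hA⟩ : ∃ A : Set Env, A = {η | 1 / 4 ≤ ∑ k ∈ SL0 m, gb μ η m k} := ⟨_, rfl⟩
  have hAm : MeasurableSet A := by
    rw [hA]
    exact measurableSet_le measurable_const hsub.1
  have h2 : ∀ η : Env, ∑ k ∈ SL0 m, gb μ η m k ≤ 1 / 4 + 3 / 4 * A.indicator (fun _ => (1 : ℝ)) η := by
    intro η
    have h3 : ∑ k ∈ SL0 m, gb μ η m k ≤ 1 := by
      rw [← gb_sum (μ := μ) η m]
      exact Finset.sum_le_sum_of_subset_of_nonneg (SL0_sub m) fun k _ _ => gb_nonneg η m k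
    by_cases h4 : η ∈ A
    · rw [Set.indicator_of_mem h4]
      linarith
    · rw [Set.indicator_of_notMem h4]
      rw [hA] at h4
      have h5 : ¬(1 / 4 ≤ ∑ k ∈ SL0 m, gb μ η m k) := h4
      linarith
  have hi : Integrable (A.indicator fun _ => (1 : ℝ)) (law μ) := (integrable_const _).indicator hAm
  have h3 := integral_mono (hsub.integrable hEM) ((integrable_const (1 / 4 : ℝ)).add (hi.const_mul (3 / 4))) h2
  have h4 : ∫ η, ((fun _ : Env => (1 / 4 : ℝ)) + fun η => 3 / 4 * A.indicator (fun _ => (1 : ℝ)) η) η ∂(law μ) =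
      1 / 4 + 3 / 4 * (law μ).real A := by
    show ∫ η, (1 / 4 + 3 / 4 * A.indicator (fun _ => (1 : ℝ)) η) ∂(law μ) = _
    rw [integral_add (integrable_const _) (hi.const_mul _), integral_const_mul, integral_indicator hAm]
    simp [Measure.real]
  rw [h4] at h3
  rw [← hA]
  linarith

end

end Pool.Agent.W_7d29a1_NR
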