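import Pool.Agent.W_7d29a1_NR.Gap43
import Pool.Agent.W_7d29a1_UC.MainW43

/-!
Theorem MON (helper43): the variance of the free energy is monotone up to a subpolynomial factor.
-/

namespace Pool.Agent.W_7d29a1_NR

open MeasureTheory ProbabilityTheory Filter Topology Pool.Agent.W_MP_7d29a1_pr
  Pool.Agent.W_7d29a1_h46 Pool.Agent.W_7d29a1_h46u Pool.Agent.W_7d29a1_D2.B35
  Pool.Agent.W_7d29a1_Q29 Pool.Agent.W_7d29a1_R34 Pool.Agent.W_7d29a1_SP
open Pool.Agent.W_7d29a1_UC (DeepP laterV43 sprV43 Va_zero43)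
open Pool.Agent.W_7d29a1_AM (AmpU)

variable {d : ℕ} {ρ : Measure ℝ} [IsProbabilityMeasure ρ] {β C₀ : ℝ} {W : ℕ → ℝ}

/-- **THEOREM MON**: the variance is monotone up to a subpolynomial factor, from the gain of the
concatenations. -/
theorem mon43 (hd : 0 < d) (hρ : EM ρ) (h2 : AmpU ρ β d) (h3 : DeepP d ρ β) (hC₀ : 0 ≤ C₀)
    (hW : ∀ k, 0 ≤ W k) (hC : CoreW d ρ β C₀ W) : ∃ C : ℝ, 1 ≤ C ∧ ∀ (h : Vec d) (k m : ℕ),
      Va ρ β h k ≤ C * (W m ^ 2 + Real.log (k + 2) ^ 2) * (Va ρ β h (k + m) + 1) := by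
  obtain ⟨Λ, hΛ⟩ : ∃ Λ : ℝ, Λ = 2 * (C₀ + 1) := ⟨_, rfl⟩
  obtain ⟨c, S, B, hc, hS, hB, hspr⟩ := sprV43 hd hρ h2 h3 Λ (by linarith)
  have l2 : 0 < Real.log 2 := Real.log_pos (by norm_num)
  obtain ⟨E, hE⟩ : ∃ E : ℝ, E = (1 + Real.log B) / Real.log 2 + 1 := ⟨_, rfl⟩
  have hlB : 0 ≤ Real.log B := Real.log_nonneg hB
  have hE1 : 1 ≤ E := by
    rw [hE]
    have : 0 ≤ (1 + Real.log B) / Real.log 2 := by positivity
    linarith
  refine ⟨2 + S / Real.log 2 ^ 2 + 4 * E ^ 2 / c, ?_, fun h k m => ?_⟩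
  · have h1 : 0 ≤ S / Real.log 2 ^ 2 := by positivity
    have h2 : 0 ≤ 4 * E ^ 2 / c := by positivity
    linarith
  obtain ⟨T, hT⟩ : ∃ T : ℝ, T = 2 + S / Real.log 2 ^ 2 + 4 * E ^ 2 / c := ⟨_, rfl⟩
  rw [← hT]
  have q1 : 0 ≤ S / Real.log 2 ^ 2 := by positivity
  have q2 : 0 ≤ 4 * E ^ 2 / c := by positivity
  have hT2 : 2 ≤ T := by linarith
  have hTS : S / Real.log 2 ^ 2 ≤ T := by linarith
  have hTE : 4 * E ^ 2 / c ≤ T := by linarith
  have hVn : 0 ≤ Va ρ β h (k + m) := integral_nonneg fun η => sq_nonneg _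
  have hVk : 0 ≤ Va ρ β h k := integral_nonneg fun η => sq_nonneg _
  have hk0 : (0 : ℝ) ≤ k := Nat.cast_nonneg k
  have hlk : Real.log 2 ≤ Real.log (k + 2) := Real.log_le_log (by norm_num) (by linarith)
  have hlk0 : 0 ≤ Real.log ((k : ℝ) + 2) := by linarith
  have hlk2 : Real.log 2 ^ 2 ≤ Real.log (k + 2) ^ 2 := pow_le_pow_left₀ l2.le hlk 2
  have hW2 : 0 ≤ W m ^ 2 := sq_nonneg _
  have hL2 : 0 ≤ Real.log ((k : ℝ) + 2) ^ 2 := sq_nonneg _
  -- the trivial cases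
  have hbig : ∀ v : ℝ, v ≤ S → v ≤ T * (W m ^ 2 + Real.log (k + 2) ^ 2) * (Va ρ β h (k + m) + 1) := by
    intro v hv
    have h1 : S ≤ T * Real.log (k + 2) ^ 2 := by
      have h2 : S = S / Real.log 2 ^ 2 * Real.log 2 ^ 2 := by field_simp
      rw [h2]
      exact mul_le_mul hTS hlk2 (by positivity) (by linarith)
    have h2 : T * Real.log (k + 2) ^ 2 ≤ T * (W m ^ 2 + Real.log (k + 2) ^ 2) :=
      mul_le_mul_of_nonneg_left (by linarith) (by linarith)
    have h3 : 0 ≤ T * (W m ^ 2 + Real.log (k + 2) ^ 2) := by positivity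
    nlinarith
  rcases Nat.eq_zero_or_pos k with hk | hk
  · refine hbig _ ?_
    rw [hk, Va_zero43]
    linarith
  rcases le_total (Va ρ β h k) S with hVS | hVS
  · exact hbig _ hVS
  obtain ⟨σ, hσ⟩ : ∃ σ : ℝ, σ = Real.sqrt (Va ρ β h k) := ⟨_, rfl⟩
  have hσV : σ ^ 2 = Va ρ β h k := by rw [hσ]; exact Real.sq_sqrt hVk
  have hσ0 : 0 < σ := by rw [hσ]; exact Real.sqrt_pos.2 (by linarith)
  obtain ⟨s, hs⟩ : ∃ s : ℝ, s = Real.sqrt (Va ρ β h (k + m)) := ⟨_, rfl⟩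
  have hsV : s ^ 2 = Va ρ β h (k + m) := by rw [hs]; exact Real.sq_sqrt hVn
  have hs0 : 0 ≤ s := by rw [hs]; exact Real.sqrt_nonneg _
  have hgap := gapW43 hd hρ hW hC h m k
  have hgap' : A ρ β h (k + m) - A ρ β h k - A ρ β h m ≤ C₀ * σ + W m * (s + 1) := by
    have e1 : A ρ β h (k + m) - A ρ β h k - A ρ β h m =
        A ρ β h (m + k) - A ρ β h m - A ρ β h k := by rw [Nat.add_comm k m]; ring
    have e2 : Sg ρ β h k = σ := by rw [hσ]; rfl
    have e3 : Sg ρ β h (m + k) = s := by rw [hs, Nat.add_comm k m]; rfl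
    rw [e1, ← e2, ← e3]
    exact hgap
  rcases le_total (W m * (s + 1)) σ with hR | hR
  · -- the luck of the first block is not eaten
    obtain ⟨x, hx1, hx2⟩ := hspr h k hk hVS
    rw [← hσ] at hx1
    have hx0 : 0 < x := lt_of_lt_of_le (by rw [hΛ]; positivity) hx1
    have hlat := laterV43 hd hρ β h k m x (C₀ * σ + σ) hx0 (hgap'.trans (by linarith)) (by
      refine le_trans (le_of_eq ?_) hx1
      rw [hΛ]
      ring)
    have h5 : c * Va ρ β h k / (1 + Real.log (B * k)) ^ 2 ≤ 4 * Va ρ β h (k + m) := by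
      refine hx2.trans ?_
      calc x ^ 2 * (law d ρ).real {η | A ρ β h k + x ≤ X β h η k} =
          4 * (x ^ 2 / 4 * (law d ρ).real {η | A ρ β h k + x ≤ X β h η k}) := by ring
        _ ≤ _ := mul_le_mul_of_nonneg_left hlat (by norm_num)
    have hk1 : (1 : ℝ) ≤ k := by exact_mod_cast hk
    have h6 : 0 ≤ Real.log (B * k) := Real.log_nonneg (by nlinarith)
    have h7 : 1 + Real.log (B * k) ≤ E * Real.log (k + 2) := by
      rw [Real.log_mul (by linarith) (by linarith)]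
      have h8 : Real.log k ≤ Real.log (k + 2) := Real.log_le_log (by linarith) (by linarith)
      have h9 : 1 + Real.log B ≤ (1 + Real.log B) / Real.log 2 * Real.log (k + 2) := by
        calc 1 + Real.log B = (1 + Real.log B) / Real.log 2 * Real.log 2 := by field_simp
          _ ≤ _ := mul_le_mul_of_nonneg_left hlk (by positivity)
      rw [hE, add_mul, one_mul]
      linarith
    have h8 : (1 + Real.log (B * k)) ^ 2 ≤ E ^ 2 * Real.log (k + 2) ^ 2 := by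
      rw [← mul_pow]
      exact pow_le_pow_left₀ (by linarith) h7 2
    rw [div_le_iff₀ (by positivity)] at h5
    have h9 : c * Va ρ β h k ≤ 4 * Va ρ β h (k + m) * (E ^ 2 * Real.log (k + 2) ^ 2) :=
      h5.trans (mul_le_mul_of_nonneg_left h8 (by linarith))
    have h10 : Va ρ β h k ≤ 4 * E ^ 2 / c * Real.log (k + 2) ^ 2 * Va ρ β h (k + m) := by
      have e1 : 4 * E ^ 2 / c * Real.log (k + 2) ^ 2 * Va ρ β h (k + m) =
          4 * Va ρ β h (k + m) * (E ^ 2 * Real.log (k + 2) ^ 2) / c := by ring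
      rw [e1, le_div_iff₀ hc]
      linarith
    refine h10.trans ?_
    refine mul_le_mul (mul_le_mul hTE (by linarith) hL2 (by linarith)) (by linarith) hVn
      (by positivity)
  · -- the deviation is large
    have h5 : Va ρ β h k ≤ (W m * (s + 1)) ^ 2 := by
      rw [← hσV]
      exact pow_le_pow_left₀ hσ0.le hR 2
    have h6 : (s + 1) ^ 2 ≤ 2 * (Va ρ β h (k + m) + 1) := by
      rw [← hsV]
      nlinarith [sq_nonneg (s - 1)]
    calc Va ρ β h k ≤ W m ^ 2 * (s + 1) ^ 2 := by rw [← mul_pow]; exact h5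
      _ ≤ W m ^ 2 * (2 * (Va ρ β h (k + m) + 1)) := mul_le_mul_of_nonneg_left h6 hW2
      _ = 2 * W m ^ 2 * (Va ρ β h (k + m) + 1) := by ring
      _ ≤ T * (W m ^ 2 + Real.log (k + 2) ^ 2) * (Va ρ β h (k + m) + 1) := by
          refine mul_le_mul_of_nonneg_right ?_ (by linarith)
          exact mul_le_mul hT2 (by linarith) hW2 (by linarith)

end Pool.Agent.W_7d29a1_NR
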