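import Pool.Agent.W_7d29a1_NR.NonRandA
import Pool.Agent.W_7d29a1_SL.Sep
import Pool.Agent.W_7d29a1_SL.Hsl

/-!
THE NON RANDOM FLUCTUATION of `log Z_n` is of the order of the unit (MP_7d29a1_pr): with `b n = n λ - E log Z_n`,
`2 b n - b (2 n) ≥ c' EE n` and `c' EE n ≤ b n ≤ EE n`. (helper87)
-/

namespace Pool.Agent.W_7d29a1_NR

open MeasureTheory ProbabilityTheory Filter Topology
open Pool.Agent.W_7d29a1_F Pool.Agent.W_7d29a1_h4g Pool.Agent.W_7d29a1_G Pool.Agent.W_7d29a1_L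
open Pool.Agent.W_7d29a1_SL Pool.Agent.W_7d29a1_SR

noncomputable section

variable {μ : Measure ℝ} [IsProbabilityMeasure μ] {c C : ℝ} {n₀ : ℕ}

/-- **THE GAP OF SUPERADDITIVITY** of `E log Z_n` between the scales `m` and `2 m`. -/
theorem gap (h : In μ c C n₀) : ∃ c' : ℝ, 0 < c' ∧ ∃ n₁ : ℕ, ∀ m : ℕ, n₁ ≤ m →
    2 * ∫ η, V μ 0 η 0 m ∂(law μ) + c' * EE μ m ≤ ∫ η, V μ 0 η 0 (m + m) ∂(law μ) := gap_of h (hsl h)

/-- **THE NON RANDOM FLUCTUATION** `n λ - E log Z_n` is exactly of the order of the unit. -/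
theorem nonrand (h : In μ c C n₀) : ∃ c' : ℝ, 0 < c' ∧ ∃ n₁ : ℕ, ∀ m : ℕ, n₁ ≤ m →
    c' * EE μ m ≤ -∫ η, V μ 0 η 0 m ∂(law μ) ∧ -∫ η, V μ 0 η 0 m ∂(law μ) ≤ EE μ m := by
  obtain ⟨c', hc', n₁, hg⟩ := gap h
  refine ⟨c' / 2, by positivity, n₁, fun m hm => ⟨?_, ?_⟩⟩
  · have h1 := hg m hm
    have h2 := integral_V_nonpos (μ := μ) h.em 0 (m + m)
    linarith
  · have h1 := mean_neg_V (μ := μ) h.em (le_refl m)
    have h2 : ∫ η, -V μ 0 η 0 m ∂(law μ) ≤ ∫ η, max (-V μ 0 η 0 m) 0 ∂(law μ) :=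
      integral_mono ((Sub_V (μ := μ) (s := 0) 0 m).neg.integrable h.em)
        (((Sub_V (μ := μ) (s := 0) 0 m).neg.max (Sub.const 0)).integrable h.em) fun η => le_max_left _ _
    rw [integral_neg] at h2
    linarith

end

end Pool.Agent.W_7d29a1_NR
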