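import Pool.Agent.W_7d29a1_NR.Step
import Pool.Agent.W_7d29a1_SL.SepBad
import Pool.Agent.W_7d29a1_SL.Strip

/-!
THE NON RANDOM FLUCTUATION of `log Z_n` is of the order of the unit (MP_7d29a1_pr): with `b n = n λ - E log Z_n`,
`2 b n - b (2 n) ≥ c' EE n` and `c' EE n ≤ b n ≤ EE n`. (helper87) First part: the gap, from the decrease of the slope (hypothesis
`hH`, `SL/Hsl`).
-/

namespace Pool.Agent.W_7d29a1_NR

open MeasureTheory ProbabilityTheory Filter Topology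
open Pool.Agent.W_7d29a1_F Pool.Agent.W_7d29a1_h4g Pool.Agent.W_7d29a1_G Pool.Agent.W_7d29a1_L
open Pool.Agent.W_7d29a1_SL Pool.Agent.W_7d29a1_SR

noncomputable section

variable {μ : Measure ℝ} [IsProbabilityMeasure μ] {c C : ℝ} {n₀ : ℕ}

/-- The gap of superadditivity of `E log Z_n` between the scales `m` and `2 m`. -/
theorem gap_of (h : In μ c C n₀) (hH : ∀ B : ℝ, ∃ J n₁ : ℕ, ∀ m d : ℕ, n₁ ≤ d → 2 ^ J * d ≤ m →
    B * EE μ m * wd μ d ≤ EE μ d * wd μ m) : ∃ c' : ℝ, 0 < c' ∧ ∃ n₁ : ℕ, ∀ m : ℕ, n₁ ≤ m →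
    2 * ∫ η, V μ 0 η 0 m ∂(law μ) + c' * EE μ m ≤ ∫ η, V μ 0 η 0 (m + m) ∂(law μ) := by
  have hc0 := h.c0
  have hc1 := h.c1
  have hC1 := h.C1
  have hC0 : 0 < C := lt_of_lt_of_le one_pos hC1
  obtain ⟨R₁, hR₁, hstrip⟩ := strip h
  obtain ⟨R, C', hR, hC', nB, hvert⟩ := vert_bd h
  obtain ⟨nL, hluck⟩ := luck_side h
  obtain ⟨nW, hwg⟩ := wd_growth h
  obtain ⟨B, hB⟩ : ∃ B : ℝ, B = 16 * (R + R₁ + 1) / c := ⟨_, rfl⟩
  have hB0 : 0 < B := by rw [hB]; positivity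
  obtain ⟨J3, nC, hJ3⟩ := scale_a h B
  obtain ⟨K3, hK3⟩ : ∃ K3 : ℕ, K3 = 2 ^ J3 := ⟨_, rfl⟩
  have hK31 : 1 ≤ K3 := hK3 ▸ Nat.one_le_two_pow
  obtain ⟨b2, hb2⟩ : ∃ b2 : ℝ, b2 = 100 * C := ⟨_, rfl⟩
  obtain ⟨b3, hb3⟩ : ∃ b3 : ℝ, b3 = 100 * ((4 * K3 : ℕ) * C') := ⟨_, rfl⟩
  have hK3r : (0 : ℝ) < K3 := by exact_mod_cast hK31
  have hb2p : 0 < b2 := by rw [hb2]; positivity
  have hb3p : 0 < b3 := by rw [hb3]; push_cast; positivity
  obtain ⟨C3, hC3⟩ : ∃ C3 : ℝ, C3 = 100 * (C + 1) := ⟨_, rfl⟩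
  have hC3p : 0 < C3 := by rw [hC3]; positivity
  obtain ⟨M1, hM1⟩ : ∃ M1 : ℝ, M1 = 100 * (4 + 2 * (C * C)) := ⟨_, rfl⟩
  have hM1p : 0 < M1 := by rw [hM1]; positivity
  obtain ⟨M, hM⟩ : ∃ M : ℝ, M = 4 * (M1 + 3) := ⟨_, rfl⟩
  have hMp : 0 < M := by rw [hM]; positivity
  obtain ⟨b, hb⟩ : ∃ b : ℝ, b = 400 * C := ⟨_, rfl⟩
  have hbp : 0 < b := by rw [hb]; positivity
  obtain ⟨B0, hB0'⟩ : ∃ B0 : ℝ, B0 = (M + C3 + b2 + b3 + (C + 2)) * (32 / c ^ 2) := ⟨_, rfl⟩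
  obtain ⟨J1, nD, hJ1⟩ := hH B0
  obtain ⟨J2, nD2, hJ2⟩ := scale_a h 64
  obtain ⟨J0, hJ0e⟩ : ∃ J0 : ℕ, J0 = J1 + J2 := ⟨_, rfl⟩
  obtain ⟨Q, hQ⟩ : ∃ Q : ℕ, Q = 2 ^ (J0 + 3) * (2 * K3) := ⟨_, rfl⟩
  have hQ1 : 1 ≤ Q := by
    rw [hQ]
    exact Nat.one_le_iff_ne_zero.2 (by positivity)
  have hQr : (0 : ℝ) < Q := by exact_mod_cast hQ1
  obtain ⟨K', hK'⟩ : ∃ K' : ℝ, K' = (M + C3 + b) * (4 * Q) := ⟨_, rfl⟩
  obtain ⟨p, hp, nE, hS⟩ := hstrip K'
  obtain ⟨nF, hwd⟩ := (tendsto_atTop.1 (wd_tendsto h) (40 / c)).exists_forall_of_atTop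
  obtain ⟨nG, hEEr⟩ := (tendsto_atTop.1 h.tE 1).exists_forall_of_atTop
  obtain ⟨nI, hvA⟩ := eventually_atTop.1 (h.tv.eventually_le_const (show (0 : ℝ) < 1 by norm_num))
  -- the threshold for τ
  obtain ⟨M0, hM0⟩ : ∃ M0 : ℕ, M0 = nB + nC + nE + nF + nG + nI + nW + nD + n₀ + 1 := ⟨_, rfl⟩
  refine ⟨p / 4, by positivity, Q * M0 + nL + nD2 + nW + Q, fun m hm => ?_⟩
  obtain ⟨τ, hτ⟩ : ∃ τ : ℕ, τ = m / Q := ⟨_, rfl⟩
  have hmQ : Q * M0 ≤ m := by omega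
  have hτM : M0 ≤ τ := by
    rw [hτ]
    exact (Nat.le_div_iff_mul_le (by omega)).2 (by rw [mul_comm]; exact hmQ)
  have hτQ : Q * τ ≤ m := by
    rw [hτ]
    exact Nat.mul_div_le m Q
  have hτQ2 : m < Q * (τ + 1) := by
    rw [hτ]
    exact Nat.lt_mul_div_succ m (by omega)
  obtain ⟨ρ, hρ⟩ : ∃ ρ : ℕ, ρ = K3 * τ := ⟨_, rfl⟩
  obtain ⟨r, hr⟩ : ∃ r : ℕ, r = 2 * ρ := ⟨_, rfl⟩
  have hτρ : τ ≤ ρ := by
    rw [hρ]
    exact Nat.le_mul_of_pos_left τ (by omega)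
  have hτr : τ ≤ r := by omega
  have hQr2 : Q * τ = 2 ^ (J0 + 3) * r := by
    rw [hQ, hr, hρ]
    ring
  have hrmG : ∀ j : ℕ, j ≤ J0 + 3 → 2 ^ j * r ≤ m := by
    intro j hj
    have h1 : 2 ^ j * r ≤ 2 ^ (J0 + 3) * r := Nat.mul_le_mul_right r (Nat.pow_le_pow_right (by norm_num) hj)
    omega
  have hrm8 : 8 * r ≤ m := hrmG 3 (by omega)
  have hτ1 : 1 ≤ τ := by omega
  have hrm : r ≤ m := by omega
  have hEm := EE_pos (μ := μ) m
  have hErp := EE_pos (μ := μ) r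
  have hEτp := EE_pos (μ := μ) τ
  have hmono := EE_mono (μ := μ)
  -- the scales
  have s1 : B * EE μ τ ≤ EE μ r := hJ3 τ r (by omega) (by
    rw [hr, hρ, ← hK3]
    have : 1 * (K3 * τ) ≤ 2 * (K3 * τ) := Nat.mul_le_mul_right _ (by norm_num)
    omega)
  have s2 : 64 * EE μ r ≤ EE μ m := hJ2 r m (by omega) (hrmG J2 (by omega))
  have s2' : B0 * EE μ m * wd μ r ≤ EE μ r * wd μ m := hJ1 m r (by omega) (hrmG J1 (by omega))
  have s3 : wd μ τ * EE μ r ≤ 2 * EE μ τ * wd μ r := hwg τ r (by omega) hτr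
  have s4 : wd μ r * EE μ m ≤ 2 * EE μ r * wd μ m := hwg r m (by omega) hrm
  have s5 : EE μ m ≤ 4 * Q * EE μ τ := by
    have h1 := scale_b h hτ1 (show τ ≤ m by omega)
    have h2 : (m : ℝ) ≤ 2 * Q * τ := by
      have h3 : m ≤ 2 * Q * τ := by
        have h4 : Q * (τ + 1) ≤ 2 * Q * τ := by
          have : Q * 1 ≤ Q * τ := Nat.mul_le_mul_left Q hτ1
          calc Q * (τ + 1) = Q * τ + Q * 1 := by ring
            _ ≤ Q * τ + Q * τ := by omega
            _ = 2 * Q * τ := by ring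
        omega
      exact_mod_cast h3
    have hτr0 : (0 : ℝ) < τ := by exact_mod_cast hτ1
    have h3 : (τ : ℝ) * EE μ m ≤ τ * (4 * Q * EE μ τ) := by
      refine h1.trans ?_
      have h4 := mul_le_mul_of_nonneg_right h2 hEτp.le
      calc 2 * ((m : ℝ) * EE μ τ) ≤ 2 * (2 * Q * τ * EE μ τ) := by linarith
        _ = τ * (4 * Q * EE μ τ) := by ring
    exact le_of_mul_le_mul_left h3 hτr0
  have hwτ : 0 < wd μ τ := lt_of_lt_of_le (by positivity) (hwd τ (by omega))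
  have hw40 : ∀ k : ℕ, nF ≤ k → 40 ≤ c * wd μ k := by
    intro k hk
    have := hwd k hk
    rw [div_le_iff₀ hc0] at this
    linarith
  have hwr40 := hw40 r (by omega)
  have hwm40 := hw40 m (by omega)
  have hwr : 0 < wd μ r := by
    by_contra hh
    have : c * wd μ r ≤ 0 := mul_nonpos_of_nonneg_of_nonpos hc0.le (not_lt.1 hh)
    linarith
  have hwm : 0 < wd μ m := lt_of_lt_of_le (by positivity) (hwd m (by omega))
  have s6 : (R + R₁ + 1) * wd μ τ ≤ c * wd μ r / 8 := by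
    have h1 : wd μ τ * (B * EE μ τ) ≤ 2 * EE μ τ * wd μ r := (mul_le_mul_of_nonneg_left s1 hwτ.le).trans s3
    have h2 : (wd μ τ * B) * EE μ τ ≤ (2 * wd μ r) * EE μ τ := by linarith
    have h3 := le_of_mul_le_mul_right h2 hEτp
    rw [hB] at h3
    have h4 : (R + R₁ + 1) * wd μ τ = wd μ τ * (16 * (R + R₁ + 1) / c) * (c / 16) := by
      field_simp
    rw [h4]
    have h5 := mul_le_mul_of_nonneg_right h3 (show (0 : ℝ) ≤ c / 16 by positivity)
    linarith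
  have s7 : wd μ r ≤ wd μ m / 32 := by
    have h2 : wd μ r * (64 * EE μ r) ≤ 2 * EE μ r * wd μ m := (mul_le_mul_of_nonneg_left s2 hwr.le).trans s4
    have h3 : (wd μ r * 64) * EE μ r ≤ (2 * wd μ m) * EE μ r := by linarith
    have h4 := le_of_mul_le_mul_right h3 hErp
    linarith
  -- the displacement
  obtain ⟨L, hL⟩ : ∃ L : ℤ, L = ⌊c * wd μ m / 8⌋ := ⟨_, rfl⟩
  have hL2 : (L : ℝ) ≤ c * wd μ m / 8 := by rw [hL]; exact Int.floor_le _
  have hL1 : c * wd μ m / 16 ≤ L := by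
    have h1 : c * wd μ m / 8 < L + 1 := by rw [hL]; exact Int.lt_floor_add_one _
    linarith
  have hwle : ∀ k : ℕ, nI ≤ k → wd μ k ≤ k := by
    intro k hk
    unfold wd
    have h3 := hvA k hk
    have h4 : (0 : ℝ) ≤ k := Nat.cast_nonneg k
    calc vA μ 1 k * k ≤ 1 * k := mul_le_mul_of_nonneg_right h3 h4
      _ = k := one_mul _
  have hL0 : 0 ≤ L := by
    have h1 : (0 : ℝ) ≤ L := le_trans (by positivity) hL1
    exact_mod_cast h1
  have hLm : 2 * L ≤ m := by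
    have h1 : (2 : ℝ) * L ≤ m := by
      have h2 := hwle m (by omega)
      have h3 : c * wd μ m ≤ 1 * wd μ m := mul_le_mul_of_nonneg_right hc1 hwm.le
      linarith
    exact_mod_cast h1
  obtain ⟨D, hD⟩ : ∃ D : ℤ, D = ⌊c * wd μ r / 4⌋ := ⟨_, rfl⟩
  have hD1 : (D : ℝ) ≤ c * wd μ r / 4 := by rw [hD]; exact Int.floor_le _
  have hD2 : c * wd μ r / 4 < D + 1 := by rw [hD]; exact Int.lt_floor_add_one _
  have hD0 : 0 ≤ D := by
    rw [hD]
    exact Int.floor_nonneg.2 (by positivity)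
  have hRτ : 0 ≤ R * wd μ τ := mul_nonneg hR hwτ.le
  have hR₁τ : 0 < R₁ * wd μ τ := mul_pos (by linarith) hwτ
  have hDa : R * wd μ τ + 3 + R₁ * wd μ τ ≤ D := by
    have : (R + R₁ + 1) * wd μ τ = R * wd μ τ + R₁ * wd μ τ + wd μ τ := by ring
    linarith
  have hDL : 4 * D ≤ L := by
    have h1 : (4 : ℝ) * D ≤ L := by
      have h2 : c * wd μ r ≤ c * wd μ m / 32 := by
        have := mul_le_mul_of_nonneg_left s7 hc0.le
        linarith
      linarith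
    exact_mod_cast h1
  have hDρ : 2 * D ≤ ρ := by
    have h1 : (2 : ℝ) * D ≤ ρ := by
      have h2 := hwle r (by omega)
      have h5 : (r : ℝ) = 2 * ρ := by rw [hr]; push_cast; ring
      have h6 : c * wd μ r ≤ 1 * wd μ r := mul_le_mul_of_nonneg_right hc1 hwr.le
      linarith
    exact_mod_cast h1
  -- the vertical path
  have hq : (4 * K3) * τ = 2 * r := by rw [hr, hρ]; ring
  have hq2 : ((2 * r : ℕ) : ℤ) / 2 = r := by push_cast; omega
  obtain ⟨hpos, hvb⟩ := hvert τ (by omega) (4 * K3) ((r : ℤ), (ρ : ℤ) + L - 2 * D) (Lw (ln L D)) (by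
    intro q hq1 hq2' hq3
    simp only at hq1 hq2' hq3
    show q.2 ≤ ln L D q.1
    unfold ln
    rw [abs_le] at hq3
    have hf : (q.1 : ℝ) - 1 ≤ 2 * ((q.1 / 2 : ℤ) : ℝ) := by
      have : q.1 - 1 ≤ 2 * (q.1 / 2) := by omega
      exact_mod_cast this
    have h5 : ((r : ℤ) : ℝ) = 2 * ρ := by rw [hr]; push_cast; ring
    have h6 := hq3.2
    push_cast at h6 h5
    have h7 : ((q.2 : ℤ) : ℝ) ≤ (((q.1 / 2 + (L - D) : ℤ)) : ℝ) := by
      push_cast
      linarith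
    exact_mod_cast h7) (by omega)
  rw [hq, hq2] at hpos hvb
  -- the event G
  obtain ⟨G, hG⟩ : ∃ G : Set Env, G = {η | K' * EE μ τ ≤ Real.log (cf μ (R₁ * wd μ τ) η (2 * (r : ℤ), (r : ℤ) + L) τ)} := ⟨_, rfl⟩
  have hGm : MeasurableSet G := by
    rw [hG]
    refine measurableSet_le measurable_const (Real.measurable_log.comp ?_)
    unfold cf
    exact Finset.measurable_sum _ fun y _ => measurable_WR _ _ _ _
  have hpG : p ≤ (law μ).real G := by
    rw [hG]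
    exact hS τ (by omega) _
  have hKE : (M + C3 + b) * EE μ m ≤ K' * EE μ τ := by
    rw [hK']
    have h1 : 0 ≤ M + C3 + b := by positivity
    have h2 := mul_le_mul_of_nonneg_left s5 h1
    linarith
  have hwR1 : 1 ≤ R₁ * wd μ τ := by
    have h1 := hwd τ (by omega)
    have h2 : (1 : ℝ) ≤ 40 / c := by
      rw [le_div_iff₀ hc0]
      linarith
    exact one_le_mul_of_one_le_of_one_le hR₁ (h2.trans h1)
  have hGpos : ∀ η ∈ G, 0 < ∑ y ∈ Finset.Icc (0 : ℤ) τ, WR μ 0 (Tu (R₁ * wd μ τ) r τ L) η (2 * (r : ℤ), (r : ℤ) + L) τ y := by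
    intro η _
    rw [← cf_eq_Tu]
    exact cf_pos hwR1 η _ τ
  have hGdep : ∀ η η' : Env, (∀ q ∈ Tu (R₁ * wd μ τ) r τ L, η q = η' q) → (η ∈ G ↔ η' ∈ G) := by
    intro η η' hh
    rw [hG, Set.mem_ofPred_eq, Set.mem_ofPred_eq, cf_eq_Tu, cf_eq_Tu]
    have h1 : ∀ y : ℤ, WR μ 0 (Tu (R₁ * wd μ τ) r τ L) η (2 * (r : ℤ), (r : ℤ) + L) τ y =
        WR μ 0 (Tu (R₁ * wd μ τ) r τ L) η' (2 * (r : ℤ), (r : ℤ) + L) τ y := fun y =>
      WR_dep (μ := μ) (s := 0) _ _ τ y fun q hq => hh q hq.2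
    simp only [h1]
  -- the numbers
  obtain ⟨th, hth⟩ : ∃ th : ℝ, th = c * EE μ r / wd μ r := ⟨_, rfl⟩
  have hEE1r := hEEr r (by omega)
  have hEE1m := hEEr m (by omega)
  have hErm : EE μ r ≤ EE μ m := hmono hrm
  have hEτr : EE μ τ ≤ EE μ r := hmono hτr
  have hthx : (M + C3 + b2 + b3 + (C + 2)) * EE μ m ≤ th * ((L : ℝ) - 2 * D) := by
    have h1 : c * wd μ m / 32 ≤ (L : ℝ) - 2 * D := by
      have h2 : (4 : ℝ) * D ≤ L := by exact_mod_cast hDL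
      linarith
    have h3 : 0 < th := by rw [hth]; positivity
    have h4 := mul_le_mul_of_nonneg_left h1 h3.le
    refine le_trans ?_ h4
    rw [hth, div_mul_eq_mul_div, le_div_iff₀ hwr]
    have h5 := mul_le_mul_of_nonneg_left s2' (show (0 : ℝ) ≤ c ^ 2 / 32 by positivity)
    have h6 : c ^ 2 / 32 * (B0 * EE μ m * wd μ r) = (M + C3 + b2 + b3 + (C + 2)) * EE μ m * wd μ r := by
      rw [hB0']
      field_simp
    rw [h6] at h5
    calc (M + C3 + b2 + b3 + (C + 2)) * EE μ m * wd μ r ≤ c ^ 2 / 32 * (EE μ r * wd μ m) := h5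
      _ = c * EE μ r * (c * wd μ m / 32) := by ring
  have hlo : lo ((r + τ : ℕ) : ℝ) ≤ (C + 2) * EE μ r := by
    have h1 : ((r + τ : ℕ) : ℝ) ≤ 2 * r := by
      have : r + τ ≤ 2 * r := by omega
      exact_mod_cast this
    have hr1 : (1 : ℝ) ≤ r := by exact_mod_cast (show 1 ≤ r by omega)
    have h2 : lo ((r + τ : ℕ) : ℝ) ≤ Real.log (4 * r) := by
      unfold lo
      refine Real.log_le_log (by positivity) ?_
      linarith
    rw [Real.log_mul (by norm_num) (by positivity)] at h2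
    have h3 := h.lg r (by omega)
    have h4 : Real.log 4 ≤ 2 := by
      have h5 : (4 : ℝ) = 2 * 2 := by norm_num
      rw [h5, Real.log_mul (by norm_num) (by norm_num)]
      linarith [Real.log_two_lt_d9]
    have h6 : (C + 2) * EE μ r = C * EE μ r + 2 * EE μ r := by ring
    rw [h6]
    linarith
  have hqq : (M + C3) * EE μ m ≤ th * ((L : ℝ) - 2 * D) - b2 * EE μ r - b3 * EE μ τ - lo ((r + τ : ℕ) : ℝ) := by
    have h1 := mul_le_mul_of_nonneg_left hErm hb2p.le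
    have h2 := mul_le_mul_of_nonneg_left (hEτr.trans hErm) hb3p.le
    have h3 := mul_le_mul_of_nonneg_left hErm (show (0 : ℝ) ≤ C + 2 by positivity)
    linarith
  have hM1E : 100 * (EE μ m + 2 * (C * EE μ r * C) + 3) ≤ M1 * EE μ m := by
    rw [hM1]
    have h1 := mul_le_mul_of_nonneg_left hErm (show (0 : ℝ) ≤ 2 * (C * C) by positivity)
    have e1 : 2 * (C * EE μ r * C) = 2 * (C * C) * EE μ r := by ring
    have e2 : 100 * (4 + 2 * (C * C)) * EE μ m = 400 * EE μ m + 100 * (2 * (C * C) * EE μ m) := by ring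
    rw [e1, e2]
    linarith only [h1, hEE1m]
  -- the luck
  have hSS : ∀ q ∈ Tu (R₁ * wd μ τ) r τ L, 2 * (r : ℤ) < q.1 ∧ q.1 ≤ 2 * (r : ℤ) + τ ∧
      |2 * ((q.2 : ℝ) - ((r : ℝ) + L)) - ((q.1 : ℝ) - 2 * r)| ≤ c * wd μ m / 4 := by
    intro q hq
    refine ⟨hq.1, hq.2.1, hq.2.2.trans ?_⟩
    have h3 : c * wd μ r ≤ c * wd μ m / 32 := by
      have := mul_le_mul_of_nonneg_left s7 hc0.le
      linarith
    have h4 : 0 < c * wd μ m := mul_pos hc0 hwm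
    linarith
  have hL0' : |(L : ℝ)| ≤ c * wd μ m / 8 := by
    rw [abs_of_nonneg]
    · exact hL2
    · exact le_trans (by positivity) hL1
  have h2 := hluck m (by omega) r τ L (Tu (R₁ * wd μ τ) r τ L) G hrm8 hτr hL0' hSS hGm hGdep hGpos b
    (by rw [hb]; linarith) m le_rfl
  have h3 : 4 * C / b = 1 / 100 := by
    rw [hb]
    field_simp
    norm_num
  rw [h3] at h2
  have h6 := hvb b3 hb3p
  have h7 : ((4 * K3 : ℕ) : ℝ) * C' / b3 = 1 / 100 := by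
    rw [hb3]
    have : ((4 * K3 : ℕ) : ℝ) * C' ≠ 0 := by
      have : (0 : ℝ) < ((4 * K3 : ℕ) : ℝ) * C' := by push_cast; positivity
      exact this.ne'
    field_simp
  rw [h7] at h6
  have h8 : (law μ).real {η | W μ 0 η ((0 : ℤ), L) r ((ρ : ℤ) - 2 * D) < Real.exp (-(b2 * EE μ r))} ≤ 1 / 100 := by
    have h9 := inn_bd h (r := r) (by omega) (k := r) (y := (ρ : ℤ) - 2 * D) (by omega) (by omega) (by rw [hr]; push_cast; omega) (by
      have e : (((ρ : ℤ) - 2 * D : ℤ) : ℝ) - r / 2 = -(2 * D) := by rw [hr]; push_cast; ring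
      rw [e, abs_neg, abs_of_nonneg (by have : (0 : ℝ) ≤ D := by exact_mod_cast hD0
                                        positivity)]
      have e2 : c * vA μ 1 r * r = c * wd μ r := by unfold wd; ring
      rw [e2]
      have := mul_pos hc0 hwr
      linarith) ((0 : ℤ), L) (b := b2) (by rw [hb2]; positivity)
    have h10 : C / b2 = 1 / 100 := by
      rw [hb2]
      field_simp
    rw [h10] at h9
    refine le_trans (measureReal_mono (fun η hη => ?_) (measure_ne_top _ _)) h9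
    rw [Set.mem_ofPred_eq] at hη ⊢
    have hW : 0 < W μ 0 η ((0 : ℤ), L) r ((ρ : ℤ) - 2 * D) := W_pos η _ (by omega) (by rw [hr]; push_cast; omega)
    have h11 := Real.log_lt_log hW hη
    rw [Real.log_exp] at h11
    unfold X
    linarith
  -- the end point of the first slab
  have hmd0 := md_nonneg m
  have hmd1 : 2 * md m ≤ m ∧ (m : ℤ) ≤ 2 * md m + 1 := by unfold md; omega
  have h12 : (law μ).real {η | C3 * EE μ m < X μ 0 η 0 m (md m + L) + V μ 0 η 0 m} ≤ 1 / 100 := by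
    have hy0 : 0 ≤ md m + L := by omega
    have hy1 : md m + L ≤ m := by omega
    have hX := (Sub_X (μ := μ) (s := 0) 0 (n := m) hy0 hy1).max (Sub.const 0)
    have hV := (Sub_V (μ := μ) (s := 0) 0 m).max (Sub.const 0)
    have i1 : ∫ η, max (X μ 0 η 0 m (md m + L)) 0 ∂(law μ) ≤ C * EE μ m := by
      refine h.inn m (by omega) m (md m + L) (by omega) hy0 hy1 ?_
      have e2 : c * vA μ 1 m * m = c * wd μ m := by unfold wd; ring
      rw [e2]
      have e3 : (2 : ℝ) * (md m : ℝ) ≤ m := by exact_mod_cast hmd1.1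
      have e4 : (m : ℝ) ≤ 2 * (md m : ℝ) + 1 := by exact_mod_cast hmd1.2
      have e5 : (0 : ℝ) ≤ L := by exact_mod_cast hL0
      have e6 : 0 < c * wd μ m := mul_pos hc0 hwm
      push_cast
      rw [abs_le]
      constructor <;> linarith
    have i2 := pos_V (μ := μ) h.em 0 m
    have hXV := hX.add hV
    have i3 : ∫ η, (max (X μ 0 η 0 m (md m + L)) 0 + max (V μ 0 η 0 m) 0) ∂(law μ) ≤ (C + 1) * EE μ m := by
      rw [integral_add (hX.integrable h.em) (hV.integrable h.em)]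
      linarith
    have i4 := mkv (μ := μ) (hXV.integrable h.em) (fun η => add_nonneg (le_max_right _ _) (le_max_right _ _)) i3
      (mul_pos hC3p hEm)
    have i5 : (C + 1) * EE μ m / (C3 * EE μ m) = 1 / 100 := by
      rw [hC3]
      have : (C + 1) ≠ 0 := by positivity
      field_simp
    rw [i5] at i4
    refine le_trans (measureReal_mono (fun η hη => ?_) (measure_ne_top _ _)) i4
    rw [Set.mem_ofPred_eq] at hη ⊢
    have j1 := le_max_left (X μ 0 η 0 m (md m + L)) 0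
    have j2 := le_max_left (V μ 0 η 0 m) 0
    linarith
  have key := step (μ := μ) h (m := m) (r := r) (τ := τ) (ρ := ρ) (L := L) (D := D) (R := R₁ * wd μ τ) (b := b) (b2 := b2)
    (b3 := b3) (C3 := C3) (M1 := M1) (M := M) (th := th) (K := K' * EE μ τ) hr hτr hrm8 hD0 hDL hDρ hLm (by linarith)
    (by omega) hwr hth hpos hG h2 h12 h8 h6 hb2p.le hb3p.le hM1E hqq hKE hM hEE1m
  have h13 := mul_le_mul_of_nonneg_left (mul_le_mul_of_nonneg_left hpG (show (0 : ℝ) ≤ 1 / 4 by norm_num)) hEm.le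
  linarith


end

end Pool.Agent.W_7d29a1_NR
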