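import Pool.Agent.W_7d29a1_NR.NrAll86
import Pool.Agent.W_7d29a1_NR.Fin11

/-!
Theorem NR for every law with exponential moments, in the letters of the problem.
-/

set_option autoImplicit false

namespace Pool.Agent.W_7d29a1_NR

open MeasureTheory ProbabilityTheory Filter Topology Pool.Agent.W_MP_7d29a1_pr
  Pool.Agent.W_7d29a1_h46 Pool.Agent.W_7d29a1_h46u Pool.Agent.W_7d29a1_D2.B35
  Pool.Agent.W_7d29a1_Q29 Pool.Agent.W_7d29a1_R34 Pool.Agent.W_7d29a1_SP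

variable {Ω : Type*} [MeasurableSpace Ω] {μ : Measure Ω} [IsProbabilityMeasure μ] {d : ℕ}
  {ρ : Measure ℝ} [IsProbabilityMeasure ρ] {ω : ℕ × Site d → Ω → ℝ} {β : ℝ}

/-- **(X), every law.** -/
theorem clauseX86 (hd : 0 < d) (hω : IID μ ρ ω) (hρ : EM ρ) (hnc : ∀ c : ℝ, ρ {c} ≠ 1)
    (hβ : 0 < β) (h : Vec d) :
    ∀ x ε : ℝ, 0 ≤ x → 0 < ε →
      (∀ᶠ n : ℕ in atTop, Var[fun x => Real.log (Zn β h (fun p => ω p x) n); μ] ≤ (n : ℝ) ^ x) →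
      ∀ᶠ n : ℕ in atTop,
        ∫ x, (Real.log (Zn β h (fun p => ω p x) n) - n * lamN ρ β h) ^ 2 ∂μ ≤
          (n : ℝ) ^ (x + ε) :=
  clauseX11 hd hω hρ (nrAll86 hd hρ hnc hβ) h

/-- **(P), every law.** -/
theorem clauseP86 (hd : 0 < d) (hω : IID μ ρ ω) (hρ : EM ρ) (hnc : ∀ c : ℝ, ρ {c} ≠ 1)
    (hβ : 0 < β) (h : Vec d) :
    ∀ e : ℝ, 0 < e →
      (∀ᶠ n : ℕ in atTop, ∃ m : ℕ, m ≤ n ∧ (n : ℝ) ^ e ≤
        ∫ x, (Real.log (Zn β h (fun p => ω p x) m) - m * lamN ρ β h) ^ 2 ∂μ) →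
      ∃ θ : ℝ, 0 < θ ∧ ∀ᶠ n : ℕ in atTop, ∃ m : ℕ, m ≤ n ∧ (n : ℝ) ^ θ ≤
        Var[fun x => Real.log (Zn β h (fun p => ω p x) m); μ] :=
  clauseP11 hd hω hρ (nrAll86 hd hρ hnc hβ) h

/-- **(L), every law.** -/
theorem clauseL86 (hd : 0 < d) (hω : IID μ ρ ω) (hρ : EM ρ) (hnc : ∀ c : ℝ, ρ {c} ≠ 1)
    (hβ : 0 < β) :
    ∃ θ : ℝ, θ < 1 ∧ ∀ h : Vec d, ∃ C : ℝ, ∀ (k : ℕ) (M : ℝ), 1 ≤ k → 0 ≤ M →
      (∀ n : ℕ, n ≤ k ^ 3 → Var[fun x => Real.log (Zn β h (fun p => ω p x) n); μ] ≤ M ^ 2) →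
      k * lamN ρ β h - ∫ x, Real.log (Zn β h (fun p => ω p x) k) ∂μ ≤
        (1 + M) * Real.exp (C * (1 + Real.log (k + 2) ^ θ)) :=
  clauseL11 hd hω hρ (nrAll86 hd hρ hnc hβ)

end Pool.Agent.W_7d29a1_NR
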