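import Pool.Agent.W_7d29a1_NR.SplS45
import Pool.Agent.W_7d29a1_NR.DefsR11

/-!
Theorem NR, the split at the time `k`, for every environment of the rows `≤ k`.
-/

namespace Pool.Agent.W_7d29a1_NR

open MeasureTheory ProbabilityTheory Filter Topology Pool.Agent.W_MP_7d29a1_pr
  Pool.Agent.W_7d29a1_h46 Pool.Agent.W_7d29a1_h46u Pool.Agent.W_7d29a1_D2.B35
  Pool.Agent.W_7d29a1_Q29 Pool.Agent.W_7d29a1_SP

variable {d : ℕ} {ρ : Measure ℝ}

/-- The quenched law of `S_k`. -/
noncomputable def muK (β : ℝ) (h : Vec d) (k : ℕ) (η : Env d) (y : Site d) : ℝ :=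
  PP β h η k y / Z β h η k

/-- The value of the future, given the rows `≤ k`. -/
noncomputable def GK (ρ : Measure ℝ) (β : ℝ) (h : Vec d) (k m : ℕ) (η ξ : Env d) : ℝ :=
  gain d ρ β h m (boxF d k) (muK β h k η) ξ

lemma muK_nonneg45 (hd : 0 < d) (β : ℝ) (h : Vec d) (k : ℕ) (η : Env d) (y : Site d) :
    0 ≤ muK β h k η y := div_nonneg (PP_nonneg45 hd β h η k y) (Z_pos hd β h η k).le

lemma muK_le_one45 (hd : 0 < d) (β : ℝ) (h : Vec d) (k : ℕ) (η : Env d) (y : Site d) :
    muK β h k η y ≤ 1 := (div_le_one (Z_pos hd β h η k)).2 (PP_le_Z45 hd β h η k y)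

lemma muK_sum45 (hd : 0 < d) (β : ℝ) (h : Vec d) (k : ℕ) (η : Env d) :
    ∑ y ∈ boxF d k, muK β h k η y = 1 := by
  unfold muK
  rw [← Finset.sum_div, ← Z_eq_sum]
  exact div_self (Z_pos hd β h η k).ne'

/-- The value of the future is the difference of the free energies. -/
lemma GK_eq45 (hd : 0 < d) (β : ℝ) (h : Vec d) (k m : ℕ) (η ξ : Env d) :
    GK ρ β h k m η (sh k 0 ξ) =
      X β h (spl (Pa d k) η ξ) (k + m) - X β h η k - A ρ β h m := by
  have h1 : ∀ y : Site d, sh 0 y (sh k 0 ξ) = sh k y ξ := by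
    intro y
    funext p
    unfold sh
    simp
  unfold GK gain muK
  simp only [h1]
  exact glue45 hd β h k m (A ρ β h m) η ξ

lemma GK_meas45 (hd : 0 < d) (β : ℝ) (h : Vec d) (k m : ℕ) :
    Measurable fun w : Env d × Env d => GK ρ β h k m w.1 w.2 := by
  unfold GK gain muK
  refine Real.measurable_log.comp (Finset.measurable_sum _ fun y _ => ?_)
  refine Measurable.mul ?_ (Real.measurable_exp.comp (Measurable.sub_const ?_ _))
  · exact ((measurable_PP39 β h k y).comp measurable_fst).div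
      ((measurable_Z β h k).comp measurable_fst)
  · exact ((measurable_X β h m).comp (mp_sh (ρ := gaussianReal 0 1) 0 y).measurable).comp
      measurable_snd

/-- The law of the value of the future, for every environment of the rows `≤ k`. -/
lemma GK_int45 [IsProbabilityMeasure ρ] (hd : 0 < d) (β : ℝ) (h : Vec d) (k m : ℕ) (η : Env d)
    {f : ℝ → ℝ} (hf : Measurable f) :
    ∫ ξ, f (GK ρ β h k m η ξ) ∂(law d ρ) =
      ∫ ξ, f (X β h (spl (Pa d k) η ξ) (k + m) - X β h η k - A ρ β h m) ∂(law d ρ) := by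
  have mp := mp_sh (d := d) (ρ := ρ) k 0
  conv_lhs => rw [← mp.map_eq]
  rw [integral_map mp.aemeasurable]
  · refine integral_congr_ae (Eventually.of_forall fun ξ => ?_)
    show f (GK ρ β h k m η (sh k 0 ξ)) = _
    rw [GK_eq45 hd]
  · exact (hf.comp ((GK_meas45 hd β h k m).comp
      (measurable_const.prodMk measurable_id))).aestronglyMeasurable

lemma GK_integrable45 [IsProbabilityMeasure ρ] (hd : 0 < d) (hρ : EM ρ) (β : ℝ) (h : Vec d)
    (k m : ℕ) : Integrable (fun w : Env d × Env d => GK ρ β h k m w.1 w.2)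
      ((law d ρ).prod (law d ρ)) := by
  have mp : MeasurePreserving (fun w : Env d × Env d => (w.1, sh k 0 w.2))
      ((law d ρ).prod (law d ρ)) ((law d ρ).prod (law d ρ)) :=
    (MeasurePreserving.id (law d ρ)).prod (mp_sh (ρ := ρ) k 0)
  rw [← mp.integrable_comp (GK_meas45 hd β h k m).aestronglyMeasurable]
  have i1 : Integrable (fun w : Env d × Env d => X β h (spl (Pa d k) w.1 w.2) (k + m))
      ((law d ρ).prod (law d ρ)) :=
    (mp_spl (ρ := ρ) (Pa d k)).integrable_comp_of_integrable (concU hd hρ β h (k + m)).1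
  have i2 : Integrable (fun w : Env d × Env d => X β h w.1 k) ((law d ρ).prod (law d ρ)) :=
    (measurePreserving_fst (μ := law d ρ) (ν := law d ρ)).integrable_comp_of_integrable
      (concU hd hρ β h k).1
  refine ((i1.sub i2).sub (integrable_const (A ρ β h m))).congr
    (Eventually.of_forall fun w => ?_)
  show X β h (spl (Pa d k) w.1 w.2) (k + m) - X β h w.1 k - A ρ β h m =
    GK ρ β h k m w.1 (sh k 0 w.2)
  rw [GK_eq45 hd]

/-- The mean of the value of the future. -/
lemma GK_mean45 [IsProbabilityMeasure ρ] (hd : 0 < d) (hρ : EM ρ) (β : ℝ) (h : Vec d)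
    (k m : ℕ) : ∫ η, ∫ ξ, GK ρ β h k m η ξ ∂(law d ρ) ∂(law d ρ) =
      A ρ β h (k + m) - A ρ β h k - A ρ β h m := by
  have i1 : Integrable (fun w : Env d × Env d => X β h (spl (Pa d k) w.1 w.2) (k + m))
      ((law d ρ).prod (law d ρ)) :=
    (mp_spl (ρ := ρ) (Pa d k)).integrable_comp_of_integrable (concU hd hρ β h (k + m)).1
  have i2 : Integrable (fun w : Env d × Env d => X β h w.1 k) ((law d ρ).prod (law d ρ)) :=
    (measurePreserving_fst (μ := law d ρ) (ν := law d ρ)).integrable_comp_of_integrable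
      (concU hd hρ β h k).1
  have h1 : ∀ η : Env d, ∫ ξ, GK ρ β h k m η ξ ∂(law d ρ) =
      ∫ ξ, (X β h (spl (Pa d k) η ξ) (k + m) - X β h η k - A ρ β h m) ∂(law d ρ) :=
    fun η => GK_int45 hd β h k m η (f := fun x => x) measurable_id
  have i3 : Integrable (fun w : Env d × Env d => X β h (spl (Pa d k) w.1 w.2) (k + m) -
      X β h w.1 k) ((law d ρ).prod (law d ρ)) := i1.sub i2
  simp only [h1]
  rw [integral_integral (i3.sub (integrable_const (A ρ β h m))),
    integral_sub i3 (integrable_const _), integral_sub i1 i2]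
  have e1 : ∫ w : Env d × Env d, X β h (spl (Pa d k) w.1 w.2) (k + m)
      ∂((law d ρ).prod (law d ρ)) = A ρ β h (k + m) := by
    unfold A
    rw [← (mp_spl (ρ := ρ) (Pa d k)).map_eq, integral_map (mp_spl (ρ := ρ) (Pa d k)).aemeasurable]
    rw [(mp_spl (ρ := ρ) (Pa d k)).map_eq]
    exact (measurable_X β h (k + m)).aestronglyMeasurable
  have e2 : ∫ w : Env d × Env d, X β h w.1 k ∂((law d ρ).prod (law d ρ)) = A ρ β h k := by
    have mp := measurePreserving_fst (μ := law d ρ) (ν := law d ρ)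
    unfold A
    conv_rhs => rw [← mp.map_eq]
    rw [integral_map mp.aemeasurable]
    rw [mp.map_eq]
    exact (measurable_X β h k).aestronglyMeasurable
  rw [e1, e2]
  simp

/-- **The split, given the rows `≤ k`**: only the fluctuation of the whole length enters. -/
theorem splC45 [IsProbabilityMeasure ρ] (hd : 0 < d) (hρ : EM ρ) (β : ℝ) (h : Vec d)
    (k m : ℕ) :
    Integrable (fun η => ∫ ξ, |GK ρ β h k m η ξ - ∫ ξ', GK ρ β h k m η ξ' ∂(law d ρ)|
      ∂(law d ρ)) (law d ρ) ∧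
    ∫ η, ∫ ξ, |GK ρ β h k m η ξ - ∫ ξ', GK ρ β h k m η ξ' ∂(law d ρ)| ∂(law d ρ) ∂(law d ρ) ≤
      2 * Fn ρ β h (k + m) := by
  set a : ℝ := A ρ β h (k + m) with ha
  have i1 : Integrable (fun w : Env d × Env d => X β h (spl (Pa d k) w.1 w.2) (k + m))
      ((law d ρ).prod (law d ρ)) :=
    (mp_spl (ρ := ρ) (Pa d k)).integrable_comp_of_integrable (concU hd hρ β h (k + m)).1
  have iG := GK_integrable45 (ρ := ρ) hd hρ β h k m
  have iM : Integrable (fun η => ∫ ξ, GK ρ β h k m η ξ ∂(law d ρ)) (law d ρ) :=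
    iG.integral_prod_left
  have iM2 : Integrable (fun w : Env d × Env d => ∫ ξ, GK ρ β h k m w.1 ξ ∂(law d ρ))
      ((law d ρ).prod (law d ρ)) :=
    (measurePreserving_fst (μ := law d ρ) (ν := law d ρ)).integrable_comp_of_integrable iM
  have iD : Integrable (fun w : Env d × Env d => |GK ρ β h k m w.1 w.2 -
      ∫ ξ', GK ρ β h k m w.1 ξ' ∂(law d ρ)|) ((law d ρ).prod (law d ρ)) := (iG.sub iM2).abs
  have iL : Integrable (fun η => ∫ ξ, |GK ρ β h k m η ξ - ∫ ξ', GK ρ β h k m η ξ' ∂(law d ρ)|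
      ∂(law d ρ)) (law d ρ) := iD.integral_prod_left
  have iF : Integrable (fun w : Env d × Env d => |X β h (spl (Pa d k) w.1 w.2) (k + m) - a|)
      ((law d ρ).prod (law d ρ)) := (i1.sub (integrable_const a)).abs
  have e1 : ∫ w, |X β h (spl (Pa d k) w.1 w.2) (k + m) - a| ∂((law d ρ).prod (law d ρ)) =
      Fn ρ β h (k + m) := by
    unfold Fn
    rw [← (mp_spl (ρ := ρ) (Pa d k)).map_eq, integral_map (mp_spl (ρ := ρ) (Pa d k)).aemeasurable]
    rw [(mp_spl (ρ := ρ) (Pa d k)).map_eq]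
    exact ((measurable_X β h (k + m)).sub_const _).abs.aestronglyMeasurable
  refine ⟨iL, ?_⟩
  have hae : ∀ᵐ η ∂(law d ρ), (∫ ξ, |GK ρ β h k m η ξ - ∫ ξ', GK ρ β h k m η ξ' ∂(law d ρ)|
      ∂(law d ρ)) ≤ 2 * ∫ ξ, |X β h (spl (Pa d k) η ξ) (k + m) - a| ∂(law d ρ) := by
    filter_upwards [i1.prod_right_ae, iF.prod_right_ae] with η h1 h2
    have m1 : ∫ ξ', GK ρ β h k m η ξ' ∂(law d ρ) =
        (∫ ξ, X β h (spl (Pa d k) η ξ) (k + m) ∂(law d ρ)) - X β h η k - A ρ β h m := by
      rw [GK_int45 hd β h k m η (f := fun x => x) measurable_id]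
      show ∫ ξ, (X β h (spl (Pa d k) η ξ) (k + m) - X β h η k - A ρ β h m) ∂(law d ρ) = _
      have h3 : Integrable (fun ξ => X β h (spl (Pa d k) η ξ) (k + m) - X β h η k)
        (law d ρ) := h1.sub (integrable_const _)
      rw [integral_sub h3 (integrable_const _), integral_sub h1 (integrable_const _)]
      simp
    have m2 : (∫ ξ, |GK ρ β h k m η ξ - ∫ ξ', GK ρ β h k m η ξ' ∂(law d ρ)| ∂(law d ρ)) =
        ∫ ξ, |X β h (spl (Pa d k) η ξ) (k + m) -
          ∫ ξ', X β h (spl (Pa d k) η ξ') (k + m) ∂(law d ρ)| ∂(law d ρ) := by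
      rw [GK_int45 hd β h k m η
        (f := fun x => |x - ∫ ξ', GK ρ β h k m η ξ' ∂(law d ρ)|) (by fun_prop)]
      rw [m1]
      refine integral_congr_ae (Eventually.of_forall fun ξ => ?_)
      show |_| = |_|
      congr 1
      ring
    rw [m2]
    set M : ℝ := ∫ ξ', X β h (spl (Pa d k) η ξ') (k + m) ∂(law d ρ) with hM
    have m3 : |M - a| ≤ ∫ ξ, |X β h (spl (Pa d k) η ξ) (k + m) - a| ∂(law d ρ) := by
      have h3 : M - a = ∫ ξ, (X β h (spl (Pa d k) η ξ) (k + m) - a) ∂(law d ρ) := by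
        rw [integral_sub h1 (integrable_const _)]
        simp [hM]
      rw [h3]
      exact abs_integral_le_integral_abs
    have m4 : ∫ ξ, |X β h (spl (Pa d k) η ξ) (k + m) - M| ∂(law d ρ) ≤
        ∫ ξ, (|X β h (spl (Pa d k) η ξ) (k + m) - a| + |M - a|) ∂(law d ρ) := by
      refine integral_mono (h1.sub (integrable_const _)).abs (h2.add (integrable_const _))
        fun ξ => ?_
      show |X β h (spl (Pa d k) η ξ) (k + m) - M| ≤
        |X β h (spl (Pa d k) η ξ) (k + m) - a| + |M - a|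
      have := abs_sub_le (X β h (spl (Pa d k) η ξ) (k + m)) a M
      rwa [abs_sub_comm a M] at this
    rw [integral_add h2 (integrable_const _)] at m4
    have m5 : ∫ _ξ : Env d, |M - a| ∂(law d ρ) = |M - a| := by simp
    rw [m5] at m4
    linarith
  refine (integral_mono_ae iL (iF.integral_prod_left.const_mul 2) hae).trans (le_of_eq ?_)
  rw [integral_const_mul, integral_integral iF, e1]

end Pool.Agent.W_7d29a1_NR
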