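import Pool.Agent.W_7d29a1_NR.SplC45

/-!
Theorem NR, the split at the time `k` with a past of small free energy: only the fluctuation of the
whole length enters.
-/

namespace Pool.Agent.W_7d29a1_NR

open MeasureTheory ProbabilityTheory Filter Topology Pool.Agent.W_MP_7d29a1_pr
  Pool.Agent.W_7d29a1_h46 Pool.Agent.W_7d29a1_h46u Pool.Agent.W_7d29a1_D2.B35
  Pool.Agent.W_7d29a1_Q29 Pool.Agent.W_7d29a1_SP

variable {d : ℕ} {ρ : Measure ℝ}

/-- **The split with a past in an event of probability at least `1 / 2`** in which the free energy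
of length `k` is at most `A k + c`. -/
theorem splQ45 [IsProbabilityMeasure ρ] (hd : 0 < d) (hρ : EM ρ) (β : ℝ) (h : Vec d)
    (k m : ℕ) (c : ℝ) (hE : 1 / 2 ≤ (law d ρ).real {η | X β h η k ≤ A ρ β h k + c}) :
    ∃ (w : Site d → ℝ) (δ : ℝ), (∀ y, 0 ≤ w y) ∧ (∀ y, w y ≤ 1) ∧ ∑ y ∈ boxF d k, w y = 1 ∧
      A ρ β h (k + m) - A ρ β h k - A ρ β h m - c ≤ δ ∧
      Integrable (gain d ρ β h m (boxF d k) w) (law d ρ) ∧
      ∫ ξ, |gain d ρ β h m (boxF d k) w ξ - δ| ∂(law d ρ) ≤ 2 * Fn ρ β h (k + m) := by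
  obtain ⟨E, hEd⟩ : ∃ E : Set (Env d), E = {η | X β h η k ≤ A ρ β h k + c} := ⟨_, rfl⟩
  have hEm : MeasurableSet E := by
    rw [hEd]
    exact measurableSet_le (measurable_X β h k) measurable_const
  rw [← hEd] at hE
  set a : ℝ := A ρ β h (k + m) with ha
  have i1 : Integrable (fun w : Env d × Env d => X β h (spl (Pa d k) w.1 w.2) (k + m))
      ((law d ρ).prod (law d ρ)) :=
    (mp_spl (ρ := ρ) (Pa d k)).integrable_comp_of_integrable (concU hd hρ β h (k + m)).1
  have iF : Integrable (fun w : Env d × Env d => |X β h (spl (Pa d k) w.1 w.2) (k + m) - a|)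
      ((law d ρ).prod (law d ρ)) := (i1.sub (integrable_const a)).abs
  have e1 : ∫ w, |X β h (spl (Pa d k) w.1 w.2) (k + m) - a| ∂((law d ρ).prod (law d ρ)) =
      Fn ρ β h (k + m) := by
    unfold Fn
    rw [← (mp_spl (ρ := ρ) (Pa d k)).map_eq, integral_map (mp_spl (ρ := ρ) (Pa d k)).aemeasurable]
    rw [(mp_spl (ρ := ρ) (Pa d k)).map_eq]
    exact ((measurable_X β h (k + m)).sub_const _).abs.aestronglyMeasurable
  obtain ⟨φ, hφ⟩ : ∃ φ : Env d → ℝ, φ = fun η =>
      ∫ ξ, |X β h (spl (Pa d k) η ξ) (k + m) - a| ∂(law d ρ) := ⟨_, rfl⟩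
  have iφ : Integrable φ (law d ρ) := by
    rw [hφ]
    exact iF.integral_prod_left
  have hφ0 : ∀ η, 0 ≤ φ η := fun η => by
    rw [hφ]
    exact integral_nonneg fun _ => abs_nonneg _
  have hφF : ∫ η, φ η ∂(law d ρ) = Fn ρ β h (k + m) := by
    rw [hφ, ← e1]
    exact integral_integral iF
  have hν : (law d ρ).restrict E ≠ 0 := by
    rw [Ne, Measure.restrict_eq_zero]
    intro h0
    have h1 : (law d ρ).real E = 0 := by
      unfold Measure.real
      rw [h0]
      rfl
    linarith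
  have hN : (law d ρ).restrict E (Eᶜ ∪ {η | ¬ Integrable (fun ξ =>
      X β h (spl (Pa d k) η ξ) (k + m)) (law d ρ)}) = 0 := by
    refine measure_union_null ?_ ?_
    · rw [Measure.restrict_apply hEm.compl]
      simp
    · exact Measure.absolutelyContinuous_of_le Measure.restrict_le_self
        (ae_iff.1 i1.prod_right_ae)
  obtain ⟨η, hηN, hle⟩ := exists_notMem_null_le_average hν iφ.restrict hN
  have hηE : η ∈ E := by
    by_contra hc
    exact hηN (Or.inl hc)
  have hηI : Integrable (fun ξ => X β h (spl (Pa d k) η ξ) (k + m)) (law d ρ) := by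
    by_contra hc
    exact hηN (Or.inr hc)
  have hle2 : φ η ≤ 2 * Fn ρ β h (k + m) := by
    refine hle.trans ?_
    rw [setAverage_eq, smul_eq_mul]
    have h1 : ∫ x in E, φ x ∂(law d ρ) ≤ Fn ρ β h (k + m) := by
      rw [← hφF]
      exact setIntegral_le_integral iφ (Eventually.of_forall hφ0)
    have h2 : ((law d ρ).real E)⁻¹ ≤ 2 := by
      rw [inv_le_comm₀ (by linarith) (by norm_num)]
      linarith
    have h3 : 0 ≤ ∫ x in E, φ x ∂(law d ρ) := setIntegral_nonneg hEm fun x _ => hφ0 x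
    calc ((law d ρ).real E)⁻¹ * ∫ x in E, φ x ∂(law d ρ) ≤ 2 * ∫ x in E, φ x ∂(law d ρ) :=
          mul_le_mul_of_nonneg_right h2 h3
      _ ≤ 2 * Fn ρ β h (k + m) := by linarith
  have hηX : X β h η k ≤ A ρ β h k + c := by
    rw [hEd] at hηE
    exact hηE
  have mp := mp_sh (d := d) (ρ := ρ) k 0
  refine ⟨muK β h k η, a - X β h η k - A ρ β h m, muK_nonneg45 hd β h k η,
    muK_le_one45 hd β h k η, muK_sum45 hd β h k η, by linarith, ?_, ?_⟩
  · have hpr : Measurable fun ξ : Env d => (η, ξ) := measurable_prodMk_left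
    have hm0 : Measurable ((fun w : Env d × Env d => GK ρ β h k m w.1 w.2) ∘
        fun ξ : Env d => (η, ξ)) := (GK_meas45 (ρ := ρ) hd β h k m).comp hpr
    have hm : Measurable fun ξ : Env d => GK ρ β h k m η ξ := hm0
    show Integrable (fun ξ : Env d => GK ρ β h k m η ξ) (law d ρ)
    rw [← mp.integrable_comp hm.aestronglyMeasurable]
    refine ((hηI.sub (integrable_const (X β h η k))).sub (integrable_const (A ρ β h m))).congr
      (Eventually.of_forall fun ξ => ?_)
    show X β h (spl (Pa d k) η ξ) (k + m) - X β h η k - A ρ β h m =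
      GK ρ β h k m η (sh k 0 ξ)
    rw [GK_eq45 hd]
  · show ∫ ξ, |GK ρ β h k m η ξ - (a - X β h η k - A ρ β h m)| ∂(law d ρ) ≤ _
    rw [GK_int45 hd β h k m η (f := fun x => |x - (a - X β h η k - A ρ β h m)|) (by fun_prop)]
    refine le_trans (le_of_eq ?_) hle2
    rw [hφ]
    refine integral_congr_ae (Eventually.of_forall fun ξ => ?_)
    show |_| = |_|
    congr 1
    ring

end Pool.Agent.W_7d29a1_NR
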