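import Pool.Agent.W_7d29a1_NR.Af
import Pool.Agent.W_7d29a1_NR.Mass

/-!
The non random fluctuation of `log Z_n` (MP_7d29a1_pr): one scale. (helper87)
-/

namespace Pool.Agent.W_7d29a1_NR

open MeasureTheory ProbabilityTheory Filter Topology
open Pool.Agent.W_7d29a1_F Pool.Agent.W_7d29a1_h4g Pool.Agent.W_7d29a1_G Pool.Agent.W_7d29a1_L
open Pool.Agent.W_7d29a1_SL Pool.Agent.W_7d29a1_SR

noncomputable section

variable {μ : Measure ℝ}

theorem dep_shift {β : Type*} {f : Env → β} {S : Set Pt} (hf : DependsOn f S) (a : Pt) :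
    DependsOn (fun η : Env => f (sh a η)) {p | p - a ∈ S} := by
  intro η η' hh
  refine hf fun p hp => ?_
  show η (p + a) = η' (p + a)
  refine hh (p + a) ?_
  show p + a - a ∈ S
  rwa [add_sub_cancel_right]

theorem dep_sub {β : Type*} {f : Env → β} {S S' : Set Pt} (hf : DependsOn f S) (h : S ⊆ S') : DependsOn f S' :=
  fun _ _ hh => hf fun p hp => hh p (h hp)

variable [IsProbabilityMeasure μ] {c C : ℝ} {n₀ : ℕ}

theorem mkv {f : Env → ℝ} (hf : Integrable f (law μ)) (h0 : ∀ η, 0 ≤ f η) {B u : ℝ} (hB : ∫ η, f η ∂(law μ) ≤ B)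
    (hu : 0 < u) : (law μ).real {η | u < f η} ≤ B / u := by
  have h1 := mul_meas_ge_le_integral_of_nonneg (μ := law μ) (f := f) (ae_of_all _ h0) hf u
  have h2 : u * (law μ).real {η | u ≤ f η} ≤ B := by
    refine le_trans ?_ hB
    simpa [Measure.real] using h1
  have h3 : (law μ).real {η | u < f η} ≤ (law μ).real {η | u ≤ f η} :=
    measureReal_mono (fun η hη => by
      rw [Set.mem_ofPred_eq] at hη ⊢
      exact hη.le) (measure_ne_top _ _)
  rw [le_div_iff₀ hu]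
  have h4 := mul_le_mul_of_nonneg_left h3 hu.le
  linarith

/-- The good event. -/
theorem prob_good {G BL E : Set Env} {T : Set Pt} (a : Pt) (hG : MeasurableSet G) (hBL : MeasurableSet BL)
    (hE : MeasurableSet E) (hGd : ∀ η η' : Env, (∀ p ∈ T, η p = η' p) → (η ∈ G ↔ η' ∈ G))
    (hEd : ∀ η η' : Env, (∀ p ∈ {p : Pt | p - a ∈ T}ᶜ, η p = η' p) → (η ∈ E ↔ η' ∈ E)) {β e : ℝ}
    (h1 : (law μ).real (G ∩ BL) ≤ β * (law μ).real G) (h2 : e ≤ (law μ).real E) :
    (e - β) * (law μ).real G ≤ (law μ).real ({η | sh a η ∈ G} ∩ (E ∩ {η | sh a η ∉ BL})) := by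
  have hs : Measurable fun η : Env => sh a η := measurable_pi_lambda _ fun p => measurable_pi_apply (p + a)
  obtain ⟨G', hG'⟩ : ∃ G' : Set Env, G' = {η | sh a η ∈ G} := ⟨_, rfl⟩
  have mG' : MeasurableSet G' := by rw [hG']; exact hs hG
  have hGd' : ∀ η η' : Env, (∀ p ∈ {p : Pt | p - a ∈ T}, η p = η' p) → (η ∈ G' ↔ η' ∈ G') := by
    intro η η' hh
    rw [hG', Set.mem_ofPred_eq, Set.mem_ofPred_eq]
    refine hGd _ _ fun p hp => ?_
    show η (p + a) = η' (p + a)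
    refine hh (p + a) ?_
    show p + a - a ∈ T
    rwa [add_sub_cancel_right]
  have i1 := real_inter_indep (μ := μ) mG' hE hGd' hEd disjoint_compl_right
  have r1 : (law μ).real G' = (law μ).real G := by rw [hG']; exact real_sh a hG
  have r2 : (law μ).real {η | sh a η ∈ G ∩ BL} = (law μ).real (G ∩ BL) := real_sh a (hG.inter hBL)
  have hsub : G' ∩ E ⊆ (G' ∩ (E ∩ {η | sh a η ∉ BL})) ∪ {η | sh a η ∈ G ∩ BL} := by
    rintro η ⟨q1, q2⟩
    by_cases q3 : sh a η ∈ BL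
    · exact Or.inr ⟨by rw [hG'] at q1; exact q1, q3⟩
    · exact Or.inl ⟨q1, q2, q3⟩
  have h3 := (measureReal_mono hsub (measure_ne_top (law μ) _)).trans (measureReal_union_le _ _)
  rw [i1, r1, r2] at h3
  have hG0 : 0 ≤ (law μ).real G := measureReal_nonneg
  have h4 := mul_le_mul_of_nonneg_left h2 hG0
  rw [← hG']
  linarith

/-- ONE SCALE. -/
theorem step (h : In μ c C n₀) {m r τ ρ : ℕ} {L D : ℤ} {R b b2 b3 C3 M1 M th K : ℝ}
    (hρ : r = 2 * ρ) (hτr : τ ≤ r) (hrm : 8 * r ≤ m) (hD0 : 0 ≤ D) (hDL : 4 * D ≤ L) (hDρ : 2 * D ≤ ρ) (hLm : 2 * L ≤ m)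
    (hT1 : R < D) (hr : n₀ ≤ r) (hw : 0 < wd μ r) (hth : th = c * EE μ r / wd μ r)
    (hpos : ∀ ξ, 0 < WR μ 0 (Lw (ln L D)) ξ ((r : ℤ), (ρ : ℤ) + L - 2 * D) (2 * r) r)
    {G : Set Env} (hG : G = {ξ | K ≤ Real.log (cf μ R ξ (2 * (r : ℤ), (r : ℤ) + L) τ)})
    (hluck : (law μ).real (G ∩ {ξ | V μ 0 ξ ((0 : ℤ), L) m <
        Real.log (∑ y ∈ Finset.Icc (0 : ℤ) τ, WR μ 0 (Tu R r τ L) ξ (2 * (r : ℤ), (r : ℤ) + L) τ y) +
          V μ 0 ξ ((m : ℤ), ((m / 2 : ℕ) : ℤ)) (m - m) - b * EE μ m}) ≤ 1 / 100 * (law μ).real G)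
    (hC3 : (law μ).real {η | C3 * EE μ m < X μ 0 η 0 m (md m + L) + V μ 0 η 0 m} ≤ 1 / 100)
    (hP1 : (law μ).real {ξ | W μ 0 ξ ((0 : ℤ), L) r ((ρ : ℤ) - 2 * D) < Real.exp (-(b2 * EE μ r))} ≤ 1 / 100)
    (hP2 : (law μ).real {ξ | WR μ 0 (Lw (ln L D)) ξ ((r : ℤ), (ρ : ℤ) + L - 2 * D) (2 * r) r <
      Real.exp (-(b3 * EE μ τ))} ≤ 1 / 100)
    (hb2 : 0 ≤ b2) (hb3 : 0 ≤ b3)
    (hM1 : 100 * (EE μ m + 2 * (C * EE μ r * C) + 3) ≤ M1 * EE μ m)
    (hq : (M + C3) * EE μ m ≤ th * ((L : ℝ) - 2 * D) - b2 * EE μ r - b3 * EE μ τ - lo ((r + τ : ℕ) : ℝ))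
    (hK : (M + C3 + b) * EE μ m ≤ K) (hM : M = 4 * (M1 + 3)) (hE1 : 1 ≤ EE μ m) :
    2 * ∫ η, V μ 0 η 0 m ∂(law μ) + EE μ m * (1 / 4 * (law μ).real G) ≤ ∫ η, V μ 0 η 0 (m + m) ∂(law μ) := by
  classical
  have hEM := h.em
  have hc0 := h.c0
  have hEm := EE_pos (μ := μ) m
  have hEr := EE_pos (μ := μ) r
  have hEτ := EE_pos (μ := μ) τ
  obtain ⟨a, ha⟩ : ∃ a : Pt, a = ((m : ℤ), md m) := ⟨_, rfl⟩
  obtain ⟨S, hS⟩ : ∃ S : Set Pt, S = Tu R r τ L := ⟨_, rfl⟩
  obtain ⟨y1, hy1⟩ : ∃ y1 : ℤ, y1 = (ρ : ℤ) + L - 2 * D := ⟨_, rfl⟩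
  obtain ⟨y2, hy2⟩ : ∃ y2 : ℤ, y2 = 3 * (ρ : ℤ) + L - 2 * D := ⟨_, rfl⟩
  obtain ⟨z, hz⟩ : ∃ z : ℝ, z = (L : ℝ) - 2 * D := ⟨_, rfl⟩
  have hy21 : y2 - y1 = r := by rw [hy1, hy2, hρ]; push_cast; ring
  have hy1L : y1 - L = (ρ : ℤ) - 2 * D := by rw [hy1]; ring
  have hz1 : z = (y1 : ℝ) - 1 / 2 * r := by rw [hz, hy1, hρ]; push_cast; ring
  have hz2 : z = (y2 : ℝ) - 1 / 2 * (3 * r : ℕ) := by rw [hz, hy2, hρ]; push_cast; ring
  have hth0 : 0 ≤ th := by rw [hth]; positivity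
  have htw : |th| * wd μ r ≤ c * EE μ r := by
    rw [abs_of_nonneg hth0, hth, div_mul_cancel₀ _ hw.ne']
  have hs : Measurable fun η : Env => sh a η := measurable_pi_lambda _ fun p => measurable_pi_apply (p + a)
  have hTr := Tu_right (r := r) (τ := τ) (L := L) hT1
  have hline : ∀ t, ln L D t ≤ ln L D (t + 1) := ln_mono L D
  have hSrow : ∀ p ∈ S, 2 * (r : ℤ) < p.1 ∧ p.1 ≤ 2 * (r : ℤ) + τ := fun p hp => by
    rw [hS] at hp
    exact ⟨hp.1, hp.2.1⟩
  have hSl : ∀ p ∈ S, ln L D p.1 < p.2 := fun p hp => hTr p (hS ▸ hp)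
  have hr0 : (0 : ℤ) ≤ r := Int.natCast_nonneg r
  -- the functions
  obtain ⟨A, hA⟩ : ∃ A : ℤ → Env → ℝ, A = fun k η => if k ≤ md m then
    af μ S (ln L D) th z r m y1 y2 (k - md m) (sh a η) else 0 := ⟨_, rfl⟩
  obtain ⟨w, hwd⟩ : ∃ w : Env → ℝ, w = fun ξ => W μ 0 ξ ((0 : ℤ), L) r ((ρ : ℤ) - 2 * D) := ⟨_, rfl⟩
  obtain ⟨P, hP⟩ : ∃ P : Env → ℝ, P = fun ξ => WR μ 0 (Lw (ln L D)) ξ ((r : ℤ), (ρ : ℤ) + L - 2 * D) (2 * r) r := ⟨_, rfl⟩
  have hwpos : ∀ ξ, 0 < w ξ := fun ξ => by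
    rw [hwd]
    refine W_pos ξ _ ?_ ?_
    · omega
    · omega
  have mw : Measurable w := by rw [hwd]; exact measurable_W _ _ _
  have mP : Measurable P := by rw [hP]; exact measurable_WR _ _ _ _
  have hA0 : ∀ k η, 0 ≤ A k η := by
    intro k η
    rw [hA]
    simp only
    split_ifs
    · exact af_nonneg _ _ _ _ _ _ _ _ _ _
    · exact le_rfl
  have hafd : ∀ x, DependsOn (af μ S (ln L D) th z r m y1 y2 x) (Sᶜ ∩ rows 0 m) := fun x =>
    af_dep (μ := μ) (by omega) (fun p hp => ⟨by have := (hSrow p hp).1; omega, hSl p hp⟩) x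
  have hAsub : ∀ k, Sub (A k) := by
    intro k
    by_cases hk : k ≤ md m
    · have h1 := (af_mean (μ := μ) h S (ln L D) (m := m) hr hw htw hz1 hz2 (k - md m)).1.comp_sh a
      have h2 : A k = fun η => af μ S (ln L D) th z r m y1 y2 (k - md m) (sh a η) := by
        rw [hA]
        funext η
        simp only [if_pos hk]
      rw [h2]
      exact h1
    · have h2 : A k = fun _ => (0 : ℝ) := by
        rw [hA]
        funext η
        simp only [if_neg hk]
      rw [h2]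
      exact Sub.const 0
  have hAdep : ∀ k, DependsOn (A k) {p : Pt | p - a ∈ Sᶜ ∩ rows 0 m} := by
    intro k
    by_cases hk : k ≤ md m
    · have h2 : A k = fun η => af μ S (ln L D) th z r m y1 y2 (k - md m) (sh a η) := by
        rw [hA]
        funext η
        simp only [if_pos hk]
      rw [h2]
      exact dep_shift (hafd (k - md m)) a
    · have h2 : A k = fun _ => (0 : ℝ) := by
        rw [hA]
        funext η
        simp only [if_neg hk]
      rw [h2]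
      exact fun _ _ _ => rfl
  have hAmean : ∀ k, ∫ η, A k η ∂(law μ) ≤ EE μ m + 2 * (C * EE μ r * C) + 3 := by
    intro k
    have hC : 0 ≤ C := le_trans zero_le_one h.C1
    by_cases hk : k ≤ md m
    · have h1 := af_mean (μ := μ) h S (ln L D) (m := m) hr hw htw hz1 hz2 (k - md m)
      have h2 : A k = fun η => af μ S (ln L D) th z r m y1 y2 (k - md m) (sh a η) := by
        rw [hA]
        funext η
        simp only [if_pos hk]
      rw [h2]
      have h3 := Pool.Agent.W_7d29a1_f21.mp_integral (mp_sh (μ := μ) a)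
        (F := af μ S (ln L D) th z r m y1 y2 (k - md m)) h1.1.1.aestronglyMeasurable
      rw [h3]
      exact h1.2
    · have h2 : A k = fun _ => (0 : ℝ) := by
        rw [hA]
        funext η
        simp only [if_neg hk]
      rw [h2]
      simp only [integral_const, smul_zero]
      positivity
  obtain ⟨hYint, hYmean⟩ := gb_mean (μ := μ) hEM m (F := A) (fun k _ => hAsub k) (d := 2 * (m : ℤ)) (fun k _ =>
    dep_sub (hAdep k) fun p hp => by
      have h1 : p - a ∈ rows 0 m := hp.2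
      have h2 : (p - a).1 = p.1 - m := by rw [ha]; rfl
      have h3 := h1.1
      have h4 := h1.2
      rw [h2] at h3 h4
      exact ⟨by omega, by omega⟩) (fun k _ => hAmean k)
  obtain ⟨Y, hY⟩ : ∃ Y : Env → ℝ, Y = fun η => ∑ k ∈ Finset.Icc (0 : ℤ) m, gb μ η m k * A k η := ⟨_, rfl⟩
  rw [← hY] at hYint
  have hYmean' : ∫ η, Y η ∂(law μ) ≤ EE μ m + 2 * (C * EE μ r * C) + 3 := by rw [hY]; exact hYmean
  have hY0 : ∀ η, 0 ≤ Y η := fun η => by
    rw [hY]
    exact Finset.sum_nonneg fun k _ => mul_nonneg (gb_nonneg η m k) (hA0 k η)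
  have hC0 : 0 < C := lt_of_lt_of_le one_pos h.C1
  have hM1p : 0 < M1 * EE μ m := by
    refine lt_of_lt_of_le ?_ hM1
    positivity
  have hYp := mkv (μ := μ) hYint hY0 hYmean' hM1p
  have hYp' : (law μ).real {η | M1 * EE μ m < Y η} ≤ 1 / 100 := by
    refine hYp.trans ?_
    rw [div_le_iff₀ hM1p]
    linarith
  have mY : Measurable Y := by
    rw [hY]
    exact Finset.measurable_sum _ fun k _ => (measurable_gb m k).mul (hAsub k).1
  -- the events
  obtain ⟨E1, hE1'⟩ : ∃ E1 : Set Env, E1 = {η | 1 / 4 ≤ ∑ k ∈ SL0 m, gb μ η m k} := ⟨_, rfl⟩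
  obtain ⟨E2, hE2'⟩ : ∃ E2 : Set Env, E2 = {η | X μ 0 η 0 m (md m + L) + V μ 0 η 0 m ≤ C3 * EE μ m} := ⟨_, rfl⟩
  obtain ⟨E3, hE3'⟩ : ∃ E3 : Set Env, E3 = {η | Y η ≤ M1 * EE μ m} := ⟨_, rfl⟩
  obtain ⟨E4, hE4'⟩ : ∃ E4 : Set Env, E4 = {η | Real.exp (-(b2 * EE μ r)) ≤ w (sh a η)} := ⟨_, rfl⟩
  obtain ⟨E5, hE5'⟩ : ∃ E5 : Set Env, E5 = {η | Real.exp (-(b3 * EE μ τ)) ≤ P (sh a η)} := ⟨_, rfl⟩
  have mX : Measurable fun η : Env => X μ 0 η 0 m (md m + L) := by
    unfold X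
    exact (Real.measurable_log.comp (measurable_W _ _ _)).neg
  have mE1 : MeasurableSet E1 := by
    rw [hE1']
    exact measurableSet_le measurable_const (Finset.measurable_sum _ fun k _ => measurable_gb m k)
  have mE2 : MeasurableSet E2 := by
    rw [hE2']
    exact measurableSet_le (mX.add (measurable_V _ _)) measurable_const
  have mE3 : MeasurableSet E3 := by rw [hE3']; exact measurableSet_le mY measurable_const
  have mE4 : MeasurableSet E4 := by rw [hE4']; exact measurableSet_le measurable_const (mw.comp hs)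
  have mE5 : MeasurableSet E5 := by rw [hE5']; exact measurableSet_le measurable_const (mP.comp hs)
  obtain ⟨E, hE⟩ : ∃ E : Set Env, E = E1 ∩ (E2 ∩ (E3 ∩ (E4 ∩ E5))) := ⟨_, rfl⟩
  have mE : MeasurableSet E := hE ▸ mE1.inter (mE2.inter (mE3.inter (mE4.inter mE5)))
  -- the probabilities
  have p1 : 1 / 3 ≤ (law μ).real E1 := by rw [hE1']; exact mass_prob (μ := μ) hEM m
  have p2 : (law μ).real E2ᶜ ≤ 1 / 100 := by
    refine le_trans (le_of_eq ?_) hC3
    congr 1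
    rw [hE2']
    ext η
    simp only [Set.mem_compl_iff, Set.mem_ofPred_eq, not_le]
  have p3 : (law μ).real E3ᶜ ≤ 1 / 100 := by
    refine le_trans (le_of_eq ?_) hYp'
    congr 1
    rw [hE3']
    ext η
    simp only [Set.mem_compl_iff, Set.mem_ofPred_eq, not_le]
  have p4 : (law μ).real E4ᶜ ≤ 1 / 100 := by
    refine le_trans (le_of_eq ?_) hP1
    have h1 := real_sh (μ := μ) a (E := {ξ | w ξ < Real.exp (-(b2 * EE μ r))}) (measurableSet_lt mw measurable_const)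
    rw [hwd] at h1
    rw [← h1]
    congr 1
    rw [hE4', hwd]
    ext η
    simp only [Set.mem_compl_iff, Set.mem_ofPred_eq, not_le]
  have p5 : (law μ).real E5ᶜ ≤ 1 / 100 := by
    refine le_trans (le_of_eq ?_) hP2
    have h1 := real_sh (μ := μ) a (E := {ξ | P ξ < Real.exp (-(b3 * EE μ τ))}) (measurableSet_lt mP measurable_const)
    rw [hP] at h1
    rw [← h1]
    congr 1
    rw [hE5', hP]
    ext η
    simp only [Set.mem_compl_iff, Set.mem_ofPred_eq, not_le]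
  have pE : 29 / 100 ≤ (law μ).real E := by
    have hsub : E1 ⊆ E ∪ (E2ᶜ ∪ (E3ᶜ ∪ (E4ᶜ ∪ E5ᶜ))) := by
      intro η hη
      by_cases q2 : η ∈ E2
      · by_cases q3 : η ∈ E3
        · by_cases q4 : η ∈ E4
          · by_cases q5 : η ∈ E5
            · exact Or.inl (by rw [hE]; exact ⟨hη, q2, q3, q4, q5⟩)
            · exact Or.inr (Or.inr (Or.inr (Or.inr q5)))
          · exact Or.inr (Or.inr (Or.inr (Or.inl q4)))
        · exact Or.inr (Or.inr (Or.inl q3))
      · exact Or.inr (Or.inl q2)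
    have u1 := (measureReal_mono hsub (measure_ne_top (law μ) _)).trans (measureReal_union_le _ _)
    have u2 := measureReal_union_le (μ := law μ) E2ᶜ (E3ᶜ ∪ (E4ᶜ ∪ E5ᶜ))
    have u3 := measureReal_union_le (μ := law μ) E3ᶜ (E4ᶜ ∪ E5ᶜ)
    have u4 := measureReal_union_le (μ := law μ) E4ᶜ E5ᶜ
    linarith
  -- the dependence
  obtain ⟨Q, hQ⟩ : ∃ Q : Set Pt, Q = {p : Pt | p - a ∈ S}ᶜ := ⟨_, rfl⟩
  have hrowsQ : rows 0 m ⊆ Q := by
    intro p hp
    rw [hQ]
    intro hpS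
    have h1 := (hSrow _ hpS).1
    have h2 : (p - a).1 = p.1 - m := by rw [ha]; rfl
    rw [h2] at h1
    have h3 := hp.2
    omega
  have hshQ : ∀ {T : Set Pt}, T ⊆ Sᶜ → {p : Pt | p - a ∈ T} ⊆ Q := by
    intro T hT p hp
    rw [hQ]
    exact fun hpS => hT hp hpS
  have dgb : ∀ k, DependsOn (fun η : Env => gb μ η m k) Q := fun k => dep_sub (gb_dep m k) hrowsQ
  have dA : ∀ k, DependsOn (A k) Q := fun k => dep_sub (hAdep k) (hshQ Set.inter_subset_left)
  have dX : DependsOn (fun η : Env => X μ 0 η 0 m (md m + L)) Q := by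
    have h1 : DependsOn (fun η : Env => X μ 0 η 0 m (md m + L)) (rows 0 m) := by
      intro η η' hh
      have h2 : W μ 0 η 0 m (md m + L) = W μ 0 η' 0 m (md m + L) :=
        W_dep_rows (μ := μ) (s := 0) 0 m _ fun x hx => hh x (by simpa using hx)
      show X μ 0 η 0 m (md m + L) = X μ 0 η' 0 m (md m + L)
      unfold X
      rw [h2]
    exact dep_sub h1 hrowsQ
  have dV : DependsOn (fun η : Env => V μ 0 η 0 m) Q := by
    have h1 : DependsOn (fun η : Env => V μ 0 η 0 m) (rows 0 m) := fun η η' hh =>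
      V_dep_rows (μ := μ) (s := 0) 0 m fun x hx => hh x (by simpa using hx)
    exact dep_sub h1 hrowsQ
  have dw : DependsOn (fun η : Env => w (sh a η)) Q := by
    have h1 : DependsOn w Sᶜ := by
      intro η η' hh
      rw [hwd]
      refine W_dep (μ := μ) (s := 0) _ _ _ fun p hp => hh p fun hpS => ?_
      have := hSrow p hpS
      have h2 := hp.2.1
      simp only [zero_add] at h2
      omega
    exact dep_sub (dep_shift h1 a) (hshQ subset_rfl)
  have dP : DependsOn (fun η : Env => P (sh a η)) Q := by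
    have h1 : DependsOn P Sᶜ := by
      intro η η' hh
      rw [hP]
      refine WR_dep (μ := μ) (s := 0) _ _ _ _ fun p hp => hh p fun hpS => ?_
      have h2 := hSl p hpS
      have h3 : p.2 ≤ ln L D p.1 := hp.2
      omega
    exact dep_sub (dep_shift h1 a) (hshQ subset_rfl)
  have hEd : ∀ η η' : Env, (∀ p ∈ {p : Pt | p - a ∈ S}ᶜ, η p = η' p) → (η ∈ E ↔ η' ∈ E) := by
    intro η η' hh
    rw [← hQ] at hh
    have e1 : ∀ k, gb μ η m k = gb μ η' m k := fun k => dgb k hh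
    have e2 : ∀ k, A k η = A k η' := fun k => dA k hh
    have e3 : X μ 0 η 0 m (md m + L) = X μ 0 η' 0 m (md m + L) := dX hh
    have e4 : V μ 0 η 0 m = V μ 0 η' 0 m := dV hh
    have e5 : w (sh a η) = w (sh a η') := dw hh
    have e6 : P (sh a η) = P (sh a η') := dP hh
    rw [hE, hE1', hE2', hE3', hE4', hE5', hY]
    simp only [Set.mem_inter_iff, Set.mem_ofPred_eq, e1, e2, e3, e4, e5, e6]
  -- the strip
  obtain ⟨lG, hlG⟩ : ∃ lG : Env → ℝ, lG = fun η => Real.log (∑ y ∈ Finset.Icc (0 : ℤ) τ, WR μ 0 S η (2 * (r : ℤ), (r : ℤ) + L) τ y) :=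
    ⟨_, rfl⟩
  have mlG : Measurable lG := by
    rw [hlG]
    exact Real.measurable_log.comp (Finset.measurable_sum _ fun y _ => measurable_WR _ _ _ _)
  have hGl : G = {η | K ≤ lG η} := by
    rw [hG, hlG]
    ext η
    rw [Set.mem_ofPred_eq, Set.mem_ofPred_eq, cf_eq_Tu, hS]
  have mG : MeasurableSet G := by rw [hGl]; exact measurableSet_le measurable_const mlG
  have dG : ∀ η η' : Env, (∀ p ∈ S, η p = η' p) → (η ∈ G ↔ η' ∈ G) := by
    intro η η' hh
    rw [hGl, Set.mem_ofPred_eq, Set.mem_ofPred_eq, hlG]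
    have h1 : ∀ y : ℤ, WR μ 0 S η (2 * (r : ℤ), (r : ℤ) + L) τ y = WR μ 0 S η' (2 * (r : ℤ), (r : ℤ) + L) τ y := fun y =>
      WR_dep (μ := μ) (s := 0) S _ τ y fun p hp => hh p hp.2
    simp only [h1]
  obtain ⟨BL, hBL⟩ : ∃ BL : Set Env, BL = {ξ | V μ 0 ξ ((0 : ℤ), L) m < lG ξ +
    V μ 0 ξ ((m : ℤ), ((m / 2 : ℕ) : ℤ)) (m - m) - b * EE μ m} := ⟨_, rfl⟩
  have mBL : MeasurableSet BL := by
    rw [hBL]
    exact measurableSet_lt (measurable_V _ _) ((mlG.add (measurable_V _ _)).sub_const _)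
  have hBLp : (law μ).real (G ∩ BL) ≤ 1 / 100 * (law μ).real G := by
    rw [hBL, hlG, hS]
    exact hluck
  have key := prob_good (μ := μ) a mG mBL mE dG hEd hBLp pE
  obtain ⟨Good, hGood⟩ : ∃ Good : Set Env, Good = {η | sh a η ∈ G} ∩ (E ∩ {η | sh a η ∉ BL}) := ⟨_, rfl⟩
  rw [← hGood] at key
  have mGood : MeasurableSet Good := by
    rw [hGood]
    exact (hs mG).inter (mE.inter (hs mBL).compl)
  -- the gain on the good event
  have hgain : ∀ η ∈ Good, EE μ m ≤ Gp μ η m m := by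
    intro η hη
    rw [hGood] at hη
    obtain ⟨q0, qE, q6⟩ := hη
    rw [hE] at qE
    obtain ⟨q1, q2, q3, q4, q5⟩ := qE
    rw [hE1', Set.mem_ofPred_eq] at q1
    rw [hE2', Set.mem_ofPred_eq] at q2
    rw [hE3', Set.mem_ofPred_eq] at q3
    rw [hE4', Set.mem_ofPred_eq] at q4
    rw [hE5', Set.mem_ofPred_eq] at q5
    rw [hGl, Set.mem_ofPred_eq, Set.mem_ofPred_eq] at q0
    rw [hBL, Set.mem_ofPred_eq, Set.mem_ofPred_eq, not_lt, Nat.sub_self] at q6
    have hV0 : V μ 0 (sh a η) ((m : ℤ), ((m / 2 : ℕ) : ℤ)) 0 = 0 := Pool.Agent.W_7d29a1_F.V_zero _ _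
    rw [hV0] at q6
    have eV : ∀ x : ℤ, V μ 0 (sh a η) ((0 : ℤ), x) m = V μ 0 η ((m : ℤ), md m + x) m := by
      intro x
      rw [V_sh, ha]
      congr 1
      ext
      · show 0 + (m : ℤ) = m
        ring
      · show x + md m = md m + x
        ring
    rw [eV] at q6
    have hwη := hwpos (sh a η)
    have hPη : 0 < P (sh a η) := by rw [hP]; exact hpos _
    have t4 : max (-Real.log (w (sh a η))) 0 ≤ b2 * EE μ r := by
      refine max_le ?_ (mul_nonneg hb2 hEr.le)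
      have := (Real.le_log_iff_exp_le hwη).2 q4
      linarith
    have t5 : max (-Real.log (P (sh a η))) 0 ≤ b3 * EE μ τ := by
      refine max_le ?_ (mul_nonneg hb3 hEτ.le)
      have := (Real.le_log_iff_exp_le hPη).2 q5
      linarith
    have hsep : ∀ k ∈ SL0 m, Real.exp (V μ 0 η ((m : ℤ), k) m) ≤ Real.exp (A k η) +
        Real.exp (V μ 0 η ((m : ℤ), md m + L) m + A k η -
          (th * z - max (-Real.log (w (sh a η))) 0 - max (-Real.log (P (sh a η))) 0 - lo ((r + τ : ℕ) : ℝ))) := by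
      intro k hk
      unfold SL0 at hk
      rw [Finset.mem_filter] at hk
      have h1 := af_sep (μ := μ) (S := S) hline (th := th) (z := z) (r := r) (m := m) (k0 := r + τ) (y1 := y1) (y2 := y2)
        (x := k - md m) (L := L) (sh a η) (by omega) (by omega) hth0 (by omega) (by omega) (by rw [hy1]; unfold ln; omega)
        (fun p hp => by
          have h2 := hSrow p hp
          have h3 := hSl p hp
          push_cast
          omega) (by rw [hy21, hy1]; exact hpos _) (by rw [hy1L]; rw [hwd] at hwη; exact hwη)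
      rw [hy21, hy1L, hy1, ← hy1, eV, eV] at h1
      have e1 : md m + (k - md m) = k := by ring
      rw [e1] at h1
      have e2 : A k η = af μ S (ln L D) th z r m y1 y2 (k - md m) (sh a η) := by
        rw [hA]
        simp only [if_pos hk.2]
      rw [e2, hwd, hP, ← hy1]
      exact h1
    have hL0 : 0 ≤ L := by omega
    have hmd0 := md_nonneg m
    have hmd1 : 2 * md m ≤ m := by unfold md; omega
    have hY2 : ∑ k ∈ SL0 m, gb μ η m k * A k η ≤ M1 * EE μ m := by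
      refine le_trans ?_ q3
      rw [hY]
      exact Finset.sum_le_sum_of_subset_of_nonneg (SL0_sub m) fun k _ _ => mul_nonneg (gb_nonneg η m k) (hA0 k η)
    have hMM : M * EE μ m = 4 * (M1 * EE μ m) + 12 * EE μ m := by rw [hM]; ring
    have hM1E : 0 ≤ M1 * EE μ m := (Finset.sum_nonneg fun k _ => mul_nonneg (gb_nonneg η m k) (hA0 k η)).trans hY2
    have hdet := det_gap (μ := μ) η m m (SL0 m) (SL0_sub m) (L := md m + L) (by omega) (by omega) (a := fun k => A k η)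
      (q := th * z - max (-Real.log (w (sh a η))) 0 - max (-Real.log (P (sh a η))) 0 - lo ((r + τ : ℕ) : ℝ))
      (I := C3 * EE μ m) (M := M * EE μ m) (M1 := M1 * EE μ m) (fun k _ => hA0 k η) q2 hsep (by
        have h1 := hq
        rw [← hz] at h1
        linarith) (by linarith) (by linarith only [hMM, hM1E, hE1]) q1 hY2
    linarith only [hdet, hMM, hE1]
  have hmean := mean_of_gap (μ := μ) hEM m m mGood hEm.le key hgain
  have hG0 : 0 ≤ (law μ).real G := measureReal_nonneg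
  have h1 : EE μ m * (1 / 4 * (law μ).real G) ≤ EE μ m * ((29 / 100 - 1 / 100) * (law μ).real G) := by
    refine mul_le_mul_of_nonneg_left ?_ hEm.le
    linarith only [hG0]
  linarith

end

end Pool.Agent.W_7d29a1_NR
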