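import Pool.Agent.W_7d29a1_AM.Cls5
import Pool.Agent.W_7d29a1_NR.Law84

/-!
Theorem NR for every law: the amplification for logarithms of sums of exponentials of the
environment, from the amplification in the class (helper41).
-/

set_option autoImplicit false

namespace Pool.Agent.W_7d29a1_NR.TrU41

open MeasureTheory ProbabilityTheory Filter Topology Set Pool.Agent.W_MP_7d29a1_pr
  Pool.Agent.W_7d29a1_h46 Pool.Agent.W_7d29a1_h46u Pool.Agent.W_7d29a1_SP
  Pool.Agent.W_7d29a1_AM Pool.Agent.W_7d29a1_NR.L84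

variable {d m : ℕ} {S : Type*} [Fintype S]

/-- the number of the sites -/
noncomputable def Nq (q : S → Fin m → ℕ × Site d) : ℕ := Fintype.card (Iq q)

/-- the numbering of the sites -/
noncomputable def eqq (q : S → Fin m → ℕ × Site d) : Iq q ≃ Fin (Nq q) := Fintype.equivFin _

/-- the values of the environment at the sites -/
noncomputable def prq (q : S → Fin m → ℕ × Site d) (η : Env d) : Fin (Nq q) → ℝ := fun i =>
  η ((eqq q).symm i : ℕ × Site d)

/-- the sites of a term -/
noncomputable def Aq (q : S → Fin m → ℕ × Site d) (s : S) : Finset (Fin (Nq q)) :=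
  Finset.univ.image fun i : Fin m => eqq q ⟨q s i, mem_Iq q s i⟩

lemma sum_Aq {q : S → Fin m → ℕ × Site d} (hq : ∀ s, Function.Injective (q s)) (s : S)
    (η : Env d) : ∑ i ∈ Aq q s, prq q η i = ∑ i, η (q s i) := by
  unfold Aq
  rw [Finset.sum_image]
  · refine Finset.sum_congr rfl fun i _ => ?_
    unfold prq
    rw [Equiv.symm_apply_apply]
  · intro i _ j _ h
    have h1 := (eqq q).injective h
    exact hq s (congrArg Subtype.val h1)

lemma V_prq [Nonempty S] {q : S → Fin m → ℕ × Site d} (hq : ∀ s, Function.Injective (q s))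
    (β : ℝ) (c : S → ℝ) (M : ℝ) (η : Env d) :
    C5.V β (fun s => Real.exp (c s)) (Aq q) M (prq q η) =
      Real.log (1 + Real.exp (LS β c q η - M)) := by
  have hZ : C5.Z β (fun s => Real.exp (c s)) (Aq q) (prq q η) =
      ∑ s, Real.exp (c s + β * ∑ i, η (q s i)) := by
    unfold C5.Z C5.T
    refine Finset.sum_congr rfl fun s _ => ?_
    rw [sum_Aq hq, Real.exp_add]
  unfold C5.V C5.Dn
  rw [hZ, sub_eq_add_neg (LS β c q η), Real.exp_add]
  unfold LS
  rw [Real.exp_log (Finset.sum_pos (fun s _ => Real.exp_pos _) Finset.univ_nonempty)]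

lemma law_prq {ρ : Measure ℝ} [IsProbabilityMeasure ρ] (q : S → Fin m → ℕ × Site d) :
    (law d ρ).map (prq q) = PN ρ (Nq q) := by
  have h1 : (law d ρ).map (Iq q).restrict = Measure.pi fun _ : Iq q => ρ :=
    Measure.infinitePi_map_restrict _
  have h2 := Measure.pi_map_piCongrLeft (eqq q) (β := fun _ => ℝ) (fun _ => ρ)
  have h3 : prq q = (MeasurableEquiv.piCongrLeft (fun _ => ℝ) (eqq q)) ∘
      ((Iq q).restrict (π := fun _ => ℝ)) := by
    funext η i
    obtain ⟨j, rfl⟩ := (eqq q).surjective i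
    show η ((eqq q).symm (eqq q j) : ℕ × Site d) =
      (Equiv.piCongrLeft (fun _ => ℝ) (eqq q)) ((Iq q).restrict η) (eqq q j)
    rw [Equiv.symm_apply_apply, Equiv.piCongrLeft_apply_apply]
    rfl
  have h4 : Measure.map ((MeasurableEquiv.piCongrLeft (fun _ => ℝ) (eqq q)) ∘
      ((Iq q).restrict (π := fun _ => ℝ))) (law d ρ) =
      Measure.map (MeasurableEquiv.piCongrLeft (fun _ => ℝ) (eqq q))
        (Measure.map ((Iq q).restrict (π := fun _ => ℝ)) (law d ρ)) :=
    (Measure.map_map (MeasurableEquiv.measurable _) (Finset.measurable_restrict _)).symm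
  rw [h3, h4, h1]
  exact h2

lemma meas_prq (q : S → Fin m → ℕ × Site d) : Measurable (prq q) := by
  unfold prq
  exact measurable_pi_lambda _ fun i => measurable_pi_apply _

/-- AmpC at one `D`, with its constant. -/
def AmpD (ρ : Measure ℝ) (β D C : ℝ) : Prop := ∀ (N : ℕ) (V : (Fin N → ℝ) → ℝ)
  (p : Fin N → (Fin N → ℝ) → ℝ), Cls β V p → ∀ q s : ℝ, 0 < q → q ≤ 1 / 2 →
    C * (1 + Real.log (1 / q)) ≤ s → q ≤ (PN ρ N).real {y | V y ≤ Real.log 2} →
    q ≤ (PN ρ N).real {y | s ≤ V y} → ∫ y, V y ^ 2 ∂PN ρ N ≤ (s / q) ^ 2 →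
      q ^ C ≤ (PN ρ N).real {y | D * s ≤ V y}

/-- **The amplification for `LS`.** -/
theorem ampLS41 [Nonempty S] {ρ : Measure ℝ} [IsProbabilityMeasure ρ] {β D C : ℝ}
    (hβ : 0 ≤ β) (hA : AmpD ρ β D C) (c : S → ℝ) {q : S → Fin m → ℕ × Site d}
    (hq : ∀ s, Function.Injective (q s)) {r M b : ℝ} (hr : 0 < r) (hr2 : r ≤ 1 / 2)
    (hb : C * (1 + Real.log (1 / r)) ≤ b)
    (h0 : r ≤ (law d ρ).real {η | LS β c q η ≤ M})
    (h1 : r ≤ (law d ρ).real {η | M + b ≤ LS β c q η})
    (h2 : ∫ η, Real.log (1 + Real.exp (LS β c q η - M)) ^ 2 ∂(law d ρ) ≤ (b / r) ^ 2) :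
    r ^ C ≤ (law d ρ).real {η | D * b ≤ Real.log (1 + Real.exp (LS β c q η - M))} := by
  have hc : ∀ s, 0 ≤ (fun s => Real.exp (c s)) s := fun s => (Real.exp_pos _).le
  have mV := (cls5 hβ hc (Aq q) M).meas
  have hV := V_prq (β := β) hq (c := c) (M := M)
  have hlaw : ∀ T : Set ℝ, MeasurableSet T → (PN ρ (Nq q)).real
      {y | C5.V β (fun s => Real.exp (c s)) (Aq q) M y ∈ T} =
      (law d ρ).real {η | Real.log (1 + Real.exp (LS β c q η - M)) ∈ T} := fun T hT => by
    have mS : MeasurableSet {y | C5.V β (fun s => Real.exp (c s)) (Aq q) M y ∈ T} := mV hT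
    rw [← law_prq, map_measureReal_apply (meas_prq q) mS]
    congr 1
    ext η
    show C5.V β (fun s => Real.exp (c s)) (Aq q) M (prq q η) ∈ T ↔
      Real.log (1 + Real.exp (LS β c q η - M)) ∈ T
    rw [hV]
  have e0 := hlaw (Iic (Real.log 2)) measurableSet_Iic
  have e1 := hlaw (Ici b) measurableSet_Ici
  have e2 := hlaw (Ici (D * b)) measurableSet_Ici
  simp only [mem_Iic, mem_Ici] at e0 e1 e2
  have key := hA (Nq q) (C5.V β (fun s => Real.exp (c s)) (Aq q) M)
    (C5.P β (fun s => Real.exp (c s)) (Aq q) M) (cls5 hβ hc (Aq q) M) r b hr hr2 hb ?_ ?_ ?_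
  · rwa [e2] at key
  · rw [e0]
    refine h0.trans (measureReal_mono fun η (hη : LS β c q η ≤ M) => ?_)
    show Real.log (1 + Real.exp (LS β c q η - M)) ≤ Real.log 2
    apply Real.log_le_log (by positivity)
    have : Real.exp (LS β c q η - M) ≤ 1 := Real.exp_le_one_iff.2 (by linarith)
    linarith
  · rw [e1]
    refine h1.trans (measureReal_mono fun η (hη : M + b ≤ LS β c q η) => ?_)
    show b ≤ Real.log (1 + Real.exp (LS β c q η - M))
    rw [Real.le_log_iff_exp_le (by positivity)]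
    have : Real.exp b ≤ Real.exp (LS β c q η - M) := Real.exp_le_exp.2 (by linarith)
    linarith
  · have h3 : ∫ y, C5.V β (fun s => Real.exp (c s)) (Aq q) M y ^ 2 ∂PN ρ (Nq q) =
        ∫ η, Real.log (1 + Real.exp (LS β c q η - M)) ^ 2 ∂(law d ρ) := by
      rw [← law_prq, integral_map (meas_prq q).aemeasurable
        ((mV.pow_const 2).aestronglyMeasurable)]
      simp only [hV]
    rw [h3]
    exact h2

lemma qW_inj (k m : ℕ) (D : Finset (Site d)) (z : {y // y ∈ D} × (Fin m → Step d)) :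
    Function.Injective (qW k m D z) := fun i j h => by
  have h1 : (i : ℕ) + 1 + k = (j : ℕ) + 1 + k := congrArg Prod.fst h
  exact Fin.ext (by omega)

end Pool.Agent.W_7d29a1_NR.TrU41
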